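import Pool.Agent.H15.Lev.Sphere

/-! Fixed vectors of an involution of a soft complex; mapping cones with rational coefficients. -/

set_option autoImplicit false

namespace Pool.Agent.H15.Lev

open Set Topology Pool.Agent.Helper775.Tight Pool.Agent.Helper775.Tight.SoftCx

section fix

variable {Y K : Type*} [TopologicalSpace Y] [AddCommGroup K] [Module ℚ K]

/-- the subgroups of a soft complex are rational subspaces -/
def Rat (C : SoftCx Y K) : Prop := ∀ z n (r : ℚ) k, k ∈ C.N z n → r • k ∈ C.N z n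

theorem D_smul (C : SoftCx Y K) (r : ℚ) (k : K) : C.D (r • k) = r • C.D k :=
  map_rat_smul C.D r k

theorem Rat.cob {C : SoftCx Y K} (h : Rat C) {Z : Set Y} {n : ℕ} {k : K} (r : ℚ)
    (hk : C.Cob Z n k) : C.Cob Z n (r • k) := by
  obtain ⟨b, hb⟩ := hk
  refine ⟨r • b, fun z hz => ?_⟩
  rw [D_smul, ← smul_sub]
  exact h z n r _ (hb z hz)

theorem Rat.coc {C : SoftCx Y K} (h : Rat C) {Z : Set Y} {n : ℕ} {k : K} (r : ℚ)
    (hk : C.Coc Z n k) : C.Coc Z n (r • k) := by
  intro z hz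
  rw [D_smul]
  exact h z _ r _ (hk z hz)

/-- an involution of a soft complex over the identity of the base -/
structure Invol (C : SoftCx Y K) (T : K →ₗ[ℚ] K) : Prop where
  inv : ∀ k, T (T k) = k
  comm : ∀ k, C.D (T k) = T (C.D k)
  mem : ∀ z n k, k ∈ C.N z n → T k ∈ C.N z n
  rat : Rat C

/-- fixed vectors -/
def fixS (T : K →ₗ[ℚ] K) : Submodule ℚ K := LinearMap.eqLocus T LinearMap.id

theorem mem_fixS {T : K →ₗ[ℚ] K} {k : K} : k ∈ fixS T ↔ T k = k := Iff.rfl

/-- averaging -/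
noncomputable def av (C : SoftCx Y K) {T : K →ₗ[ℚ] K} (h : Invol C T) (k : K) : fixS T :=
  ⟨(1 / 2 : ℚ) • (k + T k), by
    rw [mem_fixS, map_smul, map_add, h.inv, add_comm]⟩

/-- the soft complex of fixed vectors. -/
def fix (C : SoftCx Y K) {T : K →ₗ[ℚ] K} (h : Invol C T) : SoftCx Y (fixS T) where
  D := AddMonoidHom.mk' (fun k => ⟨C.D k.1, by
    rw [mem_fixS, ← h.comm, mem_fixS.1 k.2]⟩) (fun a b => Subtype.ext (by
      show C.D (a.1 + b.1) = C.D a.1 + C.D b.1
      exact map_add _ _ _))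
  N z n := (C.N z n).comap (fixS T).subtype.toAddMonoidHom
  N_zero z k := C.N_zero z k.1
  D_mem z n k hk := C.D_mem z n k.1 hk
  DD_mem z n k := C.DD_mem z n k.1
  isOpen_N n k := C.isOpen_N n k.1
  soft n k Z₁ Z₂ h₁ h₂ hk := by
    obtain ⟨k₁, a1, a2⟩ := C.soft n k.1 Z₁ Z₂ h₁ h₂ hk
    refine ⟨av C h k₁, fun z hz => ?_, fun z hz => ?_⟩
    · exact h.rat z n _ _ (add_mem (a1 z hz) (h.mem z n _ (a1 z hz)))
    · have e := h.rat z n (1 / 2) _ (add_mem (a2 z hz) (h.mem z n _ (a2 z hz)))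
      show k.1 - (1 / 2 : ℚ) • (k₁ + T k₁) ∈ C.N z n
      convert e using 1
      rw [map_sub, mem_fixS.1 k.2]
      module

variable {C : SoftCx Y K} {T : K →ₗ[ℚ] K} (h : Invol C T)

@[simp] theorem fix_D (k : fixS T) : ((fix C h).D k : K) = C.D k.1 := rfl

theorem fix_N (z : Y) (n : ℕ) (k : fixS T) : k ∈ (fix C h).N z n ↔ k.1 ∈ C.N z n := Iff.rfl

theorem fix_rat : Rat (fix C h) := fun z n r k hk => h.rat z n r k.1 hk

theorem fix_coc (Z : Set Y) (n : ℕ) (k : fixS T) : (fix C h).Coc Z n k ↔ C.Coc Z n k.1 := Iff.rfl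

theorem fix_cob (Z : Set Y) (n : ℕ) (k : fixS T) : (fix C h).Cob Z n k ↔ C.Cob Z n k.1 := by
  constructor
  · rintro ⟨b, hb⟩
    exact ⟨b.1, hb⟩
  · rintro ⟨b, hb⟩
    refine ⟨av C h b, fun z hz => ?_⟩
    have e := h.rat z n (1 / 2) _ (add_mem (hb z hz) (h.mem z n _ (hb z hz)))
    show k.1 - C.D ((1 / 2 : ℚ) • (b + T b)) ∈ C.N z n
    convert e using 1
    rw [map_sub, mem_fixS.1 k.2, D_smul, map_add, h.comm]
    module

theorem fix_ex (Z : Set Y) (n : ℕ) (hE : C.Ex Z n) : (fix C h).Ex Z n := fun k hk =>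
  (fix_cob h Z n k).2 (hE k.1 hk)

/-- if the involution acts by `-1` then there are no invariant classes. -/
theorem fix_ex_of_neg (Z : Set Y) (n : ℕ)
    (hE : ∀ k, C.Coc Z n k → C.Cob Z n (T k + k)) : (fix C h).Ex Z n := by
  intro k hk
  rw [fix_cob]
  have h1 := hE k.1 hk
  rw [mem_fixS.1 k.2] at h1
  have h2 := h.rat.cob (1 / 2) h1
  convert h2 using 1
  module

end fix

section cone

variable {Y K K' : Type*} [TopologicalSpace Y] [AddCommGroup K] [AddCommGroup K']
  [Module ℚ K] [Module ℚ K'] {M : SoftCx Y K} {F : SoftCx Y K'}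

theorem cone_rat (φ : Mor M F) (hM : Rat M) (hF : Rat F) : Rat (cone φ) := by
  intro z n r k hk
  rw [cone_N] at hk ⊢
  exact ⟨hM z n r _ hk.1, hF z _ r _ hk.2⟩

/-- pointwise exactness of a cone -/
theorem cone_ex_at (φ : Mor M F) (one : K) (w : Y) (hone : M.D one ∈ M.N w 2)
    (hM : AcyQ M one {w}) (hMr : Rat M) (hFr : Rat F) (hF0 : φ.f one ∉ F.N w 1)
    (hF1 : Conn F (φ.f one) {w}) (n : ℕ) (hFn : 3 ≤ n → F.Ex {w} (n - 1)) :
    (cone φ).Ex {w} n := by
  obtain ⟨-, hM1, hM2⟩ := hM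
  rintro ⟨e, f⟩ hk
  have hk' := hk w rfl
  rw [cone_D, cone_N] at hk'
  obtain ⟨he, hf⟩ := hk'
  simp only [add_tsub_cancel_right] at he hf
  rcases n with _ | _ | n
  · exact cob_index_zero _ _
  · obtain ⟨r, h1⟩ := hM1 e (by intro z hz; rw [mem_singleton_iff.1 hz]; exact he)
    have h1 := h1 w rfl
    have h2 := φ.mem w 1 _ h1
    have h3 := F.D_mem w 0 f (F.N_zero w f)
    have h4 := add_mem hf h3
    rw [map_sub, map_rat_smul φ.f r one] at h2
    have h5 := sub_mem h4 h2
    have e1 : φ.f e - F.D f + F.D f - (φ.f e - r • φ.f one) = r • φ.f one := by abel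
    rw [e1] at h5
    have hr : r = 0 := by
      by_contra hr
      apply hF0
      have := hFr w 1 r⁻¹ _ h5
      rwa [smul_smul, inv_mul_cancel₀ hr, one_smul] at this
    rw [hr, zero_smul, sub_zero] at h1
    exact Cob.of_mem fun z hz => by
      rw [mem_singleton_iff.1 hz]; exact ⟨h1, F.N_zero _ _⟩
  · obtain ⟨e', he'⟩ := hM2 (n + 2) (by omega) e
      (by intro z hz; rw [mem_singleton_iff.1 hz]; exact he)
    have he'' := he' w rfl
    have hg : F.Coc {w} (n + 1) (f - φ.f e') := by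
      intro z hz
      rw [mem_singleton_iff.1 hz]
      have h1 := φ.mem w (n + 2) _ he''
      have h2 := φ.comm w (n + 2) e'
      rw [map_sub] at h1
      have h3 := neg_mem (add_mem (add_mem hf (neg_mem h1)) h2)
      convert h3 using 1
      rw [map_sub]; abel
    rcases Nat.eq_zero_or_pos n with rfl | hn
    · obtain ⟨r, h1⟩ := hF1 _ hg
      have h1 := h1 w rfl
      refine ⟨(e' + r • one, 0), fun z hz => ?_⟩
      rw [mem_singleton_iff.1 hz, cone_D, cone_N]
      refine ⟨?_, ?_⟩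
      · have := sub_mem he'' (hMr w 2 r _ hone)
        simp only [Prod.fst_sub, map_add] at this ⊢
        rw [map_rat_smul M.D r one]
        convert this using 1
        abel
      · simp only [Prod.snd_sub, map_add, map_zero]
        rw [map_rat_smul φ.f r one]
        convert h1 using 1
        abel
    · obtain ⟨g', hg'⟩ := hFn (by omega) _ hg
      refine ⟨(e', -g'), fun z hz => ?_⟩
      rw [mem_singleton_iff.1 hz, cone_D, cone_N]
      refine ⟨he'', ?_⟩
      have : f - φ.f e' - F.D g' ∈ F.N w (n + 1) := hg' w rfl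
      change f - (φ.f e' - F.D (-g')) ∈ F.N w (n + 1)
      rw [map_neg]
      convert this using 1
      abel

/-- a cone cocycle whose first component is a coboundary reduces to its second component. -/
theorem cone_reduce (φ : Mor M F) {Z : Set Y} {n : ℕ} {a a' : K} {b : K'}
    (hk : (cone φ).Coc Z (n + 1) (a, b)) (ha : ∀ z ∈ Z, a - M.D a' ∈ M.N z (n + 1)) :
    F.Coc Z n (b - φ.f a') ∧
      (cone φ).Cob Z (n + 1) ((a, b) - ((0 : K), b - φ.f a')) := by
  constructor
  · intro z hz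
    have hk' := (hk z hz).2
    change φ.f a - F.D b ∈ F.N z (n + 1) at hk'
    have h1 := φ.mem z (n + 1) _ (ha z hz)
    have h2 := φ.comm z (n + 1) a'
    rw [map_sub] at h1
    have h3 := neg_mem (add_mem (sub_mem hk' h1) h2)
    convert h3 using 1
    rw [map_sub]; abel
  · refine ⟨(a', 0), fun z hz => ?_⟩
    rw [cone_D, cone_N]
    refine ⟨?_, ?_⟩
    · simpa using ha z hz
    · simp only [Prod.snd_sub, map_zero, sub_zero, Nat.add_sub_cancel]
      have : b - (b - φ.f a') - φ.f a' = 0 := by abel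
      rw [this]
      exact zero_mem _

theorem cone_cob_zero (φ : Mor M F) {Z : Set Y} {n : ℕ} {b : K'} (hb : F.Cob Z n b) :
    (cone φ).Cob Z (n + 1) ((0 : K), b) := by
  obtain ⟨b', hb'⟩ := hb
  refine ⟨(0, -b'), fun z hz => ?_⟩
  rw [cone_D, cone_N]
  refine ⟨?_, ?_⟩
  · simp
  · simpa using hb' z hz

/-- exactness of a cone from exactness of its parts -/
theorem cone_ex_of (φ : Mor M F) {Z : Set Y} {n : ℕ} (hM : M.Ex Z (n + 1)) (hF : F.Ex Z n) :
    (cone φ).Ex Z (n + 1) := by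
  rintro ⟨a, b⟩ hk
  obtain ⟨a', ha'⟩ := hM a (fun z hz => (hk z hz).1)
  obtain ⟨h1, h2⟩ := cone_reduce φ hk ha'
  have := h2.add (cone_cob_zero φ (hF _ h1))
  simpa using this

/-- a cone cocycle whose first component is a coboundary is a coboundary if `F` is exact. -/
theorem cone_cob_of (φ : Mor M F) {Z : Set Y} {n : ℕ} (hF : F.Ex Z n) {k : K × K'}
    (hk : (cone φ).Coc Z (n + 1) k) (ha : M.Cob Z (n + 1) k.1) : (cone φ).Cob Z (n + 1) k := by
  obtain ⟨a', ha'⟩ := ha
  obtain ⟨a, b⟩ := k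
  obtain ⟨h1, h2⟩ := cone_reduce φ hk ha'
  have := h2.add (cone_cob_zero φ (hF _ h1))
  simpa using this

/-- the rank of the cohomology of a cone at a point. -/
theorem cone_rank (φ : Mor M F) (hr : Rat (cone φ)) {Z : Set Y} {n : ℕ}
    (hM : M.Ex Z (n + 1))
    (hF : ∀ b b', F.Coc Z n b → F.Coc Z n b' → ¬ F.Cob Z n b → ∃ r : ℚ, F.Cob Z n (b' - r • b))
    {k k' : K × K'} (hk : (cone φ).Coc Z (n + 1) k) (hk' : (cone φ).Coc Z (n + 1) k')
    (hnk : ¬ (cone φ).Cob Z (n + 1) k) : ∃ r : ℚ, (cone φ).Cob Z (n + 1) (k' - r • k) := by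
  obtain ⟨a, b⟩ := k
  obtain ⟨c, d⟩ := k'
  obtain ⟨a', ha'⟩ := hM a (fun z hz => (hk z hz).1)
  obtain ⟨c', hc'⟩ := hM c (fun z hz => (hk' z hz).1)
  obtain ⟨h1, h2⟩ := cone_reduce φ hk ha'
  obtain ⟨h3, h4⟩ := cone_reduce φ hk' hc'
  obtain ⟨r, hr'⟩ := hF _ _ h1 h3 (by
    intro hb
    apply hnk
    have := h2.add (cone_cob_zero φ hb)
    simpa using this)
  refine ⟨r, ?_⟩
  have h5 := (h4.add (cone_cob_zero φ hr')).sub (hr.cob r h2)
  convert h5 using 1
  ext1
  · simp
  · simp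
    module

end cone

section mor

variable {X Y : Type*} [MetricSpace X] [MetricSpace Y] (p : X → Y) (hp : Continuous p)
  (G : Set X) (hG : IsCompact G)

/-- the push-forward of Alexander-Spanier germs along `p` restricted to `G`. -/
noncomputable abbrev PF : SoftCx Y (Ch X) := SoftCx.push (AS X) p hp G hG

theorem AS_rat : Rat (AS X) := fun _ _ r _ h => smul_mem_Nz r h

theorem PF_rat : Rat (PF p hp G hG) := by
  intro z n r k hk
  rw [mem_push_N] at hk ⊢
  exact fun x hx => smul_mem_Nz r (hk x hx)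

/-- pullback along `p`. -/
noncomputable def phi : SoftCx.Mor (AS Y) (PF p hp G hG) where
  f := PB p
  mem z n k hk := by
    rw [SoftCx.mem_push_N]
    intro x hx
    have e : p x = z := hx.2
    rw [PB_apply, AS_N]
    rw [AS_N, ← e] at hk
    exact pb_mem_Nz hp.continuousAt hk
  comm z n k := by
    have : (PF p hp G hG).D (PB p k) - PB p ((AS Y).D k) = 0 := by
      change dd (pb p k) - pb p (dd k) = 0
      rw [dd_pb, sub_self]
    rw [this]; exact zero_mem _

@[simp] theorem phi_f (c : Ch Y) : (phi p hp G hG).f c = pb p c := rfl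

/-- pullback as a linear map. -/
def PBl (g : X → X) : Ch X →ₗ[ℚ] Ch X where
  toFun := pb g
  map_add' _ _ := rfl
  map_smul' _ _ := rfl

@[simp] theorem PBl_apply (g : X → X) (c : Ch X) : PBl g c = pb g c := rfl

variable {p hp G hG}

/-- an involution of the total space over the identity of the base. -/
theorem invol_of {ν : X → X} (hν : Continuous ν) (hνν : ∀ x, ν (ν x) = x) (hpν : ∀ x, p (ν x) = p x)
    (hGν : ∀ x ∈ G, ν x ∈ G) : Invol (PF p hp G hG) (PBl ν) where
  inv k := by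
    rw [PBl_apply, PBl_apply, pb_pb]
    have : (fun x => ν (ν x)) = fun x => x := funext hνν
    rw [this, pb_id]
  comm k := dd_pb ν k
  mem z n k hk := by
    rw [mem_push_N] at hk ⊢
    intro x hx
    exact pb_mem_Nz hν.continuousAt (hk (ν x) ⟨hGν x hx.1, by
      show p (ν x) = z
      rw [hpν]; exact hx.2⟩)
  rat := PF_rat p hp G hG

/-- pullback as a morphism to the invariant cochains. -/
noncomputable def phiI {ν : X → X} (hI : Invol (PF p hp G hG) (PBl ν))
    (hpν : ∀ x, p (ν x) = p x) : SoftCx.Mor (AS Y) (fix (PF p hp G hG) hI) where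
  f := AddMonoidHom.mk' (fun c => ⟨pb p c, by
    rw [mem_fixS, PBl_apply, pb_pb]
    have : (fun x => p (ν x)) = p := funext hpν
    rw [this]⟩) (fun _ _ => rfl)
  mem z n k hk := (phi p hp G hG).mem z n k hk
  comm z n k := (phi p hp G hG).comm z n k

@[simp] theorem phiI_f {ν : X → X} (hI : Invol (PF p hp G hG) (PBl ν))
    (hpν : ∀ x, p (ν x) = p x) (c : Ch Y) : ((phiI hI hpν).f c : Ch X) = pb p c := rfl

end mor

end Pool.Agent.H15.Lev
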