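import Pool.Agent.H15.Lev.Fib

/-! The degree function on frames of nonnegative directions. -/

set_option autoImplicit false

namespace Pool.Agent.H15.Lev

open Set Topology Pool.Agent.Helper775.Tight Pool.Agent.Helper775.Tight.SoftCx

/-- the vector of `E 10` with the complex coordinates `Lin L u` -/
noncomputable def ZL (L : Fin 6 → Fin 5 → ℂ) (u : E 6) : E 10 := toC.symm (Lin L (fun i => u i))

/-- the map of the sphere into the fibre given by a frame. -/
noncomputable def gL (w : E 7) (L : Fin 6 → Fin 5 → ℂ) (u : E 6) : E 7 × E 10 :=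
  (w, ‖ZL L u‖⁻¹ • ZL L u)

theorem ZL_continuous : Continuous fun p : (Fin 6 → Fin 5 → ℂ) × E 6 => ZL p.1 p.2 := by
  have h1 : Continuous fun u : Fin 5 → ℂ => toC.symm u :=
    LinearMap.continuous_of_finiteDimensional toC.symm.toLinearMap
  refine h1.comp (continuous_pi fun k => ?_)
  unfold Lin
  refine continuous_finsetSum _ fun j _ => ?_
  refine (Complex.continuous_ofReal.comp (by fun_prop)).mul ?_
  exact (continuous_apply k).comp ((continuous_apply j).comp continuous_fst)

theorem ZL_ne {S : Fin 7 → Matrix (Fin 5) (Fin 5) ℂ} {w : E 7} {L : Fin 6 → Fin 5 → ℂ}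
    (h : Good S w L) {u : E 6} (hu : u ∈ Sp 6 6) : ZL L u ≠ 0 := by
  intro h0
  have h1 : Lin L (fun i => u i) = 0 := by
    have := congrArg toC h0
    rw [map_zero] at this
    rw [ZL, LinearEquiv.apply_symm_apply] at this
    exact this
  refine h.2.1 (fun i => u i) ?_ h1
  intro h2
  have : u = 0 := by
    ext i
    exact congrFun h2 i
  have h3 := hu.1
  rw [this, norm_zero] at h3
  exact zero_ne_one h3

theorem gL_continuousAt {w : E 7} {L : Fin 6 → Fin 5 → ℂ} {u : E 6} (h : ZL L u ≠ 0) :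
    ContinuousAt (fun p : (E 7 × (Fin 6 → Fin 5 → ℂ)) × E 6 => gL p.1.1 p.1.2 p.2) ((w, L), u) := by
  have h1 : Continuous fun p : (E 7 × (Fin 6 → Fin 5 → ℂ)) × E 6 => ZL p.1.2 p.2 :=
    ZL_continuous.comp ((continuous_snd.comp continuous_fst).prodMk continuous_snd)
  exact (continuous_fst.comp continuous_fst).continuousAt.prodMk
    ((h1.norm.continuousAt.inv₀ (norm_ne_zero_iff.2 h)).smul h1.continuousAt)

theorem gL_continuousAt' {w : E 7} {L : Fin 6 → Fin 5 → ℂ} {u : E 6} (h : ZL L u ≠ 0) :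
    ContinuousAt (gL w L) u := by
  have h2 : ContinuousAt (fun y : E 6 => ((w, L), y)) u := by fun_prop
  exact ContinuousAt.comp (x := u) (f := fun y : E 6 => ((w, L), y))
    (g := fun p : (E 7 × (Fin 6 → Fin 5 → ℂ)) × E 6 => gL p.1.1 p.1.2 p.2) (gL_continuousAt h) h2

theorem qf_smul_real (R : Matrix (Fin 5) (Fin 5) ℂ) (r : ℝ) (z : E 10) :
    qf R (toC (r • z)) = r ^ 2 * qf R (toC z) := by
  rw [← bf_self, ← bf_self, map_smul, map_smul, LinearMap.smul_apply, smul_eq_mul, smul_eq_mul]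
  ring

theorem gL_mem {S : Fin 7 → Matrix (Fin 5) (Fin 5) ℂ} {w : E 7} {L : Fin 6 → Fin 5 → ℂ}
    (h : Good S w L) {u : E 6} (hu : u ∈ Sp 6 6) : gL w L u ∈ Fw S w := by
  have h0 := ZL_ne h hu
  refine ⟨⟨mem_Sp.2 h.1, mem_Sp.2 ?_, ?_⟩, rfl⟩
  · show ‖‖ZL L u‖⁻¹ • ZL L u‖ = 1
    rw [norm_smul, norm_inv, norm_norm, inv_mul_cancel₀ (norm_ne_zero_iff.2 h0)]
  · show 0 ≤ qf (Sw S w) (toC (‖ZL L u‖⁻¹ • ZL L u))
    rw [qf_smul_real]
    refine mul_nonneg (sq_nonneg _) ?_
    rw [ZL, LinearEquiv.apply_symm_apply]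
    exact h.2.2 _

/-- value of the coboundary on a constant list of length seven -/
theorem d_replicate {Ω : Type*} (c : Ch Ω) (x : Ω) :
    dd c (List.replicate 7 x) = c (List.replicate 6 x) := by
  rw [dd_apply (by simp)]
  simp only [List.replicate, d_cons, d_nil]
  ring

theorem eval_const {w : E 7} {c β : Ch (E 7)} (h : c - dd β ∈ Nz w 7) :
    c (List.replicate 7 w) = β (List.replicate 6 w) := by
  obtain ⟨W, hW, hwW, h1⟩ := exists_of_mem_Nz (by norm_num) h
  have h2 := h1 (List.replicate 7 w) (by simp) (fun x hx => by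
    rw [List.eq_of_mem_replicate hx]; exact hwW)
  rw [Pi.sub_apply, d_replicate] at h2
  linarith

/-- the normalised pullback of a cochain -/
noncomputable def om (c : Ch (E 7)) (η : Ch (E 7 × E 10)) (w : E 7) (L : Fin 6 → Fin 5 → ℂ) :
    Ch (E 6) := pb (gL w L) η - c (List.replicate 7 w) • one

theorem pb_gL_fst (w : E 7) (L : Fin 6 → Fin 5 → ℂ) (β : Ch (E 7)) (x : E 6) :
    pb (gL w L) (pb Prod.fst β) - β (List.replicate 6 w) • one ∈ Nz x 6 := by
  refine mem_Nz_of Filter.univ_mem fun l hl _ => ?_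
  rw [Pi.sub_apply, pb_pb]
  have e : (fun x : E 6 => (gL w L x).1) = fun _ => w := rfl
  simp only [e, pb, Pi.smul_apply, one, smul_eq_mul, mul_one]
  rw [List.map_const', hl]
  exact sub_self _

/-- local form of `om` -/
theorem om_local {c β : Ch (E 7)} (η : Ch (E 7 × E 10)) {w : E 7} (h : c - dd β ∈ Nz w 7)
    (L : Fin 6 → Fin 5 → ℂ) (x : E 6) :
    om c η w L - pb (gL w L) (η - pb Prod.fst β) ∈ Nz x 6 := by
  have := pb_gL_fst w L β x
  rw [om, eval_const h, pb_sub]
  convert this using 1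
  abel

/-- hypotheses on the cochains -/
structure Coch (S : Fin 7 → Matrix (Fin 5) (Fin 5) ℂ) (c : Ch (E 7)) (η : Ch (E 7 × E 10))
    (a : Ch (E 7)) (b : Ch (E 7 × E 10)) : Prop where
  symmS : ∀ j, (S j).transpose = S j
  coc : (AS (E 7)).Coc (Sp 7 7) 7 c
  prim : ∀ x ∈ BB S, pb Prod.fst c - dd η ∈ Nz x 7
  sc : ∀ w ∈ Sp 7 7, pb (fun x => -x) c + c - dd a ∈ Nz w 7
  se : ∀ x ∈ BB S, pb TT η + η - (pb Prod.fst a - dd b) ∈ Nz x 6

variable {S : Fin 7 → Matrix (Fin 5) (Fin 5) ℂ} {c : Ch (E 7)} {η : Ch (E 7 × E 10)}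
    {a : Ch (E 7)} {b : Ch (E 7 × E 10)}

theorem exists_prim (hc : (AS (E 7)).Coc (Sp 7 7) 7 c) {w : E 7} (hw : w ∈ Sp 7 7) :
    ∃ β, c - dd β ∈ Nz w 7 := by
  obtain ⟨β, hβ⟩ := (acy_singleton w).2.2 7 (by norm_num) c (hc.mono (singleton_subset_iff.2 hw))
  exact ⟨β, hβ w rfl⟩

theorem Coch.loc_coc (h : Coch S c η a b) {w : E 7} {β : Ch (E 7)} (hβ : c - dd β ∈ Nz w 7)
    {x : E 7 × E 10} (hx : x ∈ Fw S w) : dd (η - pb Prod.fst β) ∈ Nz x 7 := by
  have h1 := h.prim x hx.1
  have e : x.1 = w := hx.2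
  have h2 : pb Prod.fst (c - dd β) ∈ Nz x 7 := by
    refine pb_mem_Nz continuous_fst.continuousAt ?_
    rw [e]; exact hβ
  have h3 := sub_mem h2 h1
  convert h3 using 1
  rw [dd_sub, dd_pb, pb_sub]
  abel

theorem Coch.om_coc (h : Coch S c η a b) {w : E 7} {L : Fin 6 → Fin 5 → ℂ} (hG : Good S w L) :
    (AS (E 6)).Coc (Sp 6 6) 6 (om c η w L) := by
  obtain ⟨β, hβ⟩ := exists_prim h.coc (mem_Sp.2 hG.1)
  intro u hu
  have h1 : (AS (E 6)).D (pb (gL w L) (η - pb Prod.fst β)) ∈ (AS (E 6)).N u 7 := by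
    rw [AS_D, dd_pb]
    exact pb_mem_Nz (gL_continuousAt' (ZL_ne hG hu)) (h.loc_coc hβ (gL_mem hG hu))
  have h2 := (AS (E 6)).D_mem u 6 _ (om_local η hβ L u)
  have h3 := add_mem h2 h1
  rw [map_sub] at h3
  simpa using h3

open Classical in
/-- the degree -/
noncomputable def dg (σ : Ch (E 6)) (c : Ch (E 7)) (η : Ch (E 7 × E 10)) (w : E 7)
    (L : Fin 6 → Fin 5 → ℂ) : ℚ :=
  if h : ∃ r : ℚ, (AS (E 6)).Cob (Sp 6 6) 6 (om c η w L - r • σ) then h.choose else 0

variable {σ : Ch (E 6)}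

/-- a generator of the top cohomology of the five-sphere -/
structure Top5 (σ : Ch (E 6)) : Prop where
  coc : (AS (E 6)).Coc (Sp 6 6) 6 σ
  ncob : ¬ (AS (E 6)).Cob (Sp 6 6) 6 σ
  rank : ∀ c', (AS (E 6)).Coc (Sp 6 6) 6 c' → ∃ r : ℚ, (AS (E 6)).Cob (Sp 6 6) 6 (c' - r • σ)

theorem Top5.unique (hσ : Top5 σ) {k : Ch (E 6)} {r s : ℚ}
    (h : (AS (E 6)).Cob (Sp 6 6) 6 (k - r • σ)) (h' : (AS (E 6)).Cob (Sp 6 6) 6 (k - s • σ)) :
    r = s := by
  by_contra hrs
  apply hσ.ncob
  have h1 := Cob_smul (s - r)⁻¹ (h.sub h')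
  have hne : (s - r) ≠ 0 := fun h => hrs (by linarith)
  convert h1 using 1
  have e1 : k - r • σ - (k - s • σ) = (s - r) • σ := by
    rw [sub_smul]; abel
  rw [e1, smul_smul, inv_mul_cancel₀ hne, one_smul]

theorem dg_spec (h : Coch S c η a b) (hσ : Top5 σ) {w : E 7} {L : Fin 6 → Fin 5 → ℂ}
    (hG : Good S w L) : (AS (E 6)).Cob (Sp 6 6) 6 (om c η w L - dg σ c η w L • σ) := by
  have h1 := hσ.rank _ (h.om_coc hG)
  rw [dg, dif_pos h1]
  exact h1.choose_spec

theorem dg_eq (h : Coch S c η a b) (hσ : Top5 σ) {w : E 7} {L : Fin 6 → Fin 5 → ℂ}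
    (hG : Good S w L) {r : ℚ} (hr : (AS (E 6)).Cob (Sp 6 6) 6 (om c η w L - r • σ)) :
    dg σ c η w L = r := hσ.unique (dg_spec h hσ hG) hr

theorem Lin_refl (L : Fin 6 → Fin 5 → ℂ) (i : Fin 6) (u : E 6) :
    Lin (fun j => if j = i then - L j else L j) (fun j => u j) = Lin L (fun j => refl i u j) := by
  funext k
  unfold Lin
  refine Finset.sum_congr rfl fun j _ => ?_
  beta_reduce
  rw [refl_apply]
  by_cases hj : j = i
  · rw [if_pos hj, if_pos hj]
    push_cast
    rw [Pi.neg_apply]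
    ring
  · rw [if_neg hj, if_neg hj]

theorem Lin_I (L : Fin 6 → Fin 5 → ℂ) (u : Fin 6 → ℝ) :
    Lin (fun j => Complex.I • L j) u = Complex.I • Lin L u := by
  funext k
  unfold Lin
  rw [Pi.smul_apply, smul_eq_mul, Finset.mul_sum]
  refine Finset.sum_congr rfl fun j _ => ?_
  beta_reduce
  rw [Pi.smul_apply, smul_eq_mul]
  ring

theorem ZL_I (L : Fin 6 → Fin 5 → ℂ) (u : E 6) :
    ZL (fun j => Complex.I • L j) u = JJ (ZL L u) := by
  rw [ZL, Lin_I, JJ_apply, ZL, LinearEquiv.apply_symm_apply]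

theorem gL_I (w : E 7) (L : Fin 6 → Fin 5 → ℂ) (u : E 6) :
    gL (-w) (fun j => Complex.I • L j) u = TT (gL w L u) := by
  rw [gL, gL, TT, ZL_I, JJ_norm, map_smul]

theorem Good_refl {w : E 7} {L : Fin 6 → Fin 5 → ℂ} (hG : Good S w L) (i : Fin 6) :
    Good S w (fun j => if j = i then - L j else L j) := by
  have key : ∀ u : Fin 6 → ℝ, Lin (fun j => if j = i then - L j else L j) u =
      Lin L (fun j => if j = i then - u j else u j) := by
    intro u
    funext k
    unfold Lin
    refine Finset.sum_congr rfl fun j _ => ?_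
    beta_reduce
    by_cases hj : j = i
    · rw [if_pos hj, if_pos hj]
      push_cast
      rw [Pi.neg_apply]
      ring
    · rw [if_neg hj, if_neg hj]
  refine ⟨hG.1, fun u hu => ?_, fun u => ?_⟩
  · rw [key]
    apply hG.2.1
    intro h
    apply hu
    funext j
    have := congrFun h j
    by_cases hj : j = i
    · rw [if_pos hj] at this
      simpa using this
    · rw [if_neg hj] at this
      exact this
  · rw [key]
    exact hG.2.2 _

theorem Good_I {w : E 7} {L : Fin 6 → Fin 5 → ℂ} (hG : Good S w L) :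
    Good S (-w) (fun j => Complex.I • L j) := by
  refine ⟨by rw [norm_neg]; exact hG.1, fun u hu => ?_, fun u => ?_⟩
  · rw [Lin_I]
    exact smul_ne_zero Complex.I_ne_zero (hG.2.1 u hu)
  · rw [Lin_I, qf_I, Sw_neg, qf_neg_left, neg_neg]
    exact hG.2.2 u

/-- the support, in terms of cochains. -/
def Bad (S : Fin 7 → Matrix (Fin 5) (Fin 5) ℂ) (c : Ch (E 7)) (η : Ch (E 7 × E 10)) (w : E 7) :
    Prop := ¬ ∃ a b, c - dd a ∈ Nz w 7 ∧ ∀ x ∈ Fw S w, η - (pb Prod.fst a - dd b) ∈ Nz x 6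

theorem eig_good {w : E 7} {L : Fin 6 → Fin 5 → ℂ} (hw : ‖w‖ = 1) (hE : Eig S w L) :
    ∃ (O : E 10 ≃ₗᵢ[ℝ] E 10) (lam : Fin 10 → ℝ),
      (∀ x, qf (Sw S w) (toC (O x)) = ∑ i, lam i * (x i) ^ 2) ∧
      (∀ i : Fin 10, 6 ≤ i.val → lam i < 0) ∧ (∀ i : Fin 10, i.val < 6 → 0 ≤ lam i) ∧
      ∀ j : Fin 6, toC (O (EuclideanSpace.single (Fin.castLE (by norm_num) j) 1)) = L j := by
  obtain ⟨v, lam, h1, h2, h3, h4, h5, h6⟩ := hE
  have hon : Orthonormal ℝ (fun a => toC.symm (v a)) := by
    rw [orthonormal_iff_ite]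
    intro i j
    rw [← toC_inner, LinearEquiv.apply_symm_apply, LinearEquiv.apply_symm_apply]
    exact h1 i j
  let B : OrthonormalBasis (Fin 10) ℝ (E 10) :=
    (basisOfOrthonormalOfCardEqFinrank hon (by simp)).toOrthonormalBasis (by
      rw [coe_basisOfOrthonormalOfCardEqFinrank]; exact hon)
  have hB : ∀ i, B i = toC.symm (v i) := by
    intro i
    simp [B]
  have hO : ∀ x : E 10, B.repr.symm x = ∑ i, x i • toC.symm (v i) := by
    intro x
    rw [← B.sum_repr_symm x]
    refine Finset.sum_congr rfl fun i _ => ?_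
    rw [hB]
  refine ⟨B.repr.symm, lam, ?_, h5, h4, ?_⟩
  · intro x
    have h7 := h2 (fun i => x i)
    rw [← h7]
    congr 1
    rw [hO, map_sum]
    funext k
    rw [Finset.sum_apply]
    refine Finset.sum_congr rfl fun i _ => ?_
    rw [map_smul, LinearEquiv.apply_symm_apply, Pi.smul_apply, Complex.real_smul]
  · intro j
    rw [hO, Finset.sum_eq_single (Fin.castLE (by norm_num) j)]
    · rw [h6]
      simp
    · intro i _ hi
      simp [hi]
    · intro h; exact absurd (Finset.mem_univ _) h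

/-- inclusion of the first six coordinates -/
noncomputable def inc6 (u : E 6) : E 10 :=
  WithLp.toLp 2 fun i => if h : i.val < 6 then u ⟨i.val, h⟩ else 0

/-- projection to the first six coordinates -/
noncomputable def pro6 (x : E 10) : E 6 := WithLp.toLp 2 fun j => x (Fin.castLE (by norm_num) j)

theorem inc6_continuous : Continuous inc6 := by
  unfold inc6
  refine (PiLp.continuous_toLp 2 _).comp (continuous_pi fun i => ?_)
  by_cases h : i.val < 6
  · simp only [h, dite_true]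
    fun_prop
  · simp only [h, dite_false]
    exact continuous_const

theorem pro6_continuous : Continuous pro6 := by
  unfold pro6
  refine (PiLp.continuous_toLp 2 _).comp (continuous_pi fun i => ?_)
  fun_prop

theorem inc6_pro6 {x : E 10} (hx : x ∈ Sp 10 6) : inc6 (pro6 x) = x := by
  ext i
  show (if h : i.val < 6 then pro6 x ⟨i.val, h⟩ else 0) = x i
  by_cases h : i.val < 6
  · rw [dif_pos h]; rfl
  · rw [dif_neg h, hx.2 i (by omega)]

theorem inc6_eq_sum (u : E 6) : inc6 u = ∑ j : Fin 6, u j •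
    (EuclideanSpace.single (Fin.castLE (by norm_num) j) (1 : ℝ) : E 10) := by
  ext i
  show (if h : i.val < 6 then u ⟨i.val, h⟩ else 0) = _
  simp only [WithLp.ofLp_sum, Finset.sum_apply, PiLp.smul_apply, smul_eq_mul]
  by_cases h : i.val < 6
  · rw [dif_pos h, Finset.sum_eq_single ⟨i.val, h⟩]
    · simp
    · intro j _ hj
      have : (i : Fin 10) ≠ Fin.castLE (by norm_num) j := by
        intro h'
        apply hj
        subst h'
        rfl
      simp [this]
    · intro h; exact absurd (Finset.mem_univ _) h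
  · rw [dif_neg h]
    symm
    refine Finset.sum_eq_zero fun j _ => ?_
    have : (i : Fin 10) ≠ Fin.castLE (by norm_num) j := by
      intro h'
      apply h
      rw [h']
      exact j.2
    simp [this]

theorem inc6_norm (u : E 6) : ‖inc6 u‖ = ‖u‖ := by
  rw [EuclideanSpace.norm_eq, EuclideanSpace.norm_eq]
  congr 1
  have h1 : ∀ i : Fin 10, ‖inc6 u i‖ ^ 2 = if h : i.val < 6 then ‖u ⟨i.val, h⟩‖ ^ 2 else 0 := by
    intro i
    show ‖(if h : i.val < 6 then u ⟨i.val, h⟩ else 0)‖ ^ 2 = _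
    by_cases h : i.val < 6
    · rw [dif_pos h, dif_pos h]
    · rw [dif_neg h, dif_neg h]; simp
  simp only [h1]
  rw [Fin.sum_univ_add (a := 6) (b := 4)]
  have h2 : ∑ i : Fin 4, (if h : (Fin.natAdd 6 i : Fin (6 + 4)).val < 6 then
      ‖u ⟨(Fin.natAdd 6 i : Fin (6 + 4)).val, h⟩‖ ^ 2 else 0) = 0 := by
    refine Finset.sum_eq_zero fun i _ => ?_
    rw [dif_neg]
    simp
  rw [h2, add_zero]
  refine Finset.sum_congr rfl fun i _ => ?_
  rw [dif_pos (by simp)]
  rfl

theorem inc6_mem {u : E 6} (hu : u ∈ Sp 6 6) : inc6 u ∈ Sp 10 6 := by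
  refine ⟨by rw [inc6_norm]; exact hu.1, fun i hi => ?_⟩
  show (if h : i.val < 6 then u ⟨i.val, h⟩ else 0) = 0
  rw [dif_neg (by omega)]

theorem pro6_mem {x : E 10} (hx : x ∈ Sp 10 6) : pro6 x ∈ Sp 6 6 := by
  rw [mem_Sp, ← inc6_norm, inc6_pro6 hx]
  exact hx.1

theorem degData (h : Coch S c η a b) (hσ : Top5 σ) {A : Set (E 7)}
    (hA : ∀ w, ‖w‖ = 1 → (w ∈ A ↔ Bad S c η w)) : DegData S A (dg σ c η) where
  loc w L hG := by
    obtain ⟨β, hβ⟩ := exists_prim h.coc (mem_Sp.2 hG.1)
    have h1 := eventually_cob_pb (Sp_compact 6 6)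
      (fun p : E 7 × (Fin 6 → Fin 5 → ℂ) => gL p.1 p.2) (w, L)
      (fun u hu => gL_continuousAt (ZL_ne hG hu)) (n := 6) (c := η - pb Prod.fst β)
      (fun u hu => h.loc_coc hβ (gL_mem hG hu))
    have h2 : ∀ᶠ p : E 7 × (Fin 6 → Fin 5 → ℂ) in 𝓝 (w, L), c - dd β ∈ Nz p.1 7 := by
      have h3 : IsOpen {z : E 7 | c - dd β ∈ Nz z 7} := (AS (E 7)).isOpen_N 7 (c - dd β)
      exact continuous_fst.continuousAt.preimage_mem_nhds (h3.mem_nhds (x := (w, L).1) hβ)
    filter_upwards [h1, h2] with p h3 h4 hGp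
    refine dg_eq h hσ hGp ?_
    have e1 : (AS (E 6)).Cob (Sp 6 6) 6 (om c η p.1 p.2 - pb (gL p.1 p.2) (η - pb Prod.fst β)) :=
      Cob.of_mem fun u _ => om_local η h4 p.2 u
    have e2 : (AS (E 6)).Cob (Sp 6 6) 6 (om c η w L - pb (gL w L) (η - pb Prod.fst β)) :=
      Cob.of_mem fun u _ => om_local η hβ L u
    have := ((e1.add h3).sub e2).add (dg_spec h hσ hG)
    convert this using 1
    abel
  refl w L i hG := by
    refine dg_eq h hσ (Good_refl hG i) ?_
    have h1 := dg_spec h hσ hG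
    have h2 := refl_sign (M := 6) (k := 6) (by norm_num) le_rfl i i.2 (h.om_coc hG)
    have e : om c η w (fun j => if j = i then - L j else L j) = pb (refl i) (om c η w L) := by
      rw [om, om, pb_sub, pb_smul, pb_one, pb_pb]
      congr 2
      funext u
      rw [gL, gL, ZL, ZL, Lin_refl]
    rw [e]
    have := h2.sub h1
    convert this using 1
    rw [neg_smul]
    abel
  symm w L hG := by
    refine dg_eq h hσ (Good_I hG) ?_
    have h1 := dg_spec h hσ hG
    have h2 : (AS (E 6)).Cob (Sp 6 6) 6 (om c η (-w) (fun j => Complex.I • L j) + om c η w L) := by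
      refine ⟨- pb (gL w L) b, fun u hu => ?_⟩
      have h3 : pb (gL w L) (pb TT η + η - (pb Prod.fst a - dd b)) ∈ Nz u 6 :=
        pb_mem_Nz (gL_continuousAt' (ZL_ne hG hu)) (h.se _ (gL_mem hG hu).1)
      have h4 := pb_gL_fst w L a u
      have h5 := eval_const (h.sc w (mem_Sp.2 hG.1))
      have h6 : (pb (fun x : E 7 => -x) c + c) (List.replicate 7 w) =
          c (List.replicate 7 (-w)) + c (List.replicate 7 w) := by
        rw [Pi.add_apply, pb, List.map_replicate]
      rw [h6] at h5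
      have h7 := add_mem h3 h4
      rw [AS_N]
      convert h7 using 1
      rw [← h5, AS_D, dd_neg, dd_pb, om, om, add_smul]
      have e : pb (gL (-w) fun j => Complex.I • L j) η = pb (gL w L) (pb TT η) := by
        rw [pb_pb]
        congr 1
        funext u
        exact gL_I w L u
      rw [e]
      simp only [pb_add, pb_sub]
      abel
    have := h2.sub h1
    convert this using 1
    rw [neg_smul]
    abel
  supp w L hw hE := by
    rw [hA w hw]
    obtain ⟨O, lam, hO, hneg, hpos, hL⟩ := eig_good hw hE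
    have hwS : w ∈ Sp 7 7 := mem_Sp.2 hw
    have hZ : ∀ u : E 6, ZL L u = O (inc6 u) := by
      intro u
      apply toC.injective
      rw [ZL, LinearEquiv.apply_symm_apply, inc6_eq_sum, map_sum, map_sum]
      funext k
      rw [Finset.sum_apply, Lin]
      refine Finset.sum_congr rfl fun j _ => ?_
      rw [map_smul, map_smul, hL, Pi.smul_apply, Complex.real_smul]
    have hG : Good S w L := by
      refine ⟨hw, fun u hu => ?_, fun u => ?_⟩
      · intro h0
        apply hu
        have h1 : ZL L (WithLp.toLp 2 u) = 0 := by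
          have e : (fun i => (WithLp.toLp 2 u : E 6) i) = u := rfl
          rw [ZL, e, h0, map_zero]
        rw [hZ] at h1
        have h2 : ‖(WithLp.toLp 2 u : E 6)‖ = 0 := by
          rw [← inc6_norm, ← O.norm_map, h1, norm_zero]
        have h3 := norm_eq_zero.1 h2
        funext i
        have : (WithLp.toLp 2 u : E 6) i = 0 := by rw [h3]; rfl
        exact this
      · have h1 : toC (O (inc6 (WithLp.toLp 2 u))) = Lin L u := by
          rw [← hZ, ZL, LinearEquiv.apply_symm_apply]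
        rw [← h1, hO]
        refine Finset.sum_nonneg fun i _ => ?_
        rcases lt_or_ge i.val 6 with h6 | h6
        · exact mul_nonneg (hpos i h6) (sq_nonneg _)
        · have : inc6 (WithLp.toLp 2 u) i = 0 := by
            show (if h : i.val < 6 then (WithLp.toLp 2 u : E 6) ⟨i.val, h⟩ else 0) = 0
            rw [dif_neg (by omega)]
          rw [this]
          simp
    obtain ⟨β, hβ⟩ := exists_prim h.coc hwS
    have hloc : (AS (E 6)).Cob (Sp 6 6) 6 (om c η w L - pb (gL w L) (η - pb Prod.fst β)) :=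
      Cob.of_mem fun u _ => om_local η hβ L u
    constructor
    · intro hbad h0
      apply hbad
      have h1 := dg_spec h hσ hG
      rw [h0, zero_smul, sub_zero] at h1
      have h2 := h1.sub hloc
      rw [sub_sub_cancel] at h2
      -- transfer to the six dimensional coordinate sphere
      have hk : (AS (E 7 × E 10)).Coc (Fw S w) 6 (η - pb Prod.fst β) :=
        fun x hx => h.loc_coc hβ hx
      have hjc : Continuous (fun z : E 10 => (w, O z)) := continuous_const.prodMk O.continuous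
      have hjm := fib_maps hwS O lam 6 hO hpos
      have c1 := coc_pb (F := Sp 10 6) (fun x _ => hjc.continuousAt) hjm hk
      have c2 := cob_retract (F := Sp 10 6) (F' := Sp 6 6) (g := pro6) (g' := inc6)
        (fun x _ => pro6_continuous.continuousAt) (fun x _ => inc6_continuous.continuousAt)
        (fun x hx => pro6_mem hx) (fun x hx => inc6_mem hx) (fun x hx => inc6_pro6 hx) c1
      have c3 := cob_pb_sub (F := Sp 6 6) (g₁ := gL w L) (g₂ := fun u => (w, O (inc6 u)))
        (fun u hu => gL_continuousAt' (ZL_ne hG hu))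
        (fun u _ => (hjc.comp inc6_continuous).continuousAt) (by
          intro u hu
          rw [gL, hZ, O.norm_map, inc6_norm, hu.1, inv_one, one_smul])
        (fun u hu => gL_mem hG hu) hk
      have c4 := h2.sub c3
      rw [sub_sub_cancel] at c4
      have c5 := cob_pb (F := Sp 10 6) (F' := Sp 6 6) (g := pro6)
        (fun x _ => pro6_continuous.continuousAt) (fun x hx => pro6_mem hx) c4
      have c6 : (AS (E 10)).Cob (Sp 10 6) 6 (pb (fun z => (w, O z)) (η - pb Prod.fst β)) := by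
        have := c2.add c5
        convert this using 1
        rw [pb_pb inc6]
        abel
      obtain ⟨b', hb'⟩ := fib_key hwS O lam 6 hO hneg hk c6
      refine ⟨β, -b', hβ, fun x hx => ?_⟩
      have := hb' x hx
      rw [AS_N, AS_D] at this
      rw [dd_neg]
      convert this using 1
      abel
    · rintro h0 ⟨a', b', h1, h2⟩
      apply h0
      refine dg_eq h hσ hG ?_
      rw [zero_smul, sub_zero]
      refine ⟨- pb (gL w L) b', fun u hu => ?_⟩
      have h3 : pb (gL w L) (η - (pb Prod.fst a' - dd b')) ∈ Nz u 6 :=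
        pb_mem_Nz (gL_continuousAt' (ZL_ne hG hu)) (h2 _ (gL_mem hG hu))
      have h4 := pb_gL_fst w L a' u
      have h5 := eval_const h1
      have h7 := add_mem h3 h4
      rw [AS_N]
      convert h7 using 1
      rw [← h5, AS_D, dd_neg, dd_pb, om]
      simp only [pb_sub]
      abel

end Pool.Agent.H15.Lev
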