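import Pool.Agent.H15.Lev.Setup

/-! Spectral theory of the real form `Re (u^T R u)` of a complex symmetric matrix. -/

set_option autoImplicit false

namespace Pool.Agent.H15.Lev

/-- complex coordinates -/
noncomputable def toC : E 10 ≃ₗ[ℝ] (Fin 5 → ℂ) where
  toFun z k := ⟨z (Fin.castAdd 5 k), z (Fin.natAdd 5 k)⟩
  map_add' a b := by
    funext k
    apply Complex.ext <;> simp
  map_smul' r a := by
    funext k
    apply Complex.ext <;> simp
  invFun u := WithLp.toLp 2 (Fin.addCases (m := 5) (n := 5) (fun k => (u k).re) (fun k => (u k).im))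
  left_inv z := by
    ext i
    refine Fin.addCases (m := 5) (n := 5) (fun k => ?_) (fun k => ?_) i
    · simp
    · simp
  right_inv u := by
    funext k
    apply Complex.ext <;> simp

theorem toC_apply (z : E 10) (k : Fin 5) : toC z k = ⟨z (Fin.castAdd 5 k), z (Fin.natAdd 5 k)⟩ := rfl

theorem toC_inner (x y : E 10) :
    ∑ k, (toC x k * (starRingEnd ℂ) (toC y k)).re = inner ℝ x y := by
  rw [PiLp.inner_apply, Fin.sum_univ_add (a := 5) (b := 5), ← Finset.sum_add_distrib]
  refine Finset.sum_congr rfl fun k _ => ?_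
  rw [toC_apply, toC_apply]
  simp
  ring

theorem toC_norm (z : E 10) : ∑ k, ‖toC z k‖ ^ 2 = ‖z‖ ^ 2 := by
  rw [← real_inner_self_eq_norm_sq, ← toC_inner]
  refine Finset.sum_congr rfl fun k _ => ?_
  rw [Complex.mul_conj, Complex.ofReal_re, Complex.normSq_eq_norm_sq]

/-- multiplication by `i` -/
noncomputable def JJ : E 10 →ₗ[ℝ] E 10 :=
  toC.symm.toLinearMap ∘ₗ (LinearMap.restrictScalars ℝ
    ((Complex.I : ℂ) • (LinearMap.id : (Fin 5 → ℂ) →ₗ[ℂ] (Fin 5 → ℂ)))) ∘ₗ toC.toLinearMap

theorem JJ_apply (z : E 10) : JJ z = toC.symm (Complex.I • toC z) := by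
  simp [JJ]

theorem toC_JJ (z : E 10) : toC (JJ z) = Complex.I • toC z := by
  rw [JJ_apply, LinearEquiv.apply_symm_apply]

theorem JJ_inj : Function.Injective JJ := by
  intro x y h
  have h1 := congrArg toC h
  rw [toC_JJ, toC_JJ] at h1
  exact toC.injective (smul_right_injective _ Complex.I_ne_zero h1)

theorem JJ_JJ (z : E 10) : JJ (JJ z) = - z := by
  apply toC.injective
  rw [toC_JJ, toC_JJ, smul_smul, Complex.I_mul_I, neg_one_smul, map_neg]

theorem JJ_norm (z : E 10) : ‖JJ z‖ = ‖z‖ := by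
  have h1 := toC_norm (JJ z)
  have h2 := toC_norm z
  rw [toC_JJ] at h1
  have h3 : ∑ k, ‖(Complex.I • toC z) k‖ ^ 2 = ∑ k, ‖toC z k‖ ^ 2 := by
    refine Finset.sum_congr rfl fun k _ => ?_
    rw [Pi.smul_apply, smul_eq_mul, norm_mul, Complex.norm_I, one_mul]
  rw [h3, h2] at h1
  exact (pow_left_inj₀ (norm_nonneg _) (norm_nonneg _) (by norm_num)).1 h1.symm

theorem qf_I (R : Matrix (Fin 5) (Fin 5) ℂ) (u : Fin 5 → ℂ) : qf R (Complex.I • u) = - qf R u := by
  unfold qf
  rw [Matrix.mulVec_smul, smul_dotProduct, dotProduct_smul, smul_smul, Complex.I_mul_I,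
    neg_one_smul, Complex.neg_re]

theorem qf_neg (R : Matrix (Fin 5) (Fin 5) ℂ) (u : Fin 5 → ℂ) : qf R (-u) = qf R u := by
  unfold qf
  rw [Matrix.mulVec_neg, neg_dotProduct, dotProduct_neg, neg_neg]

/-- the bilinear form -/
noncomputable def bf (R : Matrix (Fin 5) (Fin 5) ℂ) : E 10 →ₗ[ℝ] E 10 →ₗ[ℝ] ℝ :=
  LinearMap.mk₂ ℝ (fun x y => (dotProduct (toC x) (R.mulVec (toC y))).re)
    (fun a b c => by rw [map_add, add_dotProduct, Complex.add_re])
    (fun r a b => by
      rw [map_smul, smul_dotProduct, Complex.smul_re])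
    (fun a b c => by rw [map_add, Matrix.mulVec_add, dotProduct_add, Complex.add_re])
    (fun r a b => by
      rw [map_smul, Matrix.mulVec_smul, dotProduct_smul, Complex.smul_re])

theorem bf_apply (R : Matrix (Fin 5) (Fin 5) ℂ) (x y : E 10) :
    bf R x y = (dotProduct (toC x) (R.mulVec (toC y))).re := rfl

theorem bf_self (R : Matrix (Fin 5) (Fin 5) ℂ) (x : E 10) : bf R x x = qf R (toC x) := rfl

theorem bf_symm {R : Matrix (Fin 5) (Fin 5) ℂ} (hR : R.transpose = R) (x y : E 10) :
    bf R x y = bf R y x := by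
  rw [bf_apply, bf_apply, Matrix.dotProduct_mulVec, ← Matrix.mulVec_transpose, hR,
    dotProduct_comm]

/-- a real orthonormal eigenbasis -/
theorem spec_exists {R : Matrix (Fin 5) (Fin 5) ℂ} (hR : R.transpose = R) :
    ∃ (O : E 10 ≃ₗᵢ[ℝ] E 10) (lam : Fin 10 → ℝ), Antitone lam ∧
      ∀ x y : E 10, bf R (O x) (O y) = ∑ i, lam i * x i * y i := by
  classical
  obtain ⟨T, hT⟩ : ∃ T : E 10 →ₗ[ℝ] E 10, ∀ x y, inner ℝ (T x) y = bf R x y := by
    refine ⟨∑ i, ((bf R).flip (EuclideanSpace.basisFun (Fin 10) ℝ i)).smulRight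
      (EuclideanSpace.basisFun (Fin 10) ℝ i), ?_⟩
    intro x y
    rw [LinearMap.sum_apply, sum_inner]
    have h1 : ∀ i, inner ℝ ((((bf R).flip (EuclideanSpace.basisFun (Fin 10) ℝ i)).smulRight
        (EuclideanSpace.basisFun (Fin 10) ℝ i)) x) y =
        y i * bf R x (EuclideanSpace.basisFun (Fin 10) ℝ i) := by
      intro i
      rw [LinearMap.smulRight_apply, LinearMap.flip_apply, real_inner_smul_left,
        EuclideanSpace.basisFun_apply, EuclideanSpace.inner_single_left]
      simp
      ring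
    simp only [h1]
    have h2 : y = ∑ i, y i • EuclideanSpace.basisFun (Fin 10) ℝ i := by
      have := (EuclideanSpace.basisFun (Fin 10) ℝ).sum_repr y
      simpa using this.symm
    conv_rhs => rw [h2]
    rw [map_sum]
    apply Finset.sum_congr rfl
    intro i _
    rw [map_smul, smul_eq_mul]
  have hsymm : T.IsSymmetric := by
    intro x y
    rw [hT x y, real_inner_comm, hT y x, bf_symm hR]
  have hn : Module.finrank ℝ (E 10) = 10 := finrank_euclideanSpace_fin
  refine ⟨(hsymm.eigenvectorBasis hn).repr.symm, hsymm.eigenvalues hn,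
    hsymm.eigenvalues_antitone hn, ?_⟩
  intro x y
  rw [← hT]
  have hx : T ((hsymm.eigenvectorBasis hn).repr.symm x) =
      ∑ i, (hsymm.eigenvalues hn i * x i) • hsymm.eigenvectorBasis hn i := by
    rw [← (hsymm.eigenvectorBasis hn).sum_repr_symm x, map_sum]
    refine Finset.sum_congr rfl fun i _ => ?_
    rw [map_smul, hsymm.apply_eigenvectorBasis, smul_smul, mul_comm]
    rfl
  rw [hx, ← (hsymm.eigenvectorBasis hn).sum_repr_symm y, sum_inner]
  refine Finset.sum_congr rfl fun i _ => ?_
  rw [inner_sum, Finset.sum_eq_single i]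
  · rw [real_inner_smul_left, real_inner_smul_right, real_inner_self_eq_norm_sq,
      (hsymm.eigenvectorBasis hn).orthonormal.1 i]
    ring
  · intro j _ hj
    rw [real_inner_smul_left, real_inner_smul_right,
      (hsymm.eigenvectorBasis hn).orthonormal.2 hj.symm]
    ring
  · intro h
    exact absurd (Finset.mem_univ i) h

/-- the subspace of vectors whose coordinates with `p` vanish -/
def WS (p : Fin 10 → Prop) : Submodule ℝ (E 10) where
  carrier := {z | ∀ i : Fin 10, p i → z i = 0}
  add_mem' := by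
    intro a b ha hb i hi
    show a i + b i = 0
    rw [ha i hi, hb i hi, add_zero]
  zero_mem' := by
    intro i _
    rfl
  smul_mem' := by
    intro c a ha i hi
    show c * a i = 0
    rw [ha i hi, mul_zero]

theorem mem_WS {p : Fin 10 → Prop} {z : E 10} : z ∈ WS p ↔ ∀ i, p i → z i = 0 := Iff.rfl

theorem WS_finrank (p : Fin 10 → Prop) [DecidablePred p] :
    10 ≤ Module.finrank ℝ (WS p) + Fintype.card {i // p i} := by
  let L : E 10 →ₗ[ℝ] ({i // p i} → ℝ) :=
    { toFun := fun z j => z j.1
      map_add' := fun a b => rfl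
      map_smul' := fun c a => rfl }
  have h1 := LinearMap.finrank_range_add_finrank_ker L
  have h2 : LinearMap.ker L ≤ WS p := by
    intro z hz i hi
    exact congrFun (LinearMap.mem_ker.1 hz) ⟨i, hi⟩
  have h3 := Submodule.finrank_mono h2
  have h4 : Module.finrank ℝ (LinearMap.range L) ≤ Fintype.card {i // p i} := by
    have := Submodule.finrank_le (LinearMap.range L)
    rwa [Module.finrank_fintype_fun_eq_card] at this
  rw [finrank_euclideanSpace_fin] at h1
  omega

/-- a form which changes sign under an injective linear map: bound for a negative subspace and the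
radical. -/
theorem index_ineq (f : E 10 → ℝ) (J : E 10 →ₗ[ℝ] E 10) (hJ : Function.Injective J)
    (hf : ∀ z, f (J z) = - f z) (hf0 : f 0 = 0) (hfn : ∀ z, f (-z) = f z)
    (U N : Submodule ℝ (E 10)) (hU : ∀ z ∈ U, z ≠ 0 → f z < 0)
    (hN : ∀ u ∈ N, ∀ z, f (u + z) = f z) :
    2 * Module.finrank ℝ U + Module.finrank ℝ N ≤ 10 := by
  have hd : Disjoint U (U.map J) := by
    rw [Submodule.disjoint_def]
    rintro z hz ⟨w, hw, rfl⟩
    by_contra h
    have hw0 : w ≠ 0 := by
      rintro rfl
      exact h (map_zero J)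
    have h1 := hU _ hz h
    have h2 := hU w hw hw0
    have h3 := hf w
    linarith
  have hfr : Module.finrank ℝ (U.map J) = Module.finrank ℝ U :=
    (Submodule.equivMapOfInjective J hJ U).finrank_eq.symm
  have h3 := Submodule.finrank_sup_add_finrank_inf_eq U (U.map J)
  rw [hd.eq_bot, finrank_bot, hfr] at h3
  have hd2 : Disjoint (U ⊔ U.map J) N := by
    rw [Submodule.disjoint_def]
    intro u hu huN
    obtain ⟨a, ha, c, ⟨b, hb, rfl⟩, hab⟩ := Submodule.mem_sup.1 hu
    have h5 : f (J b) = f a := by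
      have e : J b = u + -a := by
        rw [← hab]
        abel
      rw [e, hN u huN, hfn]
    rw [hf] at h5
    have ha0 : a = 0 := by
      by_contra h
      have h6 := hU a ha h
      by_cases hb0 : b = 0
      · rw [hb0, hf0] at h5
        linarith
      · have h7 := hU b hb hb0
        linarith
    have hb0 : b = 0 := by
      by_contra h
      have h7 := hU b hb h
      rw [ha0, hf0] at h5
      linarith
    rw [← hab, ha0, hb0, map_zero, add_zero]
  have h4 := Submodule.finrank_add_finrank_le_of_disjoint hd2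
  rw [finrank_euclideanSpace_fin] at h4
  omega

/-- complex corank -/
noncomputable def crk (R : Matrix (Fin 5) (Fin 5) ℂ) : ℕ :=
  Module.finrank ℂ (LinearMap.ker R.mulVecLin)

/-- the radical in real coordinates -/
noncomputable def rad (R : Matrix (Fin 5) (Fin 5) ℂ) : Submodule ℝ (E 10) :=
  ((LinearMap.ker R.mulVecLin).restrictScalars ℝ).comap toC.toLinearMap

theorem mem_rad {R : Matrix (Fin 5) (Fin 5) ℂ} {z : E 10} : z ∈ rad R ↔ R.mulVec (toC z) = 0 := by
  simp [rad]

theorem rad_finrank (R : Matrix (Fin 5) (Fin 5) ℂ) : Module.finrank ℝ (rad R) = 2 * crk R := by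
  have h1 : Module.finrank ℝ ((LinearMap.ker R.mulVecLin).restrictScalars ℝ) = 2 * crk R :=
    finrank_real_of_complex (LinearMap.ker R.mulVecLin)
  rw [← h1]
  have h2 : (rad R).map toC.toLinearMap = (LinearMap.ker R.mulVecLin).restrictScalars ℝ := by
    rw [rad, Submodule.map_comap_eq_of_surjective]
    exact toC.surjective
  rw [← h2]
  exact (LinearEquiv.finrank_map_eq toC (rad R)).symm

theorem rad_form {R : Matrix (Fin 5) (Fin 5) ℂ} (hR : R.transpose = R) {u : E 10} (hu : u ∈ rad R)
    (z : E 10) : bf R (u + z) (u + z) = bf R z z := by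
  have h1 : ∀ y, bf R y u = 0 := by
    intro y
    rw [bf_apply, mem_rad.1 hu, dotProduct_zero, Complex.zero_re]
  have h2 : ∀ y, bf R u y = 0 := by
    intro y
    rw [bf_symm hR, h1]
  rw [map_add (bf R (u + z)), h1, zero_add, map_add (bf R), LinearMap.add_apply, h2, zero_add]

/-- a vector orthogonal to everything is in the radical -/
theorem mem_rad_of {R : Matrix (Fin 5) (Fin 5) ℂ} {u : E 10} (h : ∀ y, bf R y u = 0) :
    u ∈ rad R := by
  rw [mem_rad]
  funext k
  have h1 : ∀ c : ℂ, (c * R.mulVec (toC u) k).re = 0 := by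
    intro c
    have := h (toC.symm (Pi.single k c))
    rw [bf_apply, LinearEquiv.apply_symm_apply, single_dotProduct] at this
    exact this
  have h2 := h1 1
  have h3 := h1 (-Complex.I)
  apply Complex.ext
  · simpa using h2
  · simpa using h3

/-- signs of the eigenvalues in terms of the corank. -/
theorem spec_count {R : Matrix (Fin 5) (Fin 5) ℂ} (hR : R.transpose = R)
    (O : E 10 ≃ₗᵢ[ℝ] E 10) (lam : Fin 10 → ℝ) (hl : Antitone lam)
    (hO : ∀ x y : E 10, bf R (O x) (O y) = ∑ i, lam i * x i * y i) :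
    crk R ≤ 5 ∧ (∀ a : Fin 10, a.val < 5 - crk R → 0 < lam a) ∧
      (∀ a : Fin 10, 5 - crk R ≤ a.val → a.val < 5 + crk R → lam a = 0) ∧
      (∀ a : Fin 10, 5 + crk R ≤ a.val → lam a < 0) := by
  classical
  -- transported data
  obtain ⟨g, hg⟩ : ∃ g : E 10 → ℝ, g = fun x => bf R (O x) (O x) := ⟨_, rfl⟩
  have hgs : ∀ x, g x = ∑ i, lam i * (x i) ^ 2 := by
    intro x
    rw [hg]
    show bf R (O x) (O x) = _
    rw [hO]
    refine Finset.sum_congr rfl fun i _ => ?_
    ring
  let J' : E 10 →ₗ[ℝ] E 10 := O.symm.toLinearEquiv.toLinearMap ∘ₗ JJ ∘ₗ O.toLinearEquiv.toLinearMap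
  have hJ'a : ∀ x, O (J' x) = JJ (O x) := by
    intro x
    show O (O.symm (JJ (O x))) = _
    rw [O.apply_symm_apply]
  have hJ' : Function.Injective J' := by
    intro x y h
    have h1 := congrArg O h
    rw [hJ'a, hJ'a] at h1
    exact O.injective (JJ_inj h1)
  have hgJ : ∀ x, g (J' x) = - g x := by
    intro x
    rw [hg]
    show bf R (O (J' x)) (O (J' x)) = - bf R (O x) (O x)
    rw [hJ'a, bf_self, bf_self, toC_JJ, qf_I]
  let N' : Submodule ℝ (E 10) := (rad R).comap O.toLinearEquiv.toLinearMap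
  have hN' : ∀ u ∈ N', ∀ x, g (u + x) = g x := by
    intro u hu x
    rw [hg]
    show bf R (O (u + x)) (O (u + x)) = bf R (O x) (O x)
    rw [map_add]
    exact rad_form hR hu _
  have hN'r : Module.finrank ℝ N' = 2 * crk R := by
    rw [← rad_finrank]
    have h2 : N'.map O.toLinearEquiv.toLinearMap = rad R := by
      rw [Submodule.map_comap_eq_of_surjective]
      exact O.surjective
    rw [← h2]
    exact (LinearEquiv.finrank_map_eq O.toLinearEquiv N').symm
  have hg0 : g 0 = 0 := by rw [hgs]; simp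
  have hgn : ∀ x, g (-x) = g x := by
    intro x
    rw [hgs, hgs]
    simp
  -- negative subspace
  have neg1 := index_ineq g J' hJ' hgJ hg0 hgn (WS fun i => 0 ≤ lam i) N' (by
    intro z hz hz0
    rw [hgs]
    have h1 : ∃ i, z i ≠ 0 := by
      by_contra hcon
      push Not at hcon
      exact hz0 (by ext i; simpa using hcon i)
    obtain ⟨i0, hi0⟩ := h1
    refine Finset.sum_neg' ?_ ⟨i0, Finset.mem_univ _, ?_⟩
    · intro i _
      rcases le_or_gt 0 (lam i) with h | h
      · rw [mem_WS.1 hz i h]; simp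
      · exact mul_nonpos_of_nonpos_of_nonneg h.le (sq_nonneg _)
    · have h2 : lam i0 < 0 := by
        by_contra h3
        exact hi0 (mem_WS.1 hz i0 (not_lt.1 h3))
      exact mul_neg_of_neg_of_pos h2 (by positivity)) hN'
  have pos1 := index_ineq (fun x => - g x) J' hJ' (fun x => by rw [hgJ]) (by rw [hg0, neg_zero])
    (fun x => by rw [hgn]) (WS fun i => lam i ≤ 0) N' (by
    intro z hz hz0
    rw [hgs, neg_lt_zero]
    have h1 : ∃ i, z i ≠ 0 := by
      by_contra hcon
      push Not at hcon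
      exact hz0 (by ext i; simpa using hcon i)
    obtain ⟨i0, hi0⟩ := h1
    refine Finset.sum_pos' ?_ ⟨i0, Finset.mem_univ _, ?_⟩
    · intro i _
      rcases le_or_gt (lam i) 0 with h | h
      · rw [mem_WS.1 hz i h]; simp
      · exact mul_nonneg h.le (sq_nonneg _)
    · have h2 : 0 < lam i0 := by
        by_contra h3
        exact hi0 (mem_WS.1 hz i0 (not_lt.1 h3))
      exact mul_pos h2 (by positivity)) (fun u hu x => by rw [hN' u hu])
  have zero1 : Module.finrank ℝ (WS fun i => lam i ≠ 0) ≤ Module.finrank ℝ N' := by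
    refine Submodule.finrank_mono ?_
    intro x hx
    show O x ∈ rad R
    refine mem_rad_of fun y => ?_
    rw [← O.apply_symm_apply y, hO]
    refine Finset.sum_eq_zero fun i _ => ?_
    by_cases h : lam i = 0
    · rw [h]; ring
    · rw [mem_WS.1 hx i h, mul_zero]
  have d1 := WS_finrank fun i => 0 ≤ lam i
  have d2 := WS_finrank fun i => lam i ≤ 0
  have d3 := WS_finrank fun i => lam i ≠ 0
  rw [hN'r] at neg1 pos1 zero1
  -- counting
  rw [Fintype.card_subtype] at d1 d2 d3
  obtain ⟨P, hP⟩ : ∃ P, P = (Finset.univ.filter fun i : Fin 10 => 0 < lam i).card := ⟨_, rfl⟩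
  obtain ⟨N, hN⟩ : ∃ N, N = (Finset.univ.filter fun i : Fin 10 => 0 ≤ lam i).card := ⟨_, rfl⟩
  have hPc : (Finset.univ.filter fun i : Fin 10 => lam i ≤ 0).card + P = 10 := by
    have := Finset.card_filter_add_card_filter_not (s := (Finset.univ : Finset (Fin 10)))
      (fun i => lam i ≤ 0)
    simp only [not_le, Finset.card_univ, Fintype.card_fin] at this
    rw [hP]; exact this
  have hZc : (Finset.univ.filter fun i : Fin 10 => lam i ≠ 0).card + (N - P) = 10 ∧ P ≤ N := by
    have hPN : (Finset.univ.filter fun i : Fin 10 => 0 < lam i) ⊆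
        (Finset.univ.filter fun i : Fin 10 => 0 ≤ lam i) := by
      intro i hi
      simp only [Finset.mem_filter, Finset.mem_univ, true_and] at hi ⊢
      exact hi.le
    have h1 : P ≤ N := by rw [hP, hN]; exact Finset.card_le_card hPN
    have h2 := Finset.card_filter_add_card_filter_not (s := (Finset.univ : Finset (Fin 10)))
      (fun i => lam i ≠ 0)
    simp only [not_not, Finset.card_univ, Fintype.card_fin] at h2
    have h3 : (Finset.univ.filter fun i : Fin 10 => lam i = 0).card = N - P := by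
      rw [hN, hP, ← Finset.card_sdiff_of_subset hPN]
      congr 1
      ext i
      simp only [Finset.mem_filter, Finset.mem_univ, true_and, Finset.mem_sdiff, not_lt]
      constructor
      · intro h; rw [h]; exact ⟨le_rfl, le_rfl⟩
      · rintro ⟨h1, h2⟩; exact le_antisymm h2 h1
    rw [h3] at h2
    exact ⟨h2, h1⟩
  have hNP : N = 5 + crk R ∧ P = 5 - crk R ∧ crk R ≤ 5 := by
    have e1 := hZc.1
    have e2 := hZc.2
    rw [← hN] at d1
    omega
  have q1 : ∀ a : Fin 10, a.val < P ↔ 0 < lam a := by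
    intro a
    rw [hP]
    exact Tuple.lt_card_gt_iff_apply_gt_of_antitone (a := (0 : ℝ)) (j := a) hl
  have q2 : ∀ a : Fin 10, a.val < N ↔ 0 ≤ lam a := by
    intro a
    rw [hN]
    exact Tuple.lt_card_ge_iff_apply_ge_of_antitone (a := (0 : ℝ)) (j := a) hl
  refine ⟨hNP.2.2, ?_, ?_, ?_⟩
  · intro a ha
    exact (q1 a).1 (by omega)
  · intro a ha ha'
    have h1 := (q2 a).1 (by omega)
    have h2 : ¬ 0 < lam a := fun h => by
      have := (q1 a).2 h
      omega
    exact le_antisymm (not_lt.1 h2) h1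
  · intro a ha
    by_contra h
    have := (q2 a).2 (not_lt.1 h)
    omega


theorem crk_eq_zero_iff {R : Matrix (Fin 5) (Fin 5) ℂ} : crk R = 0 ↔ R.det ≠ 0 := by
  rw [crk, Submodule.finrank_eq_zero, ne_eq, ← Matrix.exists_mulVec_eq_zero_iff]
  constructor
  · rintro h ⟨u, hu, hRu⟩
    apply hu
    have : u ∈ LinearMap.ker R.mulVecLin := by
      rw [LinearMap.mem_ker, Matrix.mulVecLin_apply]; exact hRu
    rw [h] at this
    simpa using this
  · intro h
    rw [Submodule.eq_bot_iff]
    intro u hu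
    by_contra h0
    exact h ⟨u, h0, by rw [LinearMap.mem_ker, Matrix.mulVecLin_apply] at hu; exact hu⟩

/-- for corank one the adjugate does not vanish. -/
theorem adj_of_crk_one {R : Matrix (Fin 5) (Fin 5) ℂ} (hR : R.transpose = R) (h : crk R = 1) :
    R.det = 0 ∧ R.adjugate ≠ 0 := by
  have hd : R.det = 0 := by
    by_contra hcon
    rw [← ne_eq, ← crk_eq_zero_iff] at hcon
    omega
  refine ⟨hd, fun hadj => ?_⟩
  obtain ⟨κ, hκ0, hκ⟩ := finrank_eq_one_iff'.1 h
  have hκ1 : R.mulVec κ.1 = 0 := by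
    have := κ.2
    rwa [LinearMap.mem_ker, Matrix.mulVecLin_apply] at this
  obtain ⟨i, hi⟩ : ∃ i, κ.1 i ≠ 0 := by
    by_contra hcon
    push Not at hcon
    exact hκ0 (Subtype.ext (funext hcon))
  have h1 : (R.updateRow i (Pi.single i 1)).det = 0 := by
    rw [← Matrix.adjugate_apply, hadj]; rfl
  obtain ⟨u, hu, hMu⟩ := Matrix.exists_mulVec_eq_zero_iff.2 h1
  have h2 : u i = 0 := by
    have := congrFun hMu i
    rw [Matrix.mulVec, Matrix.updateRow_self, single_dotProduct, one_mul] at this
    exact this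
  have h3 : ∀ k, k ≠ i → R.mulVec u k = 0 := by
    intro k hk
    have := congrFun hMu k
    rw [Matrix.mulVec, Matrix.updateRow_ne hk] at this
    exact this
  have h4 : κ.1 i * R.mulVec u i = 0 := by
    have h5 : dotProduct κ.1 (R.mulVec u) = 0 := by
      rw [Matrix.dotProduct_mulVec, ← Matrix.mulVec_transpose, hR, hκ1, zero_dotProduct]
    rw [dotProduct, Finset.sum_eq_single i] at h5
    · exact h5
    · intro k _ hk
      rw [h3 k hk, mul_zero]
    · intro h; exact absurd (Finset.mem_univ i) h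
  have h5 : R.mulVec u = 0 := by
    funext k
    by_cases hk : k = i
    · rw [hk]
      exact (mul_eq_zero.1 h4).resolve_left hi
    · exact h3 k hk
  obtain ⟨c, hc⟩ := hκ ⟨u, by rw [LinearMap.mem_ker, Matrix.mulVecLin_apply]; exact h5⟩
  have hc' : c • κ.1 = u := congrArg Subtype.val hc
  have hc0 : c = 0 := by
    have := congrFun hc' i
    rw [h2, Pi.smul_apply, smul_eq_mul] at this
    exact (mul_eq_zero.1 this).resolve_right hi
  apply hu
  rw [← hc', hc0, zero_smul]

/-- a singular matrix with nonzero adjugate has corank one. -/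
theorem crk_one_of_adj {R : Matrix (Fin 5) (Fin 5) ℂ} (hd : R.det = 0) (ha : R.adjugate ≠ 0) :
    crk R = 1 := by
  have h0 : crk R ≠ 0 := fun h => crk_eq_zero_iff.1 h hd
  by_contra h1
  have h2 : 2 ≤ crk R := by omega
  apply ha
  ext i j
  rw [Matrix.adjugate_apply, Matrix.zero_apply, ← Matrix.exists_mulVec_eq_zero_iff]
  let f : LinearMap.ker R.mulVecLin →ₗ[ℂ] ℂ :=
    (LinearMap.proj i : (Fin 5 → ℂ) →ₗ[ℂ] ℂ) ∘ₗ (LinearMap.ker R.mulVecLin).subtype
  have h3 : LinearMap.ker f ≠ ⊥ := by
    apply LinearMap.ker_ne_bot_of_finrank_lt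
    rw [Module.finrank_self]
    unfold crk at h2
    omega
  obtain ⟨u, hu, hu0⟩ := (Submodule.ne_bot_iff _).1 h3
  refine ⟨u.1, fun h => hu0 (Subtype.ext h), ?_⟩
  have h4 : R.mulVec u.1 = 0 := by
    have := u.2
    rwa [LinearMap.mem_ker, Matrix.mulVecLin_apply] at this
  have h5 : u.1 i = 0 := hu
  funext k
  by_cases hk : k = j
  · rw [hk, Matrix.mulVec, Matrix.updateRow_self, single_dotProduct, one_mul, h5]; rfl
  · rw [Matrix.mulVec, Matrix.updateRow_ne hk]
    exact congrFun h4 k

/-- spectral theorem in vector form. -/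
theorem spec_vec {R : Matrix (Fin 5) (Fin 5) ℂ} (hR : R.transpose = R) :
    ∃ (v : Fin 10 → Fin 5 → ℂ) (lam : Fin 10 → ℝ),
      (∀ a b, ∑ k, (v a k * (starRingEnd ℂ) (v b k)).re = if a = b then 1 else 0) ∧
      (∀ x : Fin 10 → ℝ, qf R (fun k => ∑ a, ((x a : ℝ) : ℂ) * v a k) = ∑ a, lam a * (x a) ^ 2) ∧
      (∀ u : Fin 5 → ℂ, ∃ x : Fin 10 → ℝ, u = fun k => ∑ a, ((x a : ℝ) : ℂ) * v a k) ∧
      (∀ a, R.mulVec (v a) = fun k => ((lam a : ℝ) : ℂ) * (starRingEnd ℂ) (v a k)) ∧
      Antitone lam ∧ crk R ≤ 5 ∧ (∀ a : Fin 10, a.val < 5 - crk R → 0 < lam a) ∧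
      (∀ a : Fin 10, 5 - crk R ≤ a.val → a.val < 5 + crk R → lam a = 0) ∧
      (∀ a : Fin 10, 5 + crk R ≤ a.val → lam a < 0) := by
  obtain ⟨O, lam, hl, hO⟩ := spec_exists hR
  obtain ⟨c1, c2, c3, c4⟩ := spec_count hR O lam hl hO
  have hsum : ∀ x : Fin 10 → ℝ, (fun k => ∑ a, ((x a : ℝ) : ℂ) *
      toC (O (EuclideanSpace.single a (1 : ℝ))) k) = toC (O (WithLp.toLp 2 x)) := by
    intro x
    have h1 : (WithLp.toLp 2 x : E 10) = ∑ a, x a • (EuclideanSpace.single a (1 : ℝ) : E 10) := by
      ext j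
      simp [Finset.sum_apply, Pi.single_apply]
    rw [h1, map_sum, map_sum]
    funext k
    rw [Finset.sum_apply]
    refine Finset.sum_congr rfl fun a _ => ?_
    rw [map_smul, map_smul, Pi.smul_apply, Complex.real_smul]
  refine ⟨fun a => toC (O (EuclideanSpace.single a 1)), lam, ?_, ?_, ?_, ?_, hl, c1, c2, c3, c4⟩
  · intro a b
    rw [toC_inner, O.inner_map_map, EuclideanSpace.inner_single_left]
    simp [Pi.single_apply]
  · intro x
    rw [hsum, ← bf_self, hO]
    refine Finset.sum_congr rfl fun i _ => ?_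
    show lam i * x i * x i = _
    ring
  · intro u
    refine ⟨fun a => O.symm (toC.symm u) a, ?_⟩
    rw [hsum]
    have : (WithLp.toLp 2 fun a => O.symm (toC.symm u) a : E 10) = O.symm (toC.symm u) := rfl
    rw [this, O.apply_symm_apply, LinearEquiv.apply_symm_apply]
  · intro a
    -- both sides have the same real pairing with every vector
    have key : ∀ y : Fin 5 → ℂ, (dotProduct y (R.mulVec (toC (O (EuclideanSpace.single a 1))))).re =
        (dotProduct y (fun k => ((lam a : ℝ) : ℂ) *
          (starRingEnd ℂ) (toC (O (EuclideanSpace.single a 1)) k))).re := by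
      intro y
      have h1 := hO (O.symm (toC.symm y)) (EuclideanSpace.single a 1)
      rw [O.apply_symm_apply, bf_apply, LinearEquiv.apply_symm_apply] at h1
      rw [h1]
      have h2 : ∑ i, lam i * (O.symm (toC.symm y)) i *
          (EuclideanSpace.single a (1:ℝ) : E 10) i = lam a * (O.symm (toC.symm y)) a := by
        rw [Finset.sum_eq_single a]
        · simp
        · intro b _ hb
          simp [hb]
        · intro h; exact absurd (Finset.mem_univ a) h
      rw [h2]
      have h3 : (O.symm (toC.symm y)) a = inner ℝ (toC.symm y) (O (EuclideanSpace.single a 1)) := by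
        have h4 := O.symm.inner_map_map (toC.symm y) (O (EuclideanSpace.single a 1))
        rw [← h4, O.symm_apply_apply, EuclideanSpace.inner_single_right]
        simp
      rw [h3, ← toC_inner, LinearEquiv.apply_symm_apply, Finset.mul_sum, dotProduct,
        Complex.re_sum]
      refine Finset.sum_congr rfl fun k _ => ?_
      have e : y k * (((lam a : ℝ) : ℂ) * (starRingEnd ℂ) (toC (O (EuclideanSpace.single a 1)) k)) =
          ((lam a : ℝ) : ℂ) * (y k * (starRingEnd ℂ) (toC (O (EuclideanSpace.single a 1)) k)) := by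
        ring
      rw [e, Complex.re_ofReal_mul]
    funext k
    have h5 := key (Pi.single k 1)
    have h6 := key (Pi.single k (-Complex.I))
    rw [single_dotProduct, single_dotProduct] at h5 h6
    apply Complex.ext
    · simpa using h5
    · have e : ∀ z : ℂ, (-Complex.I * z).re = z.im := by
        intro z; simp
      rw [e, e] at h6
      exact h6

end Pool.Agent.H15.Lev
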