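import Pool.Agent.H15.Lev.T5
import Pool.Agent.H15.Lev.Spec

/-! The space of pairs (covector, vector) with nonnegative value and its two projections. -/

set_option autoImplicit false

namespace Pool.Agent.H15.Lev

open Set Topology Pool.Agent.Helper775.Tight Pool.Agent.Helper775.Tight.SoftCx

/-- the part of the sphere where a diagonal form is nonnegative. -/
def DL (M : ℕ) (lam : Fin M → ℝ) : Set (E M) := {z | z ∈ Sp M M ∧ 0 ≤ ∑ i, lam i * (z i) ^ 2}

theorem DL_cob {M N : ℕ} (lam : Fin M → ℝ)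
    (hneg : ∀ i : Fin M, N ≤ i.val → lam i < 0)
    {n : ℕ} {c : Ch (E M)} (hc : (AS (E M)).Coc (DL M lam) n c)
    (h : (AS (E M)).Cob (Sp M N) n c) : (AS (E M)).Cob (DL M lam) n c := by
  classical
  set P : E M → E M := fun z => WithLp.toLp 2 (fun i => if i.val < N then z i else 0) with hP
  have hPc : Continuous P := by
    rw [hP]
    refine (PiLp.continuous_toLp 2 _).comp (continuous_pi fun i => ?_)
    by_cases hi : i.val < N
    · simp only [hi, if_true]
      fun_prop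
    · simp only [hi, if_false]
      exact continuous_const
  set Y : ℝ → E M → E M := fun t z => (1 - t) • z + t • P z with hY
  have hYi : ∀ t z i, Y t z i = (1 - t) * z i + t * (if i.val < N then z i else 0) :=
    fun t z i => rfl
  have hYlt : ∀ t z (i : Fin M), i.val < N → Y t z i = z i := by
    intro t z i hi
    rw [hYi, if_pos hi]
    ring
  have hYge : ∀ t z (i : Fin M), N ≤ i.val → Y t z i = (1 - t) * z i := by
    intro t z i hi
    rw [hYi, if_neg (not_lt.mpr hi)]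
    ring
  have hYc : Continuous (fun q : ℝ × E M => Y q.1 q.2) := by
    rw [hY]
    have h1 : Continuous (fun q : ℝ × E M => P q.2) := hPc.comp continuous_snd
    exact ((continuous_const.sub continuous_fst).smul continuous_snd).add
      (continuous_fst.smul h1)
  have hY0 : ∀ t, ∀ z ∈ DL M lam, Y t z ≠ 0 := by
    intro t z hz h0
    have hlt : ∀ i : Fin M, i.val < N → z i = 0 := by
      intro i hi
      rw [← hYlt t z i hi, h0]
      rfl
    have hterm : ∀ i ∈ (Finset.univ : Finset (Fin M)), lam i * (z i) ^ 2 ≤ 0 := by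
      intro i _
      rcases Nat.lt_or_ge i.val N with h | h
      · rw [hlt i h]
        simp
      · exact mul_nonpos_of_nonpos_of_nonneg (hneg i h).le (sq_nonneg _)
    have hsum : ∑ i, lam i * (z i) ^ 2 = 0 := le_antisymm (Finset.sum_nonpos hterm) hz.2
    have hall := (Finset.sum_eq_zero_iff_of_nonpos hterm).mp hsum
    have hz0 : z = 0 := by
      ext i
      show z i = 0
      rcases Nat.lt_or_ge i.val N with h | h
      · exact hlt i h
      · have h2 := hall i (Finset.mem_univ i)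
        rcases mul_eq_zero.mp h2 with h3 | h3
        · exact absurd h3 (hneg i h).ne
        · exact pow_eq_zero_iff (by norm_num) |>.mp h3
    have hn := hz.1.1
    rw [hz0, norm_zero] at hn
    norm_num at hn
  have hYsum : ∀ t ∈ Icc (0 : ℝ) 1, ∀ z ∈ DL M lam, 0 ≤ ∑ i, lam i * (Y t z i) ^ 2 := by
    intro t ht z hz
    refine le_trans hz.2 (Finset.sum_le_sum fun i _ => ?_)
    rcases Nat.lt_or_ge i.val N with h | h
    · rw [hYlt t z i h]
    · rw [hYge t z i h, mul_pow]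
      have h1 : (1 - t) ^ 2 ≤ 1 := by nlinarith [ht.1, ht.2]
      have h2 : lam i * z i ^ 2 ≤ 0 := mul_nonpos_of_nonpos_of_nonneg (hneg i h).le (sq_nonneg _)
      nlinarith
  set H : ℝ → E M → E M := fun t z => ‖Y t z‖⁻¹ • Y t z with hH
  have hHn : ∀ t, ∀ z ∈ DL M lam, ‖H t z‖ = 1 := by
    intro t z hz
    have hn : 0 < ‖Y t z‖ := norm_pos_iff.2 (hY0 t z hz)
    rw [hH]
    show ‖‖Y t z‖⁻¹ • Y t z‖ = 1
    rw [norm_smul, norm_inv, norm_norm, inv_mul_cancel₀ hn.ne']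
  have hHD : ∀ t ∈ Icc (0 : ℝ) 1, ∀ z ∈ DL M lam, H t z ∈ DL M lam := by
    intro t ht z hz
    refine ⟨⟨hHn t z hz, fun i hi => absurd i.2 (not_lt.mpr hi)⟩, ?_⟩
    have e : ∑ i, lam i * (H t z i) ^ 2 = (‖Y t z‖⁻¹) ^ 2 * ∑ i, lam i * (Y t z i) ^ 2 := by
      rw [Finset.mul_sum]
      refine Finset.sum_congr rfl fun i _ => ?_
      show lam i * (‖Y t z‖⁻¹ * Y t z i) ^ 2 = _
      ring
    rw [e]
    exact mul_nonneg (sq_nonneg _) (hYsum t ht z hz)
  have hHc : ∀ t ∈ Icc (0 : ℝ) 1, ∀ z ∈ DL M lam,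
      ContinuousAt (fun p : ℝ × E M => H p.1 p.2) (t, z) := by
    intro t _ z hz
    exact (hYc.norm.continuousAt.inv₀ (norm_ne_zero_iff.2 (hY0 t z hz))).smul hYc.continuousAt
  have hcont : ∀ t ∈ Icc (0 : ℝ) 1, ∀ x ∈ DL M lam, ContinuousAt (H t) x := by
    intro t ht x hx
    have h2 : ContinuousAt (fun y : E M => (t, y)) x := by fun_prop
    exact ContinuousAt.comp (x := x) (f := fun y : E M => (t, y))
      (g := fun p : ℝ × E M => H p.1 p.2) (hHc t ht x hx) h2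
  have m0 : (0 : ℝ) ∈ Icc (0 : ℝ) 1 := left_mem_Icc.2 zero_le_one
  have m1 : (1 : ℝ) ∈ Icc (0 : ℝ) 1 := right_mem_Icc.2 zero_le_one
  have h0 : ∀ z ∈ DL M lam, H 0 z = z := by
    intro z hz
    have h4 : Y 0 z = z := by simp [hY]
    show ‖Y 0 z‖⁻¹ • Y 0 z = z
    rw [h4, hz.1.1, inv_one, one_smul]
  have h1 : MapsTo (H 1) (DL M lam) (Sp M N) := by
    intro z hz
    refine ⟨hHn 1 z hz, fun i hi => ?_⟩
    show ‖Y 1 z‖⁻¹ * Y 1 z i = 0
    rw [hYge 1 z i hi]
    ring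
  have hcomp : IsCompact (DL M lam) := by
    have e : DL M lam = Sp M M ∩ {z | 0 ≤ ∑ i, lam i * (z i) ^ 2} := rfl
    rw [e]
    apply (Sp_compact M M).inter_right
    apply isClosed_le continuous_const
    fun_prop
  have a1 := cob_pb_sub (F := DL M lam) (g₁ := id) (g₂ := H 0) (fun x _ => continuousAt_id)
    (hcont 0 m0) (fun x hx => (h0 x hx).symm) (mapsTo_id _) hc
  have a2 := cob_pb_homotopy hcomp H hHc hHD hc
  have a3 := cob_pb (F := DL M lam) (g := H 1) (hcont 1 m1) h1 h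
  have e1 : pb (id : E M → E M) c = c := by
    funext l
    simp [pb]
  rw [e1] at a1
  have a4 := (a1.add a2).add a3
  simpa using a4

theorem hemi_acy {n : ℕ} (u : E n) (hu : u ≠ 0) :
    AcyQ (AS (E n)) one {w | w ∈ Sp n n ∧ 0 ≤ inner ℝ w u} := by
  have hu0 : 0 < ‖u‖ := norm_pos_iff.2 hu
  set p : E n := ‖u‖⁻¹ • u with hp
  have hpn : ‖p‖ = 1 := by
    rw [hp, norm_smul, norm_inv, norm_norm, inv_mul_cancel₀ hu0.ne']
  have hpu : inner ℝ p u = ‖u‖ := by
    rw [hp, inner_smul_left, real_inner_self_eq_norm_sq]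
    simp only [conj_trivial]
    field_simp
  have hSp : ∀ x : E n, ‖x‖ = 1 → x ∈ Sp n n := fun x hx =>
    ⟨hx, fun i hi => absurd i.isLt (not_lt.2 hi)⟩
  have hcp : IsCompact {w : E n | w ∈ Sp n n ∧ 0 ≤ inner ℝ w u} := by
    have h : {w : E n | w ∈ Sp n n ∧ 0 ≤ inner ℝ w u} =
        Sp n n ∩ {w | 0 ≤ inner ℝ w u} := rfl
    rw [h]
    refine (Sp_compact n n).inter_right ?_
    apply isClosed_le continuous_const
    fun_prop
  set Y : ℝ → E n → E n := fun t x => (1 - t) • x + t • p with hY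
  have hYu : ∀ t x, inner ℝ (Y t x) u = (1 - t) * inner ℝ x u + t * ‖u‖ := by
    intro t x
    rw [hY]
    simp only [inner_add_left, inner_smul_left, conj_trivial, hpu]
  have hY0 : ∀ t ∈ Icc (0 : ℝ) 1, ∀ x ∈ {w : E n | w ∈ Sp n n ∧ 0 ≤ inner ℝ w u},
      Y t x ≠ 0 := by
    intro t ht x hx h0
    have h1 := hYu t x
    rw [h0, inner_zero_left] at h1
    have h3 : 0 ≤ (1 - t) * inner ℝ x u := mul_nonneg (by linarith [ht.2]) hx.2
    have ht0 : t = 0 := by
      by_contra hne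
      have htp : 0 < t := lt_of_le_of_ne ht.1 (Ne.symm hne)
      have := mul_pos htp hu0
      linarith
    have h4 : Y t x = x := by rw [hY, ht0]; simp
    rw [h0] at h4
    have := hx.1.1
    rw [← h4, norm_zero] at this
    norm_num at this
  refine acy_of_contract hcp (fun t x => ‖Y t x‖⁻¹ • Y t x) p ?_ ?_ ?_ ?_
    ⟨hSp p hpn, by rw [hpu]; exact hu0.le⟩
  · intro t ht x hx
    have hc : Continuous (fun q : ℝ × E n => Y q.1 q.2) := by
      rw [hY]
      fun_prop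
    exact (hc.norm.continuousAt.inv₀ (norm_ne_zero_iff.2 (hY0 t ht x hx))).smul hc.continuousAt
  · intro t ht x hx
    have hn : 0 < ‖Y t x‖ := norm_pos_iff.2 (hY0 t ht x hx)
    refine ⟨hSp _ ?_, ?_⟩
    · rw [norm_smul, norm_inv, norm_norm, inv_mul_cancel₀ hn.ne']
    · show 0 ≤ inner ℝ (‖Y t x‖⁻¹ • Y t x) u
      rw [inner_smul_left, hYu]
      have h3 : 0 ≤ (1 - t) * inner ℝ x u := mul_nonneg (by linarith [ht.2]) hx.2
      have h4 : 0 ≤ t * ‖u‖ := mul_nonneg ht.1 hu0.le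
      simp only [conj_trivial]
      exact mul_nonneg (inv_nonneg.2 hn.le) (by linarith)
  · intro x hx
    have h4 : Y 0 x = x := by simp [hY]
    simp only [h4, hx.1.1, inv_one, one_smul]
  · intro x hx
    have h4 : Y 1 x = p := by simp [hY]
    simp only [h4, hpn, inv_one, one_smul]

/-- the quadratic map -/
noncomputable def fS (S : Fin 7 → Matrix (Fin 5) (Fin 5) ℂ) (z : E 10) : E 7 :=
  WithLp.toLp 2 fun j => qf (S j) (toC z)

theorem qf_Sw (S : Fin 7 → Matrix (Fin 5) (Fin 5) ℂ) (w : E 7) (u : Fin 5 → ℂ) :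
    qf (Sw S w) u = ∑ j, w j * qf (S j) u := by
  unfold qf Sw
  rw [Matrix.sum_mulVec, dotProduct_sum, Complex.re_sum]
  refine Finset.sum_congr rfl fun j _ => ?_
  rw [Matrix.smul_mulVec, dotProduct_smul, smul_eq_mul, Complex.re_ofReal_mul]

theorem inner_fS (S : Fin 7 → Matrix (Fin 5) (Fin 5) ℂ) (w : E 7) (z : E 10) :
    inner ℝ w (fS S z) = qf (Sw S w) (toC z) := by
  rw [qf_Sw, PiLp.inner_apply]
  refine Finset.sum_congr rfl fun j _ => ?_
  simp [fS, mul_comm]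

theorem Sw_symm {S : Fin 7 → Matrix (Fin 5) (Fin 5) ℂ} (hS : ∀ j, (S j).transpose = S j) (w : E 7) :
    (Sw S w).transpose = Sw S w := by
  unfold Sw
  rw [Matrix.transpose_sum]
  refine Finset.sum_congr rfl fun j _ => ?_
  rw [Matrix.transpose_smul, hS]

theorem toC_continuous : Continuous (fun z : E 10 => toC z) :=
  LinearMap.continuous_of_finiteDimensional toC.toLinearMap

theorem qf_continuous {X : Type*} [TopologicalSpace X] {R : X → Matrix (Fin 5) (Fin 5) ℂ}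
    {u : X → Fin 5 → ℂ} (hR : Continuous R) (hu : Continuous u) :
    Continuous fun x => qf (R x) (u x) := by
  unfold qf
  exact Complex.continuous_re.comp (Continuous.dotProduct hu (Continuous.matrix_mulVec hR hu))

theorem Sw_continuous (S : Fin 7 → Matrix (Fin 5) (Fin 5) ℂ) : Continuous (Sw S) := by
  unfold Sw
  refine continuous_finsetSum _ fun j _ => ?_
  exact (Complex.continuous_ofReal.comp (by fun_prop)).smul continuous_const

/-- pairs of unit vectors with nonnegative value. -/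
def BB (S : Fin 7 → Matrix (Fin 5) (Fin 5) ℂ) : Set (E 7 × E 10) :=
  {p | p.1 ∈ Sp 7 7 ∧ p.2 ∈ Sp 10 10 ∧ 0 ≤ qf (Sw S p.1) (toC p.2)}

theorem mem_Sp {n : ℕ} {x : E n} : x ∈ Sp n n ↔ ‖x‖ = 1 :=
  ⟨fun h => h.1, fun h => ⟨h, fun i hi => absurd i.isLt (not_lt.2 hi)⟩⟩

theorem BB_compact (S : Fin 7 → Matrix (Fin 5) (Fin 5) ℂ) : IsCompact (BB S) := by
  have h1 : IsCompact ((Sp 7 7) ×ˢ (Sp 10 10)) := (Sp_compact 7 7).prod (Sp_compact 10 10)
  have h2 : IsClosed {p : E 7 × E 10 | 0 ≤ qf (Sw S p.1) (toC p.2)} :=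
    isClosed_le continuous_const (qf_continuous ((Sw_continuous S).comp continuous_fst)
      (toC_continuous.comp continuous_snd))
  have h3 : BB S = ((Sp 7 7) ×ˢ (Sp 10 10)) ∩
      {p : E 7 × E 10 | 0 ≤ qf (Sw S p.1) (toC p.2)} := by
    ext p
    constructor
    · rintro ⟨a, b, c⟩
      exact ⟨⟨a, b⟩, c⟩
    · rintro ⟨⟨a, b⟩, c⟩
      exact ⟨a, b, c⟩
  rw [h3]
  exact h1.inter_right h2

/-- the Vietoris-Begle argument: `BB` has the cohomology of the `9`-sphere. -/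
theorem BB_ex {S : Fin 7 → Matrix (Fin 5) (Fin 5) ℂ} (hfree : ∀ u, u ≠ 0 → ∃ j, qf (S j) u ≠ 0)
    (n : ℕ) (hn : 2 ≤ n) (hn9 : n ≤ 9) : (AS (E 7 × E 10)).Ex (BB S) n := by
  have hG := BB_compact S
  let φ := phi (Prod.snd : E 7 × E 10 → E 10) continuous_snd (BB S) hG
  have hfib : ∀ z ∈ Sp 10 10, AcyQ (AS (E 7 × E 10)) one (BB S ∩ Prod.snd ⁻¹' {z}) := by
    intro z hz
    have hne : fS S z ≠ 0 := by
      intro h0
      have hz0 : toC z ≠ 0 := by
        intro h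
        have : z = 0 := by
          have := congrArg toC.symm h
          simpa using this
        have h1 := hz.1
        rw [this, norm_zero] at h1
        exact zero_ne_one h1
      obtain ⟨j, hj⟩ := hfree _ hz0
      apply hj
      have : fS S z j = 0 := by rw [h0]; rfl
      exact this
    have hA := hemi_acy (fS S z) hne
    have hne2 : (BB S ∩ Prod.snd ⁻¹' {z}).Nonempty := by
      by_contra hc
      apply hA.1
      intro w hw
      refine absurd (⟨(w, z), ⟨hw.1, hz, ?_⟩, rfl⟩ : (BB S ∩ Prod.snd ⁻¹' {z}).Nonempty) hc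
      rw [← inner_fS]
      exact hw.2
    refine acy_retract (F' := {w | w ∈ Sp 7 7 ∧ 0 ≤ inner ℝ w (fS S z)})
      (g := Prod.fst) (g' := fun w => (w, z)) (fun x _ => continuous_fst.continuousAt)
      (fun y _ => (Continuous.prodMk_left z).continuousAt) ?_ ?_ ?_ hne2 hA
    · rintro ⟨w, z'⟩ ⟨⟨h1, h2, h3⟩, h4⟩
      have h5 : z' = z := h4
      subst h5
      refine ⟨h1, ?_⟩
      rw [inner_fS]
      exact h3
    · intro w hw
      refine ⟨⟨hw.1, hz, ?_⟩, rfl⟩
      rw [← inner_fS]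
      exact hw.2
    · rintro ⟨w, z'⟩ ⟨⟨h1, h2, h3⟩, h4⟩
      have h5 : z' = z := h4
      subst h5
      rfl
  have hcone : ∀ z ∈ Sp 10 10, ∀ m, (cone φ).Ex {z} m := by
    intro z hz m
    obtain ⟨a1, a2, a3⟩ := hfib z hz
    refine cone_ex_at φ one z (one_D_mem z) (acy_singleton z) AS_rat
      (PF_rat Prod.snd continuous_snd (BB S) hG) ?_ ?_ m ?_
    · intro h
      apply a1
      intro x hx
      exact (mem_push_N (AS (E 7 × E 10)) Prod.snd continuous_snd (BB S) hG z 1 one).1 h x hx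
    · intro k hk
      rw [push_coc] at hk
      obtain ⟨r, hr⟩ := a2 k hk
      refine ⟨r, fun w hw => ?_⟩
      rw [mem_singleton_iff.1 hw, mem_push_N]
      exact hr
    · intro h3
      rw [push_ex]
      exact a3 _ (by omega)
  have hE : (cone φ).Ex (Sp 10 10) (n + 1) :=
    ex_of_pointwise (n + 1) (Sp_compact 10 10) fun z hz m _ => hcone z hz m
  have h2 := ex_of_cone_ex φ hE (sp_ex (by norm_num) le_rfl n hn (by omega))
  rw [push_ex] at h2
  have e : BB S ∩ Prod.snd ⁻¹' Sp 10 10 = BB S := by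
    ext p
    exact ⟨fun h => h.1, fun h => ⟨h, h.2.1⟩⟩
  rwa [e] at h2

/-- reversal of the vector -/
def nu (p : E 7 × E 10) : E 7 × E 10 := (p.1, -p.2)

theorem nu_continuous : Continuous nu := continuous_fst.prodMk continuous_snd.neg

theorem nu_mem {S : Fin 7 → Matrix (Fin 5) (Fin 5) ℂ} {x : E 7 × E 10} (hx : x ∈ BB S) :
    nu x ∈ BB S := by
  refine ⟨hx.1, mem_Sp.2 (by rw [nu, norm_neg]; exact hx.2.1.1), ?_⟩
  show 0 ≤ qf (Sw S x.1) (toC (-x.2))
  rw [map_neg, qf_neg]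
  exact hx.2.2

/-- the symmetry of order four -/
noncomputable def TT (p : E 7 × E 10) : E 7 × E 10 := (-p.1, JJ p.2)

theorem JJ_continuous : Continuous (fun z : E 10 => JJ z) :=
  LinearMap.continuous_of_finiteDimensional JJ

theorem TT_continuous : Continuous TT :=
  continuous_fst.neg.prodMk (JJ_continuous.comp continuous_snd)

theorem Sw_neg (S : Fin 7 → Matrix (Fin 5) (Fin 5) ℂ) (w : E 7) : Sw S (-w) = - Sw S w := by
  unfold Sw
  rw [← Finset.sum_neg_distrib]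
  refine Finset.sum_congr rfl fun j _ => ?_
  simp

theorem qf_neg_left (R : Matrix (Fin 5) (Fin 5) ℂ) (u : Fin 5 → ℂ) : qf (-R) u = - qf R u := by
  unfold qf
  rw [Matrix.neg_mulVec, dotProduct_neg, Complex.neg_re]

theorem TT_mem {S : Fin 7 → Matrix (Fin 5) (Fin 5) ℂ} {x : E 7 × E 10} (hx : x ∈ BB S) :
    TT x ∈ BB S := by
  refine ⟨mem_Sp.2 (by show ‖-x.1‖ = 1; rw [norm_neg]; exact hx.1.1),
    mem_Sp.2 (by show ‖JJ x.2‖ = 1; rw [JJ_norm]; exact hx.2.1.1), ?_⟩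
  show 0 ≤ qf (Sw S (-x.1)) (toC (JJ x.2))
  rw [toC_JJ, qf_I, Sw_neg, qf_neg_left, neg_neg]
  exact hx.2.2

theorem TT_TT (x : E 7 × E 10) : TT (TT x) = nu x := by
  show (- - x.1, JJ (JJ x.2)) = (x.1, - x.2)
  rw [neg_neg, JJ_JJ]

theorem nu_nu (x : E 7 × E 10) : nu (nu x) = x := by
  show (x.1, - - x.2) = x
  rw [neg_neg]

/-- the fibre over a covector -/
def Fw (S : Fin 7 → Matrix (Fin 5) (Fin 5) ℂ) (w : E 7) : Set (E 7 × E 10) :=
  BB S ∩ Prod.fst ⁻¹' {w}

/-- restriction to the sphere of nonnegative directions is injective. -/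
theorem fib_key {S : Fin 7 → Matrix (Fin 5) (Fin 5) ℂ} {w : E 7} (hw : w ∈ Sp 7 7)
    (O : E 10 ≃ₗᵢ[ℝ] E 10) (lam : Fin 10 → ℝ) (N : ℕ)
    (hO : ∀ x, qf (Sw S w) (toC (O x)) = ∑ i, lam i * (x i) ^ 2)
    (hneg : ∀ i : Fin 10, N ≤ i.val → lam i < 0)
    {n : ℕ} {k : Ch (E 7 × E 10)} (hk : (AS _).Coc (Fw S w) n k)
    (hcob : (AS (E 10)).Cob (Sp 10 N) n (pb (fun z => (w, O z)) k)) :
    (AS _).Cob (Fw S w) n k := by
  let j : E 10 → E 7 × E 10 := fun z => (w, O z)
  let g : E 7 × E 10 → E 10 := fun p => O.symm p.2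
  have hjc : Continuous j := continuous_const.prodMk O.continuous
  have hgc : Continuous g := O.symm.continuous.comp continuous_snd
  have hjF : MapsTo j (DL 10 lam) (Fw S w) := by
    intro z hz
    refine ⟨⟨hw, mem_Sp.2 (by show ‖O z‖ = 1; rw [O.norm_map]; exact hz.1.1), ?_⟩, rfl⟩
    show 0 ≤ qf (Sw S w) (toC (O z))
    rw [hO]
    exact hz.2
  have hgF : MapsTo g (Fw S w) (DL 10 lam) := by
    rintro p ⟨⟨hp1, hp2, hp3⟩, hp4⟩
    have hp4' : p.1 = w := hp4
    refine ⟨mem_Sp.2 (by show ‖O.symm p.2‖ = 1; rw [O.symm.norm_map]; exact hp2.1), ?_⟩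
    show 0 ≤ ∑ i, lam i * ((O.symm p.2) i) ^ 2
    rw [← hO, O.apply_symm_apply, ← hp4']
    exact hp3
  have hjg : ∀ p ∈ Fw S w, j (g p) = p := by
    rintro p ⟨_, hp4⟩
    have hp4' : p.1 = w := hp4
    show (w, O (O.symm p.2)) = p
    rw [O.apply_symm_apply, ← hp4']
  have h1 := coc_pb (fun x _ => hjc.continuousAt) hjF hk
  have h2 := DL_cob lam hneg h1 hcob
  have h3 := cob_pb (F := Fw S w) (g := g) (fun x _ => hgc.continuousAt) hgF h2
  have h4 := cob_retract (F := Fw S w) (F' := DL 10 lam) (g := g) (g' := j)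
    (fun x _ => hgc.continuousAt) (fun x _ => hjc.continuousAt) hgF hjF hjg hk
  have h5 := h4.add h3
  simpa using h5

theorem fib_maps {S : Fin 7 → Matrix (Fin 5) (Fin 5) ℂ} {w : E 7} (hw : w ∈ Sp 7 7)
    (O : E 10 ≃ₗᵢ[ℝ] E 10) (lam : Fin 10 → ℝ) (N : ℕ)
    (hO : ∀ x, qf (Sw S w) (toC (O x)) = ∑ i, lam i * (x i) ^ 2)
    (hpos : ∀ i : Fin 10, i.val < N → 0 ≤ lam i) :
    MapsTo (fun z : E 10 => (w, O z)) (Sp 10 N) (Fw S w) := by
  rintro z ⟨hz1, hz2⟩
  refine ⟨⟨hw, mem_Sp.2 (by show ‖O z‖ = 1; rw [O.norm_map]; exact hz1), ?_⟩, rfl⟩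
  show 0 ≤ qf (Sw S w) (toC (O z))
  rw [hO]
  refine Finset.sum_nonneg fun i _ => ?_
  rcases lt_or_ge i.val N with h | h
  · exact mul_nonneg (hpos i h) (sq_nonneg _)
  · rw [hz2 i h]
    simp

/-- cohomology of the fibres -/
theorem fib_facts {S : Fin 7 → Matrix (Fin 5) (Fin 5) ℂ} (hS : ∀ j, (S j).transpose = S j)
    {w : E 7} (hw : w ∈ Sp 7 7) :
    (Fw S w).Nonempty ∧ Conn (AS _) one (Fw S w) ∧
    (∀ n, 2 ≤ n → n ≠ 5 + crk (Sw S w) → (AS (E 7 × E 10)).Ex (Fw S w) n) ∧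
    (crk (Sw S w) = 0 → ∀ k, (AS _).Coc (Fw S w) 5 k → (AS _).Cob (Fw S w) 5 (pb nu k + k)) ∧
    (crk (Sw S w) = 1 → ∀ k k', (AS _).Coc (Fw S w) 6 k → (AS _).Coc (Fw S w) 6 k' →
      ¬ (AS _).Cob (Fw S w) 6 k → ∃ r : ℚ, (AS _).Cob (Fw S w) 6 (k' - r • k)) := by
  obtain ⟨O, lam, hl, hO'⟩ := spec_exists (Sw_symm hS w)
  obtain ⟨hc5, hp, hz, hn⟩ := spec_count (Sw_symm hS w) O lam hl hO'
  have hO : ∀ x, qf (Sw S w) (toC (O x)) = ∑ i, lam i * (x i) ^ 2 := by
    intro x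
    rw [← bf_self, hO']
    refine Finset.sum_congr rfl fun i _ => ?_
    ring
  obtain ⟨N, hN⟩ : ∃ N, N = 5 + crk (Sw S w) := ⟨_, rfl⟩
  have hneg : ∀ i : Fin 10, N ≤ i.val → lam i < 0 := fun i hi => hn i (by omega)
  have hpos : ∀ i : Fin 10, i.val < N → 0 ≤ lam i := by
    intro i hi
    rcases Nat.lt_or_ge i.val (5 - crk (Sw S w)) with h | h
    · exact (hp i h).le
    · exact (hz i h (by omega)).ge
  have hjm := fib_maps hw O lam N hO hpos
  have hjc : Continuous (fun z : E 10 => (w, O z)) := continuous_const.prodMk O.continuous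
  have hcS : ∀ n k, (AS _).Coc (Fw S w) n k → (AS _).Coc (Sp 10 N) n (pb (fun z => (w, O z)) k) :=
    fun n k hk => coc_pb (fun x _ => hjc.continuousAt) hjm hk
  have KEY : ∀ n k, (AS _).Coc (Fw S w) n k →
      (AS _).Cob (Sp 10 N) n (pb (fun z => (w, O z)) k) → (AS _).Cob (Fw S w) n k :=
    fun n k hk h => fib_key hw O lam N hO hneg hk h
  have hN10 : N ≤ 10 := by omega
  refine ⟨?_, ?_, ?_, ?_, ?_⟩
  · obtain ⟨z, hz⟩ := sp_nonempty (M := 10) (k := N) (by omega) hN10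
    exact ⟨_, hjm hz⟩
  · intro k hk
    obtain ⟨r, h⟩ := sp_conn (M := 10) (k := N) (by omega) hN10 _ (hcS 1 k hk)
    refine ⟨r, cob_one.1 (KEY 1 (k - r • one) (hk.sub (coc_smul_one r)) (cob_one.2 ?_))⟩
    intro z hz
    have := h z hz
    rw [pb_sub, pb_smul, pb_one]
    exact this
  · intro n hn2 hnN k hk
    exact KEY n k hk (sp_ex (by omega) hN10 n hn2 (by omega) _ (hcS n k hk))
  · intro hc0 k hk
    have hN5 : N = 5 := by omega
    have hcn : (AS (E 7 × E 10)).Coc (Fw S w) 5 (pb nu k) := by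
      refine coc_pb (fun x _ => nu_continuous.continuousAt) ?_ hk
      intro x hx
      exact ⟨nu_mem hx.1, hx.2⟩
    refine KEY 5 _ (hcn.add hk) ?_
    have h1 := hcS 5 k hk
    rw [hN5] at h1 ⊢
    have h2 := antipode_sign (M := 10) (k := 5) (by norm_num) (by norm_num) h1
    convert h2 using 1
    rw [pb_add, pb_pb, pb_pb]
    have e : (fun z : E 10 => nu (w, O z)) = fun z => (w, O (-z)) := by
      funext z
      show (w, - O z) = _
      rw [map_neg]
    rw [e]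
    norm_num
  · intro hc1 k k' hk hk' hnk
    have hN6 : N = 6 := by omega
    obtain ⟨c, hc, hcn, hcr⟩ := sp_top (M := 10) (k := 6) (by norm_num) (by norm_num)
    have h1 := hcS 6 k hk
    have h2 := hcS 6 k' hk'
    rw [hN6] at h1 h2
    obtain ⟨r, hr⟩ := hcr _ h1
    obtain ⟨r', hr'⟩ := hcr _ h2
    have hr0 : r ≠ 0 := by
      rintro rfl
      apply hnk
      refine KEY 6 k hk ?_
      rw [hN6]
      rw [zero_smul, sub_zero] at hr
      exact hr
    refine ⟨r' / r, KEY 6 _ (hk'.sub (Coc_smul _ hk)) ?_⟩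
    rw [hN6, pb_sub, pb_smul]
    have h3 := hr'.sub (Cob_smul (r' / r) hr)
    convert h3 using 1
    rw [smul_sub, smul_smul, div_mul_cancel₀ _ hr0]
    abel

end Pool.Agent.H15.Lev
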