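import Mathlib

/-! An explicit continuous map `ℂ⁵ → ℝ⁷`, even, changing sign under multiplication by `i`, without
nontrivial zeros. -/

set_option autoImplicit false

namespace Pool.Agent.H15.Lev

theorem sq_trick {A B C D t : ℝ} (h1 : A * B = t) (h2 : C * D = t) (h3 : A * D + B * C = 0) :
    t = 0 := by
  have h4 : t ^ 2 = - (B * C) ^ 2 := by
    have e : A * D = - (B * C) := by linarith
    calc t ^ 2 = (A * B) * (C * D) := by rw [h1, h2]; ring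
      _ = (A * D) * (B * C) := by ring
      _ = - (B * C) ^ 2 := by rw [e]; ring
  have h5 := sq_nonneg t
  have h6 := sq_nonneg (B * C)
  have h7 : t ^ 2 = 0 := by linarith
  exact pow_eq_zero_iff (by norm_num) |>.1 h7

/-- the case of a nonzero frame is impossible. -/
theorem core (x1 x2 x3 y1 y2 y3 a1 a2 a3 b1 b2 b3 e1 e2 e3 n c : ℝ)
    (haa : a1 ^ 2 + a2 ^ 2 + a3 ^ 2 = n ^ 2) (hbb : b1 ^ 2 + b2 ^ 2 + b3 ^ 2 = n ^ 2)
    (hee : e1 ^ 2 + e2 ^ 2 + e3 ^ 2 = n ^ 2)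
    (hab : a1 * b1 + a2 * b2 + a3 * b3 = 0) (hae : a1 * e1 + a2 * e2 + a3 * e3 = 0)
    (hbe : b1 * e1 + b2 * e2 + b3 * e3 = 0)
    (N11 : 2 * x1 * y1 + 2 * a1 * b1 = c) (N22 : 2 * x2 * y2 + 2 * a2 * b2 = c)
    (N33 : 2 * x3 * y3 + 2 * a3 * b3 = c)
    (N12 : x1 * y2 + x2 * y1 + a1 * b2 + a2 * b1 = 0)
    (N13 : x1 * y3 + x3 * y1 + a1 * b3 + a3 * b1 = 0)
    (N23 : x2 * y3 + x3 * y2 + a2 * b3 + a3 * b2 = 0)
    (h7 : 2 * (x1 * y1 + x2 * y2 + x3 * y3) + ((x1 * b1 + x2 * b2 + x3 * b3) ^ 2 -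
      (y1 * b1 + y2 * b2 + y3 * b3) ^ 2) = 0) : n = 0 := by
  obtain ⟨XA, hXA⟩ : ∃ XA, XA = x1 * a1 + x2 * a2 + x3 * a3 := ⟨_, rfl⟩
  obtain ⟨YA, hYA⟩ : ∃ YA, YA = y1 * a1 + y2 * a2 + y3 * a3 := ⟨_, rfl⟩
  obtain ⟨XB, hXB⟩ : ∃ XB, XB = x1 * b1 + x2 * b2 + x3 * b3 := ⟨_, rfl⟩
  obtain ⟨YB, hYB⟩ : ∃ YB, YB = y1 * b1 + y2 * b2 + y3 * b3 := ⟨_, rfl⟩
  obtain ⟨XE, hXE⟩ : ∃ XE, XE = x1 * e1 + x2 * e2 + x3 * e3 := ⟨_, rfl⟩
  obtain ⟨YE, hYE⟩ : ∃ YE, YE = y1 * e1 + y2 * e2 + y3 * e3 := ⟨_, rfl⟩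
  have tA : XA * YA = c * n ^ 2 / 2 := by
    rw [hXA, hYA, ← haa]
    linear_combination (a1 ^ 2 * N11 + a2 ^ 2 * N22 + a3 ^ 2 * N33) / 2 + a1 * a2 * N12 +
      a1 * a3 * N13 + a2 * a3 * N23 - (a1 ^ 2 + a2 ^ 2 + a3 ^ 2) * hab
  have tB : XB * YB = c * n ^ 2 / 2 := by
    rw [hXB, hYB, ← hbb]
    linear_combination (b1 ^ 2 * N11 + b2 ^ 2 * N22 + b3 ^ 2 * N33) / 2 + b1 * b2 * N12 +
      b1 * b3 * N13 + b2 * b3 * N23 - (b1 ^ 2 + b2 ^ 2 + b3 ^ 2) * hab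
  have tE : XE * YE = c * n ^ 2 / 2 := by
    rw [hXE, hYE, ← hee]
    linear_combination (e1 ^ 2 * N11 + e2 ^ 2 * N22 + e3 ^ 2 * N33) / 2 + e1 * e2 * N12 +
      e1 * e3 * N13 + e2 * e3 * N23 - (b1 * e1 + b2 * e2 + b3 * e3) * hae
  have tAE : XA * YE + YA * XE = 0 := by
    rw [hXA, hYA, hXE, hYE]
    linear_combination a1 * e1 * N11 + a2 * e2 * N22 + a3 * e3 * N33 +
      (a1 * e2 + a2 * e1) * N12 + (a1 * e3 + a3 * e1) * N13 + (a2 * e3 + a3 * e2) * N23 +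
      (c - (a1 * b1 + a2 * b2 + a3 * b3)) * hae - (a1 ^ 2 + a2 ^ 2 + a3 ^ 2) * hbe
  have tAB : XA * YB + YA * XB + n ^ 2 * n ^ 2 = 0 := by
    nth_rw 1 [← haa]
    rw [← hbb, hXA, hYA, hXB, hYB]
    linear_combination a1 * b1 * N11 + a2 * b2 * N22 + a3 * b3 * N33 +
      (a1 * b2 + a2 * b1) * N12 + (a1 * b3 + a3 * b1) * N13 + (a2 * b3 + a3 * b2) * N23 +
      (c - (a1 * b1 + a2 * b2 + a3 * b3)) * hab
  have ht : c * n ^ 2 / 2 = 0 := sq_trick tA tE (by linarith)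
  by_contra hn
  have hn2 : n ^ 2 ≠ 0 := pow_ne_zero 2 hn
  have hc : c = 0 := by
    rcases mul_eq_zero.1 (by linarith : c * n ^ 2 = 0) with h | h
    · exact h
    · exact absurd h hn2
  have hxy : x1 * y1 + x2 * y2 + x3 * y3 = 0 := by
    linear_combination (N11 + N22 + N33) / 2 - hab + 3 / 2 * hc
  rw [hxy, ← hXB, ← hYB] at h7
  rw [ht] at tB
  have hXB0 : XB = 0 := by
    have h8 : XB ^ 2 = YB ^ 2 := by linarith
    have h9 : XB ^ 4 = 0 := by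
      calc XB ^ 4 = XB ^ 2 * XB ^ 2 := by ring
        _ = (XB * YB) ^ 2 := by rw [h8]; nth_rw 1 [← h8]; ring
        _ = 0 := by rw [tB]; ring
    exact pow_eq_zero_iff (by norm_num) |>.1 h9
  have hYB0 : YB = 0 := by
    rw [hXB0] at h7
    have : YB ^ 2 = 0 := by linarith
    exact pow_eq_zero_iff (by norm_num) |>.1 this
  rw [hXB0, hYB0] at tAB
  have : n ^ 2 * n ^ 2 = 0 := by linarith
  exact hn2 (mul_self_eq_zero.1 this)

/-- the case of a zero frame. -/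
theorem core0 (x1 x2 x3 y1 y2 y3 c : ℝ)
    (N11 : 2 * x1 * y1 = c) (N22 : 2 * x2 * y2 = c) (N33 : 2 * x3 * y3 = c)
    (N12 : x1 * y2 + x2 * y1 = 0) (N13 : x1 * y3 + x3 * y1 = 0) (N23 : x2 * y3 + x3 * y2 = 0)
    (h6 : x1 ^ 2 + x2 ^ 2 + x3 ^ 2 - (y1 ^ 2 + y2 ^ 2 + y3 ^ 2) = 0) :
    x1 ^ 2 + x2 ^ 2 + x3 ^ 2 = 0 ∧ y1 ^ 2 + y2 ^ 2 + y3 ^ 2 = 0 := by
  have hc : c / 2 = 0 := sq_trick (A := x1) (B := y1) (C := x2) (D := y2) (by linarith)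
    (by linarith) (by linarith)
  have hc0 : c = 0 := by linarith
  subst hc0
  have e1 : x1 * (y1 ^ 2 + y2 ^ 2 + y3 ^ 2) = 0 := by
    linear_combination (y1 / 2) * N11 + y2 * N12 + y3 * N13 - (y1 / 2) * N22 - (y1 / 2) * N33
  have e2 : x2 * (y1 ^ 2 + y2 ^ 2 + y3 ^ 2) = 0 := by
    linear_combination (y2 / 2) * N22 + y1 * N12 + y3 * N23 - (y2 / 2) * N11 - (y2 / 2) * N33
  have e3 : x3 * (y1 ^ 2 + y2 ^ 2 + y3 ^ 2) = 0 := by
    linear_combination (y3 / 2) * N33 + y1 * N13 + y2 * N23 - (y3 / 2) * N11 - (y3 / 2) * N22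
  by_cases hy : y1 ^ 2 + y2 ^ 2 + y3 ^ 2 = 0
  · exact ⟨by linarith, hy⟩
  · have h1 : x1 = 0 := (mul_eq_zero.1 e1).resolve_right hy
    have h2 : x2 = 0 := (mul_eq_zero.1 e2).resolve_right hy
    have h3 : x3 = 0 := (mul_eq_zero.1 e3).resolve_right hy
    subst h1 h2 h3
    exact ⟨by ring, by linarith⟩

/-- the map in real coordinates: `x, y` real and imaginary part of the first three coordinates,
`p + iq` and `s + it` the last two. -/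
def F7 (x1 x2 x3 y1 y2 y3 p q s t : ℝ) : Fin 7 → ℝ :=
  ![(2 * x1 * y1 + 2 * (p ^ 2 - q ^ 2 - s ^ 2 + t ^ 2) * (2 * (p * s + q * t))) -
      (2 * x2 * y2 + 2 * (-(2 * p * q + 2 * s * t)) * (2 * (p * t - q * s))),
    (2 * x1 * y1 + 2 * (p ^ 2 - q ^ 2 - s ^ 2 + t ^ 2) * (2 * (p * s + q * t))) -
      (2 * x3 * y3 + 2 * (-(2 * (p * s - q * t))) * (p ^ 2 + q ^ 2 - s ^ 2 - t ^ 2)),
    x1 * y2 + x2 * y1 + (p ^ 2 - q ^ 2 - s ^ 2 + t ^ 2) * (2 * (p * t - q * s)) +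
      (-(2 * p * q + 2 * s * t)) * (2 * (p * s + q * t)),
    x1 * y3 + x3 * y1 + (p ^ 2 - q ^ 2 - s ^ 2 + t ^ 2) * (p ^ 2 + q ^ 2 - s ^ 2 - t ^ 2) +
      (-(2 * (p * s - q * t))) * (2 * (p * s + q * t)),
    x2 * y3 + x3 * y2 + (-(2 * p * q + 2 * s * t)) * (p ^ 2 + q ^ 2 - s ^ 2 - t ^ 2) +
      (-(2 * (p * s - q * t))) * (2 * (p * t - q * s)),
    x1 ^ 2 + x2 ^ 2 + x3 ^ 2 - (y1 ^ 2 + y2 ^ 2 + y3 ^ 2),
    2 * (x1 * y1 + x2 * y2 + x3 * y3) +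
      ((x1 * (2 * (p * s + q * t)) + x2 * (2 * (p * t - q * s)) +
        x3 * (p ^ 2 + q ^ 2 - s ^ 2 - t ^ 2)) ^ 2 -
      (y1 * (2 * (p * s + q * t)) + y2 * (2 * (p * t - q * s)) +
        y3 * (p ^ 2 + q ^ 2 - s ^ 2 - t ^ 2)) ^ 2)]

theorem F7_ne (x1 x2 x3 y1 y2 y3 p q s t : ℝ) (h : F7 x1 x2 x3 y1 y2 y3 p q s t = 0) :
    x1 = 0 ∧ x2 = 0 ∧ x3 = 0 ∧ y1 = 0 ∧ y2 = 0 ∧ y3 = 0 ∧ p = 0 ∧ q = 0 ∧ s = 0 ∧ t = 0 := by
  have g0 := congrFun h 0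
  have g1 := congrFun h 1
  have g2 := congrFun h 2
  have g3 := congrFun h 3
  have g4 := congrFun h 4
  have g5 := congrFun h 5
  have g6 := congrFun h 6
  simp only [F7, Matrix.cons_val_zero, Matrix.cons_val_one, Matrix.cons_val, Pi.zero_apply] at g0 g1 g2 g3 g4 g5 g6
  have hn : p ^ 2 + q ^ 2 + s ^ 2 + t ^ 2 = 0 := by
    refine core x1 x2 x3 y1 y2 y3 (p ^ 2 - q ^ 2 - s ^ 2 + t ^ 2) (-(2 * p * q + 2 * s * t))
      (-(2 * (p * s - q * t))) (2 * (p * s + q * t)) (2 * (p * t - q * s))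
      (p ^ 2 + q ^ 2 - s ^ 2 - t ^ 2) (2 * p * q - 2 * s * t) (p ^ 2 - q ^ 2 + s ^ 2 - t ^ 2)
      (-(2 * (p * t + q * s))) (p ^ 2 + q ^ 2 + s ^ 2 + t ^ 2)
      (2 * x1 * y1 + 2 * (p ^ 2 - q ^ 2 - s ^ 2 + t ^ 2) * (2 * (p * s + q * t)))
      (by ring) (by ring) (by ring) (by ring) (by ring) (by ring) rfl (by linarith) (by linarith)
      (by linarith) (by linarith) (by linarith) (by linarith)
  have hp : p = 0 := by nlinarith [sq_nonneg p, sq_nonneg q, sq_nonneg s, sq_nonneg t]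
  have hq : q = 0 := by nlinarith [sq_nonneg p, sq_nonneg q, sq_nonneg s, sq_nonneg t]
  have hs : s = 0 := by nlinarith [sq_nonneg p, sq_nonneg q, sq_nonneg s, sq_nonneg t]
  have ht : t = 0 := by nlinarith [sq_nonneg p, sq_nonneg q, sq_nonneg s, sq_nonneg t]
  subst hp hq hs ht
  obtain ⟨hx, hy⟩ := core0 x1 x2 x3 y1 y2 y3 (2 * x1 * y1) rfl (by linarith) (by linarith)
    (by linarith) (by linarith) (by linarith) (by linarith)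
  refine ⟨?_, ?_, ?_, ?_, ?_, ?_, rfl, rfl, rfl, rfl⟩
  · nlinarith [sq_nonneg x1, sq_nonneg x2, sq_nonneg x3]
  · nlinarith [sq_nonneg x1, sq_nonneg x2, sq_nonneg x3]
  · nlinarith [sq_nonneg x1, sq_nonneg x2, sq_nonneg x3]
  · nlinarith [sq_nonneg y1, sq_nonneg y2, sq_nonneg y3]
  · nlinarith [sq_nonneg y1, sq_nonneg y2, sq_nonneg y3]
  · nlinarith [sq_nonneg y1, sq_nonneg y2, sq_nonneg y3]

theorem exists_map5 : ∃ f : (Fin 5 → ℂ) → (Fin 7 → ℝ), Continuous f ∧ (∀ z, f (-z) = f z) ∧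
    (∀ z, f (Complex.I • z) = - f z) ∧ ∀ z, z ≠ 0 → f z ≠ 0 := by
  refine ⟨fun z => F7 (z 0).re (z 1).re (z 2).re (z 0).im (z 1).im (z 2).im (z 3).re (z 3).im
    (z 4).re (z 4).im, ?_, ?_, ?_, ?_⟩
  · have hre : ∀ i : Fin 5, Continuous fun z : Fin 5 → ℂ => (z i).re := fun i =>
      Complex.continuous_re.comp (continuous_apply i)
    have him : ∀ i : Fin 5, Continuous fun z : Fin 5 → ℂ => (z i).im := fun i =>
      Complex.continuous_im.comp (continuous_apply i)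
    have h0 := hre 0
    have h1 := hre 1
    have h2 := hre 2
    have h3 := hre 3
    have h4 := hre 4
    have k0 := him 0
    have k1 := him 1
    have k2 := him 2
    have k3 := him 3
    have k4 := him 4
    refine continuous_pi fun j => ?_
    fin_cases j <;> simp only [F7] <;> simp <;> fun_prop
  · intro z
    funext j
    fin_cases j <;> simp [F7] <;> ring
  · intro z
    funext j
    fin_cases j <;> simp [F7] <;> ring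
  · intro z hz h
    obtain ⟨a1, a2, a3, a4, a5, a6, a7, a8, a9, a10⟩ := F7_ne _ _ _ _ _ _ _ _ _ _ h
    apply hz
    funext j
    fin_cases j
    · exact Complex.ext a1 a4
    · exact Complex.ext a2 a5
    · exact Complex.ext a3 a6
    · exact Complex.ext a7 a8
    · exact Complex.ext a9 a10

end Pool.Agent.H15.Lev
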