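import Pool.Graph.R_seed8.Helper133.BUProd

/-! A Borsuk-Ulam theorem for odd families of `6 × 5` complex matrices over the six-sphere. -/

set_option autoImplicit false

namespace Pool.Agent.H15.Lev

open Pool.Agent.Helper133.BT Pool.Agent.Helper133.BU

/-- components of the product of two octonions -/
def oct (a b : Fin 8 → ℝ) : Fin 8 → ℝ :=
  ![a 0 * b 0 - a 1 * b 1 - a 2 * b 2 - a 3 * b 3 - a 4 * b 4 - a 5 * b 5 - a 6 * b 6 - a 7 * b 7,
    a 0 * b 1 + a 1 * b 0 + a 2 * b 3 - a 3 * b 2 + a 4 * b 5 - a 5 * b 4 - a 6 * b 7 + a 7 * b 6,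
    a 0 * b 2 - a 1 * b 3 + a 2 * b 0 + a 3 * b 1 + a 4 * b 6 + a 5 * b 7 - a 6 * b 4 - a 7 * b 5,
    a 0 * b 3 + a 1 * b 2 - a 2 * b 1 + a 3 * b 0 + a 4 * b 7 - a 5 * b 6 + a 6 * b 5 - a 7 * b 4,
    a 0 * b 4 - a 1 * b 5 - a 2 * b 6 - a 3 * b 7 + a 4 * b 0 + a 5 * b 1 + a 6 * b 2 + a 7 * b 3,
    a 0 * b 5 + a 1 * b 4 - a 2 * b 7 + a 3 * b 6 - a 4 * b 1 + a 5 * b 0 - a 6 * b 3 + a 7 * b 2,
    a 0 * b 6 + a 1 * b 7 + a 2 * b 4 - a 3 * b 5 - a 4 * b 2 + a 5 * b 3 + a 6 * b 0 - a 7 * b 1,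
    a 0 * b 7 - a 1 * b 6 + a 2 * b 5 + a 3 * b 4 - a 4 * b 3 - a 5 * b 2 + a 6 * b 1 + a 7 * b 0]

theorem oct_norm (a b : Fin 8 → ℝ) :
    ∑ i, oct a b i ^ 2 = (∑ i, a i ^ 2) * ∑ i, b i ^ 2 := by
  simp only [Fin.sum_univ_eight, oct, Matrix.cons_val_zero, Matrix.cons_val_one, Matrix.cons_val]
  ring

theorem oct_eq_zero {a b : Fin 8 → ℝ} (ha : a ≠ 0) (h : oct a b = 0) : b = 0 := by
  have h1 := oct_norm a b
  rw [h] at h1
  simp only [Pi.zero_apply, ne_eq, OfNat.ofNat_ne_zero, not_false_eq_true, zero_pow,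
    Finset.sum_const_zero] at h1
  rcases mul_eq_zero.1 h1.symm with h2 | h2
  · exfalso
    apply ha
    rw [Finset.sum_eq_zero_iff_of_nonneg (fun k _ => sq_nonneg _)] at h2
    funext i
    have := h2 i (Finset.mem_univ i)
    simpa using this
  · rw [Finset.sum_eq_zero_iff_of_nonneg (fun k _ => sq_nonneg _)] at h2
    funext i
    have := h2 i (Finset.mem_univ i)
    simpa using this

theorem oct_neg_left (a b : Fin 8 → ℝ) : oct (-a) b = - oct a b := by
  funext i
  fin_cases i <;> simp [oct] <;> ring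

theorem oct_neg_right (a b : Fin 8 → ℝ) : oct a (-b) = - oct a b := by
  funext i
  fin_cases i <;> simp [oct] <;> ring

theorem oct_continuousOn {X : Type*} [TopologicalSpace X] {s : Set X} {a b : X → Fin 8 → ℝ}
    (ha : ContinuousOn a s) (hb : ContinuousOn b s) (i : Fin 8) :
    ContinuousOn (fun x => oct (a x) (b x) i) s := by
  have ha' : ∀ i, ContinuousOn (fun x => a x i) s := fun i =>
    (continuous_apply i).comp_continuousOn ha
  have hb' : ∀ i, ContinuousOn (fun x => b x i) s := fun i =>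
    (continuous_apply i).comp_continuousOn hb
  have a0 := ha' 0
  have a1 := ha' 1
  have a2 := ha' 2
  have a3 := ha' 3
  have a4 := ha' 4
  have a5 := ha' 5
  have a6 := ha' 6
  have a7 := ha' 7
  have b0 := hb' 0
  have b1 := hb' 1
  have b2 := hb' 2
  have b3 := hb' 3
  have b4 := hb' 4
  have b5 := hb' 5
  have b6 := hb' 6
  have b7 := hb' 7
  fin_cases i <;> simp only [oct] <;> simp <;> fun_prop

/-- dimensions of the two spheres -/
def nn : ℕ → ℕ
  | 0 => 8
  | _ => 6

/-- the vector of `ℂ⁵` -/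
noncomputable def uv (x : Fin 9 → ℝ) : Fin 5 → ℂ :=
  ![⟨x 0, x 5⟩, ⟨x 1, x 6⟩, ⟨x 2, x 7⟩, ⟨x 3, x 8⟩, ⟨x 4, 0⟩]

theorem uv_neg (x : Fin 9 → ℝ) : uv (-x) = - uv x := by
  funext k
  fin_cases k <;> (apply Complex.ext <;> simp [uv])

theorem uv_ne {x : Fin 9 → ℝ} (hx : x ≠ 0) : uv x ≠ 0 := by
  intro h
  apply hx
  have g0 := congrFun h 0
  have g1 := congrFun h 1
  have g2 := congrFun h 2
  have g3 := congrFun h 3
  have g4 := congrFun h 4
  simp only [uv, Matrix.cons_val_zero, Matrix.cons_val_one, Matrix.cons_val, Pi.zero_apply,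
    Complex.ext_iff, Complex.zero_re, Complex.zero_im] at g0 g1 g2 g3 g4
  funext i
  fin_cases i
  · exact g0.1
  · exact g1.1
  · exact g2.1
  · exact g3.1
  · exact g4.1
  · exact g0.2
  · exact g1.2
  · exact g2.2
  · exact g3.2

theorem uv_continuous : Continuous uv := by
  refine continuous_pi fun k => ?_
  have key : ∀ f g : (Fin 9 → ℝ) → ℝ, Continuous f → Continuous g →
      Continuous fun x => (⟨f x, g x⟩ : ℂ) := by
    intro f g hf hg
    have : (fun x => (⟨f x, g x⟩ : ℂ)) = fun x => (f x : ℂ) + (g x : ℂ) * Complex.I := by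
      funext x
      apply Complex.ext <;> simp
    rw [this]
    fun_prop
  fin_cases k
  · exact key (fun x => x 0) (fun x => x 5) (by fun_prop) (by fun_prop)
  · exact key (fun x => x 1) (fun x => x 6) (by fun_prop) (by fun_prop)
  · exact key (fun x => x 2) (fun x => x 7) (by fun_prop) (by fun_prop)
  · exact key (fun x => x 3) (fun x => x 8) (by fun_prop) (by fun_prop)
  · exact key (fun x => x 4) (fun x => 0) (by fun_prop) (by fun_prop)

/-- normalised covector -/
noncomputable def wv (y : Fin 7 → ℝ) : EuclideanSpace ℝ (Fin 7) :=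
  ‖(WithLp.toLp 2 y : EuclideanSpace ℝ (Fin 7))‖⁻¹ • (WithLp.toLp 2 y : EuclideanSpace ℝ (Fin 7))

theorem wv_neg (y : Fin 7 → ℝ) : wv (-y) = - wv y := by
  have e : (WithLp.toLp 2 (-y) : EuclideanSpace ℝ (Fin 7)) = - WithLp.toLp 2 y := rfl
  rw [wv, e, norm_neg, smul_neg, wv]

theorem toLp_ne {y : Fin 7 → ℝ} (hy : y ≠ 0) :
    ‖(WithLp.toLp 2 y : EuclideanSpace ℝ (Fin 7))‖ ≠ 0 := by
  rw [norm_ne_zero_iff]
  intro h
  apply hy
  have : (WithLp.toLp 2 y : EuclideanSpace ℝ (Fin 7)).ofLp = 0 := by rw [h]; rfl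
  exact this

theorem wv_norm {y : Fin 7 → ℝ} (hy : y ≠ 0) : ‖wv y‖ = 1 := by
  rw [wv, norm_smul, norm_inv, norm_norm, inv_mul_cancel₀ (toLp_ne hy)]

theorem wv_continuousAt {y : Fin 7 → ℝ} (hy : y ≠ 0) : ContinuousAt wv y := by
  have h1 : Continuous fun y : Fin 7 → ℝ => (WithLp.toLp 2 y : EuclideanSpace ℝ (Fin 7)) :=
    PiLp.continuous_toLp 2 _
  exact (h1.norm.continuousAt.inv₀ (toLp_ne hy)).smul h1.continuousAt

theorem K_ne {m : ℕ} {x : Fin (m + 1) → ℝ} (hx : x ∈ K m) : x ≠ 0 := by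
  rintro rfl
  have : ∑ i : Fin (m + 1), |(0 : Fin (m + 1) → ℝ) i| = 1 := hx
  simp at this

/-- extension of a covector by zero -/
def ext8 (w : EuclideanSpace ℝ (Fin 7)) : Fin 8 → ℝ := Fin.snoc (fun i => w i) 0

theorem ext8_neg (w : EuclideanSpace ℝ (Fin 7)) : ext8 (-w) = - ext8 w := by
  funext i
  refine Fin.lastCases ?_ (fun i => ?_) i
  · rw [Pi.neg_apply, ext8, ext8, Fin.snoc_last, Fin.snoc_last, neg_zero]
  · rw [Pi.neg_apply, ext8, ext8, Fin.snoc_castSucc, Fin.snoc_castSucc]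
    rfl

theorem ext8_ne {w : EuclideanSpace ℝ (Fin 7)} (hw : ‖w‖ = 1) : ext8 w ≠ 0 := by
  intro h
  have : w = 0 := by
    ext i
    have := congrFun h (Fin.castSucc i)
    simpa [ext8] using this
  rw [this, norm_zero] at hw
  exact zero_ne_one hw

theorem ext8_continuous : Continuous ext8 := by
  refine continuous_pi fun i => ?_
  refine Fin.lastCases ?_ (fun i => ?_) i
  · simp only [ext8, Fin.snoc_last]
    exact continuous_const
  · simp only [ext8, Fin.snoc_castSucc]
    fun_prop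

/-- the first eight real components -/
noncomputable def g8 (F : Fin 6 → ℂ) : Fin 8 → ℝ :=
  ![(F 0).re, (F 0).im, (F 1).re, (F 1).im, (F 2).re, (F 2).im, (F 3).re, (F 3).im]

theorem g8_neg (F : Fin 6 → ℂ) : g8 (-F) = - g8 F := by
  funext i
  fin_cases i <;> simp [g8]

theorem g8_continuous : Continuous g8 := by
  refine continuous_pi fun i => ?_
  have hre : ∀ i : Fin 6, Continuous fun z : Fin 6 → ℂ => (z i).re := fun i =>
    Complex.continuous_re.comp (continuous_apply i)
  have him : ∀ i : Fin 6, Continuous fun z : Fin 6 → ℂ => (z i).im := fun i =>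
    Complex.continuous_im.comp (continuous_apply i)
  fin_cases i
  · exact hre 0
  · exact him 0
  · exact hre 1
  · exact him 1
  · exact hre 2
  · exact him 2
  · exact hre 3
  · exact him 3

/-- the last four real components and the two of `s` -/
noncomputable def g6 (F : Fin 6 → ℂ) (s : ℂ) : ℕ → ℝ
  | 0 => (F 4).re
  | 1 => (F 4).im
  | 2 => (F 5).re
  | 3 => (F 5).im
  | 4 => s.re
  | _ => s.im

theorem g6_neg (F : Fin 6 → ℂ) (s : ℂ) (r : ℕ) : g6 (-F) (-s) r = - g6 F s r := by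
  rcases r with _ | _ | _ | _ | _ | r <;> simp [g6]

theorem bu_matrix (M : EuclideanSpace ℝ (Fin 7) → Matrix (Fin 6) (Fin 5) ℂ)
    (s : EuclideanSpace ℝ (Fin 7) → ℂ)
    (hM : ContinuousOn M {w | ‖w‖ = 1}) (hs : ContinuousOn s {w | ‖w‖ = 1})
    (hMo : ∀ w, ‖w‖ = 1 → M (-w) = - M w) (hso : ∀ w, ‖w‖ = 1 → s (-w) = - s w) :
    ∃ w, ‖w‖ = 1 ∧ s w = 0 ∧ ∃ u : Fin 5 → ℂ, u ≠ 0 ∧ (M w).mulVec u = 0 := by
  let x0 : Om nn → (Fin 9 → ℝ) := fun v => v 0
  let y1 : Om nn → (Fin 7 → ℝ) := fun v => v 1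
  let wf : Om nn → EuclideanSpace ℝ (Fin 7) := fun v => wv (y1 v)
  let Ff : Om nn → Fin 6 → ℂ := fun v => (M (wf v)).mulVec (uv (x0 v))
  have hx0 : ∀ v ∈ PP nn, x0 v ≠ 0 := fun v hv => K_ne (m := 8) (hv 0)
  have hy1 : ∀ v ∈ PP nn, y1 v ≠ 0 := fun v hv => K_ne (m := 6) (hv 1)
  have hwn : ∀ v ∈ PP nn, ‖wf v‖ = 1 := fun v hv => wv_norm (hy1 v hv)
  have cx0 : Continuous x0 := continuous_apply 0
  have cy1 : Continuous y1 := continuous_apply 1
  have cw : ContinuousOn wf (PP nn) := fun v hv =>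
    ((wv_continuousAt (hy1 v hv)).comp cy1.continuousAt).continuousWithinAt
  have cM : ContinuousOn (fun v => M (wf v)) (PP nn) := hM.comp cw fun v hv => hwn v hv
  have cs : ContinuousOn (fun v => s (wf v)) (PP nn) := hs.comp cw fun v hv => hwn v hv
  have cF : ContinuousOn Ff (PP nn) := by
    have h1 : Continuous fun p : Matrix (Fin 6) (Fin 5) ℂ × (Fin 5 → ℂ) => p.1.mulVec p.2 :=
      Continuous.matrix_mulVec continuous_fst continuous_snd
    exact h1.comp_continuousOn (cM.prodMk (uv_continuous.comp cx0).continuousOn)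
  -- behaviour under the sign changes
  have x0_0 : ∀ v, x0 (flp nn 0 v) = - x0 v := by
    intro v
    show Function.update v 0 (-(v 0)) 0 = _
    rw [Function.update_self]
    rfl
  have y1_0 : ∀ v, y1 (flp nn 0 v) = y1 v := by
    intro v
    show Function.update v 0 (-(v 0)) 1 = _
    rw [Function.update_of_ne (by norm_num)]
  have x0_1 : ∀ v, x0 (flp nn 1 v) = x0 v := by
    intro v
    show Function.update v 1 (-(v 1)) 0 = _
    rw [Function.update_of_ne (by norm_num)]
  have y1_1 : ∀ v, y1 (flp nn 1 v) = - y1 v := by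
    intro v
    show Function.update v 1 (-(v 1)) 1 = _
    rw [Function.update_self]
    rfl
  have w_0 : ∀ v, wf (flp nn 0 v) = wf v := fun v => by
    show wv (y1 (flp nn 0 v)) = _
    rw [y1_0]
  have w_1 : ∀ v, wf (flp nn 1 v) = - wf v := fun v => by
    show wv (y1 (flp nn 1 v)) = _
    rw [y1_1, wv_neg]
  have F_0 : ∀ v, Ff (flp nn 0 v) = - Ff v := fun v => by
    show (M (wf (flp nn 0 v))).mulVec (uv (x0 (flp nn 0 v))) = _
    rw [w_0, x0_0, uv_neg, Matrix.mulVec_neg]
  have F_1 : ∀ v ∈ PP nn, Ff (flp nn 1 v) = - Ff v := fun v hv => by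
    show (M (wf (flp nn 1 v))).mulVec (uv (x0 (flp nn 1 v))) = _
    rw [w_1, x0_1, hMo _ (hwn v hv), Matrix.neg_mulVec]
  -- the system
  let f : ℕ → ℕ → Om nn → ℝ := fun i r v =>
    if i = 0 then (if h : r < 8 then oct (ext8 (wf v)) (g8 (Ff v)) ⟨r, h⟩ else 0)
    else g6 (Ff v) (s (wf v)) r
  let p : ℕ → ℕ → ℕ → ZMod 2 := fun i r k =>
    if k = i then 1 else if i < k then 0 else (if r < 4 then 1 else 0)
  obtain ⟨v, hv, hz⟩ := triangular nn (by intro i; rcases i with _ | i <;> simp [nn]) 2 p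
    (by intro i r; simp [p]) (by intro i r k hik; simp [p, hik, (ne_of_gt hik)]) f (by
      intro i r
      by_cases hi : i = 0
      · simp only [f, if_pos hi]
        by_cases hr : r < 8
        · simp only [dif_pos hr]
          exact oct_continuousOn (ext8_continuous.comp_continuousOn cw)
            (g8_continuous.comp_continuousOn cF) _
        · simp only [dif_neg hr]
          exact continuousOn_const
      · simp only [f, if_neg hi]
        have hFi : ∀ i, ContinuousOn (fun v => Ff v i) (PP nn) := fun i =>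
          (continuous_apply i).comp_continuousOn cF
        rcases r with _ | _ | _ | _ | _ | r
        · exact Complex.continuous_re.comp_continuousOn (hFi 4)
        · exact Complex.continuous_im.comp_continuousOn (hFi 4)
        · exact Complex.continuous_re.comp_continuousOn (hFi 5)
        · exact Complex.continuous_im.comp_continuousOn (hFi 5)
        · exact Complex.continuous_re.comp_continuousOn cs
        · exact Complex.continuous_im.comp_continuousOn cs) (by
      intro i hi r hr k hk v hv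
      have hi' : i = 0 ∨ i = 1 := by omega
      have hk' : k = 0 ∨ k = 1 := by omega
      rcases hi' with rfl | rfl <;> rcases hk' with rfl | rfl
      · have hr8 : r < 8 := hr
        simp only [f, if_true, dif_pos hr8, p]
        rw [w_0, F_0, g8_neg, oct_neg_right, Pi.neg_apply]
        simp [sgn]
      · have hr8 : r < 8 := hr
        simp only [f, if_true, dif_pos hr8, p]
        rw [w_1, F_1 v hv, g8_neg, oct_neg_right, ext8_neg, oct_neg_left, neg_neg]
        simp [sgn]
      · simp only [f, p]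
        rw [w_0, F_0]
        rcases r with _ | _ | _ | _ | _ | r <;> simp [g6, sgn]
      · simp only [f, p]
        rw [w_1, F_1 v hv, hso _ (hwn v hv)]
        simp only [one_ne_zero, if_false, if_true]
        rw [g6_neg]
        simp [sgn])
  have hg8 : g8 (Ff v) = 0 := by
    refine oct_eq_zero (ext8_ne (hwn v hv)) (funext fun r => ?_)
    have := hz 0 (by norm_num) r.val (show r.val < 8 from r.2)
    simp only [f, if_true, dif_pos r.2] at this
    exact this
  have hg6 : ∀ r, r < 6 → g6 (Ff v) (s (wf v)) r = 0 := by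
    intro r hr
    have := hz 1 (by norm_num) r hr
    simp only [f, one_ne_zero, if_false] at this
    exact this
  refine ⟨wf v, hwn v hv, ?_, uv (x0 v), uv_ne (hx0 v hv), ?_⟩
  · exact Complex.ext (hg6 4 (by norm_num)) (hg6 5 (by norm_num))
  · funext k
    show Ff v k = 0
    have e : ∀ i : Fin 8, g8 (Ff v) i = 0 := fun i => by rw [hg8]; rfl
    fin_cases k
    · exact Complex.ext (e 0) (e 1)
    · exact Complex.ext (e 2) (e 3)
    · exact Complex.ext (e 4) (e 5)
    · exact Complex.ext (e 6) (e 7)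
    · exact Complex.ext (hg6 0 (by norm_num)) (hg6 1 (by norm_num))
    · exact Complex.ext (hg6 2 (by norm_num)) (hg6 3 (by norm_num))

end Pool.Agent.H15.Lev
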