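import Pool.Agent.H15.Lev.Main
import Pool.Agent.H15.Lev.T1
import Pool.Agent.H15.Lev.T2
import Pool.Graph.R_seed8.Results.MP_c0c498_gt.EvenLevel

/-! From quadratic forms to symmetric matrices; the continuous level of `ℂ⁵` is at most seven and
the quadratic level is at least eight. -/

set_option autoImplicit false

namespace Pool.Agent.H15.Lev

/-- complex symmetric matrix of a form which changes sign under `i`. -/
theorem exists_matrix (q : QuadraticForm ℝ (Fin 5 → ℂ)) (hq : ∀ z, q (Complex.I • z) = - q z) :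
    ∃ S : Matrix (Fin 5) (Fin 5) ℂ, S.transpose = S ∧ ∀ u, qf S u = q u := by
  obtain ⟨C, hC⟩ := Pool.Agent.Helper672.Lv.J27266.cform_aux q hq
  let N : Matrix (Fin 5) (Fin 5) ℂ := LinearMap.toMatrix₂' ℂ C
  have hN : ∀ u v : Fin 5 → ℂ, dotProduct u (N.mulVec v) = C u v := by
    intro u v
    rw [← Matrix.toLinearMap₂'_apply', Matrix.toLinearMap₂'_toMatrix']
  refine ⟨(1 / 4 : ℂ) • (N + N.transpose), ?_, ?_⟩
  · rw [Matrix.transpose_smul, Matrix.transpose_add, Matrix.transpose_transpose, add_comm]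
  · intro u
    have h1 : dotProduct u (N.transpose.mulVec u) = dotProduct u (N.mulVec u) := by
      rw [Matrix.dotProduct_mulVec, Matrix.vecMul_transpose, dotProduct_comm]
    have h2 : dotProduct u (((1 / 4 : ℂ) • (N + N.transpose)).mulVec u) = (1 / 2 : ℂ) * C u u := by
      rw [Matrix.smul_mulVec, Matrix.add_mulVec, dotProduct_smul, dotProduct_add, h1, hN,
        smul_eq_mul]
      ring
    rw [qf, h2]
    have h3 : ((1 / 2 : ℂ) * C u u) = (((1 / 2 : ℝ) : ℝ) : ℂ) * C u u := by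
      push_cast
      ring
    rw [h3, Complex.re_ofReal_mul, hC, QuadraticMap.polar_self]
    simp

/-- The quadratic level of `ℂ⁵` is at least eight. -/
theorem no_seven_forms_of (HOR : OrientStatement) (q : Fin 7 → QuadraticForm ℝ (Fin 5 → ℂ))
    (hq : ∀ j z, q j (Complex.I • z) = - q j z) (hfree : ∀ z, z ≠ 0 → ∃ j, q j z ≠ 0) : False := by
  choose S hS hSq using fun j => exists_matrix (q j) (hq j)
  refine no_seven_of (fun M s h1 h2 h3 h4 => bu_matrix M s h1 h2 h3 h4) HOR S hS ?_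
  intro u hu
  obtain ⟨j, hj⟩ := hfree u hu
  exact ⟨j, by rw [hSq]; exact hj⟩

open Pool.Agent.Results.MP_c0c498_gt.EvenLevel in
theorem final_of (HOR : OrientStatement) : ¬ (∀ m : ℕ,
      sInf {n : ℕ | ∃ f : (Fin m → ℂ) → (Fin n → ℝ), Continuous f ∧
          (∀ z, f (-z) = f z) ∧ (∀ z, f (Complex.I • z) = - f z) ∧
          ∀ z, z ≠ 0 → f z ≠ 0}
      = sInf {n : ℕ | ∃ q : Fin n → QuadraticForm ℝ (Fin m → ℂ),
          (∀ j z, q j (Complex.I • z) = - q j z) ∧
          ∀ z, z ≠ 0 → ∃ j, q j z ≠ 0}) := by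
  intro h
  have h5 := h 5
  have h1 : sInf {n : ℕ | ∃ f : (Fin 5 → ℂ) → (Fin n → ℝ), Continuous f ∧
          (∀ z, f (-z) = f z) ∧ (∀ z, f (Complex.I • z) = - f z) ∧
          ∀ z, z ≠ 0 → f z ≠ 0} ≤ 7 := Nat.sInf_le exists_map5
  rw [h5] at h1
  have h2 : sInf (levels 5) ∈ levels 5 := Nat.sInf_mem (levels_nonempty 5)
  have h3 : sInf (levels 5) ≤ 7 := h1
  obtain ⟨q, hq, hf⟩ := levels_mono h2 h3
  exact no_seven_forms_of HOR q hq hf

end Pool.Agent.H15.Lev
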