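import Mathlib
import Pool.Graph.R_seed8.Helper672.Lv.J27089

/-!
Dichotomy: if the zeros on `S⁶` of an odd complex function lie in the union of two disjoint closed
symmetric sets `A`, `C`, then there is an odd complex function on `S⁶` all whose zeros lie in `A`,
or one all whose zeros lie in `C`.
-/

set_option autoImplicit false

namespace Pool.Agent.H15.Lev

namespace Dich

open Set Topology

section log

/-- continuous logarithms on a real normed space. -/
theorem log_vec {V : Type*} [NormedAddCommGroup V] [NormedSpace ℝ V] (f : V → ℂ)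
    (hf : Continuous f) (h0 : ∀ x, f x ≠ 0) :
    ∃ h : V → ℂ, Continuous h ∧ ∀ x, Complex.exp (h x) = f x := by
  obtain ⟨F, ⟨_, hF⟩, _⟩ := Complex.isCoveringMapOn_exp.existsUnique_continuousMap_lifts
    (⟨f, hf⟩ : C(V, ℂ)) (a₀ := 0) (e₀ := Complex.log (f 0)) (Complex.exp_log (h0 0))
    (fun a => h0 a)
  exact ⟨F, F.continuous, fun x => congrFun hF x⟩

variable {V : Type*} [NormedAddCommGroup V] [InnerProductSpace ℝ V]

/-- a retraction of the whole space onto the upper closed hemisphere with pole `e`. -/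
noncomputable def gp (e : V) (w : V) : V :=
  (1 / max 1 ‖w - inner ℝ e w • e‖) • (w - inner ℝ e w • e) +
    Real.sqrt (1 - ‖(1 / max 1 ‖w - inner ℝ e w • e‖) • (w - inner ℝ e w • e)‖ ^ 2) • e

theorem gp_continuous (e : V) : Continuous (gp e) := by
  have h1 : Continuous fun w : V => w - inner ℝ e w • e := by fun_prop
  have h2 : Continuous fun w : V => (1 / max 1 ‖w - inner ℝ e w • e‖) • (w - inner ℝ e w • e) := by
    refine Continuous.smul (Continuous.div continuous_const ?_ ?_) h1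
    · exact continuous_const.max h1.norm
    · intro x
      have : (1 : ℝ) ≤ max 1 ‖x - inner ℝ e x • e‖ := le_max_left _ _
      linarith
  unfold gp
  exact h2.add ((Real.continuous_sqrt.comp (continuous_const.sub (h2.norm.pow 2))).smul
    continuous_const)

theorem perp {e : V} (he : ‖e‖ = 1) (w : V) : inner ℝ e (w - inner ℝ e w • e) = 0 := by
  rw [inner_sub_right, inner_smul_right, real_inner_self_eq_norm_sq, he]
  ring

theorem norm_comb {e : V} (he : ‖e‖ = 1) (y : V) (hy : inner ℝ e y = 0) (c : ℝ) :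
    ‖y + c • e‖ ^ 2 = ‖y‖ ^ 2 + c ^ 2 := by
  rw [norm_add_sq_real, inner_smul_right, real_inner_comm, hy, norm_smul, he]
  simp

theorem gp_norm {e : V} (he : ‖e‖ = 1) (w : V) : ‖gp e w‖ = 1 := by
  have hm : (1 : ℝ) ≤ max 1 ‖w - inner ℝ e w • e‖ := le_max_left _ _
  have hm' : ‖w - inner ℝ e w • e‖ ≤ max 1 ‖w - inner ℝ e w • e‖ := le_max_right _ _
  have h1 : ‖(1 / max 1 ‖w - inner ℝ e w • e‖) • (w - inner ℝ e w • e)‖ ≤ 1 := by
    rw [norm_smul, Real.norm_of_nonneg (by positivity), one_div_mul_eq_div]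
    exact (div_le_one (by linarith)).2 hm'
  have h2 : ‖gp e w‖ ^ 2 = 1 := by
    unfold gp
    rw [norm_comb he _ (by rw [inner_smul_right, perp he, mul_zero]), Real.sq_sqrt]
    · ring
    · have := pow_le_pow_left₀ (norm_nonneg _) h1 2
      linarith
  exact (sq_eq_sq₀ (norm_nonneg _) zero_le_one).1 (by rw [h2]; norm_num)

theorem gp_eq {e : V} (he : ‖e‖ = 1) (w : V) (hw : ‖w‖ = 1) (h : 0 ≤ inner ℝ e w) :
    gp e w = w := by
  have h1 : ‖w - inner ℝ e w • e‖ ^ 2 + inner ℝ e w ^ 2 = 1 := by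
    rw [← norm_comb he _ (perp he w), sub_add_cancel, hw]
    norm_num
  have h2 : ‖w - inner ℝ e w • e‖ ≤ 1 := by
    by_contra hcon
    push Not at hcon
    nlinarith [sq_nonneg (inner ℝ e w)]
  have h3 : max 1 ‖w - inner ℝ e w • e‖ = 1 := max_eq_left h2
  unfold gp
  rw [h3, one_div_one, one_smul]
  have h4 : 1 - ‖w - inner ℝ e w • e‖ ^ 2 = inner ℝ e w ^ 2 := by linarith
  rw [h4, Real.sqrt_sq h, sub_add_cancel]

theorem gp_zero {e : V} : gp e 0 = e := by
  unfold gp
  simp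

/-- a continuous function on a preconnected set with values in `2 π i ℤ` is constant. -/
theorem int_const {X : Type*} [TopologicalSpace X] (S : Set X) (hS : IsPreconnected S) (g : X → ℂ)
    (hg : ContinuousOn g S) (hex : ∀ w ∈ S, ∃ n : ℤ, g w = n * (2 * Real.pi * Complex.I)) :
    ∃ n : ℤ, ∀ w ∈ S, g w = n * (2 * Real.pi * Complex.I) := by
  rcases S.eq_empty_or_nonempty with h | ⟨w₀, hw₀⟩
  · exact ⟨0, fun w hw => by rw [h] at hw; exact absurd hw (Set.notMem_empty _)⟩
  obtain ⟨n, hn⟩ := hex w₀ hw₀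
  refine ⟨n, fun w hw => ?_⟩
  obtain ⟨m, hm⟩ := hex w hw
  have hcont : ContinuousOn (fun w => (g w / (2 * Real.pi * Complex.I)).re) S :=
    Complex.continuous_re.comp_continuousOn (hg.div_const _)
  have hpi : (2 * Real.pi * Complex.I : ℂ) ≠ 0 := Complex.two_pi_I_ne_zero
  have hval : ∀ w, ∀ k : ℤ, g w = k * (2 * Real.pi * Complex.I) →
      (g w / (2 * Real.pi * Complex.I)).re = k := by
    intro w k hk
    rw [hk, mul_div_assoc, div_self hpi, mul_one]
    simp
  have hmn : m = n := by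
    by_contra hne
    have hoc := (hS.image _ hcont).ordConnected
    have hm1 : (m : ℝ) ∈ (fun w => (g w / (2 * Real.pi * Complex.I)).re) '' S :=
      ⟨w, hw, hval w m hm⟩
    have hn1 : (n : ℝ) ∈ (fun w => (g w / (2 * Real.pi * Complex.I)).re) '' S :=
      ⟨w₀, hw₀, hval w₀ n hn⟩
    rcases lt_or_gt_of_ne hne with hlt | hlt
    · have h1 : (m : ℝ) + 1 / 2 ∈ Set.Icc (m : ℝ) n := by
        have : (m : ℝ) + 1 ≤ n := by exact_mod_cast hlt
        constructor <;> linarith
      obtain ⟨w', hw', hw''⟩ := hoc.out hm1 hn1 h1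
      obtain ⟨k, hk⟩ := hex w' hw'
      have h2 := hval w' k hk
      have h3 : (k : ℝ) = m + 1 / 2 := by rw [← h2]; exact hw''
      have h4 : (2 * k : ℝ) = 2 * m + 1 := by linarith
      have h5 : (2 * k : ℤ) = 2 * m + 1 := by exact_mod_cast h4
      omega
    · have h1 : (n : ℝ) + 1 / 2 ∈ Set.Icc (n : ℝ) m := by
        have : (n : ℝ) + 1 ≤ m := by exact_mod_cast hlt
        constructor <;> linarith
      obtain ⟨w', hw', hw''⟩ := hoc.out hn1 hm1 h1
      obtain ⟨k, hk⟩ := hex w' hw'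
      have h2 := hval w' k hk
      have h3 : (k : ℝ) = n + 1 / 2 := by rw [← h2]; exact hw''
      have h4 : (2 * k : ℝ) = 2 * n + 1 := by linarith
      have h5 : (2 * k : ℤ) = 2 * n + 1 := by exact_mod_cast h4
      omega
  rw [hm, hmn]

/-- the orthogonal complement of a unit vector. -/
theorem finrank_perp [FiniteDimensional ℝ V] {e : V} (he : ‖e‖ = 1) :
    Module.finrank ℝ ((ℝ ∙ e)ᗮ : Submodule ℝ V) + 1 = Module.finrank ℝ V := by
  have h1 := Submodule.finrank_add_finrank_orthogonal (ℝ ∙ e)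
  have h2 : Module.finrank ℝ (ℝ ∙ e) = 1 :=
    finrank_span_singleton (by rintro rfl; simp at he)
  omega

theorem sphere_preconn [FiniteDimensional ℝ V] (hd : 1 < Module.finrank ℝ V) :
    IsPreconnected {w : V | ‖w‖ = 1} := by
  have hr : 1 < Module.rank ℝ V := by
    rw [← Module.finrank_eq_rank]
    exact_mod_cast hd
  have h := isPreconnected_sphere hr (0 : V) 1
  have h5 : Metric.sphere (0 : V) 1 = {w : V | ‖w‖ = 1} := by ext w; simp
  rwa [h5] at h

/-- a continuous logarithm on the unit sphere, dimension at least three. -/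
theorem log_sphere [FiniteDimensional ℝ V] (hd : 2 < Module.finrank ℝ V) (f : V → ℂ)
    (hf : ContinuousOn f {w | ‖w‖ = 1}) (h0 : ∀ w, ‖w‖ = 1 → f w ≠ 0) :
    ∃ h : V → ℂ, ContinuousOn h {w | ‖w‖ = 1} ∧ ∀ w, ‖w‖ = 1 → Complex.exp (h w) = f w := by
  obtain ⟨e, he⟩ : ∃ e : V, ‖e‖ = 1 := by
    have : Nontrivial V := Module.nontrivial_of_finrank_pos (R := ℝ) (by omega)
    exact exists_norm_eq V zero_le_one
  have hhalf : ∀ e : V, ‖e‖ = 1 → ∃ h : V → ℂ, Continuous h ∧
      ∀ w, ‖w‖ = 1 → 0 ≤ inner ℝ e w → Complex.exp (h w) = f w := by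
    intro e he
    obtain ⟨h, hh, hh'⟩ := log_vec (fun w => f (gp e w))
      (hf.comp_continuous (gp_continuous e) fun w => gp_norm he w)
      (fun w => h0 _ (gp_norm he w))
    refine ⟨h, hh, fun w hw hw' => ?_⟩
    rw [hh', gp_eq he w hw hw']
  obtain ⟨p, hp, hp'⟩ := hhalf e he
  obtain ⟨q, hq, hq'⟩ := hhalf (-e) (by rw [norm_neg, he])
  have hq2 : ∀ w, ‖w‖ = 1 → inner ℝ e w ≤ 0 → Complex.exp (q w) = f w := by
    intro w hw hw'
    exact hq' w hw (by rw [inner_neg_left]; linarith)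
  -- the equator is connected
  obtain ⟨S, hS⟩ : ∃ S : Set V, S = {w | ‖w‖ = 1 ∧ inner ℝ e w = 0} := ⟨_, rfl⟩
  have hSc : IsPreconnected S := by
    have h3 : 1 < Module.finrank ℝ ((ℝ ∙ e)ᗮ : Submodule ℝ V) := by
      have := finrank_perp he
      omega
    have h4 := (sphere_preconn h3).image (Subtype.val : ((ℝ ∙ e)ᗮ : Submodule ℝ V) → V)
      continuous_subtype_val.continuousOn
    have h5 : Subtype.val '' {w : ((ℝ ∙ e)ᗮ : Submodule ℝ V) | ‖w‖ = 1} = S := by
      rw [hS]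
      ext w
      constructor
      · rintro ⟨w', hw', rfl⟩
        refine ⟨by simpa using hw', ?_⟩
        have := w'.2
        rw [Submodule.mem_orthogonal_singleton_iff_inner_right] at this
        exact this
      · rintro ⟨hw1, hw2⟩
        refine ⟨⟨w, ?_⟩, by simpa using hw1, rfl⟩
        rw [Submodule.mem_orthogonal_singleton_iff_inner_right]
        exact hw2
    rw [← h5]
    exact h4
  obtain ⟨n, hn'⟩ := int_const S hSc (fun w => p w - q w) (hp.sub hq).continuousOn (by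
    intro w hw
    rw [hS] at hw
    obtain ⟨k, hk⟩ := Complex.exp_eq_exp_iff_exists_int.1
      ((hp' w hw.1 hw.2.ge).trans (hq2 w hw.1 hw.2.le).symm)
    exact ⟨k, by rw [hk]; ring⟩)
  have hn : ∀ w ∈ S, p w = q w + n * (2 * Real.pi * Complex.I) := by
    intro w hw
    rw [← hn' w hw]
    ring
  classical
  refine ⟨fun w => if 0 ≤ inner ℝ e w then p w else q w + n * (2 * Real.pi * Complex.I), ?_, ?_⟩
  · have hi : Continuous fun w : V => inner ℝ e w := by fun_prop
    refine ContinuousOn.if ?_ ?_ ?_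
    · rintro w ⟨hw, hw'⟩
      refine hn w ?_
      rw [hS]
      refine ⟨hw, ?_⟩
      have : frontier {w : V | (0 : ℝ) ≤ inner ℝ e w} ⊆ {w | (0 : ℝ) = inner ℝ e w} :=
        frontier_le_subset_eq continuous_const hi
      exact (this hw').symm
    · exact hp.continuousOn
    · exact (hq.add continuous_const).continuousOn
  · intro w hw
    by_cases h : 0 ≤ inner ℝ e w
    · simp only [h, if_true]
      exact hp' w hw h
    · simp only [h, if_false]
      rw [Complex.exp_add, hq2 w hw (not_le.1 h).le]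
      have : Complex.exp (n * (2 * Real.pi * Complex.I)) = 1 := Complex.exp_int_mul_two_pi_mul_I n
      rw [this, mul_one]

/-- a nowhere zero section over the closed upper hemisphere of a field of rank one
idempotents. -/
theorem section_half [FiniteDimensional ℝ V] {e : V} (he : ‖e‖ = 1)
    (P : V → Matrix (Fin 2) (Fin 2) ℂ) (hP : ContinuousOn P {w | ‖w‖ = 1})
    (hid : ∀ w, ‖w‖ = 1 → P w * P w = P w) (hne : P e ≠ 0) :
    ∃ ψ : V → Fin 2 → ℂ, Continuous ψ ∧ ∀ w, ‖w‖ = 1 → 0 ≤ inner ℝ e w →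
      ψ w ≠ 0 ∧ (P w).mulVec (ψ w) = ψ w := by
  obtain ⟨K, hK⟩ : ∃ K : Set V, K = Metric.closedBall 0 1 := ⟨_, rfl⟩
  have hKc : CompactSpace K := by
    rw [hK]
    exact isCompact_iff_compactSpace.1 (isCompact_closedBall (0 : V) 1)
  obtain ⟨g, hg, hgd, hgP⟩ := Pool.Agent.Helper672.Lv.J27089.exists_transport (K := K)
    (fun t x => P (gp e (t • (x : V))))
    (by
      refine hP.comp_continuous ((gp_continuous e).comp ?_) fun p => gp_norm he _
      exact continuous_fst.smul (continuous_subtype_val.comp continuous_snd))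
    (fun t x => hid _ (gp_norm he _)) (P e) (fun x => by
      show P (gp e ((0 : ℝ) • (x : V))) = P e
      rw [zero_smul, gp_zero])
  obtain ⟨v, hv⟩ : ∃ v : Fin 2 → ℂ, (P e).mulVec v ≠ 0 := by
    by_contra hcon
    push Not at hcon
    apply hne
    apply Matrix.mulVec_injective
    funext v
    rw [hcon v, Matrix.zero_mulVec]
  obtain ⟨cl, hcl⟩ : ∃ cl : V → K, Continuous cl ∧ ∀ w, ‖w‖ = 1 → (cl w : V) = w := by
    refine ⟨fun w => ⟨(1 / max 1 ‖w‖) • w, ?_⟩, ?_, ?_⟩
    · have hm : (1 : ℝ) ≤ max 1 ‖w‖ := le_max_left _ _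
      have hm' : ‖w‖ ≤ max 1 ‖w‖ := le_max_right _ _
      rw [hK, mem_closedBall_zero_iff, norm_smul, Real.norm_of_nonneg (by positivity),
        one_div_mul_eq_div]
      exact (div_le_one (by linarith)).2 hm'
    · refine Continuous.subtype_mk ?_ _
      refine Continuous.smul (Continuous.div continuous_const ?_ ?_) continuous_id
      · exact continuous_const.max continuous_norm
      · intro x
        have : (1 : ℝ) ≤ max 1 ‖x‖ := le_max_left _ _
        linarith
    · intro w hw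
      show (1 / max 1 ‖w‖) • w = w
      rw [hw]
      simp
  refine ⟨fun w => (g (cl w)).mulVec ((P e).mulVec v), ?_, ?_⟩
  · exact (hg.comp hcl.1).matrix_mulVec continuous_const
  · intro w hw hw'
    constructor
    · intro h0
      apply hv
      have hu : IsUnit (g (cl w)) := by
        rw [Matrix.isUnit_iff_isUnit_det]
        exact (hgd (cl w)).isUnit
      have hinj := Matrix.mulVec_injective_of_isUnit hu
      apply hinj
      have h0' : (g (cl w)).mulVec ((P e).mulVec v) = 0 := h0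
      rw [h0', Matrix.mulVec_zero]
    · have h1 := hgP (cl w)
      have h2 : P (gp e ((1 : ℝ) • ((cl w : K) : V))) = P w := by
        rw [one_smul, hcl.2 w hw, gp_eq he w hw hw']
      have h3 : g (cl w) * P e = P w * g (cl w) := by rw [← h2]; exact h1
      have h4 : P e * P e = P e := hid e he
      show (P w).mulVec ((g (cl w)).mulVec ((P e).mulVec v)) =
        (g (cl w)).mulVec ((P e).mulVec v)
      have h5 : (g (cl w)).mulVec ((P e).mulVec v) = (g (cl w) * P e).mulVec v :=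
        Matrix.mulVec_mulVec _ _ _
      rw [h5, Matrix.mulVec_mulVec, ← mul_assoc, ← h3, mul_assoc, h4]

/-- two vectors in the range of a rank one idempotent are proportional. -/
theorem prop_of_rank_one (P : Matrix (Fin 2) (Fin 2) ℂ) (hdet : P.det = 0) (u v : Fin 2 → ℂ)
    (hu : P.mulVec u = u) (hv : P.mulVec v = v) : u 0 * v 1 = u 1 * v 0 := by
  have hu0 := congrFun hu 0
  have hu1 := congrFun hu 1
  have hv0 := congrFun hv 0
  have hv1 := congrFun hv 1
  rw [Matrix.det_fin_two] at hdet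
  simp only [Matrix.mulVec, dotProduct, Fin.sum_univ_two] at hu0 hu1 hv0 hv1
  have h1 : u 0 * v 1 - u 1 * v 0 = (P 0 0 * P 1 1 - P 0 1 * P 1 0) * (u 0 * v 1 - u 1 * v 0) := by
    calc u 0 * v 1 - u 1 * v 0 = (P 0 0 * u 0 + P 0 1 * u 1) * (P 1 0 * v 0 + P 1 1 * v 1) -
          (P 1 0 * u 0 + P 1 1 * u 1) * (P 0 0 * v 0 + P 0 1 * v 1) := by
            rw [hu0, hu1, hv0, hv1]
      _ = _ := by ring
  rw [hdet, zero_mul] at h1
  exact sub_eq_zero.1 h1

/-- a nowhere zero section over the whole sphere with a symmetry. -/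
theorem section_sphere [FiniteDimensional ℝ V] (hd : 3 < Module.finrank ℝ V)
    (P : V → Matrix (Fin 2) (Fin 2) ℂ) (hP : ContinuousOn P {w | ‖w‖ = 1})
    (hid : ∀ w, ‖w‖ = 1 → P w * P w = P w) (hne : ∀ w, ‖w‖ = 1 → P w ≠ 0)
    (hdet : ∀ w, ‖w‖ = 1 → (P w).det = 0)
    (hsym : ∀ w, ‖w‖ = 1 → P (-w) 0 0 = P w 0 0 ∧ P (-w) 0 1 = - P w 0 1 ∧
      P (-w) 1 0 = - P w 1 0 ∧ P (-w) 1 1 = P w 1 1) :
    ∃ ψ : V → Fin 2 → ℂ, ContinuousOn ψ {w | ‖w‖ = 1} ∧
      (∀ w, ‖w‖ = 1 → ψ w ≠ 0 ∧ (P w).mulVec (ψ w) = ψ w) ∧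
      ∃ ε : ℂ, (ε = 1 ∨ ε = -1) ∧ ∀ w, ‖w‖ = 1 → ψ (-w) 0 = ε * ψ w 0 ∧ ψ (-w) 1 = -(ε * ψ w 1) := by
  obtain ⟨e, he⟩ : ∃ e : V, ‖e‖ = 1 := by
    have : Nontrivial V := Module.nontrivial_of_finrank_pos (R := ℝ) (by omega)
    exact exists_norm_eq V zero_le_one
  obtain ⟨φ, hφ, hφ'⟩ := section_half he P hP hid (hne e he)
  obtain ⟨D, hD⟩ : ∃ D : (Fin 2 → ℂ) → (Fin 2 → ℂ), D = fun u => ![u 0, - u 1] := ⟨_, rfl⟩
  have hD0 : ∀ u, D u 0 = u 0 := fun u => by rw [hD]; rfl
  have hD1 : ∀ u, D u 1 = - u 1 := fun u => by rw [hD]; rfl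
  have hDD : ∀ u, D (D u) = u := by
    intro u
    funext i
    fin_cases i
    · show D (D u) 0 = u 0
      rw [hD0, hD0]
    · show D (D u) 1 = u 1
      rw [hD1, hD1, neg_neg]
  have hDs : ∀ (c : ℂ) u, D (c • u) = c • D u := by
    intro c u
    funext i
    fin_cases i
    · show D (c • u) 0 = (c • D u) 0
      rw [hD0, Pi.smul_apply, Pi.smul_apply, hD0]
    · show D (c • u) 1 = (c • D u) 1
      rw [hD1, Pi.smul_apply, Pi.smul_apply, hD1]
      simp
  have hDne : ∀ u, u ≠ 0 → D u ≠ 0 := by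
    intro u hu h
    apply hu
    rw [← hDD u, h]
    funext i
    fin_cases i
    · show D 0 0 = 0
      rw [hD0]; rfl
    · show D 0 1 = 0
      rw [hD1]; simp
  have hDc : Continuous D := by
    rw [hD]
    refine continuous_pi fun i => ?_
    fin_cases i
    · exact continuous_apply 0
    · exact (continuous_apply 1).neg
  have hDP : ∀ w, ‖w‖ = 1 → ∀ u, (P (-w)).mulVec (D u) = D ((P w).mulVec u) := by
    intro w hw u
    obtain ⟨s00, s01, s10, s11⟩ := hsym w hw
    funext i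
    fin_cases i
    · show (P (-w)).mulVec (D u) 0 = D ((P w).mulVec u) 0
      rw [hD0]
      simp only [Matrix.mulVec, dotProduct, Fin.sum_univ_two, hD0, hD1, s00, s01]
      ring
    · show (P (-w)).mulVec (D u) 1 = D ((P w).mulVec u) 1
      rw [hD1]
      simp only [Matrix.mulVec, dotProduct, Fin.sum_univ_two, hD0, hD1, s10, s11]
      ring
  -- the transition function on the equator
  obtain ⟨W, hW⟩ : ∃ W : Submodule ℝ V, W = (ℝ ∙ e)ᗮ := ⟨_, rfl⟩
  have hWmem : ∀ w : V, w ∈ W ↔ inner ℝ e w = 0 := by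
    intro w
    rw [hW, Submodule.mem_orthogonal_singleton_iff_inner_right]
  have hWd : 2 < Module.finrank ℝ W := by
    have := finrank_perp he
    rw [hW]
    omega
  obtain ⟨nn, hnn⟩ : ∃ nn : V → ℂ, nn = fun w =>
    (starRingEnd ℂ) (φ w 0) * φ w 0 + (starRingEnd ℂ) (φ w 1) * φ w 1 := ⟨_, rfl⟩
  have hnn0 : ∀ w, φ w ≠ 0 → nn w ≠ 0 := by
    intro w hw h
    apply hw
    have h1 : nn w = ((Complex.normSq (φ w 0) + Complex.normSq (φ w 1) : ℝ) : ℂ) := by
      rw [hnn]
      push_cast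
      rw [← Complex.normSq_eq_conj_mul_self, ← Complex.normSq_eq_conj_mul_self]
    rw [h1] at h
    have h2 : Complex.normSq (φ w 0) + Complex.normSq (φ w 1) = 0 := by exact_mod_cast h
    have h3 := Complex.normSq_nonneg (φ w 0)
    have h4 := Complex.normSq_nonneg (φ w 1)
    have h5 : φ w 0 = 0 := Complex.normSq_eq_zero.1 (by linarith)
    have h6 : φ w 1 = 0 := Complex.normSq_eq_zero.1 (by linarith)
    funext i
    fin_cases i
    · exact h5
    · exact h6
  have hnnc : Continuous nn := by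
    rw [hnn]
    have h1 : Continuous fun w => φ w 0 := (continuous_apply 0).comp hφ
    have h2 : Continuous fun w => φ w 1 := (continuous_apply 1).comp hφ
    exact ((Complex.continuous_conj.comp h1).mul h1).add ((Complex.continuous_conj.comp h2).mul h2)
  obtain ⟨ρ, hρ⟩ : ∃ ρ : V → ℂ, ρ = fun w =>
    ((starRingEnd ℂ) (φ w 0) * D (φ (-w)) 0 + (starRingEnd ℂ) (φ w 1) * D (φ (-w)) 1) / nn w :=
    ⟨_, rfl⟩
  have hρe : ∀ w, ‖w‖ = 1 → inner ℝ e w = 0 → D (φ (-w)) = ρ w • φ w := by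
    intro w hw hw'
    obtain ⟨h1, h2⟩ := hφ' w hw hw'.ge
    obtain ⟨h3, h4⟩ := hφ' (-w) (by rw [norm_neg, hw]) (by rw [inner_neg_right, hw', neg_zero])
    have h5 : (P w).mulVec (D (φ (-w))) = D (φ (-w)) := by
      have := hDP (-w) (by rw [norm_neg, hw]) (φ (-w))
      rw [neg_neg, h4] at this
      exact this
    have h6 := prop_of_rank_one (P w) (hdet w hw) _ _ h5 h2
    have h7 := hnn0 w h1
    have h8 : nn w = (starRingEnd ℂ) (φ w 0) * φ w 0 + (starRingEnd ℂ) (φ w 1) * φ w 1 := by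
      rw [hnn]
    funext i
    rw [Pi.smul_apply, smul_eq_mul, hρ]
    show _ = (((starRingEnd ℂ) (φ w 0) * D (φ (-w)) 0 +
      (starRingEnd ℂ) (φ w 1) * D (φ (-w)) 1) / nn w) * φ w i
    rw [div_mul_eq_mul_div, eq_div_iff h7, h8]
    fin_cases i
    · show D (φ (-w)) 0 * _ = _ * φ w 0
      linear_combination (starRingEnd ℂ) (φ w 1) * h6
    · show D (φ (-w)) 1 * _ = _ * φ w 1
      linear_combination -(starRingEnd ℂ) (φ w 0) * h6
  have hρ0 : ∀ w, ‖w‖ = 1 → inner ℝ e w = 0 → ρ w ≠ 0 := by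
    intro w hw hw' h0
    have h1 := hρe w hw hw'
    rw [h0, zero_smul] at h1
    exact hDne _ (hφ' (-w) (by rw [norm_neg, hw])
      (by rw [inner_neg_right, hw', neg_zero])).1 h1
  have hρρ : ∀ w, ‖w‖ = 1 → inner ℝ e w = 0 → ρ w * ρ (-w) = 1 := by
    intro w hw hw'
    have hmw : ‖-w‖ = 1 := by rw [norm_neg, hw]
    have hmw' : inner ℝ e (-w) = 0 := by rw [inner_neg_right, hw', neg_zero]
    have h1 := hρe w hw hw'
    have h2 := hρe (-w) hmw hmw'
    rw [neg_neg] at h2
    have h3 : φ w = (ρ w * ρ (-w)) • φ w := by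
      calc φ w = D (D (φ w)) := (hDD _).symm
        _ = ρ (-w) • D (φ (-w)) := by rw [h2, hDs]
        _ = _ := by rw [h1, smul_smul, mul_comm]
    have h4 : (1 - ρ w * ρ (-w)) • φ w = 0 := by
      rw [sub_smul, one_smul, ← h3, sub_self]
    rcases smul_eq_zero.1 h4 with h5 | h5
    · exact (sub_eq_zero.1 h5).symm
    · exact absurd h5 (hφ' w hw hw'.ge).1
  obtain ⟨h, hhc, hh⟩ := log_sphere (V := W) hWd (fun y => ρ (y : V)) (by
    intro y hy
    have hy1 : ‖(y : V)‖ = 1 := hy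
    have hy2 : inner ℝ e (y : V) = 0 := (hWmem _).1 y.2
    have hne : nn (y : V) ≠ 0 := hnn0 _ (hφ' _ hy1 hy2.ge).1
    have hc1 : Continuous fun w : V =>
        (starRingEnd ℂ) (φ w 0) * D (φ (-w)) 0 + (starRingEnd ℂ) (φ w 1) * D (φ (-w)) 1 := by
      have h1 : Continuous fun w => φ w 0 := (continuous_apply 0).comp hφ
      have h2 : Continuous fun w => φ w 1 := (continuous_apply 1).comp hφ
      have h3 : Continuous fun w => D (φ (-w)) := hDc.comp (hφ.comp continuous_neg)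
      exact ((Complex.continuous_conj.comp h1).mul ((continuous_apply 0).comp h3)).add
        ((Complex.continuous_conj.comp h2).mul ((continuous_apply 1).comp h3))
    have hc2 : ContinuousAt ρ (y : V) := by
      rw [hρ]
      exact hc1.continuousAt.div hnnc.continuousAt hne
    exact (ContinuousAt.comp (x := y) hc2 continuous_subtype_val.continuousAt).continuousWithinAt)
    (fun y hy => hρ0 _ hy ((hWmem _).1 y.2))
  have hS := sphere_preconn (V := W) (by omega)
  obtain ⟨n, hn⟩ := int_const {y : W | ‖y‖ = 1} hS (fun y => h y + h (-y))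
    (hhc.add (hhc.comp continuous_neg.continuousOn (fun y hy => by
      show ‖-y‖ = 1
      rw [norm_neg]; exact hy)))
    (by
      intro y hy
      have hy' : ‖y‖ = 1 := hy
      have h1 : Complex.exp (h y + h (-y)) = 1 := by
        rw [Complex.exp_add, hh y hy', hh (-y) (by rw [norm_neg]; exact hy')]
        exact hρρ _ hy' ((hWmem _).1 y.2)
      exact Complex.exp_eq_one_iff.1 h1)
  obtain ⟨H, hH⟩ : ∃ H : C(W, ℂ), ∀ y : W, ‖y‖ = 1 → H y = h y := by
    have hcl : IsClosed {y : W | ‖y‖ = 1} := isClosed_eq continuous_norm continuous_const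
    obtain ⟨H, hH⟩ := ContinuousMap.exists_restrict_eq hcl
      (⟨Set.domRestrict {y : W | ‖y‖ = 1} h, continuousOn_iff_continuous_domRestrict.1 hhc⟩ :
        C({y : W | ‖y‖ = 1}, ℂ))
    refine ⟨H, fun y hy => ?_⟩
    exact DFunLike.congr_fun hH ⟨y, hy⟩
  obtain ⟨pr, hpr⟩ : ∃ pr : V → W, Continuous pr ∧ ∀ w (hw : w ∈ W), pr w = ⟨w, hw⟩ := by
    refine ⟨W.orthogonalProjectionOnto, W.orthogonalProjectionOnto.continuous, fun w hw => ?_⟩
    exact Submodule.orthogonalProjectionOnto_mem_subspace_eq_self (K := W) ⟨w, hw⟩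
  obtain ⟨χ, hχ⟩ : ∃ χ : V → Fin 2 → ℂ, χ = fun w => Complex.exp (H (pr w) / 2) • φ w := ⟨_, rfl⟩
  have hχc : Continuous χ := by
    rw [hχ]
    exact (Complex.continuous_exp.comp ((H.continuous.comp hpr.1).div_const 2)).smul hφ
  have hχ' : ∀ w, ‖w‖ = 1 → 0 ≤ inner ℝ e w → χ w ≠ 0 ∧ (P w).mulVec (χ w) = χ w := by
    intro w hw hw'
    obtain ⟨h1, h2⟩ := hφ' w hw hw'
    rw [hχ]
    refine ⟨smul_ne_zero (Complex.exp_ne_zero _) h1, ?_⟩
    show (P w).mulVec (Complex.exp (H (pr w) / 2) • φ w) = Complex.exp (H (pr w) / 2) • φ w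
    rw [Matrix.mulVec_smul, h2]
  obtain ⟨ε, hε⟩ : ∃ ε : ℂ, ε = Complex.exp (n * (Real.pi * Complex.I)) := ⟨_, rfl⟩
  have hεε : ε * ε = 1 := by
    rw [hε, ← Complex.exp_add]
    have : (n : ℂ) * (Real.pi * Complex.I) + n * (Real.pi * Complex.I) =
        n * (2 * Real.pi * Complex.I) := by ring
    rw [this]
    exact Complex.exp_int_mul_two_pi_mul_I n
  have hε1 : ε = 1 ∨ ε = -1 := mul_self_eq_one_iff.1 hεε
  have hglue : ∀ w, ‖w‖ = 1 → inner ℝ e w = 0 → χ w = ε • D (χ (-w)) := by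
    intro w hw hw'
    have hwW : w ∈ W := (hWmem w).2 hw'
    have hmW : -w ∈ W := W.neg_mem hwW
    have hy : ‖(⟨w, hwW⟩ : W)‖ = 1 := hw
    have hmy : ‖-(⟨w, hwW⟩ : W)‖ = 1 := by rw [norm_neg]; exact hw
    have e1 : pr w = ⟨w, hwW⟩ := hpr.2 w hwW
    have e2 : pr (-w) = -⟨w, hwW⟩ := by rw [hpr.2 (-w) hmW]; rfl
    have h1 := hn ⟨w, hwW⟩ hy
    have h2 := hh ⟨w, hwW⟩ hy
    have h3 := hρe w hw hw'
    rw [hχ]
    show Complex.exp (H (pr w) / 2) • φ w = ε • D (Complex.exp (H (pr (-w)) / 2) • φ (-w))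
    rw [e1, e2, hH _ hy, hH _ hmy, hDs, h3, smul_smul, smul_smul]
    have h2' : ρ w = Complex.exp (h ⟨w, hwW⟩) := h2.symm
    rw [h2', hε]
    congr 1
    have h4 : h (-⟨w, hwW⟩) = n * (2 * Real.pi * Complex.I) - h ⟨w, hwW⟩ := by
      have h5 : h ⟨w, hwW⟩ + h (-⟨w, hwW⟩) = n * (2 * Real.pi * Complex.I) := h1
      rw [← h5]; ring
    rw [← Complex.exp_add, ← Complex.exp_add, h4]
    have h6 : (n : ℂ) * (Real.pi * Complex.I) + (n * (2 * Real.pi * Complex.I) - h ⟨w, hwW⟩) / 2 +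
        h ⟨w, hwW⟩ = h ⟨w, hwW⟩ / 2 + n * (2 * Real.pi * Complex.I) := by ring
    rw [h6, Complex.exp_add, Complex.exp_int_mul_two_pi_mul_I, mul_one]
  classical
  have hi : Continuous fun w : V => inner ℝ e w := by fun_prop
  obtain ⟨ψ, hψ⟩ : ∃ ψ : V → Fin 2 → ℂ, ψ = fun w =>
    if 0 ≤ inner ℝ e w then χ w else ε • D (χ (-w)) := ⟨_, rfl⟩
  have hψu : ∀ w, 0 ≤ inner ℝ e w → ψ w = χ w := by
    intro w hw
    rw [hψ]
    exact if_pos hw
  have hψl : ∀ w, ‖w‖ = 1 → inner ℝ e w ≤ 0 → ψ w = ε • D (χ (-w)) := by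
    intro w hw hw'
    rcases hw'.lt_or_eq with h1 | h1
    · rw [hψ]
      exact if_neg (not_le.2 h1)
    · rw [hψu w h1.ge]
      exact hglue w hw h1
  have hsw : ∀ w, ‖w‖ = 1 → ψ (-w) = ε • D (ψ w) := by
    intro w hw
    rcases le_total 0 (inner ℝ e w) with h1 | h1
    · rw [hψl (-w) (by rw [norm_neg, hw]) (by rw [inner_neg_right]; linarith), hψu w h1, neg_neg]
    · rw [hψu (-w) (by rw [inner_neg_right]; linarith), hψl w hw h1, hDs, hDD, smul_smul, hεε,
        one_smul]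
  refine ⟨ψ, ?_, ?_, ε, hε1, ?_⟩
  · rw [hψ]
    refine ContinuousOn.if ?_ ?_ ?_
    · rintro w ⟨hw, hw'⟩
      have : frontier {w : V | (0 : ℝ) ≤ inner ℝ e w} ⊆ {w | (0 : ℝ) = inner ℝ e w} :=
        frontier_le_subset_eq continuous_const hi
      exact hglue w hw (this hw').symm
    · exact hχc.continuousOn
    · exact ((hDc.comp (hχc.comp continuous_neg)).const_smul ε).continuousOn
  · intro w hw
    rcases le_total 0 (inner ℝ e w) with h1 | h1
    · rw [hψu w h1]
      exact hχ' w hw h1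
    · rw [hψl w hw h1]
      obtain ⟨h2, h3⟩ := hχ' (-w) (by rw [norm_neg, hw]) (by rw [inner_neg_right]; linarith)
      have hε0 : ε ≠ 0 := by
        intro h0
        rw [h0, mul_zero] at hεε
        exact zero_ne_one hεε
      refine ⟨smul_ne_zero hε0 (hDne _ h2), ?_⟩
      rw [Matrix.mulVec_smul]
      congr 1
      have := hDP (-w) (by rw [norm_neg, hw]) (χ (-w))
      rw [neg_neg, h3] at this
      exact this
  · intro w hw
    rw [hsw w hw]
    constructor
    · show ε * D (ψ w) 0 = ε * ψ w 0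
      rw [hD0]
    · show ε * D (ψ w) 1 = -(ε * ψ w 1)
      rw [hD1]
      ring

end log

theorem infDist_neg {V : Type*} [NormedAddCommGroup V] (A : Set V) (hA : ∀ w ∈ A, -w ∈ A)
    (w : V) : Metric.infDist (-w) A = Metric.infDist w A := by
  have h1 : (fun x : V => -x) '' A = A := by
    ext x
    constructor
    · rintro ⟨y, hy, rfl⟩
      exact hA y hy
    · intro hx
      exact ⟨-x, hA x hx, neg_neg x⟩
  have h2 := Metric.infDist_image (Φ := fun x : V => -x) (x := w) (t := A)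
    (Isometry.of_dist_eq fun x y => by rw [dist_neg_neg])
  rw [h1] at h2
  exact h2

/-- multiplication of a function vanishing at the zeros of `d` by the phase of `d`. -/
theorem phase_cont {V : Type*} [TopologicalSpace V] (S : Set V) (d : V → ℂ)
    (hd : ContinuousOn d S) (g : V → ℝ) (hg : ContinuousOn g S)
    (h0 : ∀ w ∈ S, d w = 0 → g w = 0) :
    ContinuousOn (fun w => (g w : ℂ) * (d w / ‖d w‖)) S := by
  intro w hw
  by_cases h : d w = 0
  · have hgw := h0 w hw h
    have h1 : Filter.Tendsto g (𝓝[S] w) (𝓝 0) := by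
      have := hg w hw
      rw [ContinuousWithinAt, hgw] at this
      exact this
    rw [ContinuousWithinAt]
    have h2 : (g w : ℂ) * (d w / ‖d w‖) = 0 := by rw [hgw]; simp
    rw [h2]
    have h3 : Filter.Tendsto (fun w => |g w|) (𝓝[S] w) (𝓝 0) := by
      have := h1.abs
      rwa [abs_zero] at this
    refine squeeze_zero_norm (fun x => ?_) h3
    rw [norm_mul, Complex.norm_real, Real.norm_eq_abs, norm_div, Complex.norm_real, norm_norm]
    have h4 : ‖d x‖ / ‖d x‖ ≤ 1 := div_self_le_one _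
    have := abs_nonneg (g x)
    nlinarith
  · have h1 : ContinuousWithinAt (fun w => (g w : ℂ)) S w :=
      Complex.continuous_ofReal.continuousAt.comp_continuousWithinAt (hg w hw)
    have h2 : ContinuousWithinAt (fun w => (‖d w‖ : ℂ)) S w :=
      Complex.continuous_ofReal.continuousAt.comp_continuousWithinAt (hd w hw).norm
    refine h1.mul ((hd w hw).div h2 ?_)
    simpa using h

end Dich

open Dich Set Topology in
/-- **Dichotomy.** -/
theorem dichotomy (A C : Set (EuclideanSpace ℝ (Fin 7))) (hA : IsClosed A) (hC : IsClosed C)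
    (hAC : Disjoint A C) (hAs : ∀ w ∈ A, -w ∈ A) (hCs : ∀ w ∈ C, -w ∈ C)
    (d : EuclideanSpace ℝ (Fin 7) → ℂ) (hd : Continuous d) (hdo : ∀ w, d (-w) = - d w)
    (hz : ∀ w, ‖w‖ = 1 → d w = 0 → w ∈ A ∪ C) :
    ∃ s : EuclideanSpace ℝ (Fin 7) → ℂ, ContinuousOn s {w | ‖w‖ = 1} ∧
      (∀ w, ‖w‖ = 1 → s (-w) = - s w) ∧
      ((∀ w, ‖w‖ = 1 → s w = 0 → w ∈ A) ∨ (∀ w, ‖w‖ = 1 → s w = 0 → w ∈ C)) := by
  rcases A.eq_empty_or_nonempty with hAe | hAn
  · refine ⟨d, hd.continuousOn, fun w _ => hdo w, Or.inr fun w hw h => ?_⟩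
    have := hz w hw h
    rwa [hAe, empty_union] at this
  rcases C.eq_empty_or_nonempty with hCe | hCn
  · refine ⟨d, hd.continuousOn, fun w _ => hdo w, Or.inl fun w hw h => ?_⟩
    have := hz w hw h
    rwa [hCe, union_empty] at this
  obtain ⟨a, ha⟩ : ∃ a : EuclideanSpace ℝ (Fin 7) → ℝ, a = fun w => Metric.infDist w A := ⟨_, rfl⟩
  obtain ⟨c, hc⟩ : ∃ c : EuclideanSpace ℝ (Fin 7) → ℝ, c = fun w => Metric.infDist w C := ⟨_, rfl⟩
  have hac : Continuous a := by rw [ha]; exact Metric.continuous_infDist_pt A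
  have hcc : Continuous c := by rw [hc]; exact Metric.continuous_infDist_pt C
  have han : ∀ w, a (-w) = a w := by intro w; rw [ha]; exact infDist_neg A hAs w
  have hcn : ∀ w, c (-w) = c w := by intro w; rw [hc]; exact infDist_neg C hCs w
  have ha0 : ∀ w, a w = 0 ↔ w ∈ A := by
    intro w; rw [ha]; exact (hA.mem_iff_infDist_zero hAn).symm
  have hc0 : ∀ w, c w = 0 ↔ w ∈ C := by
    intro w; rw [hc]; exact (hC.mem_iff_infDist_zero hCn).symm
  obtain ⟨m, hm⟩ : ∃ m : EuclideanSpace ℝ (Fin 7) → ℝ, m = fun w => a w ^ 2 + c w ^ 2 := ⟨_, rfl⟩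
  have hm0 : ∀ w, m w ≠ 0 := by
    intro w h
    rw [hm] at h
    have h1 : a w ^ 2 + c w ^ 2 = 0 := h
    have h2 : a w = 0 := by nlinarith [sq_nonneg (a w), sq_nonneg (c w)]
    have h3 : c w = 0 := by nlinarith [sq_nonneg (a w), sq_nonneg (c w)]
    exact (Set.disjoint_left.1 hAC) ((ha0 w).1 h2) ((hc0 w).1 h3)
  have hmc : Continuous m := by rw [hm]; exact (hac.pow 2).add (hcc.pow 2)
  obtain ⟨g, hg⟩ : ∃ g : EuclideanSpace ℝ (Fin 7) → ℝ, g = fun w => a w * c w / m w := ⟨_, rfl⟩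
  have hgc : Continuous g := by rw [hg]; exact (hac.mul hcc).div hmc hm0
  have hmn : ∀ w, m (-w) = m w := by intro w; rw [hm]; simp only [han, hcn]
  have hgn : ∀ w, g (-w) = g w := by intro w; rw [hg]; simp only [han, hcn, hmn]
  have hg0 : ∀ w, ‖w‖ = 1 → d w = 0 → g w = 0 := by
    intro w hw h
    rw [hg]
    rcases hz w hw h with h1 | h1
    · show a w * c w / m w = 0
      rw [(ha0 w).2 h1]; simp
    · show a w * c w / m w = 0
      rw [(hc0 w).2 h1]; simp
  obtain ⟨r, hr⟩ : ∃ r : EuclideanSpace ℝ (Fin 7) → ℂ, r = fun w => (g w : ℂ) * (d w / ‖d w‖) :=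
    ⟨_, rfl⟩
  have hrc : ContinuousOn r {w | ‖w‖ = 1} := by
    rw [hr]
    exact phase_cont _ d hd.continuousOn g hgc.continuousOn hg0
  have hrn : ∀ w, r (-w) = - r w := by
    intro w
    rw [hr]
    show (g (-w) : ℂ) * (d (-w) / ‖d (-w)‖) = -((g w : ℂ) * (d w / ‖d w‖))
    rw [hgn, hdo, norm_neg]
    ring
  have hrr : ∀ w, ‖w‖ = 1 → (starRingEnd ℂ) (r w) * r w = ((g w ^ 2 : ℝ) : ℂ) := by
    intro w hw
    rw [← Complex.normSq_eq_conj_mul_self]
    congr 1
    rw [hr]
    show Complex.normSq ((g w : ℂ) * (d w / ‖d w‖)) = g w ^ 2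
    rw [Complex.normSq_mul, Complex.normSq_ofReal]
    by_cases h : d w = 0
    · rw [hg0 w hw h]; simp
    · have h1 : Complex.normSq (d w / (‖d w‖ : ℂ)) = 1 := by
        rw [Complex.normSq_div, Complex.normSq_ofReal, Complex.normSq_eq_norm_sq, ← sq]
        exact div_self (pow_ne_zero 2 (norm_ne_zero_iff.2 h))
      rw [h1]; ring
  obtain ⟨P, hP⟩ : ∃ P : EuclideanSpace ℝ (Fin 7) → Matrix (Fin 2) (Fin 2) ℂ, P = fun w =>
      !![((c w ^ 2 / m w : ℝ) : ℂ), (starRingEnd ℂ) (r w); r w, ((a w ^ 2 / m w : ℝ) : ℂ)] :=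
    ⟨_, rfl⟩
  have hP00 : ∀ w, P w 0 0 = ((c w ^ 2 / m w : ℝ) : ℂ) := by intro w; rw [hP]; rfl
  have hP01 : ∀ w, P w 0 1 = (starRingEnd ℂ) (r w) := by intro w; rw [hP]; rfl
  have hP10 : ∀ w, P w 1 0 = r w := by intro w; rw [hP]; rfl
  have hP11 : ∀ w, P w 1 1 = ((a w ^ 2 / m w : ℝ) : ℂ) := by intro w; rw [hP]; rfl
  have htr : ∀ w, c w ^ 2 / m w + a w ^ 2 / m w = 1 := by
    intro w
    rw [← add_div]
    have : c w ^ 2 + a w ^ 2 = m w := by rw [hm]; ring
    rw [this]
    exact div_self (hm0 w)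
  have htrC : ∀ w, ((c w ^ 2 / m w : ℝ) : ℂ) + ((a w ^ 2 / m w : ℝ) : ℂ) = 1 := by
    intro w
    have := htr w
    exact_mod_cast this
  have hgg : ∀ w, g w ^ 2 = (c w ^ 2 / m w) * (a w ^ 2 / m w) := by
    intro w
    rw [hg]
    show (a w * c w / m w) ^ 2 = _
    ring
  have hdet : ∀ w, ‖w‖ = 1 → ((c w ^ 2 / m w : ℝ) : ℂ) * ((a w ^ 2 / m w : ℝ) : ℂ) =
      (starRingEnd ℂ) (r w) * r w := by
    intro w hw
    rw [hrr w hw, hgg]
    push_cast
    rfl
  have hPc : ContinuousOn P {w | ‖w‖ = 1} := by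
    rw [hP]
    have h1 : Continuous fun w => ((c w ^ 2 / m w : ℝ) : ℂ) :=
      Complex.continuous_ofReal.comp ((hcc.pow 2).div hmc hm0)
    have h2 : Continuous fun w => ((a w ^ 2 / m w : ℝ) : ℂ) :=
      Complex.continuous_ofReal.comp ((hac.pow 2).div hmc hm0)
    have h3 : ContinuousOn (fun w => (starRingEnd ℂ) (r w)) {w | ‖w‖ = 1} :=
      Complex.continuous_conj.comp_continuousOn hrc
    refine continuousOn_pi.2 fun i => continuousOn_pi.2 fun j => ?_
    fin_cases i <;> fin_cases j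
    · exact h1.continuousOn
    · exact h3
    · exact hrc
    · exact h2.continuousOn
  obtain ⟨ψ, hψc, hψ, ε, hε, hψs⟩ := section_sphere (V := EuclideanSpace ℝ (Fin 7))
    (by rw [finrank_euclideanSpace_fin]; norm_num) P hPc
    (by
      intro w hw
      have h1 := htrC w
      have h2 := hdet w hw
      ext i j
      rw [Matrix.mul_apply, Fin.sum_univ_two]
      fin_cases i <;> fin_cases j
      · show P w 0 0 * P w 0 0 + P w 0 1 * P w 1 0 = P w 0 0
        rw [hP00, hP01, hP10, ← h2]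
        linear_combination ((c w ^ 2 / m w : ℝ) : ℂ) * h1
      · show P w 0 0 * P w 0 1 + P w 0 1 * P w 1 1 = P w 0 1
        rw [hP00, hP01, hP11]
        linear_combination (starRingEnd ℂ) (r w) * h1
      · show P w 1 0 * P w 0 0 + P w 1 1 * P w 1 0 = P w 1 0
        rw [hP00, hP10, hP11]
        linear_combination (r w) * h1
      · show P w 1 0 * P w 0 1 + P w 1 1 * P w 1 1 = P w 1 1
        rw [hP01, hP10, hP11, mul_comm (r w), ← h2]
        linear_combination ((a w ^ 2 / m w : ℝ) : ℂ) * h1)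
    (by
      intro w hw h
      have h1 := htrC w
      rw [← hP00, ← hP11, h] at h1
      simp at h1)
    (by
      intro w hw
      rw [Matrix.det_fin_two, hP00, hP01, hP10, hP11, hdet w hw, sub_self])
    (by
      intro w hw
      simp only [hP00, hP01, hP10, hP11, hcn, han, hmn, hrn, map_neg]
      exact ⟨trivial, trivial, trivial, trivial⟩)
  -- zeros of the components
  have hcomp : ∀ w, ‖w‖ = 1 → (ψ w 0 = 0 → w ∈ C) ∧ (ψ w 1 = 0 → w ∈ A) := by
    intro w hw
    obtain ⟨h1, h2⟩ := hψ w hw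
    have h3 := congrFun h2 0
    have h4 := congrFun h2 1
    simp only [Matrix.mulVec, dotProduct, Fin.sum_univ_two, hP00, hP01, hP10, hP11] at h3 h4
    constructor
    · intro h5
      have h6 : ψ w 1 ≠ 0 := by
        intro h6
        apply h1
        funext i
        fin_cases i
        · exact h5
        · exact h6
      rw [h5, mul_zero, zero_add] at h4
      have h7 : ((a w ^ 2 / m w : ℝ) : ℂ) = 1 := mul_right_cancel₀ h6 (by rw [h4, one_mul])
      have h8 : a w ^ 2 / m w = 1 := by exact_mod_cast h7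
      have h9 := htr w
      rw [h8] at h9
      have h10 : c w ^ 2 / m w = 0 := by linarith
      rcases div_eq_zero_iff.1 h10 with h11 | h11
      · exact (hc0 w).1 (pow_eq_zero_iff (by norm_num) |>.1 h11)
      · exact absurd h11 (hm0 w)
    · intro h5
      have h6 : ψ w 0 ≠ 0 := by
        intro h6
        apply h1
        funext i
        fin_cases i
        · exact h6
        · exact h5
      rw [h5, mul_zero, add_zero] at h3
      have h7 : ((c w ^ 2 / m w : ℝ) : ℂ) = 1 := mul_right_cancel₀ h6 (by rw [h3, one_mul])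
      have h8 : c w ^ 2 / m w = 1 := by exact_mod_cast h7
      have h9 := htr w
      rw [h8] at h9
      have h10 : a w ^ 2 / m w = 0 := by linarith
      rcases div_eq_zero_iff.1 h10 with h11 | h11
      · exact (ha0 w).1 (pow_eq_zero_iff (by norm_num) |>.1 h11)
      · exact absurd h11 (hm0 w)
  rcases hε with hε | hε
  · refine ⟨fun w => ψ w 1, (continuous_apply 1).comp_continuousOn hψc, ?_, Or.inl ?_⟩
    · intro w hw
      have := (hψs w hw).2
      rw [hε, one_mul] at this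
      exact this
    · intro w hw h
      exact (hcomp w hw).2 h
  · refine ⟨fun w => ψ w 0, (continuous_apply 0).comp_continuousOn hψc, ?_, Or.inr ?_⟩
    · intro w hw
      have := (hψs w hw).1
      rw [hε, neg_one_mul] at this
      exact this
    · intro w hw h
      exact (hcomp w hw).1 h

end Pool.Agent.H15.Lev
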