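import Pool.Agent.H15.Lev.Deg
import Pool.Agent.H15.Lev.T3

/-! No seven forms on `ℂ⁵`: assembly of the argument. -/

set_option autoImplicit false

namespace Pool.Agent.H15.Lev

open Set Topology Pool.Agent.Helper775.Tight Pool.Agent.Helper775.Tight.SoftCx

theorem nu_fst (x : E 7 × E 10) : (nu x).1 = x.1 := rfl

/-- the involution of the cochains on `BB`. -/
theorem invol_nu (S : Fin 7 → Matrix (Fin 5) (Fin 5) ℂ) :
    Invol (PF (Prod.fst : E 7 × E 10 → E 7) continuous_fst (BB S) (BB_compact S)) (PBl nu) :=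
  invol_of nu_continuous nu_nu nu_fst (fun _ hx => nu_mem hx)

/-- invariant cochains on `BB` over the sphere of covectors -/
noncomputable abbrev FI (S : Fin 7 → Matrix (Fin 5) (Fin 5) ℂ) :
    SoftCx (E 7) (fixS (PBl (X := E 7 × E 10) nu)) :=
  fix (PF (Prod.fst : E 7 × E 10 → E 7) continuous_fst (BB S) (BB_compact S)) (invol_nu S)

/-- pullback to the invariant cochains -/
noncomputable abbrev phS (S : Fin 7 → Matrix (Fin 5) (Fin 5) ℂ) :
    SoftCx.Mor (AS (E 7)) (FI S) := phiI (invol_nu S) nu_fst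

theorem FI_mem {S : Fin 7 → Matrix (Fin 5) (Fin 5) ℂ} (w : E 7) (n : ℕ)
    (k : fixS (PBl (X := E 7 × E 10) nu)) :
    k ∈ (FI S).N w n ↔ ∀ x ∈ Fw S w, k.1 ∈ Nz x n :=
  mem_push_N (AS (E 7 × E 10)) Prod.fst continuous_fst (BB S) (BB_compact S) w n k.1

theorem FI_coc {S : Fin 7 → Matrix (Fin 5) (Fin 5) ℂ} (w : E 7) (n : ℕ)
    (k : fixS (PBl (X := E 7 × E 10) nu)) :
    (FI S).Coc {w} n k ↔ (AS (E 7 × E 10)).Coc (Fw S w) n k.1 :=
  push_coc (AS (E 7 × E 10)) Prod.fst continuous_fst (BB S) (BB_compact S) {w} n k.1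

theorem FI_cob {S : Fin 7 → Matrix (Fin 5) (Fin 5) ℂ} (w : E 7) (n : ℕ)
    (k : fixS (PBl (X := E 7 × E 10) nu)) :
    (FI S).Cob {w} n k ↔ (AS (E 7 × E 10)).Cob (Fw S w) n k.1 := by
  rw [FI, fix_cob]
  exact push_cob (AS (E 7 × E 10)) Prod.fst continuous_fst (BB S) (BB_compact S) {w} n k.1

theorem FI_ex {S : Fin 7 → Matrix (Fin 5) (Fin 5) ℂ} (w : E 7) (n : ℕ)
    (h : (AS (E 7 × E 10)).Ex (Fw S w) n) : (FI S).Ex {w} n := fun k hk =>
  (FI_cob w n k).2 (h k.1 ((FI_coc w n k).1 hk))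

/-- exactness of the invariant cochains over the whole sphere -/
theorem FI_ex_sphere {S : Fin 7 → Matrix (Fin 5) (Fin 5) ℂ}
    (hfree : ∀ u, u ≠ 0 → ∃ j, qf (S j) u ≠ 0) (n : ℕ) (hn : 2 ≤ n) (hn9 : n ≤ 9) :
    (FI S).Ex (Sp 7 7) n := by
  refine fix_ex (invol_nu S) (Sp 7 7) n ?_
  rw [push_ex]
  have e : BB S ∩ Prod.fst ⁻¹' Sp 7 7 = BB S := by
    ext p
    exact ⟨fun h => h.1, fun h => ⟨h, h.1⟩⟩
  rw [e]
  exact BB_ex hfree n hn hn9

theorem cone_ex_low {S : Fin 7 → Matrix (Fin 5) (Fin 5) ℂ} (hS : ∀ j, (S j).transpose = S j)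
    {w : E 7} (hw : w ∈ Sp 7 7) (m : ℕ) (hm : m ≤ 6 ∨ m = 7 ∧ crk (Sw S w) ≠ 1) :
    (cone (phS S)).Ex {w} m := by
  obtain ⟨f1, f2, f3, f4, f5⟩ := fib_facts hS hw
  refine cone_ex_at (phS S) one w (one_D_mem w) (acy_singleton w) AS_rat (fix_rat _) ?_ ?_ m ?_
  · rw [FI_mem]
    intro h
    exact not_one_mem f1 h
  · intro k hk
    obtain ⟨r, hr⟩ := f2 k.1 ((FI_coc w 1 k).1 hk)
    refine ⟨r, fun z hz => ?_⟩
    rw [mem_singleton_iff.1 hz, FI_mem]
    exact hr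
  · intro h3
    by_cases hc : m - 1 = 5 + crk (Sw S w)
    · have h5 : m - 1 = 5 ∧ crk (Sw S w) = 0 := by omega
      rw [h5.1]
      intro k hk
      rw [FI_cob]
      have h6 := f4 h5.2 k.1 ((FI_coc w 5 k).1 hk)
      have h7 : pb nu k.1 = k.1 := mem_fixS.1 k.2
      rw [h7] at h6
      have h8 := Cob_smul (1 / 2) h6
      convert h8 using 1
      module
    · exact FI_ex w _ (f3 _ (by omega) hc)

/-- the symmetry on invariant cochains -/
noncomputable def TF : fixS (PBl (X := E 7 × E 10) nu) →ₗ[ℚ] fixS (PBl (X := E 7 × E 10) nu) :=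
  (PBl TT).restrict (p := fixS (PBl (X := E 7 × E 10) nu)) (q := fixS (PBl (X := E 7 × E 10) nu))
    (by
      intro k hk
      rw [mem_fixS, PBl_apply] at hk ⊢
      rw [PBl_apply, pb_pb]
      have e : (fun x => TT (nu x)) = fun x => nu (TT x) := by
        funext x
        show (-x.1, JJ (-x.2)) = (-x.1, - JJ x.2)
        rw [map_neg]
      rw [e, ← pb_pb TT nu, hk])

@[simp] theorem TF_apply (k : fixS (PBl (X := E 7 × E 10) nu)) : (TF k).1 = pb TT k.1 := rfl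

/-- the symmetry of the cone -/
noncomputable def TC : (Ch (E 7) × fixS (PBl (X := E 7 × E 10) nu)) →ₗ[ℚ]
    (Ch (E 7) × fixS (PBl (X := E 7 × E 10) nu)) :=
  (PBl (fun x : E 7 => -x)).prodMap TF

theorem TC_apply (k : Ch (E 7) × fixS (PBl (X := E 7 × E 10) nu)) :
    TC k = (pb (fun x : E 7 => -x) k.1, TF k.2) := rfl

theorem symm_TC (S : Fin 7 → Matrix (Fin 5) (Fin 5) ℂ) :
    Symm (cone (phS S)) (fun w => -w) TC where
  inv k := by
    rw [TC_apply, TC_apply]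
    ext1
    · show pb (fun x : E 7 => -x) (pb (fun x : E 7 => -x) k.1) = k.1
      rw [pb_pb]
      have : (fun x : E 7 => - - x) = fun x => x := by funext x; exact neg_neg x
      rw [this, pb_id]
    · apply Subtype.ext
      show pb TT (pb TT k.2.1) = k.2.1
      rw [pb_pb]
      have : (fun x => TT (TT x)) = nu := funext TT_TT
      rw [this]
      exact mem_fixS.1 k.2.2
  comm k := by
    rw [TC_apply, TC_apply, cone_D, cone_D]
    ext1
    · exact dd_pb _ _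
    · apply Subtype.ext
      show pb Prod.fst (pb (fun x : E 7 => -x) k.1) - dd (pb TT k.2.1) =
        pb TT (pb Prod.fst k.1 - dd k.2.1)
      rw [pb_sub, pb_pb, pb_pb, dd_pb]
      rfl
  mem w n k hk := by
    rw [cone_N] at hk ⊢
    refine ⟨?_, ?_⟩
    · exact pb_mem_Nz continuous_neg.continuousAt hk.1
    · have h2 := (FI_mem _ _ _).1 hk.2
      rw [FI_mem]
      intro x hx
      refine pb_mem_Nz TT_continuous.continuousAt (h2 _ ⟨TT_mem hx.1, ?_⟩)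
      have : x.1 = w := hx.2
      show - x.1 = -w
      rw [this]
  rat := cone_rat _ AS_rat (fix_rat _)

theorem det_Sw_neg (S : Fin 7 → Matrix (Fin 5) (Fin 5) ℂ) (w : E 7) :
    (Sw S (-w)).det = - (Sw S w).det := by
  rw [Sw_neg, Matrix.det_neg]
  simp only [Fintype.card_fin]
  norm_num

/-- statement of the product Borsuk-Ulam step -/
def BUStatement : Prop := ∀ (M : E 7 → Matrix (Fin 6) (Fin 5) ℂ) (s : E 7 → ℂ),
  ContinuousOn M {w | ‖w‖ = 1} → ContinuousOn s {w | ‖w‖ = 1} →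
  (∀ w, ‖w‖ = 1 → M (-w) = - M w) → (∀ w, ‖w‖ = 1 → s (-w) = - s w) →
  ∃ w, ‖w‖ = 1 ∧ s w = 0 ∧ ∃ u : Fin 5 → ℂ, u ≠ 0 ∧ (M w).mulVec u = 0

/-- statement of the orientation step -/
def OrientStatement : Prop := ∀ (S : Fin 7 → Matrix (Fin 5) (Fin 5) ℂ),
  (∀ j, (S j).transpose = S j) → ∀ (A : Set (E 7)), (∀ w ∈ A, ‖w‖ = 1) → (∀ w ∈ A, -w ∈ A) →
  ∀ (dg : E 7 → (Fin 6 → Fin 5 → ℂ) → ℚ), DegData S A dg →
  (∀ w ∈ A, (Sw S w).det = 0 ∧ (Sw S w).adjugate ≠ 0) → IsClosed A →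
  (∃ κ : E 7 → (Fin 5 → ℂ), ContinuousOn κ A ∧ (∀ w ∈ A, κ (-w) = - κ w) ∧
    ∀ w ∈ A, κ w ≠ 0 ∧ (Sw S w).mulVec (κ w) = 0) ∧
  IsClosed ({w | ‖w‖ = 1 ∧ (Sw S w).det = 0} \ A)

/-- final contradiction when an odd function has its zeros in `A`. -/
theorem caseA (HBU : BUStatement) (S : Fin 7 → Matrix (Fin 5) (Fin 5) ℂ) (A : Set (E 7))
    (hAc : IsClosed A) (hAn : ∀ w ∈ A, -w ∈ A) (hcrk : ∀ w ∈ A, crk (Sw S w) = 1)
    (κ : E 7 → (Fin 5 → ℂ)) (hκ : ContinuousOn κ A) (hκo : ∀ w ∈ A, κ (-w) = - κ w)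
    (hκ0 : ∀ w ∈ A, κ w ≠ 0 ∧ (Sw S w).mulVec (κ w) = 0)
    (s : E 7 → ℂ) (hs : ContinuousOn s {w | ‖w‖ = 1}) (hso : ∀ w, ‖w‖ = 1 → s (-w) = - s w)
    (hsA : ∀ w, ‖w‖ = 1 → s w = 0 → w ∈ A) : False := by
  -- extension of `conj κ`
  let f : C(A, Fin 5 → ℂ) := ⟨fun x => κ x, continuousOn_iff_continuous_domRestrict.1 hκ⟩
  obtain ⟨g, hg⟩ := ContinuousMap.exists_restrict_eq hAc f
  have hgA : ∀ w ∈ A, g w = κ w := by
    intro w hw
    have h1 : g w = f ⟨w, hw⟩ := congrArg (fun F : C(A, Fin 5 → ℂ) => F ⟨w, hw⟩) hg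
    exact h1
  let G : E 7 → Fin 5 → ℂ := fun w k => (starRingEnd ℂ) ((g w k - g (-w) k) / 2)
  have hGA : ∀ w ∈ A, ∀ k, G w k = (starRingEnd ℂ) (κ w k) := by
    intro w hw k
    show (starRingEnd ℂ) ((g w k - g (-w) k) / 2) = _
    rw [hgA w hw, hgA _ (hAn w hw), hκo w hw, Pi.neg_apply]
    congr 1
    ring
  have hGc : Continuous G := by
    refine continuous_pi fun k => Complex.continuous_conj.comp ?_
    have h1 : Continuous fun w => g w k := (continuous_apply k).comp g.continuous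
    have h2 : Continuous fun w => g (-w) k := h1.comp continuous_neg
    exact (h1.sub h2).div_const 2
  have hGo : ∀ w, G (-w) = - G w := by
    intro w
    funext k
    show (starRingEnd ℂ) ((g (-w) k - g (- -w) k) / 2) = - (starRingEnd ℂ) ((g w k - g (-w) k) / 2)
    rw [neg_neg, ← map_neg]
    congr 1
    ring
  let M : E 7 → Matrix (Fin 6) (Fin 5) ℂ := fun w => Matrix.of (Fin.snoc (fun i => Sw S w i) (G w))
  have hM1 : ∀ w (i : Fin 5), M w (Fin.castSucc i) = Sw S w i := by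
    intro w i
    show (Fin.snoc (fun i => Sw S w i) (G w) : Fin 6 → Fin 5 → ℂ) (Fin.castSucc i) = _
    rw [Fin.snoc_castSucc]
  have hM2 : ∀ w, M w (Fin.last 5) = G w := by
    intro w
    show (Fin.snoc (fun i => Sw S w i) (G w) : Fin 6 → Fin 5 → ℂ) (Fin.last 5) = _
    rw [Fin.snoc_last]
  have hMc : Continuous M := by
    refine continuous_pi fun i => ?_
    refine Fin.lastCases ?_ (fun i => ?_) i
    · simp only [hM2]; exact hGc
    · simp only [hM1]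
      exact (continuous_apply i).comp (Sw_continuous S)
  have hMo : ∀ w, M (-w) = - M w := by
    intro w
    refine funext fun i => ?_
    refine Fin.lastCases ?_ (fun i => ?_) i
    · show M (-w) (Fin.last 5) = - M w (Fin.last 5)
      rw [hM2, hM2, hGo]
    · show M (-w) (Fin.castSucc i) = - M w (Fin.castSucc i)
      rw [hM1, hM1, Sw_neg]
      rfl
  obtain ⟨w, hw, hsw, u, hu, hMu⟩ := HBU M s hMc.continuousOn hs (fun w _ => hMo w) hso
  have hwA := hsA w hw hsw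
  have h1 : (Sw S w).mulVec u = 0 := by
    funext i
    have := congrFun hMu (Fin.castSucc i)
    rw [Matrix.mulVec, hM1] at this
    exact this
  have h2 : dotProduct (G w) u = 0 := by
    have := congrFun hMu (Fin.last 5)
    rw [Matrix.mulVec, hM2] at this
    exact this
  obtain ⟨κ', hκ'0, hκ'⟩ := finrank_eq_one_iff'.1 (hcrk w hwA)
  obtain ⟨c1, hc1⟩ := hκ' ⟨u, by rw [LinearMap.mem_ker, Matrix.mulVecLin_apply]; exact h1⟩
  obtain ⟨c2, hc2⟩ := hκ' ⟨κ w, by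
    rw [LinearMap.mem_ker, Matrix.mulVecLin_apply]; exact (hκ0 w hwA).2⟩
  have hc1' : c1 • κ'.1 = u := congrArg Subtype.val hc1
  have hc2' : c2 • κ'.1 = κ w := congrArg Subtype.val hc2
  have hc20 : c2 ≠ 0 := by
    rintro rfl
    rw [zero_smul] at hc2'
    exact (hκ0 w hwA).1 hc2'.symm
  have hu' : u = (c1 / c2) • κ w := by
    rw [← hc1', ← hc2', smul_smul, div_mul_cancel₀ _ hc20]
  have h3 : (c1 / c2) * ∑ k, (starRingEnd ℂ) (κ w k) * κ w k = 0 := by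
    rw [← h2, dotProduct, Finset.mul_sum]
    refine Finset.sum_congr rfl fun k _ => ?_
    rw [hGA w hwA, hu', Pi.smul_apply, smul_eq_mul]
    ring
  have h4 : (∑ k, (starRingEnd ℂ) (κ w k) * κ w k) ≠ 0 := by
    intro h
    apply (hκ0 w hwA).1
    have h5 : ∑ k, ‖κ w k‖ ^ 2 = 0 := by
      have h6 : ((∑ k, ‖κ w k‖ ^ 2 : ℝ) : ℂ) = 0 := by
        rw [← h, Complex.ofReal_sum]
        refine Finset.sum_congr rfl fun k _ => ?_
        rw [mul_comm, Complex.mul_conj, Complex.normSq_eq_norm_sq]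
      exact_mod_cast h6
    rw [Finset.sum_eq_zero_iff_of_nonneg (fun k _ => sq_nonneg _)] at h5
    funext k
    have := h5 k (Finset.mem_univ k)
    simpa using this
  rcases mul_eq_zero.1 h3 with h5 | h5
  · apply hu
    rw [hu', h5, zero_smul]
  · exact h4 h5

/-- There are no seven forms on `ℂ⁵` without a common zero. -/
theorem no_seven_of (HBU : BUStatement) (HOR : OrientStatement)
    (S : Fin 7 → Matrix (Fin 5) (Fin 5) ℂ) (hS : ∀ j, (S j).transpose = S j)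
    (hfree : ∀ u, u ≠ 0 → ∃ j, qf (S j) u ≠ 0) : False := by
  obtain ⟨c, hc, hcn, hcr⟩ := sp_top (M := 7) (k := 7) (by norm_num) le_rfl
  -- the primitive of the pullback
  have hc1 : (AS (E 7 × E 10)).Coc (BB S) 7 (pb Prod.fst c) :=
    coc_pb (fun x _ => continuous_fst.continuousAt) (fun x hx => hx.1) hc
  obtain ⟨η₀, hη₀⟩ := BB_ex hfree 7 (by norm_num) (by norm_num) _ hc1
  let η : fixS (PBl (X := E 7 × E 10) nu) := av _ (invol_nu S) η₀
  have hη1 : η.1 = (1 / 2 : ℚ) • (η₀ + pb nu η₀) := rfl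
  have hη : ∀ x ∈ BB S, pb Prod.fst c - dd η.1 ∈ Nz x 7 := by
    intro x hx
    have h1 := hη₀ x hx
    have h2 : pb nu (pb Prod.fst c - dd η₀) ∈ Nz x 7 :=
      pb_mem_Nz nu_continuous.continuousAt (hη₀ _ (nu_mem hx))
    have h3 := smul_mem_Nz (1 / 2) (add_mem h1 h2)
    convert h3 using 1
    rw [hη1, dd_smul, dd_add, dd_pb, pb_sub, pb_pb]
    have e : (fun x : E 7 × E 10 => (nu x).1) = Prod.fst := rfl
    rw [e, AS_D]
    module
  obtain ⟨C, hC⟩ : ∃ C, C = cone (phS S) := ⟨_, rfl⟩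
  let e : Ch (E 7) × fixS (PBl (X := E 7 × E 10) nu) := (c, η)
  have hCr : Rat C := by rw [hC]; exact cone_rat _ AS_rat (fix_rat _)
  have he : C.Coc (Sp 7 7) 7 e := by
    rw [hC]
    intro w hw
    rw [cone_D, cone_N]
    refine ⟨hc w hw, ?_⟩
    rw [FI_mem]
    intro x hx
    exact hη x hx.1
  have hlow : ∀ w ∈ Sp 7 7, ∀ m ≤ 6, C.Ex {w} m := by
    rw [hC]
    exact fun w hw m hm => cone_ex_low hS hw m (Or.inl hm)
  have hne : ¬ C.Cob (Sp 7 7) (6 + 1) e := by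
    rw [hC]
    rintro ⟨⟨a', b'⟩, h⟩
    exact hcn ⟨a', fun z hz => (h z hz).1⟩
  have hF6 := FI_ex_sphere hfree 6 (by norm_num) (by norm_num)
  have hF7 := FI_ex_sphere hfree 7 (by norm_num) (by norm_num)
  have huniq : ∀ k, C.Coc (Sp 7 7) (6 + 1) k → ∃ r : ℚ, C.Cob (Sp 7 7) (6 + 1) (k - r • e) := by
    intro k hk
    obtain ⟨r, hr⟩ := hcr k.1 (by
      rw [hC] at hk
      exact fun z hz => (hk z hz).1)
    refine ⟨r, ?_⟩
    have h1 : C.Coc (Sp 7 7) (6 + 1) (k - r • e) := hk.sub (hCr.coc r he)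
    rw [hC] at h1 ⊢
    exact cone_cob_of (phS S) hF6 h1 hr
  have hex : C.Ex (Sp 7 7) (6 + 2) := by
    rw [hC]
    exact cone_ex_of (phS S) (n := 7) (sp_ex (by norm_num) le_rfl 8 (by norm_num) (by norm_num)) hF7
  have hT : Symm C (fun w => -w) TC := by rw [hC]; exact symm_TC S
  have hZn : ∀ w ∈ Sp 7 7, -w ∈ Sp 7 7 := fun w hw => mem_Sp.2 (by rw [norm_neg]; exact hw.1)
  have hTe : C.Cob (Sp 7 7) (6 + 1) (TC e + e) := by
    have h1 : C.Coc (Sp 7 7) (6 + 1) (TC e + e) := (hT.coc he hZn).add he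
    rw [hC] at h1 ⊢
    refine cone_cob_of (phS S) hF6 h1 ?_
    have h2 := antipode_sign (M := 7) (k := 7) (by norm_num) le_rfl hc
    convert h2 using 1
    show pb (fun x : E 7 => -x) c + c = _
    norm_num
  have hcrk : ∀ w ∈ Sp 7 7, ¬ C.Cob {w} (6 + 1) e → crk (Sw S w) = 1 := by
    intro w hw h
    by_contra h1
    apply h
    have h2 := cone_ex_low hS hw 7 (Or.inr ⟨rfl, h1⟩)
    rw [← hC] at h2
    exact h2 e (he.mono (singleton_subset_iff.2 hw))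
  have hrank : ∀ w ∈ Sp 7 7, ¬ C.Cob {w} (6 + 1) e → ∀ k, C.Coc {w} (6 + 1) k →
      ∃ r : ℚ, C.Cob {w} (6 + 1) (k - r • e) := by
    intro w hw h k hk
    obtain ⟨f1, f2, f3, f4, f5⟩ := fib_facts hS hw
    have h5 := f5 (hcrk w hw h)
    have he' := he.mono (singleton_subset_iff.2 hw)
    rw [hC] at h hk he' ⊢
    refine cone_rank (phS S) (cone_rat _ AS_rat (fix_rat _)) ((acy_singleton w).2.2 7 (by norm_num))
      ?_ he' hk h
    intro b b' hb hb' hnb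
    obtain ⟨r, hr⟩ := h5 b.1 b'.1 ((FI_coc w 6 b).1 hb) ((FI_coc w 6 b').1 hb')
      (fun h => hnb ((FI_cob w 6 b).2 h))
    exact ⟨r, (FI_cob w 6 _).2 hr⟩
  have T5 := no_odd_map hT (Sp_compact 7 7) hZn neg_neg hlow he hne huniq hex hTe hrank
  -- the support
  obtain ⟨A, hA⟩ : ∃ A, A = supp C (Sp 7 7) (6 + 1) e := ⟨_, rfl⟩
  have hAc : IsClosed A := by rw [hA]; exact supp_isClosed (Sp_compact 7 7).isClosed _ _
  have hA1 : ∀ w ∈ A, ‖w‖ = 1 := by rw [hA]; exact fun w hw => hw.1.1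
  have hAcob : ∀ w ∈ A, ¬ C.Cob {w} (6 + 1) e := by rw [hA]; exact fun w hw => hw.2
  have hAcrk : ∀ w ∈ A, crk (Sw S w) = 1 := fun w hw =>
    hcrk w (mem_Sp.2 (hA1 w hw)) (hAcob w hw)
  have hAn : ∀ w ∈ A, -w ∈ A := by
    intro w hw
    have hwS : w ∈ Sp 7 7 := mem_Sp.2 (hA1 w hw)
    have h0 := hAcob w hw
    rw [hA]
    refine ⟨hZn w hwS, fun hcon => h0 ?_⟩
    have h1 : C.Cob {w} (6 + 1) (TC e) := hT.cob hcon (by
      intro z hz
      rw [mem_singleton_iff.1 hz]; rfl)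
    have h2 := (hTe.mono (singleton_subset_iff.2 hwS)).sub h1
    simpa using h2
  have hABad : ∀ w, ‖w‖ = 1 → (w ∈ A ↔ Bad S c η.1 w) := by
    intro w hw
    rw [hA, hC]
    constructor
    · rintro ⟨h1, h2⟩ ⟨a', b', h3, h4⟩
      apply h2
      refine ⟨(a', av _ (invol_nu S) b'), fun z hz => ?_⟩
      rw [mem_singleton_iff.1 hz, cone_D, cone_N]
      refine ⟨h3, ?_⟩
      show (e - _).2 ∈ (FI S).N w 6
      rw [FI_mem]
      intro x hx
      have h5 : pb nu (η.1 - (pb Prod.fst a' - dd b')) ∈ Nz x 6 :=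
        pb_mem_Nz nu_continuous.continuousAt (h4 _ ⟨nu_mem hx.1, hx.2⟩)
      have h6 := smul_mem_Nz (1 / 2) (add_mem (h4 x hx) h5)
      convert h6 using 1
      show η.1 - (pb Prod.fst a' - dd ((1 / 2 : ℚ) • (b' + pb nu b'))) = _
      rw [dd_smul, dd_add, dd_pb]
      simp only [pb_sub]
      rw [pb_pb nu Prod.fst]
      have e1 : (fun x : E 7 × E 10 => (nu x).1) = Prod.fst := rfl
      have e2 : pb nu η.1 = η.1 := mem_fixS.1 η.2
      rw [e1, e2]
      module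
    · intro hbad
      refine ⟨mem_Sp.2 hw, ?_⟩
      rintro ⟨⟨a', b'⟩, h⟩
      apply hbad
      have h1 := h w rfl
      rw [cone_D, cone_N] at h1
      refine ⟨a', b'.1, h1.1, fun x hx => ?_⟩
      exact (FI_mem _ _ _).1 h1.2 x hx
  -- cochain data
  obtain ⟨σ, s1, s2, s3⟩ := sp_top (M := 6) (k := 6) (by norm_num) le_rfl
  have hσ : Top5 σ := ⟨s1, s2, s3⟩
  obtain ⟨⟨a, b⟩, hab⟩ := hTe
  rw [hC] at hab
  have hCoch : Coch S c η.1 a b.1 := by
    refine ⟨hS, hc, hη, fun w hw => ?_, fun x hx => ?_⟩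
    · exact (hab w hw).1
    · have h1 := (hab x.1 hx.1).2
      exact (FI_mem _ _ _).1 h1 x ⟨hx, rfl⟩
  have hdeg := degData hCoch hσ hABad
  obtain ⟨⟨κ, hκ, hκo, hκ0⟩, hCc⟩ := HOR S hS A hA1 hAn _ hdeg
    (fun w hw => adj_of_crk_one (Sw_symm hS w) (hAcrk w hw)) hAc
  -- dichotomy
  have hdet : Continuous fun w => (Sw S w).det := (Sw_continuous S).matrix_det
  obtain ⟨s, hs, hso, hz⟩ := dichotomy A ({w | ‖w‖ = 1 ∧ (Sw S w).det = 0} \ A) hAc hCc
    disjoint_sdiff_right hAn (by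
      rintro w ⟨⟨h1, h2⟩, h3⟩
      refine ⟨⟨by rw [norm_neg]; exact h1, by rw [det_Sw_neg, h2, neg_zero]⟩, fun h => h3 ?_⟩
      have := hAn _ h
      rwa [neg_neg] at this) (fun w => (Sw S w).det) hdet (det_Sw_neg S) (by
      intro w hw h
      by_cases hwA : w ∈ A
      · exact Or.inl hwA
      · exact Or.inr ⟨⟨hw, h⟩, hwA⟩)
  rcases hz with hz | hz
  · exact caseA HBU S A hAc hAn hAcrk κ hκ hκo hκ0 s hs hso hz
  · have e1 : Sp 7 7 = {w : E 7 | ‖w‖ = 1} := by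
      ext w; exact mem_Sp
    refine T5 s (by rw [e1]; exact hs) (fun w hw => hso w hw.1) fun w hw h h0 => ?_
    have h1 : w ∈ A := by rw [hA]; exact ⟨hw, h⟩
    exact (hz w hw.1 h0).2 h1

end Pool.Agent.H15.Lev
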