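import Pool.Agent.H15.Lev.Sphere

/-! The family of complex symmetric matrices and the associated quadratic forms. -/

set_option autoImplicit false

namespace Pool.Agent.H15.Lev

/-- the combination `∑ w_j S_j` -/
noncomputable def Sw (S : Fin 7 → Matrix (Fin 5) (Fin 5) ℂ) (w : E 7) : Matrix (Fin 5) (Fin 5) ℂ :=
  ∑ j, ((w j : ℝ) : ℂ) • S j

/-- real part of the quadratic form of a complex matrix -/
noncomputable def qf (R : Matrix (Fin 5) (Fin 5) ℂ) (u : Fin 5 → ℂ) : ℝ :=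
  (dotProduct u (R.mulVec u)).re

/-- real linear combinations of six vectors -/
noncomputable def Lin (L : Fin 6 → Fin 5 → ℂ) (u : Fin 6 → ℝ) : Fin 5 → ℂ :=
  fun k => ∑ j, ((u j : ℝ) : ℂ) * L j k

/-- six real independent vectors on whose real span the form of `w` is nonnegative -/
def Good (S : Fin 7 → Matrix (Fin 5) (Fin 5) ℂ) (w : E 7) (L : Fin 6 → Fin 5 → ℂ) : Prop :=
  ‖w‖ = 1 ∧ (∀ u, u ≠ 0 → Lin L u ≠ 0) ∧ ∀ u, 0 ≤ qf (Sw S w) (Lin L u)

/-- the six vectors are the nonnegative part of a real orthonormal eigenbasis of the form of `w`,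
whose other eigenvalues are negative; the eigenvalues are sorted decreasingly. -/
def Eig (S : Fin 7 → Matrix (Fin 5) (Fin 5) ℂ) (w : E 7) (L : Fin 6 → Fin 5 → ℂ) : Prop :=
  ∃ (v : Fin 10 → Fin 5 → ℂ) (lam : Fin 10 → ℝ),
    (∀ a b, ∑ k, (v a k * (starRingEnd ℂ) (v b k)).re = if a = b then 1 else 0) ∧
    (∀ x : Fin 10 → ℝ, qf (Sw S w) (fun k => ∑ a, ((x a : ℝ) : ℂ) * v a k) =
      ∑ a, lam a * (x a) ^ 2) ∧
    Antitone lam ∧ (∀ a : Fin 10, a.val < 6 → 0 ≤ lam a) ∧ (∀ a : Fin 10, 6 ≤ a.val → lam a < 0) ∧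
    ∀ j : Fin 6, L j = v (Fin.castLE (by norm_num) j)

/-- the properties of the degree function used in the orientation argument; `A` is a set of unit
vectors. -/
structure DegData (S : Fin 7 → Matrix (Fin 5) (Fin 5) ℂ) (A : Set (E 7))
    (dg : E 7 → (Fin 6 → Fin 5 → ℂ) → ℚ) : Prop where
  /-- locally constant -/
  loc : ∀ w L, Good S w L → ∀ᶠ p : E 7 × (Fin 6 → Fin 5 → ℂ) in nhds (w, L),
    Good S p.1 p.2 → dg p.1 p.2 = dg w L
  /-- change of sign under a reflection -/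
  refl : ∀ w L (i : Fin 6), Good S w L → dg w (fun j => if j = i then - L j else L j) = - dg w L
  /-- change of sign under the symmetry -/
  symm : ∀ w L, Good S w L → dg (-w) (fun j => Complex.I • L j) = - dg w L
  /-- detects the set `A` -/
  supp : ∀ w L, ‖w‖ = 1 → Eig S w L → (w ∈ A ↔ dg w L ≠ 0)

end Pool.Agent.H15.Lev
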