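import Pool.Agent.H15.Lev.Final

/-! Complex quadratic maps `ℂ^m → ℂ^7` without nonzero real values exist exactly for `m ≤ 4`. -/

set_option autoImplicit false

namespace Pool.Agent.H15.Lev.Cx

/-- the `m` for which there are `r` complex quadratic forms in `m` variables (a quadratic map
`φ : ℂ^m → ℂ^r`) whose values at a nonzero point are never all real. -/
def Good (r : ℕ) : Set ℕ :=
  {m | ∃ φ : Fin r → QuadraticForm ℂ (Fin m → ℂ), ∀ z, z ≠ 0 → ∃ j, (φ j z).im ≠ 0}

/-- the imaginary part of a complex quadratic form, as a real quadratic form. -/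
noncomputable def imPart {m : ℕ} (p : QuadraticForm ℂ (Fin m → ℂ)) :
    QuadraticForm ℝ (Fin m → ℂ) where
  toFun z := (p z).im
  toFun_smul a z := by
    have h : a • z = (a : ℂ) • z := by
      funext i
      simp
    rw [h, QuadraticMap.map_smul]
    simp [Complex.mul_im]
  exists_companion' := by
    obtain ⟨B, hB⟩ := p.exists_companion
    refine ⟨LinearMap.mk₂ ℝ (fun x y => (B x y).im) ?_ ?_ ?_ ?_, ?_⟩
    · intro x x' y
      simp
    · intro c x y
      have h : c • x = (c : ℂ) • x := by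
        funext i
        simp
      rw [h, map_smul]
      simp [Complex.mul_im]
    · intro x y y'
      simp
    · intro c x y
      have h : c • y = (c : ℂ) • y := by
        funext i
        simp
      rw [h, map_smul]
      simp [Complex.mul_im]
    · intro x y
      simp [hB]

theorem imPart_apply {m : ℕ} (p : QuadraticForm ℂ (Fin m → ℂ)) (z : Fin m → ℂ) :
    imPart p z = (p z).im := rfl

/-- adding zero coordinates. -/
noncomputable def ext {k m : ℕ} (_h : k ≤ m) : (Fin k → ℂ) →ₗ[ℂ] (Fin m → ℂ) where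
  toFun z i := if hi : i.val < k then z ⟨i.val, hi⟩ else 0
  map_add' := by
    intro x y
    funext i
    by_cases hi : i.val < k <;> simp [hi]
  map_smul' := by
    intro c x
    funext i
    by_cases hi : i.val < k <;> simp [hi]

theorem ext_ne_zero {k m : ℕ} (h : k ≤ m) {z : Fin k → ℂ} (hz : z ≠ 0) : ext h z ≠ 0 := by
  intro hcon
  apply hz
  funext i
  have := congrFun hcon ⟨i.val, lt_of_lt_of_le i.2 h⟩
  simpa [ext] using this

theorem bound7 (HOR : OrientStatement) (m : ℕ) (hm : m ∈ Good 7) : m ≤ 4 := by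
  obtain ⟨φ, hφ⟩ := hm
  by_contra hcon
  have hkm : 5 ≤ m := by omega
  refine no_seven_forms_of HOR (fun j : Fin 7 => imPart ((φ j).comp (ext hkm))) ?_ ?_
  · intro j z
    rw [imPart_apply, imPart_apply, QuadraticMap.map_smul]
    simp
  · intro z hz
    obtain ⟨j, hj⟩ := hφ (ext hkm z) (ext_ne_zero hkm hz)
    exact ⟨j, hj⟩

/-- three forms on a plane -/
theorem plane {a b : ℂ} (h1 : (2 * (a * b)).im = 0) (h2 : (a * a - b * b).im = 0)
    (h3 : (Complex.I * (a * a + b * b)).im = 0) : a = 0 ∧ b = 0 := by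
  obtain ⟨c, hc⟩ : ∃ c, a.re = c := ⟨_, rfl⟩
  obtain ⟨d, hd⟩ : ∃ d, a.im = d := ⟨_, rfl⟩
  obtain ⟨e, he⟩ : ∃ e, b.re = e := ⟨_, rfl⟩
  obtain ⟨f, hf⟩ : ∃ f, b.im = f := ⟨_, rfl⟩
  simp only [Complex.mul_im, Complex.mul_re, Complex.sub_im, Complex.add_im, Complex.add_re,
    Complex.I_re, Complex.I_im, hc, hd, he, hf, Complex.re_ofNat, Complex.im_ofNat] at h1 h2 h3
  have k2 : (c * c + e * e) * (d * d + f * f) = 0 := by
    have e1 : c * d - e * f = 0 := by linarith
    have e0 : c * f + d * e = 0 := by linarith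
    have e2 : (c * c + e * e) * (d * d + f * f) = (c * d - e * f) ^ 2 +
      (c * f + d * e) ^ 2 + 4 * (c * d) * (e * f) - 2 * (c * d) * (e * f) - 2 * (c * f) * (d * e) := by
      ring
    rw [e2, e1, e0]; ring
  have k3 : c * c + e * e = d * d + f * f := by linarith
  have k4 : (c * c + e * e) ^ 2 = 0 := by
    have : (c * c + e * e) ^ 2 = (c * c + e * e) * (c * c + e * e) := by ring
    rw [this]
    nth_rewrite 2 [k3]
    exact k2
  have k5 : c * c + e * e = 0 := pow_eq_zero_iff (by norm_num) |>.1 k4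
  have k6 : d * d + f * f = 0 := by rw [← k3]; exact k5
  obtain ⟨ec, ee⟩ := mul_self_add_mul_self_eq_zero.1 k5
  obtain ⟨ed, ef⟩ := mul_self_add_mul_self_eq_zero.1 k6
  exact ⟨Complex.ext (by rw [hc, ec, Complex.zero_re]) (by rw [hd, ed, Complex.zero_im]),
    Complex.ext (by rw [he, ee, Complex.zero_re]) (by rw [hf, ef, Complex.zero_im])⟩

/-- the coordinate forms -/
noncomputable def pr {n : ℕ} (i : Fin n) : (Fin n → ℂ) →ₗ[ℂ] ℂ := LinearMap.proj i

/-- `2 z_i z_j` -/
noncomputable def f1 {n : ℕ} (i j : Fin n) : QuadraticForm ℂ (Fin n → ℂ) :=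
  (2 : ℂ) • QuadraticMap.linMulLin (pr i) (pr j)
/-- `z_i² - z_j²` -/
noncomputable def f2 {n : ℕ} (i j : Fin n) : QuadraticForm ℂ (Fin n → ℂ) :=
  QuadraticMap.linMulLin (pr i) (pr i) - QuadraticMap.linMulLin (pr j) (pr j)
/-- `i (z_i² + z_j²)` -/
noncomputable def f3 {n : ℕ} (i j : Fin n) : QuadraticForm ℂ (Fin n → ℂ) :=
  Complex.I • (QuadraticMap.linMulLin (pr i) (pr i) + QuadraticMap.linMulLin (pr j) (pr j))

theorem f_zero {n : ℕ} {i j : Fin n} {z : Fin n → ℂ} (h1 : (f1 i j z).im = 0)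
    (h2 : (f2 i j z).im = 0) (h3 : (f3 i j z).im = 0) : z i = 0 ∧ z j = 0 :=
  plane h1 h2 h3

theorem four_mem : 4 ∈ Good 7 := by
  refine ⟨![f1 0 1, f2 0 1, f3 0 1, f1 2 3, f2 2 3, f3 2 3, 0], ?_⟩
  intro z hz
  by_contra hcon
  push Not at hcon
  have a := f_zero (hcon 0) (hcon 1) (hcon 2)
  have b := f_zero (hcon 3) (hcon 4) (hcon 5)
  apply hz
  funext i
  fin_cases i
  · exact a.1
  · exact a.2
  · exact b.1
  · exact b.2

theorem five_mem : 5 ∈ Good 8 := by
  refine ⟨![f1 0 1, f2 0 1, f3 0 1, f1 2 3, f2 2 3, f3 2 3,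
    QuadraticMap.linMulLin (pr 4) (pr 4),
    Complex.I • QuadraticMap.linMulLin (pr 4) (pr 4)], ?_⟩
  intro z hz
  by_contra hcon
  push Not at hcon
  have a := f_zero (hcon 0) (hcon 1) (hcon 2)
  have b := f_zero (hcon 3) (hcon 4) (hcon 5)
  have c1 : (z 4 * z 4).im = 0 := hcon 6
  have c2 : (Complex.I * (z 4 * z 4)).im = 0 := hcon 7
  apply hz
  have c : z 4 = 0 := by
    have h1 : z 4 * z 4 = 0 := by
      refine Complex.ext ?_ c1
      simpa [Complex.mul_im, Complex.I_re, Complex.I_im] using c2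
    exact mul_self_eq_zero.1 h1
  funext i
  fin_cases i
  · exact a.1
  · exact a.2
  · exact b.1
  · exact b.2
  · exact c

theorem main_of (HOR : OrientStatement) :
    (∀ m, m ∈ Good 7 → m ≤ 4) ∧ sSup (Good 7) = 4 ∧
    sInf {r : ℕ | ∃ φ : Fin r → QuadraticForm ℂ (Fin 5 → ℂ), ∀ z, z ≠ 0 → ∃ j, (φ j z).im ≠ 0} = 8 := by
  have hne : (Good 7).Nonempty := ⟨4, four_mem⟩
  refine ⟨bound7 HOR, le_antisymm (csSup_le hne (bound7 HOR)) (le_csSup ⟨4, bound7 HOR⟩ four_mem),
    ?_⟩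
  refine le_antisymm (Nat.sInf_le five_mem) ?_
  refine le_csInf ⟨8, five_mem⟩ ?_
  rintro r ⟨φ, hφ⟩
  by_contra hr
  have hr7 : r ≤ 7 := by omega
  have h : 5 ∈ Good 7 := by
    refine ⟨fun j => if hj : j.val < r then φ ⟨j.val, hj⟩ else 0, fun z hz => ?_⟩
    obtain ⟨j, hj⟩ := hφ z hz
    refine ⟨⟨j.val, lt_of_lt_of_le j.2 hr7⟩, ?_⟩
    simpa using hj
  have := bound7 HOR 5 h
  omega

end Pool.Agent.H15.Lev.Cx
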