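import Pool.Agent.H15.Lev.Top

/-! Rational cohomology of spheres, and the sign of reflections. -/

set_option autoImplicit false

namespace Pool.Agent.H15.Lev

open Set Topology Pool.Agent.Helper775.Tight Pool.Agent.Helper775.Tight.SoftCx

/-- Euclidean space. -/
abbrev E (M : ℕ) := EuclideanSpace ℝ (Fin M)

/-- the `(k-1)`-sphere in the first `k` coordinates. -/
def Sp (M k : ℕ) : Set (E M) := {x | ‖x‖ = 1 ∧ ∀ i : Fin M, k ≤ i.val → x i = 0}

/-- signed hemisphere -/
def Hm (M k : ℕ) (hk : k < M) (σ : ℝ) : Set (E M) :=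
  {x | x ∈ Sp M (k + 1) ∧ 0 ≤ σ * x ⟨k, hk⟩}

theorem Sp_compact (M k : ℕ) : IsCompact (Sp M k) := by
  apply Metric.isCompact_of_isClosed_isBounded
  · have : Sp M k = {x | ‖x‖ = 1} ∩ ⋂ (i : Fin M) (_ : k ≤ i.val), {x | x i = 0} := by
      ext x
      simp only [Sp, Set.mem_ofPred_eq, Set.mem_inter_iff, Set.mem_iInter]
    rw [this]
    refine (isClosed_eq continuous_norm continuous_const).inter ?_
    refine isClosed_iInter fun i => isClosed_iInter fun _ => isClosed_eq ?_ continuous_const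
    fun_prop
  · rw [isBounded_iff_forall_norm_le]
    exact ⟨1, fun x hx => hx.1.le⟩

theorem Hm_compact (M k : ℕ) (hk : k < M) (σ : ℝ) : IsCompact (Hm M k hk σ) := by
  have : Hm M k hk σ = Sp M (k + 1) ∩ {x | 0 ≤ σ * x ⟨k, hk⟩} := rfl
  rw [this]
  apply (Sp_compact M (k + 1)).inter_right
  apply isClosed_le continuous_const
  fun_prop

theorem Hm_acy (M k : ℕ) (hk : k < M) (σ : ℝ) (hσ : σ * σ = 1) :
    AcyQ (AS (E M)) one (Hm M k hk σ) := by
  set p : E M := EuclideanSpace.single (⟨k, hk⟩ : Fin M) σ with hp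
  have hσ1 : |σ| = 1 := by
    rw [← abs_mul_abs_self σ] at hσ
    have := abs_nonneg σ
    nlinarith
  have hpn : ‖p‖ = 1 := by
    rw [hp, PiLp.norm_single, Real.norm_eq_abs, hσ1]
  have hpk : p ⟨k, hk⟩ = σ := by rw [hp]; simp
  have hpi : ∀ i : Fin M, k + 1 ≤ i.val → p i = 0 := by
    intro i hi
    rw [hp]
    have : i ≠ (⟨k, hk⟩ : Fin M) := by
      intro h
      rw [h] at hi
      simp at hi
    simp [this]
  have hpm : p ∈ Hm M k hk σ := ⟨⟨hpn, hpi⟩, by rw [hpk, hσ]; norm_num⟩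
  set Y : ℝ → E M → E M := fun t x => (1 - t) • x + t • p with hY
  have hYi : ∀ t x i, Y t x i = (1 - t) * x i + t * p i := fun t x i => rfl
  have hYk : ∀ t x, σ * Y t x ⟨k, hk⟩ = (1 - t) * (σ * x ⟨k, hk⟩) + t := by
    intro t x
    rw [hYi, hpk]
    linear_combination t * hσ
  have hY0 : ∀ t ∈ Icc (0:ℝ) 1, ∀ x ∈ Hm M k hk σ, Y t x ≠ 0 := by
    intro t ht x hx h0
    have h1 := hYk t x
    rw [h0] at h1
    have h2 : σ * (0 : E M) ⟨k, hk⟩ = 0 := by
      show σ * (0:ℝ) = 0
      rw [mul_zero]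
    rw [h2] at h1
    have h3 : 0 ≤ (1 - t) * (σ * x ⟨k, hk⟩) := mul_nonneg (by linarith [ht.2]) hx.2
    have ht0 : t = 0 := by linarith [ht.1]
    have h4 : Y t x = x := by rw [hY, ht0]; simp
    rw [h0] at h4
    have := hx.1.1
    rw [← h4, norm_zero] at this
    norm_num at this
  refine acy_of_contract (Hm_compact M k hk σ) (fun t x => ‖Y t x‖⁻¹ • Y t x) p ?_ ?_ ?_ ?_ hpm
  · intro t ht x hx
    have hc : Continuous (fun q : ℝ × E M => Y q.1 q.2) := by
      rw [hY]
      fun_prop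
    exact (hc.norm.continuousAt.inv₀ (norm_ne_zero_iff.2 (hY0 t ht x hx))).smul hc.continuousAt
  · intro t ht x hx
    have hn : 0 < ‖Y t x‖ := norm_pos_iff.2 (hY0 t ht x hx)
    refine ⟨⟨?_, ?_⟩, ?_⟩
    · rw [norm_smul, norm_inv, norm_norm, inv_mul_cancel₀ hn.ne']
    · intro i hi
      show ‖Y t x‖⁻¹ * Y t x i = 0
      rw [hYi, hx.1.2 i hi, hpi i hi]
      ring
    · show 0 ≤ σ * (‖Y t x‖⁻¹ * Y t x ⟨k, hk⟩)
      have h1 := hYk t x
      have h3 : 0 ≤ (1 - t) * (σ * x ⟨k, hk⟩) := mul_nonneg (by linarith [ht.2]) hx.2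
      have h4 : 0 ≤ σ * Y t x ⟨k, hk⟩ := by linarith [ht.1]
      have : σ * (‖Y t x‖⁻¹ * Y t x ⟨k, hk⟩) = ‖Y t x‖⁻¹ * (σ * Y t x ⟨k, hk⟩) := by ring
      rw [this]
      exact mul_nonneg (inv_nonneg.2 hn.le) h4
  · intro x hx
    have h4 : Y 0 x = x := by simp [hY]
    simp only [h4, hx.1.1, inv_one, one_smul]
  · intro x hx
    have h4 : Y 1 x = p := by simp [hY]
    simp only [h4, hpn, inv_one, one_smul]

theorem Hm_union {M k : ℕ} (hk : k < M) : Hm M k hk 1 ∪ Hm M k hk (-1) = Sp M (k + 1) := by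
  ext x
  constructor
  · rintro (h | h)
    · exact h.1
    · exact h.1
  · intro hx
    rcases le_total 0 (x ⟨k, hk⟩) with h | h
    · exact Or.inl ⟨hx, by rw [one_mul]; exact h⟩
    · exact Or.inr ⟨hx, by linarith⟩

theorem Hm_inter {M k : ℕ} (hk : k < M) : Hm M k hk 1 ∩ Hm M k hk (-1) = Sp M k := by
  ext x
  constructor
  · rintro ⟨⟨h1, h2⟩, ⟨-, h3⟩⟩
    refine ⟨h1.1, fun i hi => ?_⟩
    rcases Nat.lt_or_ge k i.val with h | h
    · exact h1.2 i h
    · have : i = ⟨k, hk⟩ := Fin.ext (le_antisymm h hi)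
      rw [this]
      linarith
  · intro hx
    have h0 : x ⟨k, hk⟩ = 0 := hx.2 _ (le_refl k)
    have h1 : x ∈ Sp M (k + 1) := ⟨hx.1, fun i hi => hx.2 i (by omega)⟩
    exact ⟨⟨h1, by rw [h0]; norm_num⟩, ⟨h1, by rw [h0]; norm_num⟩⟩

theorem sp_zero (M : ℕ) : Sp M 0 = ∅ := by
  apply Set.eq_empty_of_forall_notMem
  rintro x ⟨h1, h2⟩
  have : x = 0 := by
    ext i
    exact h2 i (Nat.zero_le _)
  rw [this, norm_zero] at h1
  exact zero_ne_one h1

theorem sp_nonempty {M k : ℕ} (hk : 1 ≤ k) (hkM : k ≤ M) : (Sp M k).Nonempty := by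
  refine ⟨EuclideanSpace.single ⟨0, by omega⟩ 1, ?_, ?_⟩
  · simp
  · intro i hi
    have : i ≠ ⟨0, by omega⟩ := by
      intro h
      rw [h] at hi
      simp at hi
      omega
    simp [this]

theorem sp_conn {M k : ℕ} (hk : 2 ≤ k) (hkM : k ≤ M) : Conn (AS (E M)) one (Sp M k) := by
  intro c hc
  obtain ⟨k', rfl⟩ : ∃ k', k = k' + 1 := ⟨k - 1, by omega⟩
  have hk' : k' < M := by omega
  have aA := Hm_acy M k' hk' 1 (by norm_num)
  have aB := Hm_acy M k' hk' (-1) (by norm_num)
  obtain ⟨z₀, hz₀⟩ := sp_nonempty (M := M) (k := k') (by omega) (by omega)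
  rw [← Hm_inter hk'] at hz₀
  rw [← Hm_union hk'] at hc ⊢
  obtain ⟨r, h1⟩ := aA.2.1 c (hc.mono subset_union_left)
  obtain ⟨s, h2⟩ := aB.2.1 c (hc.mono subset_union_right)
  have hrs : r = s := by
    have h3 := sub_mem (h2 z₀ hz₀.2) (h1 z₀ hz₀.1)
    have e : c - s • one - (c - r • one) = (r - s) • (one : Ch (E M)) := by
      rw [sub_smul]; abel
    rw [e] at h3
    have := smul_one_mem h3
    linarith
  subst hrs
  refine ⟨r, ?_⟩
  rintro z (hz | hz)
  · exact h1 z hz
  · exact h2 z hz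

theorem sp_ex {M k : ℕ} (hk : 1 ≤ k) (hkM : k ≤ M) (n : ℕ) (hn : 2 ≤ n) (hnk : n ≠ k) :
    (AS (E M)).Ex (Sp M k) n := by
  induction k generalizing n with
  | zero => omega
  | succ k' ih =>
    have hk' : k' < M := by omega
    have aA := Hm_acy M k' hk' 1 (by norm_num)
    have aB := Hm_acy M k' hk' (-1) (by norm_num)
    have hA := Hm_compact M k' hk' 1
    have hB := Hm_compact M k' hk' (-1)
    have hI := Hm_inter hk'
    have hU := Hm_union hk'
    obtain ⟨m, rfl⟩ : ∃ m, n = m + 1 := ⟨n - 1, by omega⟩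
    intro c hc
    rw [← hU] at hc ⊢
    have cA := aA.2.2 (m + 1) hn c (hc.mono subset_union_left)
    have cB := aB.2.2 (m + 1) hn c (hc.mono subset_union_right)
    rcases Nat.eq_zero_or_pos k' with rfl | hk'
    · apply mv hA.isClosed hB.isClosed _ cA cB
      rw [hI, sp_zero]
      intro b _
      exact Cob.of_mem (by simp)
    · by_cases hm : 2 ≤ m
      · apply mv hA.isClosed hB.isClosed _ cA cB
        rw [hI]
        exact ih (by omega) (by omega) m hm (by omega)
      · obtain rfl : m = 1 := by omega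
        apply mv' hA.isClosed hB.isClosed _ cA cB
        intro b hb
        rw [hI] at hb ⊢
        obtain ⟨r, h⟩ := sp_conn (by omega : 2 ≤ k') (by omega) b hb
        exact ⟨r • one, coc_smul_one r, Cob.of_mem h⟩

/-- Mayer-Vietoris gluing with given primitives. -/
theorem mv_glue {Y K : Type*} [TopologicalSpace Y] [AddCommGroup K] {C : SoftCx Y K}
    {n : ℕ} {k b₁ b₂ b' : K} {Z₁ Z₂ : Set Y} (h₁ : IsClosed Z₁) (h₂ : IsClosed Z₂)
    (hb₁ : ∀ z ∈ Z₁, k - C.D b₁ ∈ C.N z (n + 1)) (hb₂ : ∀ z ∈ Z₂, k - C.D b₂ ∈ C.N z (n + 1))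
    (hb' : C.Coc Z₁ n b') (hI : C.Cob (Z₁ ∩ Z₂) n (b₁ - b₂ - b')) : C.Cob (Z₁ ∪ Z₂) (n + 1) k := by
  obtain ⟨e, he⟩ := hI
  obtain ⟨m, hm₁, hm₂⟩ := C.soft n (b₁ - b₂ - b' - C.D e) Z₁ Z₂ h₁ h₂ he
  refine ⟨b₁ - b' - C.D e - m, ?_⟩
  rintro z (hz | hz)
  · have e1 : k - C.D (b₁ - b' - C.D e - m) =
        (k - C.D b₁) + C.D b' + C.D (C.D e) + C.D m := by
      simp only [map_sub]; abel
    rw [e1]
    exact add_mem (add_mem (add_mem (hb₁ z hz) (hb' z hz)) (C.DD_mem z _ e))
      (C.D_mem z n m (hm₁ z hz))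
  · have e1 : k - C.D (b₁ - b' - C.D e - m) =
        (k - C.D b₂) - C.D (b₁ - b₂ - b' - C.D e - m) := by
      simp only [map_sub]; abel
    rw [e1]
    exact sub_mem (hb₂ z hz) (C.D_mem z n _ (hm₂ z hz))

/-- reduced coboundaries over a sphere, in the top degree. -/
def RCob (M k : ℕ) (b : Ch (E M)) : Prop :=
  ∃ r : ℚ, (r = 0 ∨ k = 1) ∧ (AS (E M)).Cob (Sp M k) k (b - r • one)

theorem RCob.of_cob {M k : ℕ} {b : Ch (E M)} (h : (AS (E M)).Cob (Sp M k) k b) : RCob M k b :=
  ⟨0, Or.inl rfl, by rw [zero_smul, sub_zero]; exact h⟩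

theorem RCob.cob {M k : ℕ} (hk : 2 ≤ k) {b : Ch (E M)} (h : RCob M k b) :
    (AS (E M)).Cob (Sp M k) k b := by
  obtain ⟨r, hr, h⟩ := h
  rcases hr with hr | hr
  · rwa [hr, zero_smul, sub_zero] at h
  · omega

theorem glue_sphere {M k : ℕ} (hk : k < M) {c bA bB : Ch (E M)}
    (hA : ∀ z ∈ Hm M k hk 1, c - (AS _).D bA ∈ (AS _).N z (k + 1))
    (hB : ∀ z ∈ Hm M k hk (-1), c - (AS _).D bB ∈ (AS _).N z (k + 1))
    (h : RCob M k (bA - bB)) : (AS (E M)).Cob (Sp M (k + 1)) (k + 1) c := by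
  obtain ⟨r, hr, h⟩ := h
  rw [← Hm_union hk]
  refine mv_glue (b' := r • one) (Hm_compact M k hk 1).isClosed (Hm_compact M k hk (-1)).isClosed
    hA hB ?_ ?_
  · rcases hr with hr | hr
    · rw [hr, zero_smul]; exact coc_zero _ _
    · subst hr; exact coc_smul_one r
  · rw [Hm_inter hk]; exact h

theorem diff_coc {M k : ℕ} (hk : k < M) {c bA bB : Ch (E M)}
    (hA : ∀ z ∈ Hm M k hk 1, c - (AS _).D bA ∈ (AS _).N z (k + 1))
    (hB : ∀ z ∈ Hm M k hk (-1), c - (AS _).D bB ∈ (AS _).N z (k + 1)) :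
    (AS (E M)).Coc (Sp M k) k (bA - bB) := by
  intro z hz
  rw [← Hm_inter hk] at hz
  have := sub_mem (hB z hz.2) (hA z hz.1)
  rw [map_sub]
  convert this using 1
  abel

/-- primitives on the two hemispheres of a coboundary differ by a reduced coboundary. -/
theorem rcob_of_cob {M k : ℕ} (h1 : 1 ≤ k) (hk : k < M) {c bA bB : Ch (E M)}
    (hA : ∀ z ∈ Hm M k hk 1, c - (AS _).D bA ∈ (AS _).N z (k + 1))
    (hB : ∀ z ∈ Hm M k hk (-1), c - (AS _).D bB ∈ (AS _).N z (k + 1))
    (h : (AS (E M)).Cob (Sp M (k + 1)) (k + 1) c) : RCob M k (bA - bB) := by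
  obtain ⟨e, he⟩ := h
  have sA : Hm M k hk 1 ⊆ Sp M (k + 1) := fun x hx => hx.1
  have sB : Hm M k hk (-1) ⊆ Sp M (k + 1) := fun x hx => hx.1
  have iA : Sp M k ⊆ Hm M k hk 1 := by rw [← Hm_inter hk]; exact inter_subset_left
  have iB : Sp M k ⊆ Hm M k hk (-1) := by rw [← Hm_inter hk]; exact inter_subset_right
  have cA : (AS (E M)).Coc (Hm M k hk 1) k (bA - e) := by
    intro z hz
    have := sub_mem (he z (sA hz)) (hA z hz)
    rw [map_sub]
    convert this using 1
    abel
  have cB : (AS (E M)).Coc (Hm M k hk (-1)) k (bB - e) := by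
    intro z hz
    have := sub_mem (he z (sB hz)) (hB z hz)
    rw [map_sub]
    convert this using 1
    abel
  have aA := Hm_acy M k hk 1 (by norm_num)
  have aB := Hm_acy M k hk (-1) (by norm_num)
  rcases Nat.lt_or_ge k 2 with hk2 | hk2
  · obtain rfl : k = 1 := by omega
    obtain ⟨r, hr⟩ := aA.2.1 _ cA
    obtain ⟨s, hs⟩ := aB.2.1 _ cB
    refine ⟨r - s, Or.inr rfl, Cob.of_mem fun z hz => ?_⟩
    have := sub_mem (hr z (iA hz)) (hs z (iB hz))
    convert this using 1
    rw [sub_smul]; abel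
  · have e1 := (aA.2.2 k hk2 _ cA).mono iA
    have e2 := (aB.2.2 k hk2 _ cB).mono iB
    have := e1.sub e2
    refine RCob.of_cob ?_
    convert this using 1
    abel

theorem RCob.add_smul {M k : ℕ} {b b' : Ch (E M)} (h : RCob M k b) (s : ℚ) (h' : RCob M k b') :
    RCob M k (b + s • b') := by
  obtain ⟨r, hr, h⟩ := h
  obtain ⟨r', hr', h'⟩ := h'
  refine ⟨r + s * r', ?_, ?_⟩
  · rcases hr with hr | hr
    · rcases hr' with hr' | hr'
      · left; rw [hr, hr']; ring
      · exact Or.inr hr'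
    · exact Or.inr hr
  · have := h.add (Cob_smul s h')
    convert this using 1
    rw [_root_.add_smul, smul_sub, smul_smul]; abel

theorem sp_one_pts {M : ℕ} (hM : 0 < M) : ∀ x : E M, x ∈ Sp M 1 ↔
    x = EuclideanSpace.single ⟨0, hM⟩ 1 ∨ x = EuclideanSpace.single ⟨0, hM⟩ (-1) := by
  intro x
  constructor
  · rintro ⟨h1, h2⟩
    have hx : x = EuclideanSpace.single ⟨0, hM⟩ (x ⟨0, hM⟩) := by
      ext i
      by_cases hi : i = ⟨0, hM⟩
      · rw [hi]; simp
      · rw [h2 i (by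
          rcases Nat.eq_zero_or_pos i.val with h | h
          · exact absurd (Fin.ext h) hi
          · exact h)]
        simp [hi]
    rw [hx, PiLp.norm_single, Real.norm_eq_abs] at h1
    rcases (abs_eq zero_le_one).1 h1 with h | h
    · left; rw [hx, h]
    · right; rw [hx, h]
  · have key : ∀ t : ℝ, |t| = 1 → (EuclideanSpace.single ⟨0, hM⟩ t : E M) ∈ Sp M 1 := by
      intro t ht
      refine ⟨by rw [PiLp.norm_single, Real.norm_eq_abs, ht], fun i hi => ?_⟩
      have hne : i ≠ ⟨0, hM⟩ := by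
        rintro rfl
        simp at hi
      simp [hne]
    rintro (h | h)
    · rw [h]; exact key 1 (by norm_num)
    · rw [h]; exact key (-1) (by norm_num)

open Classical in
/-- indicator of a half space -/
noncomputable def bch {M : ℕ} (i0 : Fin M) : Ch (E M) := fun l =>
  match l with
  | [] => 0
  | x :: _ => if 0 < x i0 then 1 else 0

theorem bch_pos {M : ℕ} (i0 : Fin M) (z : E M) (h : 0 < z i0) :
    bch i0 - one ∈ (AS (E M)).N z 1 := by
  have hcontE : Continuous (fun x : E M => x i0) := by fun_prop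
  refine mem_Nz_of (W := {x | 0 < x i0}) ((isOpen_lt continuous_const hcontE).mem_nhds h) ?_
  intro l hl hx
  match l, hl with
  | [x], _ =>
    have h1 : 0 < x i0 := hx x (by simp)
    rw [Pi.sub_apply]
    simp only [bch, one, if_pos h1, sub_self]

theorem bch_neg {M : ℕ} (i0 : Fin M) (z : E M) (h : z i0 < 0) :
    bch i0 ∈ (AS (E M)).N z 1 := by
  have hcontE : Continuous (fun x : E M => x i0) := by fun_prop
  refine mem_Nz_of (W := {x | x i0 < 0}) ((isOpen_lt hcontE continuous_const).mem_nhds h) ?_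
  intro l hl hx
  match l, hl with
  | [x], _ =>
    have h1 : x i0 < 0 := hx x (by simp)
    simp only [bch, if_neg (not_lt.2 h1.le)]

theorem coc_of_mem_sub {M : ℕ} {z : E M} {c : Ch (E M)} (r : ℚ)
    (h : c - r • one ∈ (AS (E M)).N z 1) : (AS (E M)).D c ∈ (AS (E M)).N z 2 := by
  have h1 := (AS (E M)).D_mem z 1 _ h
  have h2 : (AS (E M)).D (r • one) ∈ (AS (E M)).N z 2 := by
    rw [AS_D, dd_smul]; exact AS_smul_mem r (one_D_mem z)
  have := add_mem h1 h2
  rw [map_sub] at this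
  simpa using this

/-- the top class of a sphere; reduced version. -/
theorem sp_top_aux {M : ℕ} (k : ℕ) (hk : 1 ≤ k) : k ≤ M →
    ∃ c : Ch (E M), (AS _).Coc (Sp M k) k c ∧ ¬ RCob M k c ∧
      ∀ c', (AS _).Coc (Sp M k) k c' → ∃ r : ℚ, RCob M k (c' - r • c) := by
  induction k, hk using Nat.le_induction with
  | base =>
    intro hM
    have hM' : 0 < M := hM
    set i0 : Fin M := ⟨0, hM'⟩ with hi0
    have p1 : (EuclideanSpace.single i0 (1:ℝ) : E M) ∈ Sp M 1 := (sp_one_pts hM' _).2 (Or.inl rfl)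
    have p2 : (EuclideanSpace.single i0 (-1:ℝ) : E M) ∈ Sp M 1 := (sp_one_pts hM' _).2 (Or.inr rfl)
    have q1 : bch i0 - one ∈ (AS (E M)).N (EuclideanSpace.single i0 (1:ℝ)) 1 :=
      bch_pos i0 _ (by simp)
    have q2 : bch i0 ∈ (AS (E M)).N (EuclideanSpace.single i0 (-1:ℝ)) 1 :=
      bch_neg i0 _ (by simp)
    refine ⟨bch i0, ?_, ?_, ?_⟩
    · intro z hz
      rcases (sp_one_pts hM' z).1 hz with rfl | rfl
      · exact coc_of_mem_sub 1 (by rw [one_smul]; exact q1)
      · exact coc_of_mem_sub 0 (by rw [zero_smul, sub_zero]; exact q2)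
    · rintro ⟨r, -, h⟩
      rw [cob_one] at h
      have h1 := sub_mem (h _ p1) q1
      have h2 := sub_mem q2 (h _ p2)
      have e1 : bch i0 - r • one - (bch i0 - one) = (1 - r) • (one : Ch (E M)) := by
        rw [sub_smul, one_smul]; abel
      have e2 : bch i0 - (bch i0 - r • one) = r • (one : Ch (E M)) := by abel
      rw [e1] at h1
      rw [e2] at h2
      have := smul_one_mem h1
      have := smul_one_mem h2
      linarith
    · intro c' hc'
      obtain ⟨r, hr⟩ := (acy_singleton (EuclideanSpace.single i0 (1:ℝ) : E M)).2.1 c'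
        (hc'.mono (singleton_subset_iff.2 p1))
      obtain ⟨s, hs⟩ := (acy_singleton (EuclideanSpace.single i0 (-1:ℝ) : E M)).2.1 c'
        (hc'.mono (singleton_subset_iff.2 p2))
      refine ⟨r - s, s, Or.inr rfl, Cob.of_mem fun z hz => ?_⟩
      rcases (sp_one_pts hM' z).1 hz with rfl | rfl
      · have := sub_mem (hr _ rfl) (AS_smul_mem (r - s) q1)
        convert this using 1
        rw [smul_sub, sub_smul, sub_smul]; abel
      · have := sub_mem (hs _ rfl) (AS_smul_mem (r - s) q2)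
        convert this using 1
        abel
  | succ k hk ih =>
    intro hkM
    have hkM' : k < M := by omega
    obtain ⟨b, hb1, hb2, hb3⟩ := ih (by omega)
    have aA := Hm_acy M k hkM' 1 (by norm_num)
    have aB := Hm_acy M k hkM' (-1) (by norm_num)
    have sA : Hm M k hkM' 1 ⊆ Sp M (k + 1) := fun x hx => hx.1
    have sB : Hm M k hkM' (-1) ⊆ Sp M (k + 1) := fun x hx => hx.1
    obtain ⟨n1, hn1, hn2⟩ := (AS (E M)).soft (k + 1) ((AS (E M)).D b) (Hm M k hkM' 1)
      (Hm M k hkM' (-1)) (Hm_compact M k hkM' 1).isClosed (Hm_compact M k hkM' (-1)).isClosed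
      (fun z hz => hb1 z (by rw [← Hm_inter hkM']; exact hz))
    -- `c = D b - n1`: near `A` it is `D b`, near `B` it is `0`
    have hcA : ∀ z ∈ Hm M k hkM' 1, ((AS (E M)).D b - n1) - (AS (E M)).D b ∈
        (AS (E M)).N z (k + 1) := by
      intro z hz
      have := neg_mem (hn1 z hz)
      convert this using 1
      abel
    have hcB : ∀ z ∈ Hm M k hkM' (-1), ((AS (E M)).D b - n1) - (AS (E M)).D 0 ∈
        (AS (E M)).N z (k + 1) := by
      intro z hz
      rw [map_zero, sub_zero]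
      exact hn2 z hz
    refine ⟨(AS (E M)).D b - n1, ?_, ?_, ?_⟩
    · rw [← Hm_union hkM']
      rintro z (hz | hz)
      · rw [map_sub]
        exact sub_mem ((AS (E M)).DD_mem z _ b) ((AS (E M)).D_mem z _ _ (hn1 z hz))
      · exact (AS (E M)).D_mem z _ _ (hn2 z hz)
    · intro h
      apply hb2
      have := rcob_of_cob (by omega) hkM' hcA hcB (h.cob (by omega))
      rwa [sub_zero] at this
    · intro c' hc'
      obtain ⟨bA, hbA⟩ := aA.2.2 (k + 1) (by omega) c' (hc'.mono sA)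
      obtain ⟨bB, hbB⟩ := aB.2.2 (k + 1) (by omega) c' (hc'.mono sB)
      obtain ⟨r, hr⟩ := hb3 _ (diff_coc hkM' hbA hbB)
      refine ⟨r, RCob.of_cob (glue_sphere hkM' (bA := bA - r • b) (bB := bB) ?_ ?_ ?_)⟩
      · intro z hz
        have := sub_mem (hbA z hz) (AS_smul_mem r (hcA z hz))
        convert this using 1
        rw [AS_D, AS_D, dd_sub, dd_smul, AS_D]
        module
      · intro z hz
        have := sub_mem (hbB z hz) (AS_smul_mem r (hcB z hz))
        convert this using 1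
        rw [map_zero, sub_zero]; abel
      · convert hr using 1
        abel

theorem sp_top {M k : ℕ} (hk : 2 ≤ k) (hkM : k ≤ M) :
    ∃ c : Ch (E M), (AS _).Coc (Sp M k) k c ∧ ¬ (AS _).Cob (Sp M k) k c ∧
      ∀ c', (AS _).Coc (Sp M k) k c' → ∃ r : ℚ, (AS _).Cob (Sp M k) k (c' - r • c) := by
  obtain ⟨c, h1, h2, h3⟩ := sp_top_aux (M := M) k (by omega) hkM
  refine ⟨c, h1, fun h => h2 (RCob.of_cob h), fun c' hc' => ?_⟩
  obtain ⟨r, hr⟩ := h3 c' hc'
  exact ⟨r, hr.cob hk⟩

/-- sign change of one coordinate -/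
noncomputable def refl {M : ℕ} (i : Fin M) (x : E M) : E M :=
  WithLp.toLp 2 fun j => if j = i then - x j else x j

theorem refl_apply {M : ℕ} (i : Fin M) (x : E M) (j : Fin M) :
    refl i x j = if j = i then - x j else x j := rfl

theorem refl_continuous {M : ℕ} (i : Fin M) : Continuous (refl i : E M → E M) := by
  unfold refl
  refine (PiLp.continuous_toLp 2 _).comp (continuous_pi fun j => ?_)
  by_cases h : j = i
  · simp only [h, if_true]
    fun_prop
  · simp only [h, if_false]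
    fun_prop

theorem refl_norm {M : ℕ} (i : Fin M) (x : E M) : ‖refl i x‖ = ‖x‖ := by
  rw [EuclideanSpace.norm_eq, EuclideanSpace.norm_eq]
  congr 1
  refine Finset.sum_congr rfl fun j _ => ?_
  rw [refl_apply]
  split_ifs <;> simp

theorem refl_mem {M k : ℕ} (i : Fin M) {x : E M} (hx : x ∈ Sp M k) : refl i x ∈ Sp M k := by
  refine ⟨by rw [refl_norm]; exact hx.1, fun j hj => ?_⟩
  rw [refl_apply, hx.2 j hj]
  simp

/-- the reflection in the last coordinate of a sphere changes the sign of the top class. -/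
theorem refl_last {M k : ℕ} (h1 : 1 ≤ k) (hk : k < M) {c : Ch (E M)}
    (hc : (AS _).Coc (Sp M (k + 1)) (k + 1) c) :
    (AS (E M)).Cob (Sp M (k + 1)) (k + 1) (pb (refl ⟨k, hk⟩) c + c) := by
  have aA := Hm_acy M k hk 1 (by norm_num)
  have aB := Hm_acy M k hk (-1) (by norm_num)
  have sA : Hm M k hk 1 ⊆ Sp M (k + 1) := fun x hx => hx.1
  have sB : Hm M k hk (-1) ⊆ Sp M (k + 1) := fun x hx => hx.1
  obtain ⟨bA, hbA⟩ := aA.2.2 (k + 1) (by omega) c (hc.mono sA)
  obtain ⟨bB, hbB⟩ := aB.2.2 (k + 1) (by omega) c (hc.mono sB)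
  have mAB : ∀ z ∈ Hm M k hk 1, refl ⟨k, hk⟩ z ∈ Hm M k hk (-1) := by
    intro z hz
    refine ⟨refl_mem _ hz.1, ?_⟩
    rw [refl_apply, if_pos rfl]
    have := hz.2
    linarith
  have mBA : ∀ z ∈ Hm M k hk (-1), refl ⟨k, hk⟩ z ∈ Hm M k hk 1 := by
    intro z hz
    refine ⟨refl_mem _ hz.1, ?_⟩
    rw [refl_apply, if_pos rfl]
    have := hz.2
    linarith
  refine glue_sphere hk (bA := pb (refl ⟨k, hk⟩) bB + bA) (bB := pb (refl ⟨k, hk⟩) bA + bB)
    ?_ ?_ ?_
  · intro z hz
    have e1 := pb_mem_Nz (refl_continuous ⟨k, hk⟩).continuousAt (hbB _ (mAB z hz))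
    have := add_mem e1 (hbA z hz)
    rw [AS_N]
    convert this using 1
    rw [AS_D, AS_D, AS_D, dd_add, dd_pb, pb_sub]
    abel
  · intro z hz
    have e1 := pb_mem_Nz (refl_continuous ⟨k, hk⟩).continuousAt (hbA _ (mBA z hz))
    have := add_mem e1 (hbB z hz)
    rw [AS_N]
    convert this using 1
    rw [AS_D, AS_D, AS_D, dd_add, dd_pb, pb_sub]
    abel
  · have h2 := cob_pb_sub (F := Sp M k) (g₁ := fun x => x) (g₂ := refl ⟨k, hk⟩)
      (fun x _ => continuousAt_id) (fun x _ => (refl_continuous ⟨k, hk⟩).continuousAt) (by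
        intro x hx
        ext j
        rw [refl_apply]
        split_ifs with h
        · have h0 : x j = 0 := by rw [h]; exact hx.2 _ le_rfl
          rw [h0, neg_zero]
        · rfl) (fun x hx => hx) (diff_coc hk hbA hbB)
    refine RCob.of_cob ?_
    convert h2 using 1
    rw [pb_id, pb_sub]
    abel

/-- exchange of two coordinates -/
noncomputable def swp {M : ℕ} (i j : Fin M) (x : E M) : E M :=
  WithLp.toLp 2 fun l => x (Equiv.swap i j l)

theorem swp_apply {M : ℕ} (i j : Fin M) (x : E M) (l : Fin M) :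
    swp i j x l = x (Equiv.swap i j l) := rfl

theorem swp_continuous {M : ℕ} (i j : Fin M) : Continuous (swp i j : E M → E M) := by
  unfold swp
  refine (PiLp.continuous_toLp 2 _).comp (continuous_pi fun l => ?_)
  fun_prop

theorem swp_norm {M : ℕ} (i j : Fin M) (x : E M) : ‖swp i j x‖ = ‖x‖ := by
  rw [EuclideanSpace.norm_eq, EuclideanSpace.norm_eq]
  congr 1
  exact Equiv.sum_comp (Equiv.swap i j) (fun l => ‖x l‖ ^ 2)

theorem swp_mem {M k : ℕ} {i j : Fin M} (hi : i.val < k) (hj : j.val < k) {x : E M}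
    (hx : x ∈ Sp M k) : swp i j x ∈ Sp M k := by
  refine ⟨by rw [swp_norm]; exact hx.1, fun l hl => ?_⟩
  rw [swp_apply, Equiv.swap_apply_of_ne_of_ne]
  · exact hx.2 l hl
  · rintro rfl; omega
  · rintro rfl; omega

/-- every coordinate reflection changes the sign of the top class. -/
theorem refl_sign {M k : ℕ} (h1 : 2 ≤ k) (hk : k ≤ M) (i : Fin M) (hi : i.val < k) {c : Ch (E M)}
    (hc : (AS _).Coc (Sp M k) k c) : (AS (E M)).Cob (Sp M k) k (pb (refl i) c + c) := by
  obtain ⟨k', rfl⟩ : ∃ k', k = k' + 1 := ⟨k - 1, by omega⟩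
  have hk' : k' < M := by omega
  set j : Fin M := ⟨k', hk'⟩ with hj
  have hjk : j.val < k' + 1 := Nat.lt_succ_self k'
  have hm : MapsTo (swp i j) (Sp M (k' + 1)) (Sp M (k' + 1)) := fun x hx => swp_mem hi hjk hx
  have c1 : (AS (E M)).Coc (Sp M (k' + 1)) (k' + 1) (pb (swp i j) c) :=
    coc_pb (fun x _ => (swp_continuous i j).continuousAt) hm hc
  have c2 := cob_pb (fun x _ => (swp_continuous i j).continuousAt) hm
    (refl_last (by omega) hk' c1)
  convert c2 using 1
  rw [pb_add, pb_pb, pb_pb, pb_pb]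
  have e1 : (fun x : E M => swp i j (refl j (swp i j x))) = refl i := by
    funext x
    ext l
    simp only [swp_apply, refl_apply]
    by_cases hl : l = i
    · subst hl
      simp
    · have : Equiv.swap i j l ≠ j := by
        intro h
        apply hl
        have := congrArg (Equiv.swap i j) h
        simpa using this
      simp [this, hl]
  have e2 : (fun x : E M => swp i j (swp i j x)) = fun x => x := by
    funext x
    ext l
    simp [swp_apply]
  rw [e2, pb_id]
  rw [e1]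

/-- sign change of the first `j` coordinates -/
noncomputable def rfl' {M : ℕ} (j : ℕ) (x : E M) : E M :=
  WithLp.toLp 2 fun l => if l.val < j then - x l else x l

theorem rfl'_apply {M : ℕ} (j : ℕ) (x : E M) (l : Fin M) :
    rfl' j x l = if l.val < j then - x l else x l := rfl

theorem rfl'_succ {M j : ℕ} (hj : j < M) (x : E M) : rfl' (j + 1) x = refl ⟨j, hj⟩ (rfl' j x) := by
  ext l
  rw [rfl'_apply, refl_apply, rfl'_apply]
  by_cases h : l = ⟨j, hj⟩
  · subst h
    simp
  · have hne : l.val ≠ j := fun h' => h (Fin.ext h')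
    simp only [if_neg h]
    by_cases h2 : l.val < j
    · rw [if_pos h2, if_pos (by omega)]
    · rw [if_neg h2, if_neg (by omega)]

theorem rfl'_mem {M k j : ℕ} (hj : j ≤ M) {x : E M} (hx : x ∈ Sp M k) : rfl' j x ∈ Sp M k := by
  induction j with
  | zero =>
    have : rfl' 0 x = x := by ext l; simp [rfl'_apply]
    rw [this]; exact hx
  | succ j ih =>
    rw [rfl'_succ (by omega)]
    exact refl_mem _ (ih (by omega))

theorem rfl'_continuous {M : ℕ} (j : ℕ) : Continuous (rfl' j : E M → E M) := by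
  unfold rfl'
  refine (PiLp.continuous_toLp 2 _).comp (continuous_pi fun l => ?_)
  by_cases h : l.val < j
  · simp only [h, if_true]
    fun_prop
  · simp only [h, if_false]
    fun_prop

theorem rfl'_sign {M k : ℕ} (h1 : 2 ≤ k) (hk : k ≤ M) (j : ℕ) (hj : j ≤ k) {c : Ch (E M)}
    (hc : (AS _).Coc (Sp M k) k c) :
    (AS (E M)).Cob (Sp M k) k (pb (rfl' j) c - (-1 : ℚ) ^ j • c) := by
  induction j with
  | zero =>
    have : pb (rfl' 0) c = c := by
      have e : (rfl' 0 : E M → E M) = fun x => x := by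
        funext x
        ext l; simp [rfl'_apply]
      rw [e, pb_id]
    rw [this, pow_zero, one_smul, sub_self]
    exact cob_zero _ _
  | succ j ih =>
    have hjM : j < M := by omega
    have e0 : pb (rfl' (j + 1)) c = pb (rfl' j) (pb (refl ⟨j, hjM⟩) c) := by
      rw [pb_pb]
      congr 1
      funext x
      exact rfl'_succ hjM x
    have h2 := refl_sign h1 hk ⟨j, hjM⟩ (by show j < k; omega) hc
    have h3 := cob_pb (F := Sp M k) (F' := Sp M k) (g := rfl' j)
      (fun x _ => (rfl'_continuous j).continuousAt)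
      (fun x hx => rfl'_mem (by omega) hx) h2
    have h4 := h3.sub (ih (by omega))
    rw [e0]
    convert h4 using 1
    rw [pb_add, pow_succ, mul_neg_one, neg_smul]
    abel

/-- the antipode acts on the top class of `Sp M k` with the sign `(-1)^k`. -/
theorem antipode_sign {M k : ℕ} (h1 : 2 ≤ k) (hk : k ≤ M) {c : Ch (E M)}
    (hc : (AS _).Coc (Sp M k) k c) :
    (AS (E M)).Cob (Sp M k) k (pb (fun x => -x) c - (-1 : ℚ) ^ k • c) := by
  have h2 := rfl'_sign h1 hk k le_rfl hc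
  have h3 := cob_pb_sub (F := Sp M k) (F' := Sp M k) (g₁ := fun x : E M => -x) (g₂ := rfl' k)
    (fun x _ => continuous_neg.continuousAt) (fun x _ => (rfl'_continuous k).continuousAt) (by
      intro x hx
      ext l
      rw [rfl'_apply]
      split_ifs with h
      · rfl
      · show - x l = x l
        rw [hx.2 l (by omega), neg_zero]) (by
      intro x hx
      refine ⟨by rw [norm_neg]; exact hx.1, fun l hl => ?_⟩
      show - x l = 0
      rw [hx.2 l hl, neg_zero]) hc
  have h4 := h3.add h2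
  convert h4 using 1
  abel

end Pool.Agent.H15.Lev
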