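import Pool.Agent.H15.Lev.Cone

/-! A class which is odd under a symmetry of the base, has no proper parts and has rank one fibres:
its support admits no odd map to the circle. -/

set_option autoImplicit false

namespace Pool.Agent.H15.Lev

open Set Topology Pool.Agent.Helper775.Tight Pool.Agent.Helper775.Tight.SoftCx

section glue

variable {Y K : Type*} [TopologicalSpace Y] [AddCommGroup K] {C : SoftCx Y K}

/-- gluing of cocycles -/
theorem coc_glue {n : ℕ} {k₁ k₂ : K} {Z₁ Z₂ : Set Y} (hZ₁ : IsClosed Z₁) (hZ₂ : IsClosed Z₂)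
    (h₁ : C.Coc Z₁ n k₁) (h₂ : C.Coc Z₂ n k₂) (h : C.Cob (Z₁ ∩ Z₂) n (k₁ - k₂)) :
    ∃ g, C.Coc (Z₁ ∪ Z₂) n g ∧ C.Cob Z₁ n (g - k₁) ∧ C.Cob Z₂ n (g - k₂) := by
  obtain ⟨b, hb⟩ := h
  obtain ⟨m, hm₁, hm₂⟩ := C.soft n (k₁ - k₂ - C.D b) Z₁ Z₂ hZ₁ hZ₂ hb
  have e₁ : C.Cob Z₁ n (k₁ - C.D b - m - k₁) := by
    refine ⟨-b, fun z hz => ?_⟩
    have e : k₁ - C.D b - m - k₁ - C.D (-b) = - m := by
      rw [map_neg]; abel
    rw [e]
    exact neg_mem (hm₁ z hz)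
  have e₂ : C.Cob Z₂ n (k₁ - C.D b - m - k₂) := by
    refine Cob.of_mem fun z hz => ?_
    have e : k₁ - C.D b - m - k₂ = k₁ - k₂ - C.D b - m := by abel
    rw [e]
    exact hm₂ z hz
  refine ⟨k₁ - C.D b - m, ?_, e₁, e₂⟩
  rintro z (hz | hz)
  · have := (e₁.coc.add h₁) z hz
    simpa using this
  · have := (e₂.coc.add h₂) z hz
    simpa using this

/-- extension of cocycles: the connecting homomorphism -/
theorem coc_split {n : ℕ} {k₀ : K} {Z₁ Z₂ : Set Y} (hZ₁ : IsClosed Z₁) (hZ₂ : IsClosed Z₂)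
    (h : C.Coc (Z₁ ∩ Z₂) n k₀) (hex : C.Ex (Z₁ ∪ Z₂) (n + 1)) :
    ∃ k₁ k₂, C.Coc Z₁ n k₁ ∧ C.Coc Z₂ n k₂ ∧ k₀ = k₁ - k₂ := by
  obtain ⟨x, hx₁, hx₂⟩ := C.soft (n + 1) (C.D k₀) Z₁ Z₂ hZ₁ hZ₂ h
  obtain ⟨y, hy⟩ := hex x (by
    rintro z (hz | hz)
    · exact C.D_mem z _ _ (hx₁ z hz)
    · have h1 := C.D_mem z _ _ (hx₂ z hz)
      have h2 := C.DD_mem z (n + 1 + 1) k₀
      rw [map_sub] at h1
      have := sub_mem h2 h1
      simpa using this)
  refine ⟨y, y - k₀, ?_, ?_, by abel⟩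
  · intro z hz
    have := sub_mem (hx₁ z hz) (hy z (Or.inl hz))
    simpa using this
  · intro z hz
    have := add_mem (hx₂ z hz) (hy z (Or.inr hz))
    rw [map_sub]
    have h3 := neg_mem this
    convert h3 using 1
    abel

end glue

variable {Y K : Type*} [MetricSpace Y] [AddCommGroup K] {C : SoftCx Y K}

/-- a cocycle which is pointwise a coboundary is a coboundary. -/
theorem cob_of_pointwise (n : ℕ)
    {Z : Set Y} (hZ : IsCompact Z) (hp : ∀ z ∈ Z, ∀ m ≤ n, C.Ex {z} m) {k : K}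
    (hk : ∀ z ∈ Z, C.Cob {z} (n + 1) k) : C.Cob Z (n + 1) k := by
  refine not_cob_induction hZ fun Z' hZ' hc hmin => ?_
  rcases Z'.eq_empty_or_nonempty with rfl | ⟨z, hz⟩
  · exact Cob.of_mem (by simp)
  have h1 : C.Cob {z} (n + 1) k := hk z (hZ' hz)
  obtain ⟨U, hU, hzU, hcU⟩ := h1.isOpen
  obtain ⟨r, hr, hrU⟩ := Metric.isOpen_iff.1 hU z (hzU rfl)
  have hA : IsCompact (Z' ∩ Metric.closedBall z (r / 2)) :=
    hc.inter_right Metric.isClosed_closedBall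
  have hB : IsCompact (Z' \ Metric.ball z (r / 2)) := hc.diff Metric.isOpen_ball
  have hun : Z' = (Z' ∩ Metric.closedBall z (r / 2)) ∪ (Z' \ Metric.ball z (r / 2)) := by
    ext x
    simp only [mem_union, mem_inter_iff, Metric.mem_closedBall, mem_sdiff, Metric.mem_ball]
    constructor
    · intro hx
      rcases le_or_gt (dist x z) (r / 2) with h | h
      · exact Or.inl ⟨hx, h⟩
      · exact Or.inr ⟨hx, not_lt.2 h.le⟩
    · rintro (h | h)
      · exact h.1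
      · exact h.1
  rw [hun]
  refine mv hA.isClosed hB.isClosed ?_ ?_ ?_
  · exact ex_of_pointwise n (hA.inter hB) fun w hw m hm => hp w (hZ' hw.1.1) m hm
  · refine hcU.mono fun x hx => hrU ?_
    have := hx.2
    rw [Metric.mem_closedBall] at this
    rw [Metric.mem_ball]
    linarith
  · refine hmin _ sdiff_subset hB fun h => ?_
    have : z ∈ Z' \ Metric.ball z (r / 2) := by rw [h]; exact hz
    exact this.2 (Metric.mem_ball_self (by positivity))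

variable [Module ℚ K]

/-- a symmetry of a soft complex over a symmetry of the base -/
structure Symm (C : SoftCx Y K) (τ : Y → Y) (T : K →ₗ[ℚ] K) : Prop where
  inv : ∀ k, T (T k) = k
  comm : ∀ k, C.D (T k) = T (C.D k)
  mem : ∀ z n k, k ∈ C.N (τ z) n → T k ∈ C.N z n
  rat : Rat C

theorem Symm.coc {τ : Y → Y} {T : K →ₗ[ℚ] K} (hT : Symm C τ T) {Z Z' : Set Y} {n : ℕ} {k : K}
    (h : C.Coc Z' n k) (hZ : ∀ z ∈ Z, τ z ∈ Z') : C.Coc Z n (T k) := by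
  intro z hz
  rw [hT.comm]
  exact hT.mem z _ _ (h _ (hZ z hz))

theorem Symm.cob {τ : Y → Y} {T : K →ₗ[ℚ] K} (hT : Symm C τ T) {Z Z' : Set Y} {n : ℕ} {k : K}
    (h : C.Cob Z' n k) (hZ : ∀ z ∈ Z, τ z ∈ Z') : C.Cob Z n (T k) := by
  obtain ⟨b, hb⟩ := h
  refine ⟨T b, fun z hz => ?_⟩
  rw [hT.comm, ← map_sub]
  exact hT.mem z _ _ (hb _ (hZ z hz))

/-- the support of a class -/
def supp (C : SoftCx Y K) (Z : Set Y) (n : ℕ) (e : K) : Set Y := {z | z ∈ Z ∧ ¬ C.Cob {z} n e}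

theorem supp_isClosed {Z : Set Y} (hZ : IsClosed Z) (n : ℕ) (e : K) : IsClosed (supp C Z n e) := by
  rw [← isOpen_compl_iff, isOpen_iff_mem_nhds]
  intro z hz
  by_cases hzZ : z ∈ Z
  · have h1 : C.Cob {z} n e := by
      by_contra h
      exact hz ⟨hzZ, h⟩
    obtain ⟨U, hU, hzU, hc⟩ := h1.isOpen
    refine Filter.mem_of_superset (hU.mem_nhds (hzU rfl)) fun y hy hy' => ?_
    exact hy'.2 (hc.mono (singleton_subset_iff.2 hy))
  · exact Filter.mem_of_superset (hZ.isOpen_compl.mem_nhds hzZ) fun y hy hy' => hy hy'.1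

/-- the support of a class generating the cohomology of `Z` cannot be split. -/
theorem supp_indec (hr : Rat C) {n : ℕ} {Z : Set Y} (hZ : IsCompact Z)
    (hp : ∀ z ∈ Z, ∀ m ≤ n, C.Ex {z} m) {e : K} (he : C.Coc Z (n + 1) e)
    (huniq : ∀ k, C.Coc Z (n + 1) k → ∃ r : ℚ, C.Cob Z (n + 1) (k - r • e))
    {A₁ A₂ : Set Y} (h₁ : IsClosed A₁) (h₂ : IsClosed A₂) (hd : Disjoint A₁ A₂)
    (hA : supp C Z (n + 1) e = A₁ ∪ A₂) (hne₁ : A₁.Nonempty) (hne₂ : A₂.Nonempty) : False := by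
  obtain ⟨z₁, hz₁⟩ := hne₁
  obtain ⟨z₂, hz₂⟩ := hne₂
  have hA₁ : ∀ z ∈ A₁, z ∈ supp C Z (n + 1) e := fun z hz => by rw [hA]; exact Or.inl hz
  have hA₂ : ∀ z ∈ A₂, z ∈ supp C Z (n + 1) e := fun z hz => by rw [hA]; exact Or.inr hz
  set Z₁ : Set Y := Z ∩ {z | Metric.infDist z A₁ ≤ Metric.infDist z A₂} with hZ₁
  set Z₂ : Set Y := Z ∩ {z | Metric.infDist z A₂ ≤ Metric.infDist z A₁} with hZ₂
  have c₁ : IsCompact Z₁ := hZ.inter_right
    (isClosed_le (Metric.continuous_infDist_pt _) (Metric.continuous_infDist_pt _))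
  have c₂ : IsCompact Z₂ := hZ.inter_right
    (isClosed_le (Metric.continuous_infDist_pt _) (Metric.continuous_infDist_pt _))
  have hun : Z₁ ∪ Z₂ = Z := by
    ext z
    constructor
    · rintro (h | h)
      · exact h.1
      · exact h.1
    · intro hz
      rcases le_total (Metric.infDist z A₁) (Metric.infDist z A₂) with h | h
      · exact Or.inl ⟨hz, h⟩
      · exact Or.inr ⟨hz, h⟩
  have pos₁ : ∀ z ∈ A₁, 0 < Metric.infDist z A₂ := fun z hz =>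
    (h₂.notMem_iff_infDist_pos ⟨z₂, hz₂⟩).1 fun h => Set.disjoint_left.1 hd hz h
  have pos₂ : ∀ z ∈ A₂, 0 < Metric.infDist z A₁ := fun z hz =>
    (h₁.notMem_iff_infDist_pos ⟨z₁, hz₁⟩).1 fun h => Set.disjoint_left.1 hd h hz
  have hcobI : C.Cob (Z₁ ∩ Z₂) (n + 1) e := by
    refine cob_of_pointwise n (c₁.inter c₂) (fun z hz m hm => hp z hz.1.1 m hm) fun z hz => ?_
    by_contra hcon
    have hzA : z ∈ A₁ ∪ A₂ := by rw [← hA]; exact ⟨hz.1.1, hcon⟩
    rcases hzA with h | h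
    · have h3 := pos₁ z h
      have h4 : Metric.infDist z A₂ ≤ Metric.infDist z A₁ := hz.2.2
      rw [Metric.infDist_zero_of_mem h] at h4
      linarith
    · have h3 := pos₂ z h
      have h4 : Metric.infDist z A₁ ≤ Metric.infDist z A₂ := hz.1.2
      rw [Metric.infDist_zero_of_mem h] at h4
      linarith
  obtain ⟨g, hg, hg₁, hg₂⟩ := coc_glue (k₁ := e) (k₂ := 0) c₁.isClosed c₂.isClosed
    (he.mono inter_subset_left) (coc_zero _ _) (by rw [sub_zero]; exact hcobI)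
  rw [hun] at hg
  obtain ⟨r, hr'⟩ := huniq g hg
  have m₁ : z₁ ∈ Z₁ := ⟨(hA₁ z₁ hz₁).1, by
    show Metric.infDist z₁ A₁ ≤ Metric.infDist z₁ A₂
    rw [Metric.infDist_zero_of_mem hz₁]; exact (pos₁ z₁ hz₁).le⟩
  have m₂ : z₂ ∈ Z₂ := ⟨(hA₂ z₂ hz₂).1, by
    show Metric.infDist z₂ A₂ ≤ Metric.infDist z₂ A₁
    rw [Metric.infDist_zero_of_mem hz₂]; exact (pos₂ z₂ hz₂).le⟩
  have k₁ : r = 1 := by
    by_contra hr1
    apply (hA₁ z₁ hz₁).2
    have h5 := (hr'.mono (singleton_subset_iff.2 (hA₁ z₁ hz₁).1)).sub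
      (hg₁.mono (singleton_subset_iff.2 m₁))
    have h6 := hr.cob (1 - r)⁻¹ h5
    have hne : (1 - r) ≠ 0 := fun h => hr1 (by linarith)
    convert h6 using 1
    have e1 : g - r • e - (g - e) = (1 - r) • e := by
      rw [sub_smul, one_smul]; abel
    rw [e1, smul_smul, inv_mul_cancel₀ hne, one_smul]
  have k₂ : r = 0 := by
    by_contra hr0
    apply (hA₂ z₂ hz₂).2
    have h5 := (hg₂.mono (singleton_subset_iff.2 m₂)).sub
      (hr'.mono (singleton_subset_iff.2 (hA₂ z₂ hz₂).1))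
    have h6 := hr.cob r⁻¹ h5
    convert h6 using 1
    have e1 : g - 0 - (g - r • e) = r • e := by abel
    rw [e1, smul_smul, inv_mul_cancel₀ hr0, one_smul]
  rw [k₁] at k₂
  exact one_ne_zero k₂

theorem coef_unique (hr : Rat C) {n : ℕ} {z : Y} {e k : K} {r s : ℚ} (hne : ¬ C.Cob {z} n e)
    (h : C.Cob {z} n (k - r • e)) (h' : C.Cob {z} n (k - s • e)) : r = s := by
  by_contra hrs
  apply hne
  have h1 := hr.cob (s - r)⁻¹ (h.sub h')
  have hne : (s - r) ≠ 0 := fun h => hrs (by linarith)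
  convert h1 using 1
  have e1 : k - r • e - (k - s • e) = (s - r) • e := by
    rw [sub_smul]; abel
  rw [e1, smul_smul, inv_mul_cancel₀ hne, one_smul]

/-- The support of the class admits no odd map to the circle. -/
theorem no_odd_map {τ : Y → Y} {T : K →ₗ[ℚ] K} (hT : Symm C τ T)
    {n : ℕ} {Z : Set Y} (hZ : IsCompact Z) (hτ : ∀ z ∈ Z, τ z ∈ Z) (hττ : ∀ z, τ (τ z) = z)
    (hp : ∀ z ∈ Z, ∀ m ≤ n, C.Ex {z} m) {e : K} (he : C.Coc Z (n + 1) e)
    (hne : ¬ C.Cob Z (n + 1) e)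
    (huniq : ∀ k, C.Coc Z (n + 1) k → ∃ r : ℚ, C.Cob Z (n + 1) (k - r • e))
    (hex : C.Ex Z (n + 2)) (hTe : C.Cob Z (n + 1) (T e + e))
    (hrank : ∀ z ∈ Z, ¬ C.Cob {z} (n + 1) e → ∀ k, C.Coc {z} (n + 1) k →
      ∃ r : ℚ, C.Cob {z} (n + 1) (k - r • e))
    (s : Y → ℂ) (hs : ContinuousOn s Z) (hodd : ∀ z ∈ Z, s (τ z) = - s z)
    (hnz : ∀ z ∈ Z, ¬ C.Cob {z} (n + 1) e → s z ≠ 0) : False := by
  have hr := hT.rat
  have hZc := hZ.isClosed
  -- closed pieces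
  have hcl : ∀ F : Set ℂ, IsClosed F → IsCompact (Z ∩ s ⁻¹' F) := fun F hF =>
    hZ.of_isClosed_subset (hs.preimage_isClosed_of_isClosed hZc hF) inter_subset_left
  have hIm1 : IsClosed {x : ℂ | 0 ≤ x.im} := isClosed_le continuous_const Complex.continuous_im
  have hIm2 : IsClosed {x : ℂ | x.im ≤ 0} := isClosed_le Complex.continuous_im continuous_const
  have hRe1 : IsClosed {x : ℂ | 0 ≤ x.re} := isClosed_le continuous_const Complex.continuous_re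
  have hRe2 : IsClosed {x : ℂ | x.re ≤ 0} := isClosed_le Complex.continuous_re continuous_const
  obtain ⟨Mp, hMp⟩ : ∃ Mp : Set Y, Mp = Z ∩ s ⁻¹' {x | 0 ≤ x.im} := ⟨_, rfl⟩
  obtain ⟨Mm, hMm⟩ : ∃ Mm : Set Y, Mm = Z ∩ s ⁻¹' {x | x.im ≤ 0} := ⟨_, rfl⟩
  have cMp : IsCompact Mp := by rw [hMp]; exact hcl _ hIm1
  have cMm : IsCompact Mm := by rw [hMm]; exact hcl _ hIm2
  obtain ⟨Op, hOp⟩ : ∃ Op : Set Y, Op = (Mp ∩ Mm) ∩ (Z ∩ s ⁻¹' {x | 0 ≤ x.re}) := ⟨_, rfl⟩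
  obtain ⟨Om, hOm⟩ : ∃ Om : Set Y, Om = (Mp ∩ Mm) ∩ (Z ∩ s ⁻¹' {x | x.re ≤ 0}) := ⟨_, rfl⟩
  have cOp : IsCompact Op := by rw [hOp]; exact (cMp.inter cMm).inter (hcl _ hRe1)
  have cOm : IsCompact Om := by rw [hOm]; exact (cMp.inter cMm).inter (hcl _ hRe2)
  have uM : Mp ∪ Mm = Z := by
    rw [hMp, hMm]
    ext z
    constructor
    · rintro (h | h)
      · exact h.1
      · exact h.1
    · intro hz
      rcases le_total 0 (s z).im with h | h
      · exact Or.inl ⟨hz, h⟩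
      · exact Or.inr ⟨hz, h⟩
  have hMpZ : Mp ⊆ Z := by rw [hMp]; exact inter_subset_left
  have hMmZ : Mm ⊆ Z := by rw [hMm]; exact inter_subset_left
  have uO : Op ∪ Om = Mp ∩ Mm := by
    rw [hOp, hOm]
    ext z
    constructor
    · rintro (h | h)
      · exact h.1
      · exact h.1
    · intro hz
      rcases le_total 0 (s z).re with h | h
      · exact Or.inl ⟨hz, hMpZ hz.1, h⟩
      · exact Or.inr ⟨hz, hMpZ hz.1, h⟩
  have tpm : ∀ z ∈ Mp, τ z ∈ Mm := by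
    rw [hMp, hMm]
    rintro z ⟨hz, h⟩
    refine ⟨hτ z hz, ?_⟩
    show (s (τ z)).im ≤ 0
    rw [hodd z hz, Complex.neg_im]
    have : 0 ≤ (s z).im := h
    linarith
  have tmp : ∀ z ∈ Mm, τ z ∈ Mp := by
    rw [hMp, hMm]
    rintro z ⟨hz, h⟩
    refine ⟨hτ z hz, ?_⟩
    show 0 ≤ (s (τ z)).im
    rw [hodd z hz, Complex.neg_im]
    have : (s z).im ≤ 0 := h
    linarith
  have topm : ∀ z ∈ Op, τ z ∈ Om := by
    rw [hOp, hOm]
    rintro z ⟨⟨hz1, hz2⟩, hz3, hz4⟩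
    refine ⟨⟨tmp z hz2, tpm z hz1⟩, hτ z hz3, ?_⟩
    show (s (τ z)).re ≤ 0
    rw [hodd z hz3, Complex.neg_re]
    have : 0 ≤ (s z).re := hz4
    linarith
  have tomp : ∀ z ∈ Om, τ z ∈ Op := by
    rw [hOp, hOm]
    rintro z ⟨⟨hz1, hz2⟩, hz3, hz4⟩
    refine ⟨⟨tmp z hz2, tpm z hz1⟩, hτ z hz3, ?_⟩
    show 0 ≤ (s (τ z)).re
    rw [hodd z hz3, Complex.neg_re]
    have : (s z).re ≤ 0 := hz4
    linarith
  have hOZ : ∀ z ∈ Op ∩ Om, z ∈ Z ∧ s z = 0 := by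
    rw [hOp, hOm]
    rintro z ⟨⟨⟨h1, h2⟩, h3, h4⟩, -, -, h5⟩
    rw [hMp] at h1
    rw [hMm] at h2
    refine ⟨h3, Complex.ext ?_ ?_⟩
    · exact le_antisymm h5 h4
    · exact le_antisymm h2.2 h1.2
  -- step 1
  have hcobO : C.Cob (Op ∩ Om) (n + 1) e := by
    refine cob_of_pointwise n (cOp.inter cOm) (fun z hz m hm => hp z (hOZ z hz).1 m hm)
      fun z hz => ?_
    by_contra hcon
    exact hnz z (hOZ z hz).1 hcon (hOZ z hz).2
  have hOpZ : Op ⊆ Z := by rw [hOp]; exact fun z hz => hz.2.1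
  have hOmZ : Om ⊆ Z := by rw [hOm]; exact fun z hz => hz.2.1
  obtain ⟨k₀, hk₀, hk₀p, hk₀m⟩ := coc_glue (k₁ := e) (k₂ := 0) cOp.isClosed cOm.isClosed
    (he.mono hOpZ) (coc_zero _ _) (by rw [sub_zero]; exact hcobO)
  rw [uO] at hk₀
  rw [sub_zero] at hk₀m
  -- step 2
  obtain ⟨ep, em, hep, hem, hk₀e⟩ := coc_split cMp.isClosed cMm.isClosed hk₀ (by
    rw [uM]; exact hex)
  -- step 3
  have hGp : C.Coc Mp (n + 1) (ep + T em) := hep.add (hT.coc hem tpm)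
  have hGm : C.Coc Mm (n + 1) (em + T ep) := hem.add (hT.coc hep tmp)
  have hG0 : C.Cob (Mp ∩ Mm) (n + 1) (ep + T em - e - (em + T ep)) := by
    refine cob_of_pointwise n (cMp.inter cMm) (fun z hz m hm => hp z (hMpZ hz.1) m hm)
      fun z hz => ?_
    have e0 : ep + T em - e - (em + T ep) = k₀ - T k₀ - e := by
      rw [hk₀e, map_sub]; abel
    rw [e0]
    rw [← uO] at hz
    rcases hz with hz | hz
    · have a1 := hk₀p.mono (singleton_subset_iff.2 hz)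
      have a2 : C.Cob {z} (n + 1) (T k₀) := hT.cob hk₀m (by
        intro w hw
        rw [mem_singleton_iff.1 hw]; exact topm z hz)
      have := a1.sub a2
      convert this using 1
      abel
    · have a1 := hk₀m.mono (singleton_subset_iff.2 hz)
      have a2 : C.Cob {z} (n + 1) (T (k₀ - e)) := hT.cob hk₀p (by
        intro w hw
        rw [mem_singleton_iff.1 hw]; exact tomp z hz)
      have a3 := hTe.mono (singleton_subset_iff.2 (hOmZ hz))
      have := (a1.sub a2).sub a3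
      convert this using 1
      rw [map_sub]
      abel
  -- step 4
  obtain ⟨g, hg, hgp, hgm⟩ := coc_glue cMp.isClosed cMm.isClosed (hGp.sub (he.mono hMpZ)) hGm hG0
  rw [uM] at hg
  obtain ⟨lam, hlam⟩ := huniq g hg
  have hP : C.Cob Mp (n + 1) (ep + T em - (1 + lam) • e) := by
    have := (hlam.mono hMpZ).sub hgp
    convert this using 1
    rw [add_smul, one_smul]; abel
  have hQ : C.Cob Mm (n + 1) (em + T ep - lam • e) := by
    have := (hlam.mono hMmZ).sub hgm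
    convert this using 1
    abel
  -- step 5
  have hlam2 : lam = -1 / 2 := by
    by_contra hl
    have h1 : C.Cob Mm (n + 1) (T (ep + T em - (1 + lam) • e)) := hT.cob hP tmp
    have h2 := h1.add (hr.cob (1 + lam) (hTe.mono hMmZ))
    have h3 := h2.sub hQ
    have e1 : T (ep + T em - (1 + lam) • e) + (1 + lam) • (T e + e) - (em + T ep - lam • e) =
        (1 + 2 * lam) • e := by
      rw [map_sub, map_add, map_smul, hT.inv]
      module
    rw [e1] at h3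
    have hne' : (1 + 2 * lam) ≠ 0 := fun h => hl (by linarith)
    have h4 : C.Cob Mm (n + 1) e := by
      have := hr.cob (1 + 2 * lam)⁻¹ h3
      rwa [smul_smul, inv_mul_cancel₀ hne', one_smul] at this
    have h5 : C.Cob Mp (n + 1) e := by
      have := (hTe.mono hMpZ).sub (hT.cob h4 tpm)
      simpa using this
    apply hne
    refine cob_of_pointwise n hZ hp fun z hz => ?_
    rw [← uM] at hz
    rcases hz with hz | hz
    · exact h5.mono (singleton_subset_iff.2 hz)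
    · exact h4.mono (singleton_subset_iff.2 hz)
  -- step 6
  obtain ⟨A, hA⟩ : ∃ A, A = supp C Z (n + 1) e := ⟨_, rfl⟩
  have hAc : IsClosed A := by rw [hA]; exact supp_isClosed hZc _ _
  have hAZ : ∀ z ∈ A, z ∈ Z ∧ ¬ C.Cob {z} (n + 1) e := by
    rw [hA]; exact fun z hz => hz
  obtain ⟨Cls, hCls⟩ : ∃ Cls : Y → ℚ → Prop, Cls = fun z r =>
    (z ∈ Mp ∧ C.Cob {z} (n + 1) (ep - r • e)) ∨ (z ∈ Mm ∧ C.Cob {z} (n + 1) (em - r • e)) :=
    ⟨_, rfl⟩
  have fa : ∀ z ∈ A, ∃ r, Cls z r := by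
    intro z hz
    have hzZ := hAZ z hz
    rw [hCls]
    have hz2 := hzZ.1
    rw [← uM] at hz2
    rcases hz2 with h | h
    · obtain ⟨r, hr'⟩ := hrank z hzZ.1 hzZ.2 ep (hep.mono (singleton_subset_iff.2 h))
      exact ⟨r, Or.inl ⟨h, hr'⟩⟩
    · obtain ⟨r, hr'⟩ := hrank z hzZ.1 hzZ.2 em (hem.mono (singleton_subset_iff.2 h))
      exact ⟨r, Or.inr ⟨h, hr'⟩⟩
  have fb0 : ∀ z ∈ A, z ∈ Mp → z ∈ Mm → ∀ r r' : ℚ, C.Cob {z} (n + 1) (ep - r • e) →
      C.Cob {z} (n + 1) (em - r' • e) → ∃ m : ℤ, r - r' = m := by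
    intro z hz hzp hzm r r' h h'
    have h1 : C.Cob {z} (n + 1) (k₀ - (r - r') • e) := by
      have := h.sub h'
      convert this using 1
      rw [hk₀e, sub_smul]; abel
    have hz0 : z ∈ Mp ∩ Mm := ⟨hzp, hzm⟩
    rw [← uO] at hz0
    rcases hz0 with h2 | h2
    · have h3 := hk₀p.mono (singleton_subset_iff.2 h2)
      have h4 : r - r' = 1 := coef_unique hr (hAZ z hz).2 h1 (s := 1) (by
        rw [one_smul]; exact h3)
      exact ⟨1, by rw [h4]; norm_num⟩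
    · have h3 := hk₀m.mono (singleton_subset_iff.2 h2)
      have h4 : r - r' = 0 := coef_unique hr (hAZ z hz).2 h1 (s := 0) (by
        rw [zero_smul, sub_zero]; exact h3)
      exact ⟨0, by rw [h4]; norm_num⟩
  have fb : ∀ z ∈ A, ∀ r r', Cls z r → Cls z r' → ∃ m : ℤ, r - r' = m := by
    intro z hz r r' h h'
    rw [hCls] at h h'
    rcases h with ⟨h1, h2⟩ | ⟨h1, h2⟩ <;> rcases h' with ⟨h3, h4⟩ | ⟨h3, h4⟩
    · exact ⟨0, by rw [coef_unique hr (hAZ z hz).2 h2 h4]; simp⟩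
    · exact fb0 z hz h1 h3 r r' h2 h4
    · obtain ⟨m, hm⟩ := fb0 z hz h3 h1 r' r h4 h2
      refine ⟨-m, ?_⟩
      push_cast
      linarith
    · exact ⟨0, by rw [coef_unique hr (hAZ z hz).2 h2 h4]; simp⟩
  have fc : ∀ z ∈ A, ∀ r, Cls z r → ∀ᶠ z' in 𝓝 z, z' ∈ A → ∀ r', Cls z' r' →
      ∃ m : ℤ, r' - r = m := by
    intro z hz r hzr
    have hzZ := hAZ z hz
    -- generic statement for one of the two halves
    have half : ∀ (M : Set Y) (k : K), IsClosed M → C.Coc M (n + 1) k →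
        (∀ r : ℚ, z ∈ M → C.Cob {z} (n + 1) (k - r • e) → Cls z r) →
        ∀ᶠ z' in 𝓝 z, z' ∈ A → z' ∈ M → ∀ r' : ℚ, C.Cob {z'} (n + 1) (k - r' • e) →
          ∃ m : ℤ, r' - r = m := by
      intro M k hM hk hkc
      by_cases hzM : z ∈ M
      · obtain ⟨ρ, hρ⟩ := hrank z hzZ.1 hzZ.2 k (hk.mono (singleton_subset_iff.2 hzM))
        obtain ⟨U, hU, hzU, hUc⟩ := hρ.isOpen
        filter_upwards [hU.mem_nhds (hzU rfl)] with z' hz' hzA' _ r' hr'
        have e1 : r' = ρ := coef_unique hr (hAZ z' hzA').2 hr'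
          (hUc.mono (singleton_subset_iff.2 hz'))
        rw [e1]
        exact fb z hz ρ r (hkc ρ hzM hρ) hzr
      · filter_upwards [hM.isOpen_compl.mem_nhds hzM] with z' hz' _ hzM' r' _
        exact absurd hzM' hz'
    have h1 := half Mp ep cMp.isClosed hep (fun r h h' => by rw [hCls]; exact Or.inl ⟨h, h'⟩)
    have h2 := half Mm em cMm.isClosed hem (fun r h h' => by rw [hCls]; exact Or.inr ⟨h, h'⟩)
    filter_upwards [h1, h2] with z' a1 a2 hzA' r' hr'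
    rw [hCls] at hr'
    rcases hr' with ⟨b1, b2⟩ | ⟨b1, b2⟩
    · exact a1 hzA' b1 r' b2
    · exact a2 hzA' b1 r' b2
  -- nonempty
  obtain ⟨z₁, hz₁⟩ : A.Nonempty := by
    rw [Set.nonempty_iff_ne_empty]
    intro hemp
    apply hne
    refine cob_of_pointwise n hZ hp fun z hz => ?_
    by_contra hcon
    have : z ∈ A := by rw [hA]; exact ⟨hz, hcon⟩
    rw [hemp] at this
    exact this
  have hτA : ∀ z ∈ A, τ z ∈ A := by
    intro z hz
    rw [hA]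
    refine ⟨hτ z (hAZ z hz).1, fun hcon => (hAZ z hz).2 ?_⟩
    have h1 : C.Cob {z} (n + 1) (T e) := hT.cob hcon (by
      intro w hw
      rw [mem_singleton_iff.1 hw]; rfl)
    have h2 := (hTe.mono (singleton_subset_iff.2 (hAZ z hz).1)).sub h1
    simpa using h2
  obtain ⟨z₀, hz₀, hz₀m⟩ : ∃ z₀ ∈ A, z₀ ∈ Mm := by
    have h := (hAZ z₁ hz₁).1
    rw [← uM] at h
    rcases h with h | h
    · exact ⟨τ z₁, hτA z₁ hz₁, tpm z₁ h⟩
    · exact ⟨z₁, hz₁, h⟩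
  obtain ⟨q, hq⟩ := hrank z₀ (hAZ z₀ hz₀).1 (hAZ z₀ hz₀).2 em
    (hem.mono (singleton_subset_iff.2 hz₀m))
  have hqC : Cls z₀ q := by rw [hCls]; exact Or.inr ⟨hz₀m, hq⟩
  obtain ⟨A₁, hA₁⟩ : ∃ A₁ : Set Y, A₁ = {z | z ∈ A ∧ ∃ r, Cls z r ∧ ∃ m : ℤ, r - q = m} := ⟨_, rfl⟩
  have hA₁A : A₁ ⊆ A := by rw [hA₁]; exact fun z hz => hz.1
  have hA₁c : IsClosed A₁ := by
    refine isClosed_of_closure_subset fun z hz => ?_
    have hzA : z ∈ A := (hAc.closure_subset_iff.2 hA₁A) hz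
    obtain ⟨r, hr'⟩ := fa z hzA
    obtain ⟨z', h1, h2⟩ := (mem_closure_iff_frequently.1 hz).and_eventually (fc z hzA r hr') |>.exists
    rw [hA₁] at h1 ⊢
    obtain ⟨h3, r', h4, m, hm⟩ := h1
    obtain ⟨m', hm'⟩ := h2 h3 r' h4
    refine ⟨hzA, r, hr', m - m', ?_⟩
    push_cast
    linarith
  have hA₂c : IsClosed (A \ A₁) := by
    refine isClosed_of_closure_subset fun z hz => ?_
    have hzA : z ∈ A := (hAc.closure_subset_iff.2 sdiff_subset) hz
    refine ⟨hzA, fun hz1 => ?_⟩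
    have hz1' := hz1
    rw [hA₁] at hz1
    obtain ⟨-, r, hr', m, hm⟩ := hz1
    obtain ⟨z', h1, h2⟩ := (mem_closure_iff_frequently.1 hz).and_eventually (fc z hzA r hr') |>.exists
    apply h1.2
    rw [hA₁]
    obtain ⟨r', h4⟩ := fa z' h1.1
    obtain ⟨m', hm'⟩ := h2 h1.1 r' h4
    refine ⟨h1.1, r', h4, m' + m, ?_⟩
    push_cast
    linarith
  have hz₀₁ : z₀ ∈ A₁ := by
    rw [hA₁]
    exact ⟨hz₀, q, hqC, 0, by simp⟩
  have hτz₀ : τ z₀ ∈ A₁ := by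
    by_contra hcon
    refine supp_indec hr hZ hp he huniq hA₁c hA₂c disjoint_sdiff_right ?_ ⟨z₀, hz₀₁⟩
      ⟨τ z₀, hτA z₀ hz₀, hcon⟩
    rw [← hA, union_sdiff_cancel hA₁A]
  rw [hA₁] at hτz₀
  obtain ⟨-, r, hr', m, hm⟩ := hτz₀
  -- the coefficient of `ep` at `τ z₀`
  have hτp : τ z₀ ∈ Mp := tmp z₀ hz₀m
  obtain ⟨ρ, hρ⟩ := hrank (τ z₀) (hAZ _ (hτA z₀ hz₀)).1 (hAZ _ (hτA z₀ hz₀)).2 ep
    (hep.mono (singleton_subset_iff.2 hτp))
  obtain ⟨m', hm'⟩ := fb (τ z₀) (hτA z₀ hz₀) ρ r (by rw [hCls]; exact Or.inl ⟨hτp, hρ⟩) hr'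
  have h1 : C.Cob {z₀} (n + 1) (T (ep - ρ • e)) := hT.cob hρ (by
    intro w hw
    rw [mem_singleton_iff.1 hw]; rfl)
  have h2 := hQ.mono (singleton_subset_iff.2 hz₀m)
  have h3 := hTe.mono (singleton_subset_iff.2 (hAZ z₀ hz₀).1)
  have h4 : C.Cob {z₀} (n + 1) (em - (lam + ρ) • e) := by
    have := (h2.sub h1).sub (hr.cob ρ h3)
    convert this using 1
    rw [map_sub, map_smul]
    module
  have h5 := coef_unique hr (hAZ z₀ hz₀).2 hq h4
  rw [hlam2] at h5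
  have h6 : ((2 * (m' + m) : ℤ) : ℚ) = 1 := by
    push_cast
    linarith
  have h7 : (2 * (m' + m) : ℤ) = 1 := by exact_mod_cast h6
  omega

end Pool.Agent.H15.Lev
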