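import Pool.Agent.H15.Lev.T6loc

/-! The orientation argument: an odd continuous kernel vector on the support of the degree. -/

set_option autoImplicit false

namespace Pool.Agent.H15.Lev

open Matrix Set Topology Filter

/-- **Orientation.** -/
theorem orient_alg (S : Fin 7 → Matrix (Fin 5) (Fin 5) ℂ) (hS : ∀ j, (S j).transpose = S j)
    (A : Set (E 7)) (hA1 : ∀ w ∈ A, ‖w‖ = 1) (hAneg : ∀ w ∈ A, -w ∈ A)
    (dg : E 7 → (Fin 6 → Fin 5 → ℂ) → ℚ) (hdg : DegData S A dg)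
    (hcork : ∀ w ∈ A, (Sw S w).det = 0 ∧ (Sw S w).adjugate ≠ 0) (_hAc : IsClosed A) :
    (∃ κ : E 7 → (Fin 5 → ℂ), ContinuousOn κ A ∧ (∀ w ∈ A, κ (-w) = - κ w) ∧
      ∀ w ∈ A, κ w ≠ 0 ∧ (Sw S w).mulVec (κ w) = 0) ∧
    IsClosed ({w | ‖w‖ = 1 ∧ (Sw S w).det = 0} \ A) := by
  classical
  have hcrk : ∀ w ∈ A, crk (Sw S w) = 1 := fun w hw => crk_one_of_adj (hcork w hw).1 (hcork w hw).2
  constructor
  · -- the choice of the sign
    have hex : ∀ w ∈ A, ∃ κ, KP (Sw S w) κ ∧ 0 < ep S dg w κ := by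
      intro w hw
      obtain ⟨κ, hκ⟩ := exists_KP (SwT_symm hS w) (hcrk w hw)
      have h1 := (ep_supp hdg (hA1 w hw) (SwT_symm hS w) (hcrk w hw) hκ).1 hw
      rcases lt_or_gt_of_ne h1 with h2 | h2
      · refine ⟨-κ, hκ.neg, ?_⟩
        rw [ep_neg hdg (hA1 w hw) (SwT_symm hS w) (hcrk w hw) hκ]
        linarith
      · exact ⟨κ, hκ, h2⟩
    obtain ⟨κ, hκ⟩ : ∃ κ : E 7 → Fin 5 → ℂ, ∀ w ∈ A, KP (Sw S w) (κ w) ∧ 0 < ep S dg w (κ w) := by
      refine ⟨fun w => if h : w ∈ A then (hex w h).choose else 0, fun w hw => ?_⟩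
      simp only [dif_pos hw]
      exact (hex w hw).choose_spec
    have huniq : ∀ w ∈ A, ∀ κ', KP (Sw S w) κ' → 0 < ep S dg w κ' → κ' = κ w := by
      intro w hw κ' h1 h2
      rcases (hκ w hw).1.unique h1 with h3 | h3
      · exact h3
      · exfalso
        rw [h3, ep_neg hdg (hA1 w hw) (SwT_symm hS w) (hcrk w hw) (hκ w hw).1] at h2
        have := (hκ w hw).2
        linarith
    refine ⟨κ, ?_, ?_, fun w hw => ⟨(hκ w hw).1.1, (hκ w hw).1.2.1⟩⟩
    · intro w₀ hw₀
      refine tendsto_of_subseq_tendsto fun ns hns => ?_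
      rw [nhdsWithin, tendsto_inf] at hns
      obtain ⟨N, hN⟩ := eventually_atTop.1 (tendsto_principal.1 hns.2)
      have hmem : ∀ n, ns (n + N) ∈ A := fun n => hN _ (Nat.le_add_left _ _)
      have hlim : Tendsto (fun n => ns (n + N)) atTop (𝓝 w₀) :=
        hns.1.comp (tendsto_add_atTop_nat N)
      obtain ⟨φ, κ₀, hφ, hKP, hκl, hev⟩ := ep_local hS hdg (w := fun n => ns (n + N))
        (fun n => hA1 _ (hmem n)) (hA1 _ hw₀) hlim (fun n => hcrk _ (hmem n)) (hcrk _ hw₀)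
        (κ := fun n => κ (ns (n + N))) (fun n => (hκ _ (hmem n)).1)
      have h1 : κ₀ = κ w₀ := by
        apply huniq w₀ hw₀ κ₀ hKP
        obtain ⟨n, hn⟩ := hev.exists
        rw [← hn]
        exact (hκ _ (hmem _)).2
      refine ⟨fun n => φ n + N, ?_⟩
      rw [← h1]
      exact hκl
    · intro w hw
      have hm := hAneg w hw
      have hKm : KP (Sw S (-w)) (κ w) := by rw [SwT_neg]; exact (hκ w hw).1.neg_mat
      rcases hKm.unique (hκ (-w) hm).1 with h3 | h3
      · exfalso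
        have h1 := ep_symm hdg (hA1 w hw) (SwT_symm hS w) (SwT_symm hS (-w)) (hcrk w hw)
          (hcrk (-w) hm) (hκ w hw).1
        have h2 := (hκ (-w) hm).2
        rw [h3, h1] at h2
        have := (hκ w hw).2
        linarith
      · exact h3
  · apply IsSeqClosed.isClosed
    intro w w₀ hw hlim
    have hwd : ∀ n, (Sw S (w n)).det = 0 := by
      intro n
      obtain ⟨⟨-, h5⟩, -⟩ := hw n
      exact h5
    have hR : Tendsto (fun n => Sw S (w n)) atTop (𝓝 (Sw S w₀)) := by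
      have e1 := ((SwT_cont S).tendsto w₀).comp hlim
      exact e1
    have hn₀ : ‖w₀‖ = 1 := by
      have e1 : Tendsto (fun n => ‖w n‖) atTop (𝓝 ‖w₀‖) := by
        have e2 := (continuous_norm.tendsto w₀).comp hlim
        exact e2
      have e3 : Tendsto (fun n => ‖w n‖) atTop (𝓝 1) :=
        tendsto_const_nhds.congr fun n => (hw n).1.1.symm
      exact tendsto_nhds_unique e1 e3
    have hd₀ : (Sw S w₀).det = 0 := by
      have hdc : Continuous fun R : Matrix (Fin 5) (Fin 5) ℂ => R.det :=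
        Continuous.matrix_det continuous_id
      have e2 := (hdc.tendsto (Sw S w₀)).comp hR
      have e3 : ((fun R : Matrix (Fin 5) (Fin 5) ℂ => R.det) ∘ fun n => Sw S (w n)) =
          fun _ => (0 : ℂ) := by
        funext n
        rw [Function.comp_apply, hwd n]
      rw [e3] at e2
      exact tendsto_nhds_unique e2 tendsto_const_nhds
    refine ⟨⟨hn₀, hd₀⟩, fun hA₀ => ?_⟩
    have hadj₀ := (hcork w₀ hA₀).2
    have hadjc : Continuous fun R : Matrix (Fin 5) (Fin 5) ℂ => R.adjugate :=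
      Continuous.matrix_adjugate continuous_id
    have hadj : Tendsto (fun n => (Sw S (w n)).adjugate) atTop (𝓝 (Sw S w₀).adjugate) := by
      have e1 := (hadjc.tendsto (Sw S w₀)).comp hR
      exact e1
    obtain ⟨N, hN⟩ := eventually_atTop.1 (hadj.eventually_ne hadj₀)
    have hc : ∀ n, crk (Sw S (w (n + N))) = 1 := fun n =>
      crk_one_of_adj (hwd (n + N)) (hN _ (Nat.le_add_left _ _))
    have hKex : ∀ n, ∃ κ, KP (Sw S (w (n + N))) κ := fun n => exists_KP (SwT_symm hS _) (hc n)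
    choose κ hκ using hKex
    have hlim' : Tendsto (fun n => w (n + N)) atTop (𝓝 w₀) := hlim.comp (tendsto_add_atTop_nat N)
    obtain ⟨φ, κ₀, hφ, hKP, hκl, hev⟩ := ep_local hS hdg (w := fun n => w (n + N))
      (fun n => (hw _).1.1) hn₀ hlim' hc (hcrk _ hA₀) hκ
    obtain ⟨n, hn⟩ := hev.exists
    have h1 := (ep_supp hdg hn₀ (SwT_symm hS w₀) (hcrk _ hA₀) hKP).1 hA₀
    rw [← hn] at h1
    exact (hw _).2 ((ep_supp hdg (hw (φ n + N)).1.1 (SwT_symm hS _) (hc (φ n)) (hκ (φ n))).2 h1)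

end Pool.Agent.H15.Lev
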