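import Pool.Agent.H15.Lev.T6fr

/-! The orientation argument. -/

set_option autoImplicit false

namespace Pool.Agent.H15.Lev

open Matrix Set Topology Filter

/-- normalised kernel vectors -/
def KP (R : Matrix (Fin 5) (Fin 5) ℂ) (κ : Fin 5 → ℂ) : Prop :=
  κ ≠ 0 ∧ R.mulVec κ = 0 ∧ R.adjugate = fun i j => κ i * κ j

theorem exists_KP {R : Matrix (Fin 5) (Fin 5) ℂ} (hR : R.transpose = R) (h : crk R = 1) :
    ∃ κ, KP R κ := by
  obtain ⟨hd, ha⟩ := adj_of_crk_one hR h
  obtain ⟨κ₀, hκ0, hκ⟩ := finrank_eq_one_iff'.1 h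
  have hκ1 : R.mulVec κ₀.1 = 0 := by
    have := κ₀.2
    rwa [LinearMap.mem_ker, Matrix.mulVecLin_apply] at this
  have hcol : ∀ j, ∃ c : ℂ, ∀ i, R.adjugate i j = c * κ₀.1 i := by
    intro j
    have h1 : R.mulVec (fun i => R.adjugate i j) = 0 := by
      funext i
      have h2 := congrFun (congrFun (Matrix.mul_adjugate R) i) j
      rw [hd, zero_smul, Matrix.mul_apply] at h2
      exact h2
    obtain ⟨c, hc⟩ := hκ ⟨fun i => R.adjugate i j, by
      rw [LinearMap.mem_ker, Matrix.mulVecLin_apply]; exact h1⟩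
    refine ⟨c, fun i => ?_⟩
    have h3 : c • κ₀.1 = fun i => R.adjugate i j := congrArg Subtype.val hc
    exact (congrFun h3 i).symm
  choose c hc using hcol
  have hsym : ∀ i j, R.adjugate i j = R.adjugate j i := by
    intro i j
    have h1 : R.adjugate.transpose = R.adjugate := by rw [Matrix.adjugate_transpose, hR]
    exact (congrFun (congrFun h1 j) i).symm.symm ▸ (congrFun (congrFun h1 j) i)
  obtain ⟨i0, hi0⟩ : ∃ i, κ₀.1 i ≠ 0 := by
    by_contra hcon
    push Not at hcon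
    exact hκ0 (Subtype.ext (funext hcon))
  obtain ⟨d, hdd⟩ : ∃ d, d = c i0 / κ₀.1 i0 := ⟨_, rfl⟩
  have hcd : ∀ j, c j = d * κ₀.1 j := by
    intro j
    have h1 : c j * κ₀.1 i0 = c i0 * κ₀.1 j := by rw [← hc, ← hc, hsym]
    rw [hdd, div_mul_eq_mul_div, eq_div_iff hi0, h1]
  have hd0 : d ≠ 0 := by
    intro h0
    apply ha
    ext i j
    rw [hc, hcd, h0]
    simp
  obtain ⟨s, hs⟩ := IsAlgClosed.exists_pow_nat_eq d (n := 2) (by norm_num)
  have hs0 : s ≠ 0 := by
    rintro rfl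
    apply hd0
    rw [← hs]
    norm_num
  refine ⟨s • κ₀.1, ?_, ?_, ?_⟩
  · exact smul_ne_zero hs0 fun h => hκ0 (Subtype.ext h)
  · rw [Matrix.mulVec_smul, hκ1, smul_zero]
  · ext i j
    rw [hc, hcd, ← hs, Pi.smul_apply, Pi.smul_apply, smul_eq_mul, smul_eq_mul]
    ring

theorem KP.unique {R : Matrix (Fin 5) (Fin 5) ℂ} {κ κ' : Fin 5 → ℂ} (h : KP R κ) (h' : KP R κ') :
    κ' = κ ∨ κ' = -κ := by
  have h1 : ∀ i j, κ i * κ j = κ' i * κ' j := by
    intro i j
    exact congrFun (congrFun (h.2.2.symm.trans h'.2.2) i) j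
  obtain ⟨i0, hi0⟩ : ∃ i, κ i ≠ 0 := by
    by_contra hcon
    push Not at hcon
    exact h.1 (funext hcon)
  rcases mul_self_eq_mul_self_iff.1 (h1 i0 i0) with h2 | h2
  · left
    funext i
    have h3 := h1 i i0
    rw [h2] at h3 hi0
    exact (mul_right_cancel₀ hi0 h3).symm
  · right
    funext i
    have h3 := h1 i i0
    have h4 : κ' i0 = - κ i0 := by rw [h2, neg_neg]
    rw [h4, mul_neg, ← neg_mul] at h3
    show κ' i = - κ i
    rw [mul_right_cancel₀ hi0 h3, neg_neg]

theorem KP.neg {R : Matrix (Fin 5) (Fin 5) ℂ} {κ : Fin 5 → ℂ} (h : KP R κ) : KP R (-κ) := by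
  refine ⟨neg_ne_zero.2 h.1, by rw [Matrix.mulVec_neg, h.2.1, neg_zero], ?_⟩
  rw [h.2.2]
  funext i j
  simp

/-- kernel vectors are multiples -/
theorem KP.span {R : Matrix (Fin 5) (Fin 5) ℂ} (hc : crk R = 1) {κ : Fin 5 → ℂ} (h : KP R κ)
    {u : Fin 5 → ℂ} (hu : R.mulVec u = 0) : ∃ z : ℂ, u = z • κ := by
  obtain ⟨κ₀, hκ0, hκ⟩ := finrank_eq_one_iff'.1 hc
  obtain ⟨c, hc⟩ := hκ ⟨u, by rw [LinearMap.mem_ker, Matrix.mulVecLin_apply]; exact hu⟩
  obtain ⟨d, hd⟩ := hκ ⟨κ, by rw [LinearMap.mem_ker, Matrix.mulVecLin_apply]; exact h.2.1⟩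
  have hc' : c • κ₀.1 = u := congrArg Subtype.val hc
  have hd' : d • κ₀.1 = κ := congrArg Subtype.val hd
  have hd0 : d ≠ 0 := by
    rintro rfl
    apply h.1
    rw [← hd', zero_smul]
  refine ⟨c / d, ?_⟩
  rw [← hc', ← hd', smul_smul, div_mul_cancel₀ _ hd0]

theorem KP.neg_mat {R : Matrix (Fin 5) (Fin 5) ℂ} {κ : Fin 5 → ℂ} (h : KP R κ) : KP (-R) κ := by
  refine ⟨h.1, by rw [Matrix.neg_mulVec, h.2.1, neg_zero], ?_⟩
  have h1 : -R = (-1 : ℂ) • R := by rw [neg_one_smul]
  rw [h1, Matrix.adjugate_smul, ← h.2.2, Fintype.card_fin]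
  norm_num

theorem qf_eig {R : Matrix (Fin 5) (Fin 5) ℂ} {v : Fin 5 → ℂ} {lam : ℝ}
    (h1 : ∑ k, (v k * (starRingEnd ℂ) (v k)).re = 1)
    (h2 : R.mulVec v = fun k => ((lam : ℝ) : ℂ) * (starRingEnd ℂ) (v k)) : qf R v = lam := by
  unfold qf
  rw [h2, dotProduct, Complex.re_sum]
  have h3 : ∀ k, (v k * (((lam : ℝ) : ℂ) * (starRingEnd ℂ) (v k))).re =
      lam * (v k * (starRingEnd ℂ) (v k)).re := by
    intro k
    have e : v k * (((lam : ℝ) : ℂ) * (starRingEnd ℂ) (v k)) =
        ((lam : ℝ) : ℂ) * (v k * (starRingEnd ℂ) (v k)) := by ring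
    rw [e, Complex.re_ofReal_mul]
  simp only [h3]
  rw [← Finset.mul_sum, h1, mul_one]

/-- the full eigenbasis at a point of corank one, with the comparison of frames. -/
theorem full_basis {R : Matrix (Fin 5) (Fin 5) ℂ} (hR : R.transpose = R) (hc : crk R = 1)
    {κ : Fin 5 → ℂ} (hκ : KP R κ) :
    ∃ (v : Fin 10 → Fin 5 → ℂ) (lam : Fin 10 → ℝ),
      (∀ a b, ∑ k, (v a k * (starRingEnd ℂ) (v b k)).re = if a = b then 1 else 0) ∧
      (∀ x : Fin 10 → ℝ, qf R (fun k => ∑ a, ((x a : ℝ) : ℂ) * v a k) = ∑ a, lam a * (x a) ^ 2) ∧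
      Antitone lam ∧ (∀ a : Fin 10, a.val < 6 → 0 ≤ lam a) ∧ (∀ a : Fin 10, 6 ≤ a.val → lam a < 0) ∧
      EFr R (fun a => v (Fin.castLE (by norm_num) a)) ∧
      (∀ u, EFr R u → ∃ Y : Matrix (Fin 4) (Fin 4) ℝ, ∀ a,
        u a = fun k => ∑ b, ((Y b a : ℝ) : ℂ) * v (Fin.castLE (by norm_num) b) k) ∧
      ∃ Z : Matrix (Fin 2) (Fin 2) ℝ, Z.det ≠ 0 ∧
        (fun j : Fin 6 => v (Fin.castLE (by norm_num) j)) =
          mulL (blk 1 Z) (FR (fun a => v (Fin.castLE (by norm_num) a)) κ) := by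
  obtain ⟨v, lam, h1, h2, h3, h4, h5, -, h6, h7, h8⟩ := spec_vec hR
  rw [hc] at h6 h7 h8
  have hTF : EFr R (fun a : Fin 4 => v (Fin.castLE (by norm_num) a)) := by
    have hq : ∀ a, qf R (v a) = lam a := fun a => qf_eig (by rw [h1]; simp) (h4 a)
    refine ⟨fun a b => ?_, fun a => ?_, fun a => ?_⟩
    · rw [h1]
      by_cases hab : a = b
      · rw [if_pos hab, if_pos (by rw [hab])]
      · rw [if_neg hab, if_neg (fun h => hab (Fin.castLE_injective _ h))]
    · rw [hq]
      exact h6 _ (by simp)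
    · rw [hq]
      exact h4 _
  refine ⟨v, lam, h1, h2, h5, ?_, fun a ha => h8 a (by omega), hTF, ?_, ?_⟩
  · intro a ha
    rcases Nat.lt_or_ge a.val 4 with h | h
    · exact (h6 a (by omega)).le
    · exact (h7 a (by omega) (by omega)).ge
  · intro u hu
    have key : ∀ a, ∃ y : Fin 4 → ℝ, u a = fun k => ∑ b, ((y b : ℝ) : ℂ) *
        v (Fin.castLE (by norm_num) b) k := by
      intro a
      obtain ⟨x, hx⟩ := h3 (u a)
      have hx0 : ∀ b, x b * (lam b - qf R (u a)) = 0 := by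
        intro b
        have e1 : R.mulVec (u a) = fun k => ∑ j, ((x j * lam j : ℝ) : ℂ) *
            (starRingEnd ℂ) (v j k) := by
          have e2 : u a = ∑ j, ((x j : ℝ) : ℂ) • v j := by
            rw [hx]
            funext k
            simp [Finset.sum_apply]
          rw [e2, Matrix.mulVec_sum]
          funext k
          rw [Finset.sum_apply]
          refine Finset.sum_congr rfl fun j _ => ?_
          rw [Matrix.mulVec_smul, h4 j]
          simp only [Pi.smul_apply, smul_eq_mul]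
          push_cast
          ring
        have e3 : ∀ k, ∑ j, ((x j * lam j : ℝ) : ℂ) * (starRingEnd ℂ) (v j k) =
            ∑ j, ((x j * qf R (u a) : ℝ) : ℂ) * (starRingEnd ℂ) (v j k) := by
          intro k
          have e4 := congrFun (e1.symm.trans (hu.2.2 a)) k
          rw [e4]
          conv_lhs => rw [hx]
          rw [map_sum, Finset.mul_sum]
          refine Finset.sum_congr rfl fun j _ => ?_
          rw [map_mul, Complex.conj_ofReal, ← hx]
          push_cast
          ring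
        have e5 : ∀ y : Fin 10 → ℝ, (∑ k, v b k * ∑ j, ((y j : ℝ) : ℂ) *
            (starRingEnd ℂ) (v j k)).re = y b := by
          intro y
          have e6 : ∀ k, v b k * ∑ j, ((y j : ℝ) : ℂ) * (starRingEnd ℂ) (v j k) =
              ∑ j, ((y j : ℝ) : ℂ) * (v b k * (starRingEnd ℂ) (v j k)) := by
            intro k
            rw [Finset.mul_sum]
            refine Finset.sum_congr rfl fun j _ => ?_
            ring
          simp only [e6]
          rw [Finset.sum_comm, Complex.re_sum]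
          have e7 : ∀ j, (∑ k, ((y j : ℝ) : ℂ) * (v b k * (starRingEnd ℂ) (v j k))).re =
              y j * if b = j then 1 else 0 := by
            intro j
            rw [← h1 b j, ← Finset.mul_sum, Complex.re_ofReal_mul, Complex.re_sum]
          simp only [e7]
          simp
        have e8 : x b * lam b = x b * qf R (u a) := by
          rw [← e5 (fun j => x j * lam j), ← e5 (fun j => x j * qf R (u a))]
          simp only [e3]
        linarith
      refine ⟨fun b => x (Fin.castLE (by norm_num) b), ?_⟩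
      rw [hx]
      funext k
      have e9 : ∀ j : Fin (4 + 6), 4 ≤ j.val → x j = 0 := by
        intro j hj
        have h10 : lam j ≤ 0 := by
          rcases Nat.lt_or_ge j.val 6 with h | h
          · exact (h7 j (by omega) (by omega)).le
          · exact (h8 j (by omega)).le
        have h11 := hu.2.1 a
        rcases mul_eq_zero.1 (hx0 j) with h12 | h12
        · exact h12
        · exfalso; linarith
      have e10 := Fin.sum_univ_add (a := 4) (b := 6) (fun j : Fin (4 + 6) =>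
        ((x j : ℝ) : ℂ) * v j k)
      refine Eq.trans e10 ?_
      have e11 : ∑ i : Fin 6, ((x (Fin.natAdd 4 i : Fin (4 + 6)) : ℝ) : ℂ) *
          v (Fin.natAdd 4 i : Fin (4 + 6)) k = 0 := by
        refine Finset.sum_eq_zero fun i _ => ?_
        rw [e9 (Fin.natAdd 4 i) (by simp)]
        simp
      rw [e11, add_zero]
      rfl
    choose y hy using key
    exact ⟨fun b a => y a b, hy⟩
  · have hk4 : R.mulVec (v 4) = 0 := by
      rw [h4, h7 4 (by decide) (by decide)]
      funext k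
      simp
    have hk5 : R.mulVec (v 5) = 0 := by
      rw [h4, h7 5 (by decide) (by decide)]
      funext k
      simp
    obtain ⟨z4, hz4⟩ := hκ.span hc hk4
    obtain ⟨z5, hz5⟩ := hκ.span hc hk5
    refine ⟨!![z4.re, z5.re; z4.im, z5.im], ?_, ?_⟩
    · rw [Matrix.det_fin_two_of]
      intro h0
      obtain ⟨n, hn⟩ : ∃ n : ℝ, n = ∑ k, Complex.normSq (κ k) := ⟨_, rfl⟩
      have g : ∀ z z' : ℂ, ∑ k, ((z • κ) k * (starRingEnd ℂ) ((z' • κ) k)).re =
          (z * (starRingEnd ℂ) z').re * n := by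
        intro z z'
        rw [hn, Finset.mul_sum]
        refine Finset.sum_congr rfl fun k _ => ?_
        rw [Pi.smul_apply, Pi.smul_apply, smul_eq_mul, smul_eq_mul, map_mul]
        have e : z * κ k * ((starRingEnd ℂ) z' * (starRingEnd ℂ) (κ k)) =
            (z * (starRingEnd ℂ) z') * ((Complex.normSq (κ k) : ℝ) : ℂ) := by
          rw [← Complex.mul_conj]; ring
        rw [e, Complex.re_mul_ofReal]
      have g44 := h1 4 4
      have g45 := h1 4 5
      have g55 := h1 5 5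
      rw [hz4, g] at g44
      rw [hz4, hz5, g] at g45
      rw [hz5, g] at g55
      simp only [if_true, Complex.mul_re, Complex.conj_re, Complex.conj_im] at g44 g55
      rw [if_neg (by decide)] at g45
      simp only [Complex.mul_re, Complex.conj_re, Complex.conj_im] at g45
      have hn0 : n ≠ 0 := by
        intro hn0
        rw [hn0, mul_zero] at g44
        exact zero_ne_one g44
      have g45' : z4.re * z5.re - z4.im * -z5.im = 0 := (mul_eq_zero.1 g45).resolve_right hn0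
      have hprod : (z4.re * z4.re - z4.im * -z4.im) * (z5.re * z5.re - z5.im * -z5.im) = 0 := by
        have : (z4.re * z4.re - z4.im * -z4.im) * (z5.re * z5.re - z5.im * -z5.im) =
          (z4.re * z5.re - z4.im * -z5.im) ^ 2 + (z4.re * z5.im - z5.re * z4.im) ^ 2 := by ring
        rw [this, g45', h0]; ring
      rcases mul_eq_zero.1 hprod with h | h
      · rw [h, zero_mul] at g44; exact zero_ne_one g44
      · rw [h, zero_mul] at g55; exact zero_ne_one g55
    · unfold FR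
      rw [mulL_blk]
      funext j
      refine Fin.addCases (m := 4) (n := 2) (fun a => ?_) (fun c => ?_) j
      · rw [Fin.append_left]
        funext k
        rw [Finset.sum_eq_single a]
        · rw [Matrix.one_apply_eq, Complex.ofReal_one, one_mul]
          rfl
        · intro b _ hb
          rw [Matrix.one_apply_ne hb]
          simp
        · intro h
          exact absurd (Finset.mem_univ a) h
      · rw [Fin.append_right]
        funext k
        rw [Fin.sum_univ_two]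
        have p0 : pp κ 0 k = κ k := rfl
        have p1 : pp κ 1 k = Complex.I * κ k := rfl
        rw [p0, p1]
        fin_cases c
        · have e0 : v (Fin.castLE (by norm_num) (Fin.natAdd 4 (0 : Fin 2) : Fin 6)) = v 4 := rfl
          refine (congrFun e0 k).trans ?_
          rw [hz4]
          show z4 * κ k = ((z4.re : ℝ) : ℂ) * κ k + ((z4.im : ℝ) : ℂ) * (Complex.I * κ k)
          conv_lhs => rw [← Complex.re_add_im z4]
          ring
        · have e0 : v (Fin.castLE (by norm_num) (Fin.natAdd 4 (1 : Fin 2) : Fin 6)) = v 5 := rfl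
          refine (congrFun e0 k).trans ?_
          rw [hz5]
          show z5 * κ k = ((z5.re : ℝ) : ℂ) * κ k + ((z5.im : ℝ) : ℂ) * (Complex.I * κ k)
          conv_lhs => rw [← Complex.re_add_im z5]
          ring

section eps

variable {S : Fin 7 → Matrix (Fin 5) (Fin 5) ℂ} {A : Set (E 7)}
    {dg : E 7 → (Fin 6 → Fin 5 → ℂ) → ℚ}

/-- signed degree of a frame -/
noncomputable def QQ (dg : E 7 → (Fin 6 → Fin 5 → ℂ) → ℚ) (w : E 7) (v : Fin 4 → Fin 5 → ℂ)
    (κ : Fin 5 → ℂ) : ℚ := sgq (MM v κ).det.re * dg w (FR v κ)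

theorem ofReal_det {n : ℕ} (Y : Matrix (Fin n) (Fin n) ℝ) :
    (Matrix.det (fun i j => ((Y i j : ℝ) : ℂ)) : ℂ) = ((Y.det : ℝ) : ℂ) := by
  have := Complex.ofRealHom.map_det Y
  exact this.symm

theorem QQ_eq (hdg : DegData S A dg) {w : E 7} (hw : ‖w‖ = 1)
    (hR : (Sw S w).transpose = Sw S w) {κ : Fin 5 → ℂ} (hκ : KP (Sw S w) κ)
    {V u : Fin 4 → Fin 5 → ℂ} (hV : EFr (Sw S w) V) (hu : EFr (Sw S w) u)
    (Y : Matrix (Fin 4) (Fin 4) ℝ) (hY : ∀ a, u a = fun k => ∑ b, ((Y b a : ℝ) : ℂ) * V b k) :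
    QQ dg w u κ = QQ dg w V κ := by
  have hG := FR_good hw hR hV hκ.1 hκ.2.1
  have r1 := MM_real hR hu hκ.2.1 hκ.2.2
  have r2 := MM_real hR hV hκ.2.1 hκ.2.2
  have hu' : u = fun a k => ∑ b, ((Y b a : ℝ) : ℂ) * V b k := funext hY
  have hdet : (MM u κ).det = ((Y.det : ℝ) : ℂ) * (MM V κ).det := by
    have := MM_det (fun i j => ((Y i j : ℝ) : ℂ)) 1 V κ
    rw [one_smul, mul_one, ofReal_det] at this
    rw [hu']
    exact this
  have hre : (MM u κ).det.re = Y.det * (MM V κ).det.re := by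
    rw [hdet, Complex.re_ofReal_mul]
  have hY0 : Y.det ≠ 0 := by
    intro h0
    rw [h0, zero_mul] at hre
    exact r1.1 hre
  have hFR : FR u κ = mulL (blk Y 1) (FR V κ) := by
    unfold FR
    rw [mulL_blk]
    congr 1
    funext c k
    rw [Finset.sum_eq_single c]
    · rw [Matrix.one_apply_eq, Complex.ofReal_one, one_mul]
    · intro b _ hb
      rw [Matrix.one_apply_ne hb]
      simp
    · intro h
      exact absurd (Finset.mem_univ c) h
  have hb : (blk Y 1).det = Y.det := by rw [blk_det, Matrix.det_one, mul_one]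
  unfold QQ
  rw [hre, hFR, dg_gl hdg (blk Y 1) (by rw [hb]; exact hY0) _ hG, hb, sgq_mul hY0 r2.1]
  have h1 := sgq_sq hY0
  calc sgq Y.det * sgq (MM V κ).det.re * (sgq Y.det * dg w (FR V κ)) =
        (sgq Y.det * sgq Y.det) * (sgq (MM V κ).det.re * dg w (FR V κ)) := by ring
    _ = _ := by rw [h1, one_mul]

open Classical in
/-- the invariant of a normalised kernel vector -/
noncomputable def ep (S : Fin 7 → Matrix (Fin 5) (Fin 5) ℂ) (dg : E 7 → (Fin 6 → Fin 5 → ℂ) → ℚ)
    (w : E 7) (κ : Fin 5 → ℂ) : ℚ :=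
  if h : ∃ v, EFr (Sw S w) v then QQ dg w h.choose κ else 0

theorem ep_eq (hdg : DegData S A dg) {w : E 7} (hw : ‖w‖ = 1)
    (hR : (Sw S w).transpose = Sw S w) (hc : crk (Sw S w) = 1) {κ : Fin 5 → ℂ}
    (hκ : KP (Sw S w) κ) {v : Fin 4 → Fin 5 → ℂ} (hv : EFr (Sw S w) v) :
    ep S dg w κ = QQ dg w v κ := by
  have h : ∃ v, EFr (Sw S w) v := ⟨v, hv⟩
  unfold ep
  rw [dif_pos h]
  obtain ⟨V, lam, -, -, -, -, -, hTF, hY, -⟩ := full_basis hR hc hκ
  obtain ⟨Y1, hY1⟩ := hY _ h.choose_spec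
  obtain ⟨Y2, hY2⟩ := hY _ hv
  rw [QQ_eq hdg hw hR hκ hTF h.choose_spec Y1 hY1, QQ_eq hdg hw hR hκ hTF hv Y2 hY2]

theorem mulL_blk_one (v : Fin 4 → Fin 5 → ℂ) (p : Fin 2 → Fin 5 → ℂ)
    (Z : Matrix (Fin 2) (Fin 2) ℝ) :
    mulL (blk 1 Z) (Fin.append v p : Fin (4 + 2) → Fin 5 → ℂ) =
      (Fin.append v (fun c k => ∑ d, ((Z d c : ℝ) : ℂ) * p d k) : Fin (4 + 2) → Fin 5 → ℂ) := by
  rw [mulL_blk]
  congr 1
  funext a k
  rw [Finset.sum_eq_single a]
  · rw [Matrix.one_apply_eq, Complex.ofReal_one, one_mul]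
  · intro b _ hb
    rw [Matrix.one_apply_ne hb]
    simp
  · intro h
    exact absurd (Finset.mem_univ a) h

theorem ep_neg (hdg : DegData S A dg) {w : E 7} (hw : ‖w‖ = 1)
    (hR : (Sw S w).transpose = Sw S w) (hc : crk (Sw S w) = 1) {κ : Fin 5 → ℂ}
    (hκ : KP (Sw S w) κ) : ep S dg w (-κ) = - ep S dg w κ := by
  obtain ⟨V, lam, -, -, -, -, -, hTF, -, -⟩ := full_basis hR hc hκ
  rw [ep_eq hdg hw hR hc hκ hTF, ep_eq hdg hw hR hc hκ.neg hTF]
  have r1 := MM_real hR hTF hκ.2.1 hκ.2.2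
  have hG := FR_good hw hR hTF hκ.1 hκ.2.1
  obtain ⟨v, hv⟩ : ∃ v : Fin 4 → Fin 5 → ℂ, v = fun a : Fin 4 => V (Fin.castLE (by norm_num) a) :=
    ⟨_, rfl⟩
  rw [← hv] at r1 hG ⊢
  have hdet : (MM v (-κ)).det = - (MM v κ).det := by
    have h1 := MM_det (1 : Matrix (Fin 4) (Fin 4) ℂ) (-1) v κ
    have h2 : (fun (a : Fin 4) k => ∑ b, (1 : Matrix (Fin 4) (Fin 4) ℂ) b a * v b k) = v := by
      funext a k
      rw [Finset.sum_eq_single a]
      · rw [Matrix.one_apply_eq, one_mul]
      · intro b _ hb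
        rw [Matrix.one_apply_ne hb, zero_mul]
      · intro h
        exact absurd (Finset.mem_univ a) h
    rw [h2, Matrix.det_one, one_mul, neg_one_mul, neg_one_smul] at h1
    exact h1
  have hFR : FR v (-κ) = mulL (blk 1 (-1)) (FR v κ) := by
    unfold FR
    rw [mulL_blk_one]
    congr 1
    funext c k
    rw [Finset.sum_eq_single c]
    · rw [Matrix.neg_apply, Matrix.one_apply_eq]
      fin_cases c
      · show (-κ) k = ((-1 : ℝ) : ℂ) * κ k
        simp
      · show (Complex.I • (-κ)) k = ((-1 : ℝ) : ℂ) * (Complex.I • κ) k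
        simp
    · intro b _ hb
      rw [Matrix.neg_apply, Matrix.one_apply_ne hb]
      simp
    · intro h
      exact absurd (Finset.mem_univ c) h
  have hb : (blk 1 (-1)).det = 1 := by
    rw [blk_det, Matrix.det_one, one_mul, Matrix.det_neg, Fintype.card_fin, Matrix.det_one]
    norm_num
  unfold QQ
  rw [hdet, hFR, dg_gl hdg _ (by rw [hb]; exact one_ne_zero) _ hG, hb, sgq_pos one_pos, one_mul,
    Complex.neg_re]
  have h3 : sgq (-(MM v κ).det.re) = - sgq (MM v κ).det.re := by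
    rcases lt_or_gt_of_ne r1.1 with h | h
    · rw [sgq_neg h, sgq_pos (by linarith)]; norm_num
    · rw [sgq_pos h, sgq_neg (by linarith)]
  rw [h3]
  ring

theorem SwT_neg (S : Fin 7 → Matrix (Fin 5) (Fin 5) ℂ) (w : E 7) : Sw S (-w) = - Sw S w := by
  unfold Sw
  rw [← Finset.sum_neg_distrib]
  refine Finset.sum_congr rfl fun j _ => ?_
  rw [← neg_smul]
  congr 1
  simp

theorem SwT_cont (S : Fin 7 → Matrix (Fin 5) (Fin 5) ℂ) : Continuous (Sw S) := by
  unfold Sw
  refine continuous_finsetSum _ fun j _ => ?_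
  have h : Continuous fun w : E 7 => w j := by fun_prop
  exact (Complex.continuous_ofReal.comp h).smul continuous_const

theorem SwT_symm {S : Fin 7 → Matrix (Fin 5) (Fin 5) ℂ} (hS : ∀ j, (S j).transpose = S j)
    (w : E 7) : (Sw S w).transpose = Sw S w := by
  unfold Sw
  rw [Matrix.transpose_sum]
  refine Finset.sum_congr rfl fun j _ => ?_
  rw [Matrix.transpose_smul, hS]

theorem ep_symm (hdg : DegData S A dg) {w : E 7} (hw : ‖w‖ = 1)
    (hR : (Sw S w).transpose = Sw S w) (hR' : (Sw S (-w)).transpose = Sw S (-w))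
    (hc : crk (Sw S w) = 1) (hc' : crk (Sw S (-w)) = 1) {κ : Fin 5 → ℂ}
    (hκ : KP (Sw S w) κ) : ep S dg (-w) κ = - ep S dg w κ := by
  obtain ⟨V, lam, -, -, -, -, -, hTF, -, -⟩ := full_basis hR hc hκ
  obtain ⟨v, hv⟩ : ∃ v : Fin 4 → Fin 5 → ℂ, v = fun a : Fin 4 => V (Fin.castLE (by norm_num) a) :=
    ⟨_, rfl⟩
  rw [← hv] at hTF
  have hw' : ‖-w‖ = 1 := by rw [norm_neg, hw]
  have hκ' : KP (Sw S (-w)) κ := by rw [SwT_neg]; exact hκ.neg_mat
  have hTF' : EFr (Sw S (-w)) (fun a => Complex.I • v a) := by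
    rw [SwT_neg]
    have hq : ∀ a, qf (-Sw S w) (Complex.I • v a) = qf (Sw S w) (v a) := by
      intro a
      rw [qf_I]
      unfold qf
      rw [Matrix.neg_mulVec, dotProduct_neg, Complex.neg_re, neg_neg]
    refine ⟨fun a b => ?_, fun a => ?_, fun a => ?_⟩
    · rw [← hTF.1 a b]
      refine Finset.sum_congr rfl fun k _ => ?_
      simp only [Pi.smul_apply, smul_eq_mul, map_mul, Complex.conj_I]
      have : Complex.I * v a k * (-Complex.I * (starRingEnd ℂ) (v b k)) =
          -(Complex.I * Complex.I) * (v a k * (starRingEnd ℂ) (v b k)) := by ring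
      rw [this, Complex.I_mul_I, neg_neg, one_mul]
    · rw [hq]
      exact hTF.2.1 a
    · rw [hq, Matrix.neg_mulVec, Matrix.mulVec_smul, hTF.2.2 a]
      funext k
      simp only [Pi.neg_apply, Pi.smul_apply, smul_eq_mul, map_mul, Complex.conj_I]
      ring
  rw [ep_eq hdg hw hR hc hκ hTF, ep_eq hdg hw' hR' hc' hκ' hTF']
  have hdet : (MM (fun a => Complex.I • v a) κ).det = (MM v κ).det := by
    have h1 := MM_det (Complex.I • (1 : Matrix (Fin 4) (Fin 4) ℂ)) 1 v κ
    have h2 : (fun (a : Fin 4) k => ∑ b, (Complex.I • (1 : Matrix (Fin 4) (Fin 4) ℂ)) b a *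
        v b k) = fun a => Complex.I • v a := by
      funext a k
      rw [Finset.sum_eq_single a]
      · rw [Matrix.smul_apply, Matrix.one_apply_eq, smul_eq_mul, mul_one]
        rfl
      · intro b _ hb
        rw [Matrix.smul_apply, Matrix.one_apply_ne hb, smul_zero, zero_mul]
      · intro h
        exact absurd (Finset.mem_univ a) h
    rw [h2, Matrix.det_smul, Matrix.det_one, Fintype.card_fin, one_smul, mul_one, mul_one,
      Complex.I_pow_four, one_mul] at h1
    exact h1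
  have hG' := FR_good hw' hR' hTF' hκ'.1 hκ'.2.1
  have hG := FR_good hw hR hTF hκ.1 hκ.2.1
  have hs := hdg.symm w _ hG
  have hFR : (fun j => Complex.I • FR v κ j) =
      mulL (blk 1 !![0, -1; 1, 0]) (FR (fun a => Complex.I • v a) κ) := by
    unfold FR
    rw [mulL_blk_one]
    funext j
    refine Fin.addCases (m := 4) (n := 2) (fun a => ?_) (fun c => ?_) j
    · have e1 : (Fin.append v (pp κ) : Fin (4 + 2) → Fin 5 → ℂ) (Fin.castAdd 2 a) = v a :=
        Fin.append_left _ _ _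
      refine (congrArg (fun x => Complex.I • x) e1).trans ?_
      exact (Fin.append_left (fun a => Complex.I • v a) _ a).symm
    · have e1 : (Fin.append v (pp κ) : Fin (4 + 2) → Fin 5 → ℂ) (Fin.natAdd 4 c) = pp κ c :=
        Fin.append_right _ _ _
      refine (congrArg (fun x => Complex.I • x) e1).trans ?_
      refine Eq.trans ?_ (Fin.append_right (fun a => Complex.I • v a)
        (fun c k => ∑ d, (((!![0, -1; 1, 0] : Matrix (Fin 2) (Fin 2) ℝ) d c : ℝ) : ℂ) *
          pp κ d k) c).symm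
      funext k
      rw [Fin.sum_univ_two]
      fin_cases c
      · show Complex.I * κ k = ((0 : ℝ) : ℂ) * κ k + ((1 : ℝ) : ℂ) * (Complex.I * κ k)
        simp
      · show Complex.I * (Complex.I * κ k) = ((-1 : ℝ) : ℂ) * κ k + ((0 : ℝ) : ℂ) *
          (Complex.I * κ k)
        rw [← mul_assoc, Complex.I_mul_I]
        simp
  have hb : (blk 1 !![0, -1; 1, 0]).det = 1 := by
    rw [blk_det, Matrix.det_one, one_mul, Matrix.det_fin_two_of]
    norm_num
  rw [hFR, dg_gl hdg _ (by rw [hb]; exact one_ne_zero) _ hG', hb, sgq_pos one_pos, one_mul] at hs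
  unfold QQ
  rw [hdet, hs]
  ring

theorem ep_supp (hdg : DegData S A dg) {w : E 7} (hw : ‖w‖ = 1)
    (hR : (Sw S w).transpose = Sw S w) (hc : crk (Sw S w) = 1) {κ : Fin 5 → ℂ}
    (hκ : KP (Sw S w) κ) : w ∈ A ↔ ep S dg w κ ≠ 0 := by
  obtain ⟨V, lam, h1, h2, h3, h4, h5, hTF, -, Z, hZ, hL⟩ := full_basis hR hc hκ
  rw [ep_eq hdg hw hR hc hκ hTF]
  have hE : Eig S w (fun j : Fin 6 => V (Fin.castLE (by norm_num) j)) :=
    ⟨V, lam, h1, h2, h3, h4, h5, fun j => rfl⟩
  rw [hdg.supp w _ hw hE, hL]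
  have hG := FR_good hw hR hTF hκ.1 hκ.2.1
  have hb : (blk 1 Z).det = Z.det := by rw [blk_det, Matrix.det_one, one_mul]
  rw [dg_gl hdg _ (by rw [hb]; exact hZ) _ hG]
  have hs : ∀ x : ℝ, sgq x ≠ 0 := by
    intro x
    unfold sgq
    split_ifs <;> norm_num
  unfold QQ
  rw [mul_ne_zero_iff, mul_ne_zero_iff]
  exact ⟨fun h => ⟨hs _, h.2⟩, fun h => ⟨hs _, h.2⟩⟩

end eps

end Pool.Agent.H15.Lev
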