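import Pool.Agent.H15.Lev.Setup

/-! The action of real invertible matrices on good frames. -/

set_option autoImplicit false

namespace Pool.Agent.H15.Lev

open Matrix Set Topology

/-- new frame `L X` -/
noncomputable def mulL (X : Matrix (Fin 6) (Fin 6) ℝ) (L : Fin 6 → Fin 5 → ℂ) :
    Fin 6 → Fin 5 → ℂ := fun j k => ∑ i, ((X i j : ℝ) : ℂ) * L i k

theorem Lin_mulL (X : Matrix (Fin 6) (Fin 6) ℝ) (L : Fin 6 → Fin 5 → ℂ) (u : Fin 6 → ℝ) :
    Lin (mulL X L) u = Lin L (X.mulVec u) := by
  funext k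
  unfold Lin mulL
  simp only [Matrix.mulVec, dotProduct, Complex.ofReal_sum, Complex.ofReal_mul, Finset.mul_sum,
    Finset.sum_mul]
  rw [Finset.sum_comm]
  refine Finset.sum_congr rfl fun i _ => Finset.sum_congr rfl fun j _ => ?_
  ring

theorem mulL_mul (X Y : Matrix (Fin 6) (Fin 6) ℝ) (L : Fin 6 → Fin 5 → ℂ) :
    mulL (X * Y) L = mulL Y (mulL X L) := by
  funext j k
  unfold mulL
  simp only [Matrix.mul_apply, Complex.ofReal_sum, Complex.ofReal_mul, Finset.mul_sum,
    Finset.sum_mul]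
  rw [Finset.sum_comm]
  refine Finset.sum_congr rfl fun i _ => Finset.sum_congr rfl fun j _ => ?_
  ring

theorem mulL_one (L : Fin 6 → Fin 5 → ℂ) : mulL 1 L = L := by
  funext j k
  unfold mulL
  rw [Finset.sum_eq_single j]
  · simp
  · intro i _ hi
    rw [Matrix.one_apply_ne hi]
    simp
  · intro h
    exact absurd (Finset.mem_univ _) h

theorem mulL_continuous (L : Fin 6 → Fin 5 → ℂ) : Continuous fun X => mulL X L := by
  unfold mulL
  refine continuous_pi fun j => continuous_pi fun k => continuous_finsetSum _ fun i _ => ?_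
  exact (Complex.continuous_ofReal.comp (continuous_id.matrix_elem i j)).mul continuous_const

theorem Good.mulL {S : Fin 7 → Matrix (Fin 5) (Fin 5) ℂ} {w : E 7} {L : Fin 6 → Fin 5 → ℂ}
    (h : Good S w L) {X : Matrix (Fin 6) (Fin 6) ℝ} (hX : X.det ≠ 0) : Good S w (mulL X L) := by
  refine ⟨h.1, fun u hu => ?_, fun u => ?_⟩
  · rw [Lin_mulL]
    apply h.2.1
    intro h0
    apply hu
    have hu' : IsUnit X := by
      rw [Matrix.isUnit_iff_isUnit_det]
      exact hX.isUnit
    have hinj := Matrix.mulVec_injective_of_isUnit hu'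
    apply hinj
    rw [h0, Matrix.mulVec_zero]
  · rw [Lin_mulL]
    exact h.2.2 _

/-- constancy along a path of good frames over a fixed point. -/
theorem DegData.path {S : Fin 7 → Matrix (Fin 5) (Fin 5) ℂ} {A : Set (E 7)}
    {dg : E 7 → (Fin 6 → Fin 5 → ℂ) → ℚ} (hdg : DegData S A dg) (w : ℝ → E 7)
    (L : ℝ → Fin 6 → Fin 5 → ℂ) (hw : Continuous w) (hL : Continuous L)
    (hG : ∀ t ∈ Icc (0 : ℝ) 1, Good S (w t) (L t)) : dg (w 1) (L 1) = dg (w 0) (L 0) := by
  obtain ⟨g, hg⟩ : ∃ g : Icc (0 : ℝ) 1 → ℚ, g = fun t : Icc (0 : ℝ) 1 => dg (w (t : ℝ)) (L (t : ℝ)) := ⟨_, rfl⟩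
  have hloc : IsLocallyConstant g := by
    rw [IsLocallyConstant.iff_eventually_eq]
    intro t
    have h1 := hdg.loc (w t) (L t) (hG t t.2)
    have h2 : Filter.Tendsto (fun s : Icc (0 : ℝ) 1 => (w s, L s)) (𝓝 t) (𝓝 (w t, L t)) :=
      ((hw.comp continuous_subtype_val).prodMk (hL.comp continuous_subtype_val)).continuousAt
    filter_upwards [h2.eventually h1] with s hs
    rw [hg]
    exact hs (hG s s.2)
  have h := hloc.apply_eq_of_preconnectedSpace ⟨1, by norm_num, le_rfl⟩ ⟨0, le_rfl, by norm_num⟩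
  rw [hg] at h
  exact h

/-- sign of a real number -/
noncomputable def sgq (x : ℝ) : ℚ := if 0 < x then 1 else -1

theorem sgq_pos {x : ℝ} (h : 0 < x) : sgq x = 1 := if_pos h

theorem sgq_neg {x : ℝ} (h : x < 0) : sgq x = -1 := if_neg (not_lt.2 h.le)

theorem sgq_mul {x y : ℝ} (hx : x ≠ 0) (hy : y ≠ 0) : sgq (x * y) = sgq x * sgq y := by
  rcases lt_or_gt_of_ne hx with h1 | h1 <;> rcases lt_or_gt_of_ne hy with h2 | h2
  · rw [sgq_neg h1, sgq_neg h2, sgq_pos (mul_pos_of_neg_of_neg h1 h2)]; norm_num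
  · rw [sgq_neg h1, sgq_pos h2, sgq_neg (mul_neg_of_neg_of_pos h1 h2)]; norm_num
  · rw [sgq_pos h1, sgq_neg h2, sgq_neg (mul_neg_of_pos_of_neg h1 h2)]; norm_num
  · rw [sgq_pos h1, sgq_pos h2, sgq_pos (mul_pos h1 h2)]; norm_num

theorem sgq_sq {x : ℝ} (hx : x ≠ 0) : sgq x * sgq x = 1 := by
  rcases lt_or_gt_of_ne hx with h1 | h1
  · rw [sgq_neg h1]; norm_num
  · rw [sgq_pos h1]; norm_num

theorem dg_linepath {S : Fin 7 → Matrix (Fin 5) (Fin 5) ℂ} {A : Set (E 7)}
    {dg : E 7 → (Fin 6 → Fin 5 → ℂ) → ℚ} (hdg : DegData S A dg) {w : E 7}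
    {L : Fin 6 → Fin 5 → ℂ} (hG : Good S w L) (X Y : Matrix (Fin 6) (Fin 6) ℝ)
    (h : ∀ t ∈ Icc (0 : ℝ) 1, ((1 - t) • X + t • Y).det ≠ 0) :
    dg w (mulL Y L) = dg w (mulL X L) := by
  have := hdg.path (fun _ => w) (fun t => mulL ((1 - t) • X + t • Y) L) continuous_const
    ((mulL_continuous L).comp (by fun_prop)) (fun t ht => hG.mulL (h t ht))
  simpa using this

theorem dg_flip {S : Fin 7 → Matrix (Fin 5) (Fin 5) ℂ} {A : Set (E 7)}
    {dg : E 7 → (Fin 6 → Fin 5 → ℂ) → ℚ} (hdg : DegData S A dg) {w : E 7}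
    {L : Fin 6 → Fin 5 → ℂ} (hG : Good S w L) (s : Finset (Fin 6)) :
    dg w (mulL (Matrix.diagonal fun i => if i ∈ s then (-1 : ℝ) else 1) L) =
      (-1) ^ s.card * dg w L := by
  induction s using Finset.induction_on with
  | empty =>
    have : (Matrix.diagonal fun i : Fin 6 => if i ∈ (∅ : Finset (Fin 6)) then (-1 : ℝ) else 1) =
        1 := by
      simp
    rw [this, mulL_one]
    simp
  | insert a s ha ih =>
    have hd : (Matrix.diagonal fun i : Fin 6 => if i ∈ s then (-1 : ℝ) else 1).det ≠ 0 := by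
      rw [Matrix.det_diagonal, Finset.prod_ne_zero_iff]
      intro i _
      split_ifs <;> norm_num
    have h1 := hdg.refl w _ a (hG.mulL hd)
    have h2 : (fun j => if j = a then
        - mulL (Matrix.diagonal fun i : Fin 6 => if i ∈ s then (-1 : ℝ) else 1) L j
        else mulL (Matrix.diagonal fun i : Fin 6 => if i ∈ s then (-1 : ℝ) else 1) L j) =
        mulL (Matrix.diagonal fun i : Fin 6 => if i ∈ insert a s then (-1 : ℝ) else 1) L := by
      have hdiag : ∀ (D : Fin 6 → ℝ) j k, mulL (Matrix.diagonal D) L j k =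
          ((D j : ℝ) : ℂ) * L j k := by
        intro D j k
        unfold mulL
        rw [Finset.sum_eq_single j]
        · rw [Matrix.diagonal_apply_eq]
        · intro i _ hi
          rw [Matrix.diagonal_apply_ne _ hi]
          simp
        · intro h
          exact absurd (Finset.mem_univ _) h
      funext j k
      by_cases hj : j = a
      · subst hj
        rw [if_pos rfl, Pi.neg_apply, hdiag, hdiag, if_neg ha, if_pos (Finset.mem_insert_self _ _)]
        push_cast
        ring
      · rw [if_neg hj, hdiag, hdiag]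
        have : (j ∈ insert a s) ↔ j ∈ s := by
          rw [Finset.mem_insert]
          tauto
        simp only [this]
    rw [h2, ih] at h1
    rw [h1, Finset.card_insert_of_notMem ha, pow_succ]
    ring

/-- **The action of `GL₆(ℝ)` on the degree.** -/
theorem dg_gl {S : Fin 7 → Matrix (Fin 5) (Fin 5) ℂ} {A : Set (E 7)}
    {dg : E 7 → (Fin 6 → Fin 5 → ℂ) → ℚ} (hdg : DegData S A dg) {w : E 7}
    (X : Matrix (Fin 6) (Fin 6) ℝ) (hX : X.det ≠ 0) :
    ∀ L : Fin 6 → Fin 5 → ℂ, Good S w L → dg w (mulL X L) = sgq X.det * dg w L := by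
  refine Matrix.diagonal_transvection_induction_of_det_ne_zero
    (fun X => ∀ L : Fin 6 → Fin 5 → ℂ, Good S w L → dg w (mulL X L) = sgq X.det * dg w L)
    X hX ?_ ?_ ?_
  · intro D hD L hG
    rw [Matrix.det_diagonal] at hD
    have hD' : ∀ i, D i ≠ 0 := fun i => Finset.prod_ne_zero_iff.1 hD i (Finset.mem_univ _)
    obtain ⟨s, hs⟩ : ∃ s : Finset (Fin 6), s = Finset.univ.filter fun i => D i < 0 := ⟨_, rfl⟩
    have hms : ∀ i, i ∈ s ↔ D i < 0 := by
      intro i
      rw [hs]
      simp
    have h1 := dg_flip hdg hG s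
    have h2 := dg_linepath hdg hG (Matrix.diagonal fun i => if i ∈ s then (-1 : ℝ) else 1)
      (Matrix.diagonal D) (by
        intro t ht
        rw [← Matrix.diagonal_smul, ← Matrix.diagonal_smul, Matrix.diagonal_add,
          Matrix.det_diagonal, Finset.prod_ne_zero_iff]
        intro i _
        simp only [Pi.smul_apply, smul_eq_mul]
        rcases lt_or_gt_of_ne (hD' i) with h | h
        · rw [if_pos ((hms i).2 h)]
          rcases eq_or_lt_of_le ht.1 with h0 | h0
          · rw [← h0]; norm_num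
          · nlinarith [ht.2]
        · rw [if_neg (fun hc => absurd ((hms i).1 hc) (not_lt.2 h.le))]
          rcases eq_or_lt_of_le ht.1 with h0 | h0
          · rw [← h0]; norm_num
          · nlinarith [ht.2, mul_pos h0 h])
    rw [h2, h1, Matrix.det_diagonal]
    congr 1
    have key : ∀ u : Finset (Fin 6), sgq (∏ i ∈ u, D i) = (-1) ^ (u.filter fun i => D i < 0).card := by
      intro u
      induction u using Finset.induction_on with
      | empty => simp [sgq]
      | insert a u ha ih =>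
        rw [Finset.prod_insert ha, sgq_mul (hD' a) (Finset.prod_ne_zero_iff.2 fun i _ => hD' i), ih,
          Finset.filter_insert]
        rcases lt_or_gt_of_ne (hD' a) with h | h
        · rw [if_pos h, sgq_neg h, Finset.card_insert_of_notMem (by simp [ha]), pow_succ]
          ring
        · rw [if_neg (not_lt.2 h.le), sgq_pos h, one_mul]
    rw [key, hs]
  · intro t L hG
    have h1 : t.toMatrix.det = 1 := Matrix.TransvectionStruct.det t
    rw [h1, sgq_pos one_pos, one_mul]
    have h2 := dg_linepath hdg hG 1 t.toMatrix (by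
      intro r _
      have h3 : (1 - r) • (1 : Matrix (Fin 6) (Fin 6) ℝ) + r • t.toMatrix =
          Matrix.transvection t.i t.j (r * t.c) := by
        rw [Matrix.TransvectionStruct.toMatrix, Matrix.transvection, Matrix.transvection]
        ext a b
        simp only [Matrix.add_apply, Matrix.smul_apply, smul_eq_mul, Matrix.single_apply]
        split_ifs <;> ring
      rw [h3, Matrix.det_transvection_of_ne _ _ t.hij]
      exact one_ne_zero)
    rw [h2, mulL_one]
  · intro P Q hP hQ h1 h2 L hG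
    rw [mulL_mul, h2 _ (hG.mulL hP), h1 _ hG, Matrix.det_mul, sgq_mul hP hQ]
    ring

end Pool.Agent.H15.Lev
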