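import Pool.Agent.H15.Lev.Spec
import Pool.Agent.H15.Lev.T6gl

/-! Orthonormal eigenframes of corank one complex symmetric matrices. -/

set_option autoImplicit false

namespace Pool.Agent.H15.Lev

open Matrix Set Topology

/-- real orthonormal vectors in the positive eigenspaces of the real form. -/
def EFr (R : Matrix (Fin 5) (Fin 5) ℂ) (v : Fin 4 → Fin 5 → ℂ) : Prop :=
  (∀ a b, ∑ k, (v a k * (starRingEnd ℂ) (v b k)).re = if a = b then 1 else 0) ∧
  (∀ a, 0 < qf R (v a)) ∧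
  ∀ a, R.mulVec (v a) = fun k => ((qf R (v a) : ℝ) : ℂ) * (starRingEnd ℂ) (v a k)

/-- the pairing `u^T R u'` is symmetric -/
theorem pair_symm {R : Matrix (Fin 5) (Fin 5) ℂ} (hR : R.transpose = R) (u u' : Fin 5 → ℂ) :
    dotProduct u (R.mulVec u') = dotProduct u' (R.mulVec u) := by
  rw [Matrix.dotProduct_mulVec, ← Matrix.mulVec_transpose, hR, dotProduct_comm]

theorem EFr.pair {R : Matrix (Fin 5) (Fin 5) ℂ} {v : Fin 4 → Fin 5 → ℂ} (h : EFr R v)
    (u : Fin 5 → ℂ) (b : Fin 4) : dotProduct u (R.mulVec (v b)) =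
      ((qf R (v b) : ℝ) : ℂ) * ∑ k, u k * (starRingEnd ℂ) (v b k) := by
  rw [h.2.2 b, dotProduct, Finset.mul_sum]
  refine Finset.sum_congr rfl fun k _ => ?_
  ring

theorem EFr.herm {R : Matrix (Fin 5) (Fin 5) ℂ} (hR : R.transpose = R) {v : Fin 4 → Fin 5 → ℂ}
    (h : EFr R v) (a b : Fin 4) : ∑ k, v a k * (starRingEnd ℂ) (v b k) = if a = b then 1 else 0 := by
  obtain ⟨z, hz⟩ : ∃ z, z = ∑ k, v a k * (starRingEnd ℂ) (v b k) := ⟨_, rfl⟩
  have h1 := h.pair (v a) b
  have h2 := h.pair (v b) a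
  have h3 := pair_symm hR (v a) (v b)
  have h4 : ∑ k, v b k * (starRingEnd ℂ) (v a k) = (starRingEnd ℂ) z := by
    rw [hz, map_sum]
    refine Finset.sum_congr rfl fun k _ => ?_
    rw [map_mul, Complex.conj_conj, mul_comm]
  rw [h4] at h2
  rw [← hz] at h1 ⊢
  rw [h1, h2] at h3
  have hre : z.re = if a = b then 1 else 0 := by
    rw [hz, Complex.re_sum]
    exact h.1 a b
  have him : z.im = 0 := by
    have h5 := congrArg Complex.im h3
    rw [Complex.im_ofReal_mul, Complex.im_ofReal_mul, Complex.conj_im] at h5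
    have h6 := h.2.1 a
    have h7 := h.2.1 b
    have h8 : (qf R (v a) + qf R (v b)) * z.im = 0 := by linarith
    rcases mul_eq_zero.1 h8 with h9 | h9
    · linarith
    · exact h9
  apply Complex.ext
  · rw [hre]; split_ifs <;> simp
  · rw [him]; split_ifs <;> simp

theorem EFr.ker {R : Matrix (Fin 5) (Fin 5) ℂ} (hR : R.transpose = R) {v : Fin 4 → Fin 5 → ℂ}
    (h : EFr R v) {κ : Fin 5 → ℂ} (hκ : R.mulVec κ = 0) (b : Fin 4) :
    ∑ k, κ k * (starRingEnd ℂ) (v b k) = 0 := by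
  have h1 := h.pair κ b
  rw [pair_symm hR, hκ, dotProduct_zero] at h1
  have h2 : ((qf R (v b) : ℝ) : ℂ) ≠ 0 := by
    exact_mod_cast (h.2.1 b).ne'
  exact (mul_eq_zero.1 h1.symm).resolve_left h2

/-- the last two vectors of the frame -/
noncomputable def pp (κ : Fin 5 → ℂ) : Fin 2 → Fin 5 → ℂ := ![κ, Complex.I • κ]

/-- the frame of six vectors -/
noncomputable def FR (v : Fin 4 → Fin 5 → ℂ) (κ : Fin 5 → ℂ) : Fin 6 → Fin 5 → ℂ :=
  (Fin.append v (pp κ) : Fin (4 + 2) → Fin 5 → ℂ)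

/-- the matrix with rows `v₀, …, v₃, κ` -/
noncomputable def MM (v : Fin 4 → Fin 5 → ℂ) (κ : Fin 5 → ℂ) : Matrix (Fin 5) (Fin 5) ℂ :=
  (Fin.append v (fun _ : Fin 1 => κ) : Fin (4 + 1) → Fin 5 → ℂ)

/-- block diagonal matrix -/
def blkG {α : Type*} [Zero α] (m n : ℕ) (Y : Matrix (Fin m) (Fin m) α)
    (Z : Matrix (Fin n) (Fin n) α) : Matrix (Fin (m + n)) (Fin (m + n)) α :=
  Matrix.reindex finSumFinEquiv finSumFinEquiv (Matrix.fromBlocks Y 0 0 Z)

section blkG

variable {α : Type*} [CommRing α] {m n : ℕ} (Y : Matrix (Fin m) (Fin m) α)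
    (Z : Matrix (Fin n) (Fin n) α)

theorem blkG_ll (i j : Fin m) : blkG m n Y Z (Fin.castAdd n i) (Fin.castAdd n j) = Y i j := by
  simp [blkG]

theorem blkG_lr (i : Fin m) (j : Fin n) :
    blkG m n Y Z (Fin.castAdd n i) (Fin.natAdd m j) = 0 := by
  simp [blkG]

theorem blkG_rl (i : Fin n) (j : Fin m) :
    blkG m n Y Z (Fin.natAdd m i) (Fin.castAdd n j) = 0 := by
  simp [blkG]

theorem blkG_rr (i j : Fin n) : blkG m n Y Z (Fin.natAdd m i) (Fin.natAdd m j) = Z i j := by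
  simp [blkG]

theorem blkG_det : (blkG m n Y Z).det = Y.det * Z.det := by
  unfold blkG
  rw [Matrix.det_reindex_self, Matrix.det_fromBlocks_zero₂₁]

theorem append_sum {β : Type*} (X : Matrix (Fin m) (Fin m) ℂ) (W : Matrix (Fin n) (Fin n) ℂ)
    (v : Fin m → β → ℂ) (p : Fin n → β → ℂ) :
    (fun j k => ∑ i, blkG m n X W i j * (Fin.append v p : Fin (m + n) → β → ℂ) i k) =
      (Fin.append (fun a k => ∑ b, X b a * v b k)
        (fun c k => ∑ d, W d c * p d k) : Fin (m + n) → β → ℂ) := by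
  funext j k
  rw [Fin.sum_univ_add]
  refine Fin.addCases (m := m) (n := n) (fun a => ?_) (fun c => ?_) j
  · simp only [blkG_ll, blkG_rl, Fin.append_left, Fin.append_right]
    simp
  · simp only [blkG_lr, blkG_rr, Fin.append_left, Fin.append_right]
    simp

theorem append_sum_real {β : Type*} (X : Matrix (Fin m) (Fin m) ℝ) (W : Matrix (Fin n) (Fin n) ℝ)
    (v : Fin m → β → ℂ) (p : Fin n → β → ℂ) :
    (fun j k => ∑ i, ((blkG m n X W i j : ℝ) : ℂ) *
      (Fin.append v p : Fin (m + n) → β → ℂ) i k) =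
      (Fin.append (fun a k => ∑ b, ((X b a : ℝ) : ℂ) * v b k)
        (fun c k => ∑ d, ((W d c : ℝ) : ℂ) * p d k) : Fin (m + n) → β → ℂ) := by
  funext j k
  rw [Fin.sum_univ_add]
  refine Fin.addCases (m := m) (n := n) (fun a => ?_) (fun c => ?_) j
  · simp only [blkG_ll, blkG_rl, Fin.append_left, Fin.append_right]
    simp
  · simp only [blkG_lr, blkG_rr, Fin.append_left, Fin.append_right]
    simp

end blkG

/-- block diagonal real matrix -/
def blk (Y : Matrix (Fin 4) (Fin 4) ℝ) (Z : Matrix (Fin 2) (Fin 2) ℝ) :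
    Matrix (Fin 6) (Fin 6) ℝ := blkG 4 2 Y Z

theorem blk_det (Y : Matrix (Fin 4) (Fin 4) ℝ) (Z : Matrix (Fin 2) (Fin 2) ℝ) :
    (blk Y Z).det = Y.det * Z.det := blkG_det Y Z

theorem mulL_blk (Y : Matrix (Fin 4) (Fin 4) ℝ) (Z : Matrix (Fin 2) (Fin 2) ℝ)
    (v : Fin 4 → Fin 5 → ℂ) (p : Fin 2 → Fin 5 → ℂ) :
    mulL (blk Y Z) (Fin.append v p : Fin (4 + 2) → Fin 5 → ℂ) =
      (Fin.append (fun a k => ∑ b, ((Y b a : ℝ) : ℂ) * v b k)
        (fun c k => ∑ d, ((Z d c : ℝ) : ℂ) * p d k) : Fin (4 + 2) → Fin 5 → ℂ) :=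
  append_sum_real Y Z v p

theorem MM_det (P : Matrix (Fin 4) (Fin 4) ℂ) (q : ℂ) (v : Fin 4 → Fin 5 → ℂ) (κ : Fin 5 → ℂ) :
    (MM (fun a k => ∑ b, P b a * v b k) (q • κ)).det = P.det * q * (MM v κ).det := by
  have h : MM (fun a k => ∑ b, P b a * v b k) (q • κ) =
      (blkG 4 1 P (fun _ _ => q)).transpose * MM v κ := by
    have h1 := append_sum P (fun _ _ : Fin 1 => q) v (fun _ : Fin 1 => κ)
    have h2 : (fun (c : Fin 1) k => ∑ d : Fin 1, (fun _ _ : Fin 1 => q) d c *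
        (fun _ : Fin 1 => κ) d k) = (fun _ : Fin 1 => q • κ) := by
      funext c k
      simp
    rw [h2] at h1
    exact h1.symm
  rw [h, Matrix.det_mul, Matrix.det_transpose]
  have h3 : (blkG 4 1 P (fun _ _ => q)).det = P.det * (Matrix.det (fun _ _ : Fin 1 => q)) :=
    blkG_det P _
  rw [h3]
  congr 2
  simp

theorem MM_row_l (v : Fin 4 → Fin 5 → ℂ) (κ : Fin 5 → ℂ) (a : Fin 4) :
    MM v κ (Fin.castAdd 1 a) = v a := Fin.append_left v (fun _ : Fin 1 => κ) a

theorem MM_row_r (v : Fin 4 → Fin 5 → ℂ) (κ : Fin 5 → ℂ) (c : Fin 1) :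
    MM v κ (Fin.natAdd 4 c) = κ := Fin.append_right v (fun _ : Fin 1 => κ) c

/-- the square of the determinant of an eigenframe -/
theorem MM_sq {R : Matrix (Fin 5) (Fin 5) ℂ} (hR : R.transpose = R) {v : Fin 4 → Fin 5 → ℂ}
    (h : EFr R v) {κ : Fin 5 → ℂ} (hκ : R.mulVec κ = 0) (hadj : R.adjugate = fun i j => κ i * κ j) :
    (MM v κ).det ^ 2 = ((∏ a, qf R (v a) : ℝ) : ℂ) := by
  obtain ⟨M, hM⟩ : ∃ M, M = MM v κ := ⟨_, rfl⟩
  have hMl : ∀ a : Fin 4, M (Fin.castAdd 1 a) = v a := fun a => by rw [hM]; exact MM_row_l v κ a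
  have hMr : ∀ c : Fin 1, M (Fin.natAdd 4 c) = κ := fun c => by rw [hM]; exact MM_row_r v κ c
  have hent : ∀ i j, (M * R * M.transpose) i j = dotProduct (M i) (R.mulVec (M j)) := by
    intro i j
    rw [Matrix.mul_assoc, Matrix.mul_apply]
    rfl
  obtain ⟨D, hD⟩ : ∃ D : Fin (4 + 1) → ℂ,
      D = Fin.append (fun a => ((qf R (v a) : ℝ) : ℂ)) (fun _ : Fin 1 => (0 : ℂ)) := ⟨_, rfl⟩
  have hN : M * R * M.transpose = Matrix.diagonal D := by
    ext i j
    rw [hent]
    refine Fin.addCases (m := 4) (n := 1) (fun b => ?_) (fun c => ?_) j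
    · refine Fin.addCases (m := 4) (n := 1) (fun a => ?_) (fun c => ?_) i
      · rw [hMl, hMl, h.pair, h.herm hR]
        by_cases hab : a = b
        · subst hab
          have h1 : D (Fin.castAdd 1 a) = ((qf R (v a) : ℝ) : ℂ) := by
            rw [hD]; exact Fin.append_left _ _ _
          rw [if_pos rfl, mul_one, ← h1]
          exact (Matrix.diagonal_apply_eq D (Fin.castAdd 1 a)).symm
        · rw [if_neg hab, mul_zero]
          refine (Matrix.diagonal_apply_ne D ?_).symm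
          intro hc
          exact hab (Fin.castAdd_injective 4 1 hc)
      · rw [hMl, hMr, h.pair, h.ker hR hκ, mul_zero]
        refine (Matrix.diagonal_apply_ne D ?_).symm
        intro hc
        have := congrArg Fin.val hc
        simp at this
        omega
    · rw [hMr, hκ, dotProduct_zero]
      refine Fin.addCases (m := 4) (n := 1) (fun a => ?_) (fun c' => ?_) i
      · refine (Matrix.diagonal_apply_ne D ?_).symm
        intro hc
        have := congrArg Fin.val hc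
        simp at this
        omega
      · have hcc : c' = c := Subsingleton.elim _ _
        subst hcc
        have h1 : D (Fin.natAdd 4 c') = 0 := by
          rw [hD]; exact Fin.append_right _ _ _
        exact (h1.symm.trans (Matrix.diagonal_apply_eq D (Fin.natAdd 4 c')).symm)
  obtain ⟨e, he⟩ : ∃ e : Fin (4 + 1), e = Fin.natAdd 4 (0 : Fin 1) := ⟨_, rfl⟩
  have hMe : M e = κ := by rw [he]; exact hMr 0
  have h1 := congrArg Matrix.adjugate hN
  rw [Matrix.adjugate_mul_distrib, Matrix.adjugate_mul_distrib, Matrix.adjugate_diagonal,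
    ← Matrix.adjugate_transpose] at h1
  have hadj' : ∀ i j, R.adjugate i j = κ i * κ j := fun i j => by rw [hadj]
  have h2 := congrFun (congrFun h1 e) e
  have h3 : (Matrix.diagonal fun i => ∏ j ∈ Finset.univ.erase i, D j) e e =
      ∏ a, ((qf R (v a) : ℝ) : ℂ) := by
    rw [Matrix.diagonal_apply_eq]
    obtain ⟨D', hD'⟩ : ∃ D' : Fin (4 + 1) → ℂ,
        D' = Fin.append (fun a => ((qf R (v a) : ℝ) : ℂ)) (fun _ : Fin 1 => (1 : ℂ)) := ⟨_, rfl⟩
    have h4 : ∏ j ∈ Finset.univ.erase e, D j = ∏ j ∈ Finset.univ.erase e, D' j := by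
      refine Finset.prod_congr rfl fun j hj => ?_
      have hj' := (Finset.mem_erase.1 hj).1
      revert hj'
      refine Fin.addCases (m := 4) (n := 1) (fun a => ?_) (fun c => ?_) j
      · intro _
        rw [hD, hD', Fin.append_left, Fin.append_left]
      · intro hne
        exact absurd (by rw [he]; congr 1; exact Subsingleton.elim _ _) hne
    rw [h4, Finset.prod_erase]
    · have h5 := Fin.prod_univ_add (a := 4) (b := 1) D'
      refine h5.trans ?_
      rw [hD']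
      simp only [Fin.append_left, Fin.append_right]
      simp
    · rw [hD', he]; exact Fin.append_right _ _ _
  rw [h3] at h2
  have h6 : ∑ l, κ l * M.adjugate l e = M.det := by
    have h7 := congrFun (congrFun (Matrix.mul_adjugate M) e) e
    rw [Matrix.mul_apply, hMe, Matrix.smul_apply, Matrix.one_apply_eq, smul_eq_mul, mul_one] at h7
    exact h7
  have h8 : (M.adjugate.transpose * (R.adjugate * M.adjugate)) e e = M.det ^ 2 := by
    rw [Matrix.mul_apply]
    simp only [Matrix.mul_apply, Matrix.transpose_apply, hadj']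
    have h9 : ∀ k, M.adjugate k e * ∑ l, κ k * κ l * M.adjugate l e =
        (κ k * M.adjugate k e) * M.det := by
      intro k
      rw [← h6, Finset.mul_sum, Finset.mul_sum]
      refine Finset.sum_congr rfl fun l _ => ?_
      ring
    simp only [h9]
    rw [← Finset.sum_mul, h6, sq]
  rw [← hM, ← h8, h2]
  push_cast
  rfl

theorem MM_real {R : Matrix (Fin 5) (Fin 5) ℂ} (hR : R.transpose = R) {v : Fin 4 → Fin 5 → ℂ}
    (h : EFr R v) {κ : Fin 5 → ℂ} (hκ : R.mulVec κ = 0) (hadj : R.adjugate = fun i j => κ i * κ j) :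
    (MM v κ).det.re ≠ 0 ∧ (MM v κ).det.im = 0 := by
  have h1 := MM_sq hR h hκ hadj
  have h2 : 0 < ∏ a, qf R (v a) := Finset.prod_pos fun a _ => h.2.1 a
  obtain ⟨z, hz⟩ : ∃ z, z = (MM v κ).det := ⟨_, rfl⟩
  rw [← hz] at h1 ⊢
  have h3 := congrArg Complex.re h1
  have h4 := congrArg Complex.im h1
  rw [Complex.ofReal_re, sq, Complex.mul_re] at h3
  rw [Complex.ofReal_im, sq, Complex.mul_im] at h4
  have h5 : z.re * z.im = 0 := by linarith
  have h6 : z.re ≠ 0 := by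
    intro h0
    rw [h0] at h3
    nlinarith [mul_self_nonneg z.im]
  exact ⟨h6, (mul_eq_zero.1 h5).resolve_left h6⟩

theorem Lin_FR (v : Fin 4 → Fin 5 → ℂ) (κ : Fin 5 → ℂ) (u : Fin (4 + 2) → ℝ) :
    Lin (FR v κ) u = fun k => (∑ a, ((u (Fin.castAdd 2 a) : ℝ) : ℂ) * v a k) +
      (((u (Fin.natAdd 4 0) : ℝ) : ℂ) + ((u (Fin.natAdd 4 1) : ℝ) : ℂ) * Complex.I) * κ k := by
  funext k
  have hs := Fin.sum_univ_add (a := 4) (b := 2) (fun j : Fin (4 + 2) =>
    ((u j : ℝ) : ℂ) * (Fin.append v (pp κ) : Fin (4 + 2) → Fin 5 → ℂ) j k)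
  refine Eq.trans (show Lin (FR v κ) u k = _ from hs) ?_
  simp only [Fin.append_left, Fin.append_right]
  rw [Fin.sum_univ_two]
  have h0 : pp κ 0 k = κ k := rfl
  have h1 : pp κ 1 k = Complex.I * κ k := rfl
  rw [h0, h1]
  ring

theorem EFr.comb {R : Matrix (Fin 5) (Fin 5) ℂ} (hR : R.transpose = R) {v : Fin 4 → Fin 5 → ℂ}
    (h : EFr R v) {κ : Fin 5 → ℂ} (hκ : R.mulVec κ = 0) (x : Fin 4 → ℝ) (c : ℂ) (b : Fin 4) :
    ∑ k, ((∑ a, ((x a : ℝ) : ℂ) * v a k) + c * κ k) * (starRingEnd ℂ) (v b k) =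
      ((x b : ℝ) : ℂ) := by
  have h1 : ∀ k, ((∑ a, ((x a : ℝ) : ℂ) * v a k) + c * κ k) * (starRingEnd ℂ) (v b k) =
      (∑ a, ((x a : ℝ) : ℂ) * (v a k * (starRingEnd ℂ) (v b k))) +
        c * (κ k * (starRingEnd ℂ) (v b k)) := by
    intro k
    rw [add_mul, Finset.sum_mul]
    congr 1
    · refine Finset.sum_congr rfl fun a _ => ?_
      ring
    · ring
  simp only [h1]
  rw [Finset.sum_add_distrib, ← Finset.mul_sum, h.ker hR hκ, mul_zero, add_zero,
    Finset.sum_comm]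
  simp only [← Finset.mul_sum, h.herm hR]
  simp

theorem EFr.qf_comb {R : Matrix (Fin 5) (Fin 5) ℂ} (hR : R.transpose = R) {v : Fin 4 → Fin 5 → ℂ}
    (h : EFr R v) {κ : Fin 5 → ℂ} (hκ : R.mulVec κ = 0) (x : Fin 4 → ℝ) (c : ℂ) :
    qf R (fun k => (∑ a, ((x a : ℝ) : ℂ) * v a k) + c * κ k) = ∑ a, qf R (v a) * (x a) ^ 2 := by
  have h1 : R.mulVec (fun k => (∑ a, ((x a : ℝ) : ℂ) * v a k) + c * κ k) =
      fun k => ∑ a, ((x a : ℝ) : ℂ) * (((qf R (v a) : ℝ) : ℂ) * (starRingEnd ℂ) (v a k)) := by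
    have e1 : (fun k => (∑ a, ((x a : ℝ) : ℂ) * v a k) + c * κ k) =
        (∑ a, ((x a : ℝ) : ℂ) • v a) + c • κ := by
      funext k
      simp [Finset.sum_apply]
    rw [e1, Matrix.mulVec_add, Matrix.mulVec_smul, hκ, smul_zero, add_zero, Matrix.mulVec_sum]
    funext k
    rw [Finset.sum_apply]
    refine Finset.sum_congr rfl fun a _ => ?_
    rw [Matrix.mulVec_smul, h.2.2 a]
    rfl
  unfold qf
  rw [h1, dotProduct]
  have h2 : ∀ k, ((∑ a, ((x a : ℝ) : ℂ) * v a k) + c * κ k) *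
      (∑ a, ((x a : ℝ) : ℂ) * (((qf R (v a) : ℝ) : ℂ) * (starRingEnd ℂ) (v a k))) =
      ∑ b, (((x b : ℝ) : ℂ) * ((qf R (v b) : ℝ) : ℂ)) *
        (((∑ a, ((x a : ℝ) : ℂ) * v a k) + c * κ k) * (starRingEnd ℂ) (v b k)) := by
    intro k
    rw [Finset.mul_sum]
    refine Finset.sum_congr rfl fun b _ => ?_
    ring
  simp only [h2]
  rw [Finset.sum_comm]
  simp only [← Finset.mul_sum, h.comb hR hκ]
  rw [Complex.re_sum]
  refine Finset.sum_congr rfl fun b _ => ?_
  have e2 : ((x b : ℝ) : ℂ) * ((qf R (v b) : ℝ) : ℂ) * ((x b : ℝ) : ℂ) =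
      ((qf R (v b) * x b ^ 2 : ℝ) : ℂ) := by
    push_cast; ring
  rw [e2, Complex.ofReal_re]
  rfl

/-- the frame of six vectors is good -/
theorem FR_good {S : Fin 7 → Matrix (Fin 5) (Fin 5) ℂ} {w : E 7} (hw : ‖w‖ = 1)
    (hR : (Sw S w).transpose = Sw S w) {v : Fin 4 → Fin 5 → ℂ} (h : EFr (Sw S w) v)
    {κ : Fin 5 → ℂ} (hκ0 : κ ≠ 0) (hκ : (Sw S w).mulVec κ = 0) : Good S w (FR v κ) := by
  refine ⟨hw, ?_, ?_⟩
  · intro u hu hL
    apply hu
    have hLF := Lin_FR v κ u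
    obtain ⟨c, hc⟩ : ∃ c : ℂ, c = ((u (Fin.natAdd 4 0 : Fin (4 + 2)) : ℝ) : ℂ) +
      ((u (Fin.natAdd 4 1 : Fin (4 + 2)) : ℝ) : ℂ) * Complex.I := ⟨_, rfl⟩
    rw [← hc] at hLF
    have hz : ∀ k, (∑ a, ((u (Fin.castAdd 2 a : Fin (4 + 2)) : ℝ) : ℂ) * v a k) + c * κ k = 0 := by
      intro k
      rw [← congrFun hLF k, hL]
      rfl
    have hx : ∀ b : Fin 4, u (Fin.castAdd 2 b : Fin (4 + 2)) = 0 := by
      intro b
      have h1 := h.comb hR hκ (fun a => u (Fin.castAdd 2 a : Fin (4 + 2))) c b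
      simp only [hz, zero_mul, Finset.sum_const_zero] at h1
      exact_mod_cast h1.symm
    have hc0 : c = 0 := by
      by_contra hc1
      apply hκ0
      funext k
      have h1 := hz k
      simp only [hx] at h1
      simp only [Complex.ofReal_zero, zero_mul, Finset.sum_const_zero, zero_add] at h1
      exact (mul_eq_zero.1 h1).resolve_left hc1
    have h4 : u (Fin.natAdd 4 0 : Fin (4 + 2)) = 0 := by
      have := congrArg Complex.re (hc.symm.trans hc0)
      simpa using this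
    have h5 : u (Fin.natAdd 4 1 : Fin (4 + 2)) = 0 := by
      have := congrArg Complex.im (hc.symm.trans hc0)
      simpa using this
    funext j
    refine Fin.addCases (m := 4) (n := 2) (fun a => ?_) (fun d => ?_) j
    · exact hx a
    · fin_cases d
      · exact h4
      · exact h5
  · intro u
    have h1 := h.qf_comb hR hκ (fun a => u (Fin.castAdd 2 a : Fin (4 + 2)))
      (((u (Fin.natAdd 4 0 : Fin (4 + 2)) : ℝ) : ℂ) +
      ((u (Fin.natAdd 4 1 : Fin (4 + 2)) : ℝ) : ℂ) * Complex.I)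
    rw [← Lin_FR v κ u] at h1
    rw [h1]
    exact Finset.sum_nonneg fun a _ => mul_nonneg (h.2.1 a).le (sq_nonneg _)

end Pool.Agent.H15.Lev
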