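import Pool.Agent.H15.Lev.T6eps

/-! Local constancy of the invariant of a normalised kernel vector. -/

set_option autoImplicit false

namespace Pool.Agent.H15.Lev

open Matrix Set Topology Filter

theorem append_cont (n m : ℕ) : Continuous fun p : (Fin n → Fin 5 → ℂ) × (Fin m → Fin 5 → ℂ) =>
    (Fin.append p.1 p.2 : Fin (n + m) → Fin 5 → ℂ) := by
  refine continuous_pi fun j => ?_
  refine Fin.addCases (fun a => ?_) (fun c => ?_) j
  · simp only [Fin.append_left]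
    exact (continuous_apply a).comp continuous_fst
  · simp only [Fin.append_right]
    exact (continuous_apply c).comp continuous_snd

theorem pp_cont : Continuous pp := by
  refine continuous_pi fun c => ?_
  fin_cases c
  · exact continuous_id
  · show Continuous fun p : (Fin 5 → ℂ) => Complex.I • p
    fun_prop

theorem FR_cont : Continuous fun p : (Fin 5 → ℂ) × (Fin 4 → Fin 5 → ℂ) => FR p.2 p.1 :=
  (append_cont 4 2).comp (continuous_snd.prodMk (pp_cont.comp continuous_fst))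

theorem MM_cont : Continuous fun p : (Fin 5 → ℂ) × (Fin 4 → Fin 5 → ℂ) => MM p.2 p.1 :=
  (append_cont 4 1).comp (continuous_snd.prodMk (continuous_pi fun _ => continuous_fst))

theorem MMd_cont : Continuous fun p : (Fin 5 → ℂ) × (Fin 4 → Fin 5 → ℂ) => (MM p.2 p.1).det.re :=
  Complex.continuous_re.comp MM_cont.matrix_det

theorem qf_cont : Continuous fun p : Matrix (Fin 5) (Fin 5) ℂ × (Fin 5 → ℂ) => qf p.1 p.2 := by
  unfold qf
  refine Complex.continuous_re.comp ?_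
  refine Continuous.dotProduct continuous_snd ?_
  exact continuous_fst.matrix_mulVec continuous_snd

theorem mulVec_cont : Continuous fun p : Matrix (Fin 5) (Fin 5) ℂ × (Fin 5 → ℂ) =>
    p.1.mulVec p.2 := continuous_fst.matrix_mulVec continuous_snd

/-- limits of normalised kernel vectors -/
theorem KP_lim {R : ℕ → Matrix (Fin 5) (Fin 5) ℂ} {R₀ : Matrix (Fin 5) (Fin 5) ℂ}
    {κ : ℕ → Fin 5 → ℂ} {κ₀ : Fin 5 → ℂ} (hR : Tendsto R atTop (𝓝 R₀))
    (hκl : Tendsto κ atTop (𝓝 κ₀)) (hκ : ∀ n, KP (R n) (κ n)) (h0 : R₀.adjugate ≠ 0) :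
    KP R₀ κ₀ := by
  have hadjc : Continuous fun R : Matrix (Fin 5) (Fin 5) ℂ => R.adjugate :=
    Continuous.matrix_adjugate continuous_id
  have hadj : Tendsto (fun n => (R n).adjugate) atTop (𝓝 R₀.adjugate) :=
    (hadjc.tendsto R₀).comp hR
  have h3 : R₀.adjugate = fun i j => κ₀ i * κ₀ j := by
    funext i j
    have h4 : Tendsto (fun n => κ n i * κ n j) atTop (𝓝 (κ₀ i * κ₀ j)) :=
      (((continuous_apply i).tendsto κ₀).comp hκl).mul (((continuous_apply j).tendsto κ₀).comp hκl)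
    have h5 : Continuous fun M : Matrix (Fin 5) (Fin 5) ℂ => M i j := by fun_prop
    refine tendsto_nhds_unique ((h5.tendsto _).comp hadj) (h4.congr fun n => ?_)
    exact (congrFun (congrFun (hκ n).2.2 i) j).symm
  refine ⟨?_, ?_, h3⟩
  · intro hz
    apply h0
    rw [h3, hz]
    funext i j
    simp
  · have h6 := (mulVec_cont.tendsto (R₀, κ₀)).comp (hR.prodMk_nhds hκl)
    refine tendsto_nhds_unique h6 (tendsto_const_nhds.congr fun n => ?_)
    exact ((hκ n).2.1).symm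

/-- limits of eigenframes -/
theorem EFr_lim {R : ℕ → Matrix (Fin 5) (Fin 5) ℂ} {R₀ : Matrix (Fin 5) (Fin 5) ℂ}
    {κ : ℕ → Fin 5 → ℂ} {κ₀ : Fin 5 → ℂ} (hR : Tendsto R atTop (𝓝 R₀))
    (hκl : Tendsto κ atTop (𝓝 κ₀)) (hκ : ∀ n, KP (R n) (κ n)) (hκ₀ : KP R₀ κ₀)
    (hsym : ∀ n, (R n).transpose = R n) (hc₀ : crk R₀ = 1)
    {v : ℕ → Fin 4 → Fin 5 → ℂ} {v₀ : Fin 4 → Fin 5 → ℂ} (hvl : Tendsto v atTop (𝓝 v₀))
    (hv : ∀ n, EFr (R n) (v n)) : EFr R₀ v₀ := by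
  have hva : ∀ a, Tendsto (fun n => v n a) atTop (𝓝 (v₀ a)) := fun a =>
    (((continuous_apply a).tendsto v₀).comp hvl)
  have hvak : ∀ a k, Tendsto (fun n => v n a k) atTop (𝓝 (v₀ a k)) := fun a k =>
    (((continuous_apply k).tendsto (v₀ a)).comp (hva a))
  have hconj : ∀ a k, Tendsto (fun n => (starRingEnd ℂ) (v n a k)) atTop
      (𝓝 ((starRingEnd ℂ) (v₀ a k))) := fun a k =>
    ((Complex.continuous_conj.tendsto (v₀ a k)).comp (hvak a k))
  have hql : ∀ a, Tendsto (fun n => qf (R n) (v n a)) atTop (𝓝 (qf R₀ (v₀ a))) := by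
    intro a
    have e1 := (qf_cont.tendsto (R₀, v₀ a)).comp (hR.prodMk_nhds (hva a))
    exact e1
  have horth : ∀ a b, ∑ k, (v₀ a k * (starRingEnd ℂ) (v₀ b k)).re = if a = b then 1 else 0 := by
    intro a b
    have h1 : Tendsto (fun n => ∑ k, (v n a k * (starRingEnd ℂ) (v n b k)).re) atTop
        (𝓝 (∑ k, (v₀ a k * (starRingEnd ℂ) (v₀ b k)).re)) :=
      tendsto_finsetSum _ fun k _ =>
        ((Complex.continuous_re.tendsto _).comp ((hvak a k).mul (hconj b k)))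
    have h2 : Tendsto (fun n => ∑ k, (v n a k * (starRingEnd ℂ) (v n b k)).re) atTop
        (𝓝 (if a = b then 1 else 0)) :=
      tendsto_const_nhds.congr fun n => ((hv n).1 a b).symm
    exact tendsto_nhds_unique h1 h2
  have heig : ∀ a, R₀.mulVec (v₀ a) = fun k => ((qf R₀ (v₀ a) : ℝ) : ℂ) *
      (starRingEnd ℂ) (v₀ a k) := by
    intro a
    funext k
    have h5 : Continuous fun p : Matrix (Fin 5) (Fin 5) ℂ × (Fin 5 → ℂ) => p.1.mulVec p.2 k :=
      (continuous_apply k).comp mulVec_cont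
    have h6 : Tendsto (fun n => (R n).mulVec (v n a) k) atTop (𝓝 (R₀.mulVec (v₀ a) k)) := by
      have e1 := (h5.tendsto (R₀, v₀ a)).comp (hR.prodMk_nhds (hva a))
      exact e1
    have h7 : Tendsto (fun n => ((qf (R n) (v n a) : ℝ) : ℂ) * (starRingEnd ℂ) (v n a k)) atTop
        (𝓝 (((qf R₀ (v₀ a) : ℝ) : ℂ) * (starRingEnd ℂ) (v₀ a k))) := by
      have e1 := ((Complex.continuous_ofReal.tendsto _).comp (hql a)).mul (hconj a k)
      exact e1
    have h8 : Tendsto (fun n => (R n).mulVec (v n a) k) atTop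
        (𝓝 (((qf R₀ (v₀ a) : ℝ) : ℂ) * (starRingEnd ℂ) (v₀ a k))) :=
      h7.congr fun n => (congrFun ((hv n).2.2 a) k).symm
    exact tendsto_nhds_unique h6 h8
  have hker : ∀ a, ∑ k, κ₀ k * (starRingEnd ℂ) (v₀ a k) = 0 := by
    intro a
    have h1 : Tendsto (fun n => ∑ k, κ n k * (starRingEnd ℂ) (v n a k)) atTop
        (𝓝 (∑ k, κ₀ k * (starRingEnd ℂ) (v₀ a k))) :=
      tendsto_finsetSum _ fun k _ =>
        (((continuous_apply k).tendsto κ₀).comp hκl).mul (hconj a k)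
    have h2 : Tendsto (fun n => ∑ k, κ n k * (starRingEnd ℂ) (v n a k)) atTop (𝓝 0) :=
      tendsto_const_nhds.congr fun n => ((hv n).ker (hsym n) (hκ n).2.1 a).symm
    exact tendsto_nhds_unique h1 h2
  refine ⟨horth, ?_, heig⟩
  intro a
  have h1 : 0 ≤ qf R₀ (v₀ a) := ge_of_tendsto' (hql a) fun n => ((hv n).2.1 a).le
  rcases h1.lt_or_eq with h2 | h2
  · exact h2
  · exfalso
    have h3 : R₀.mulVec (v₀ a) = 0 := by
      rw [heig, ← h2]
      funext k
      simp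
    obtain ⟨z, hz⟩ := hκ₀.span hc₀ h3
    have h4 := hker a
    have h5 : ∑ k, κ₀ k * (starRingEnd ℂ) (v₀ a k) =
        (starRingEnd ℂ) z * ((∑ k, Complex.normSq (κ₀ k) : ℝ) : ℂ) := by
      rw [hz, Complex.ofReal_sum, Finset.mul_sum]
      refine Finset.sum_congr rfl fun k _ => ?_
      rw [Pi.smul_apply, smul_eq_mul, map_mul, ← Complex.mul_conj]
      ring
    rw [h5] at h4
    have h6 : v₀ a ≠ 0 := by
      intro h0
      have := horth a a
      rw [h0] at this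
      simp at this
    rcases mul_eq_zero.1 h4 with h7 | h7
    · apply h6
      have : z = 0 := by simpa using h7
      rw [hz, this, zero_smul]
    · have h8 : ∑ k, Complex.normSq (κ₀ k) = 0 := by exact_mod_cast h7
      apply hκ₀.1
      funext k
      have h9 := (Finset.sum_eq_zero_iff_of_nonneg fun k _ => Complex.normSq_nonneg (κ₀ k)).1 h8
        k (Finset.mem_univ k)
      exact Complex.normSq_eq_zero.1 h9

theorem EFr_bound {R : Matrix (Fin 5) (Fin 5) ℂ} {v : Fin 4 → Fin 5 → ℂ} (hv : EFr R v) :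
    ‖v‖ ≤ 1 := by
  refine (pi_norm_le_iff_of_nonneg zero_le_one).2 fun a => ?_
  refine (pi_norm_le_iff_of_nonneg zero_le_one).2 fun k => ?_
  have h1 := hv.1 a a
  rw [if_pos rfl] at h1
  have h2 : ∀ k, (v a k * (starRingEnd ℂ) (v a k)).re = ‖v a k‖ ^ 2 := by
    intro k
    rw [Complex.mul_conj, Complex.ofReal_re, Complex.normSq_eq_norm_sq]
  simp only [h2] at h1
  have h3 : ‖v a k‖ ^ 2 ≤ 1 := by
    rw [← h1]
    exact Finset.single_le_sum (f := fun k => ‖v a k‖ ^ 2) (fun k _ => sq_nonneg _)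
      (Finset.mem_univ k)
  nlinarith [norm_nonneg (v a k)]

theorem KP_bound {R : ℕ → Matrix (Fin 5) (Fin 5) ℂ} {R₀ : Matrix (Fin 5) (Fin 5) ℂ}
    {κ : ℕ → Fin 5 → ℂ} (hR : Tendsto R atTop (𝓝 R₀)) (hκ : ∀ n, KP (R n) (κ n)) :
    ∃ C : ℝ, ∀ n, ‖κ n‖ ≤ C := by
  have hadjc : Continuous fun R : Matrix (Fin 5) (Fin 5) ℂ => R.adjugate :=
    Continuous.matrix_adjugate continuous_id
  have h1 : ∀ i : Fin 5, ∃ C : ℝ, ∀ n, ‖κ n i‖ ≤ C := by
    intro i
    have h3 : Continuous fun M : Matrix (Fin 5) (Fin 5) ℂ => ‖M.adjugate i i‖ := by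
      have : Continuous fun M : Matrix (Fin 5) (Fin 5) ℂ => M i i := by fun_prop
      exact (this.comp hadjc).norm
    have h2 : Tendsto (fun n => ‖(R n).adjugate i i‖) atTop (𝓝 ‖R₀.adjugate i i‖) :=
      (h3.tendsto R₀).comp hR
    obtain ⟨C, hC⟩ := h2.bddAbove_range
    refine ⟨max C 1, fun n => ?_⟩
    have h4 : ‖(R n).adjugate i i‖ ≤ C := hC ⟨n, rfl⟩
    have h4' : (R n).adjugate i i = κ n i * κ n i := congrFun (congrFun (hκ n).2.2 i) i
    rw [h4', norm_mul] at h4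
    by_contra hcon
    push Not at hcon
    have h5 : C < ‖κ n i‖ := lt_of_le_of_lt (le_max_left _ _) hcon
    have h6 : 1 < ‖κ n i‖ := lt_of_le_of_lt (le_max_right _ _) hcon
    nlinarith
  choose C hC using h1
  refine ⟨∑ i, |C i|, fun n => ?_⟩
  refine (pi_norm_le_iff_of_nonneg (Finset.sum_nonneg fun i _ => abs_nonneg _)).2 fun i => ?_
  exact (hC i n).trans ((le_abs_self _).trans
    (Finset.single_le_sum (f := fun i => |C i|) (fun i _ => abs_nonneg _) (Finset.mem_univ i)))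

section

variable {S : Fin 7 → Matrix (Fin 5) (Fin 5) ℂ} {A : Set (E 7)}
    {dg : E 7 → (Fin 6 → Fin 5 → ℂ) → ℚ}

theorem sgq_ev {f : ℕ → ℝ} {x : ℝ} (hx : x ≠ 0) (h : Tendsto f atTop (𝓝 x)) :
    ∀ᶠ n in atTop, sgq (f n) = sgq x := by
  rcases lt_or_gt_of_ne hx with h1 | h1
  · filter_upwards [h.eventually (gt_mem_nhds h1)] with n hn
    rw [sgq_neg hn, sgq_neg h1]
  · filter_upwards [h.eventually (lt_mem_nhds h1)] with n hn
    rw [sgq_pos hn, sgq_pos h1]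

/-- local constancy, in sequential form -/
theorem ep_local (hS : ∀ j, (S j).transpose = S j) (hdg : DegData S A dg) {w : ℕ → E 7} {w₀ : E 7}
    (hw : ∀ n, ‖w n‖ = 1) (hw₀ : ‖w₀‖ = 1) (hlim : Tendsto w atTop (𝓝 w₀))
    (hc : ∀ n, crk (Sw S (w n)) = 1) (hc₀ : crk (Sw S w₀) = 1) {κ : ℕ → Fin 5 → ℂ}
    (hκ : ∀ n, KP (Sw S (w n)) (κ n)) :
    ∃ (φ : ℕ → ℕ) (κ₀ : Fin 5 → ℂ), StrictMono φ ∧ KP (Sw S w₀) κ₀ ∧
      Tendsto (fun n => κ (φ n)) atTop (𝓝 κ₀) ∧
      ∀ᶠ n in atTop, ep S dg (w (φ n)) (κ (φ n)) = ep S dg w₀ κ₀ := by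
  -- frames
  have hfr : ∀ n, ∃ v, EFr (Sw S (w n)) v := fun n => by
    obtain ⟨V, lam, -, -, -, -, -, hTF, -, -⟩ := full_basis (SwT_symm hS _) (hc n) (hκ n)
    exact ⟨_, hTF⟩
  choose v hv using hfr
  have hRlim : Tendsto (fun n => Sw S (w n)) atTop (𝓝 (Sw S w₀)) := by
    have e1 := ((SwT_cont S).tendsto w₀).comp hlim
    exact e1
  obtain ⟨C, hC⟩ := KP_bound hRlim hκ
  -- a convergent subsequence
  obtain ⟨p₀, -, φ, hφ, hpφ⟩ := tendsto_subseq_of_bounded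
    (s := Metric.closedBall (0 : (Fin 5 → ℂ) × (Fin 4 → Fin 5 → ℂ)) (max C 1))
    Metric.isBounded_closedBall (x := fun n => (κ n, v n)) (fun n => by
      rw [mem_closedBall_zero_iff, Prod.norm_def]
      exact max_le ((hC n).trans (le_max_left _ _))
        ((EFr_bound (hv n)).trans (le_max_right _ _)))
  obtain ⟨κ₀, v₀⟩ := p₀
  have hκl : Tendsto (fun n => κ (φ n)) atTop (𝓝 κ₀) := by
    have e1 := (continuous_fst.tendsto _).comp hpφ
    exact e1
  have hvl : Tendsto (fun n => v (φ n)) atTop (𝓝 v₀) := by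
    have e1 := (continuous_snd.tendsto _).comp hpφ
    exact e1
  have hφt := hφ.tendsto_atTop
  have hRl : Tendsto (fun n => Sw S (w (φ n))) atTop (𝓝 (Sw S w₀)) := hRlim.comp hφt
  have hR₀ := SwT_symm hS w₀
  have hKP₀ : KP (Sw S w₀) κ₀ := KP_lim hRl hκl (fun n => hκ _) (adj_of_crk_one hR₀ hc₀).2
  have hTF₀ : EFr (Sw S w₀) v₀ := EFr_lim hRl hκl (fun n => hκ _) hKP₀
    (fun n => SwT_symm hS _) hc₀ hvl (fun n => hv _)
  refine ⟨φ, κ₀, hφ, hKP₀, hκl, ?_⟩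
  have hG₀ := FR_good hw₀ hR₀ hTF₀ hKP₀.1 hKP₀.2.1
  have hl1 := hdg.loc w₀ (FR v₀ κ₀) hG₀
  have hl2 : Tendsto (fun n => (w (φ n), FR (v (φ n)) (κ (φ n)))) atTop (𝓝 (w₀, FR v₀ κ₀)) :=
    by
      have e1 := (FR_cont.tendsto (κ₀, v₀)).comp hpφ
      exact (hlim.comp hφt).prodMk_nhds e1
  have hl3 := hl2.eventually hl1
  have hr₀ := (MM_real hR₀ hTF₀ hKP₀.2.1 hKP₀.2.2).1
  have hl4 : Tendsto (fun n => (MM (v (φ n)) (κ (φ n))).det.re) atTop (𝓝 (MM v₀ κ₀).det.re) := by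
    have e1 := (MMd_cont.tendsto (κ₀, v₀)).comp hpφ
    exact e1
  have hl5 := sgq_ev hr₀ hl4
  filter_upwards [hl3, hl5] with n h3 h5
  rw [ep_eq hdg (hw _) (SwT_symm hS _) (hc _) (hκ _) (hv (φ n)),
    ep_eq hdg hw₀ hR₀ hc₀ hKP₀ hTF₀]
  unfold QQ
  rw [h5, h3 (FR_good (hw _) (SwT_symm hS _) (hv (φ n)) (hκ _).1 (hκ _).2.1)]

end

end Pool.Agent.H15.Lev
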