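import Pool.Agent.H15.Lev.AS

/-! Topological tools: continuous maps, homotopies, transfer between spaces. -/

set_option autoImplicit false

namespace Pool.Agent.H15.Lev

open Set Topology Pool.Agent.Helper775.Tight Pool.Agent.Helper775.Tight.SoftCx

section acy

variable {Y K : Type*} [TopologicalSpace Y] [AddCommGroup K] [Module ℚ K]

/-- connectedness with rational coefficients -/
def Conn (C : SoftCx Y K) (one : K) (Z : Set Y) : Prop :=
  ∀ k, C.Coc Z 1 k → ∃ r : ℚ, ∀ z ∈ Z, k - r • one ∈ C.N z 1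

/-- `Z` is nonempty, connected and has no cohomology in positive degrees. -/
def AcyQ (C : SoftCx Y K) (one : K) (Z : Set Y) : Prop :=
  (¬ ∀ z ∈ Z, one ∈ C.N z 1) ∧ Conn C one Z ∧ ∀ n, 2 ≤ n → C.Ex Z n

end acy

variable {Ω Ω' : Type*} [MetricSpace Ω] [MetricSpace Ω']

theorem not_one_mem {Z : Set Ω} (h : Z.Nonempty) : ¬ ∀ z ∈ Z, one ∈ (AS Ω).N z 1 := by
  obtain ⟨z, hz⟩ := h
  intro hn
  obtain ⟨W, hW, hzW, h⟩ := exists_of_mem_Nz one_ne_zero (hn z hz)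
  have := h [z] rfl (by simpa using hzW)
  exact absurd this (by simp [one])

theorem AS_smul_mem {z : Ω} {n : ℕ} {c : Ch Ω} (r : ℚ) (h : c ∈ (AS Ω).N z n) :
    r • c ∈ (AS Ω).N z n := smul_mem_Nz r h

theorem smul_one_mem {z : Ω} {r : ℚ} (h : r • one ∈ (AS Ω).N z 1) : r = 0 := by
  by_contra hr
  apply not_one_mem (singleton_nonempty z)
  intro w hw
  rw [mem_singleton_iff.1 hw]
  have := AS_smul_mem r⁻¹ h
  rwa [smul_smul, inv_mul_cancel₀ hr, one_smul] at this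

theorem Coc_smul {Z : Set Ω} {n : ℕ} {c : Ch Ω} (r : ℚ) (h : (AS Ω).Coc Z n c) :
    (AS Ω).Coc Z n (r • c) := by
  intro z hz
  rw [AS_D, dd_smul]
  exact AS_smul_mem r (h z hz)

theorem Cob_smul {Z : Set Ω} {n : ℕ} {c : Ch Ω} (r : ℚ) (h : (AS Ω).Cob Z n c) :
    (AS Ω).Cob Z n (r • c) := by
  obtain ⟨b, hb⟩ := h
  refine ⟨r • b, fun z hz => ?_⟩
  rw [AS_D, dd_smul, ← smul_sub]
  exact AS_smul_mem r (hb z hz)

theorem coc_smul_one {Z : Set Ω} (r : ℚ) : (AS Ω).Coc Z 1 (r • one) :=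
  Coc_smul r fun z _ => one_D_mem z

theorem coc_pb {F : Set Ω} {g : Ω → Ω'} (hg : ∀ x ∈ F, ContinuousAt g x) {F' : Set Ω'}
    (hF : MapsTo g F F') {n : ℕ} {c : Ch Ω'} (hc : (AS Ω').Coc F' n c) :
    (AS Ω).Coc F n (pb g c) := by
  intro z hz
  rw [AS_D, dd_pb]
  exact pb_mem_Nz (hg z hz) (hc _ (hF hz))

theorem cob_pb {F : Set Ω} {g : Ω → Ω'} (hg : ∀ x ∈ F, ContinuousAt g x) {F' : Set Ω'}
    (hF : MapsTo g F F') {n : ℕ} {c : Ch Ω'} (hc : (AS Ω').Cob F' n c) :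
    (AS Ω).Cob F n (pb g c) := by
  obtain ⟨b, hb⟩ := hc
  refine ⟨pb g b, fun z hz => ?_⟩
  rw [AS_D, dd_pb]
  exact pb_mem_Nz (hg z hz) (hb _ (hF hz))

/-- two maps which agree on `F` induce the same map in cohomology. -/
theorem cob_pb_sub {F : Set Ω} {g₁ g₂ : Ω → Ω'} (h₁ : ∀ x ∈ F, ContinuousAt g₁ x)
    (h₂ : ∀ x ∈ F, ContinuousAt g₂ x) (he : ∀ x ∈ F, g₁ x = g₂ x) {n : ℕ} {c : Ch Ω'}
    {F' : Set Ω'} (hF : MapsTo g₁ F F') (hc : (AS Ω').Coc F' n c) :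
    (AS Ω).Cob F n (pb g₁ c - pb g₂ c) := by
  rcases Nat.eq_zero_or_pos n with rfl | hn
  · exact cob_index_zero _ _
  refine ⟨- pr g₁ g₂ c, fun z hz => ?_⟩
  obtain ⟨W, hW, hzW, h⟩ := exists_of_mem_Nz (by omega) (hc _ (hF hz))
  have n1 : g₁ ⁻¹' W ∈ 𝓝 z := (h₁ z hz).preimage_mem_nhds (hW.mem_nhds hzW)
  have n2 : g₂ ⁻¹' W ∈ 𝓝 z := (h₂ z hz).preimage_mem_nhds (by
    rw [← he z hz]; exact hW.mem_nhds hzW)
  refine mem_Nz_of (Filter.inter_mem n1 n2) fun l hl hx => ?_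
  have h3 := prism' g₁ g₂ c l (by omega)
  rw [pr_eq_zero g₁ g₂ W n (dd c) (fun l' hl' hx' => h l' hl' hx') l hl
    (fun x hx' => hx x hx')] at h3
  rw [Pi.sub_apply, Pi.sub_apply, AS_D, dd_neg, Pi.neg_apply]
  linarith

theorem acy_singleton (z : Ω) : AcyQ (AS Ω) one {z} := by
  refine ⟨not_one_mem (singleton_nonempty z), ?_, ?_⟩
  · intro c hc
    obtain ⟨W, hW, hzW, h⟩ := exists_of_mem_Nz (by omega) (hc z rfl)
    have key : ∀ x ∈ W, c [x] = c [z] := by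
      intro x hx
      have h2 := h [x, z] rfl (by
        intro y hy
        simp only [List.mem_cons, List.not_mem_nil, or_false] at hy
        rcases hy with rfl | rfl
        · exact hx
        · exact hzW)
      rw [AS_D, dd_apply (by simp)] at h2
      simp only [d_cons, d_nil] at h2
      linarith
    refine ⟨c [z], fun w hw => ?_⟩
    rw [mem_singleton_iff.1 hw]
    refine mem_Nz_of (hW.mem_nhds hzW) fun l hl hx => ?_
    match l, hl with
    | [x], _ => rw [Pi.sub_apply, key x (hx x (by simp))]; simp [one]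
  · intro n hn c hc
    refine ⟨fun l => c (z :: l), fun w hw => ?_⟩
    rw [mem_singleton_iff.1 hw]
    obtain ⟨W, hW, hzW, h⟩ := exists_of_mem_Nz (by omega) (hc z rfl)
    refine mem_Nz_of (hW.mem_nhds hzW) fun l hl hx => ?_
    have h2 := h (z :: l) (by simp [hl]) (by
      intro y hy
      rcases List.mem_cons.1 hy with rfl | hy
      · exact hzW
      · exact hx y hy)
    rw [AS_D, dd_apply (by simp; omega), d_cons] at h2
    rw [Pi.sub_apply, AS_D, dd_apply (by omega)]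
    exact h2

/-- cohomology of a set which is dominated by another one. -/
theorem cob_retract {F : Set Ω} {F' : Set Ω'} {g : Ω → Ω'} {g' : Ω' → Ω}
    (hg : ∀ x ∈ F, ContinuousAt g x) (hg' : ∀ y ∈ F', ContinuousAt g' y) (hF : MapsTo g F F')
    (hF' : MapsTo g' F' F) (hgg : ∀ x ∈ F, g' (g x) = x) {n : ℕ} {c : Ch Ω}
    (hc : (AS Ω).Coc F n c) : (AS Ω).Cob F n (c - pb g (pb g' c)) := by
  have := cob_pb_sub (F := F) (g₁ := id) (g₂ := g' ∘ g) (fun x _ => continuousAt_id)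
    (fun x hx => (hg' _ (hF hx)).comp (hg x hx)) (fun x hx => (hgg x hx).symm) (mapsTo_id F) hc
  have e1 : pb (id : Ω → Ω) c = c := by funext l; simp [pb]
  have e2 : pb (g' ∘ g) c = pb g (pb g' c) := by funext l; simp [pb, List.map_map]
  rwa [e1, e2] at this

theorem ex_retract {F : Set Ω} {F' : Set Ω'} {g : Ω → Ω'} {g' : Ω' → Ω}
    (hg : ∀ x ∈ F, ContinuousAt g x) (hg' : ∀ y ∈ F', ContinuousAt g' y) (hF : MapsTo g F F')
    (hF' : MapsTo g' F' F) (hgg : ∀ x ∈ F, g' (g x) = x) {n : ℕ}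
    (h : (AS Ω').Ex F' n) : (AS Ω).Ex F n := by
  intro c hc
  have h1 := cob_pb hg hF (h _ (coc_pb hg' hF' hc))
  have h2 := (cob_retract hg hg' hF hF' hgg hc).add h1
  simpa using h2

theorem conn_retract {F : Set Ω} {F' : Set Ω'} {g : Ω → Ω'} {g' : Ω' → Ω}
    (hg : ∀ x ∈ F, ContinuousAt g x) (hg' : ∀ y ∈ F', ContinuousAt g' y) (hF : MapsTo g F F')
    (hF' : MapsTo g' F' F) (hgg : ∀ x ∈ F, g' (g x) = x)
    (h : Conn (AS Ω') one F') : Conn (AS Ω) one F := by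
  intro k hk
  have h0 := cob_one.1 (cob_retract hg hg' hF hF' hgg hk)
  obtain ⟨r, h1⟩ := h _ (coc_pb hg' hF' hk)
  refine ⟨r, fun z hz => ?_⟩
  have h3 : pb g (pb g' k - r • one) ∈ (AS Ω).N z 1 := pb_mem_Nz (hg z hz) (h1 _ (hF hz))
  have h2 := add_mem (h0 z hz) h3
  have e : k - pb g (pb g' k) + pb g (pb g' k - r • one) = k - r • one := by
    rw [pb_sub, pb_smul, pb_one]; abel
  rwa [e] at h2

theorem acy_retract {F : Set Ω} {F' : Set Ω'} {g : Ω → Ω'} {g' : Ω' → Ω}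
    (hg : ∀ x ∈ F, ContinuousAt g x) (hg' : ∀ y ∈ F', ContinuousAt g' y) (hF : MapsTo g F F')
    (hF' : MapsTo g' F' F) (hgg : ∀ x ∈ F, g' (g x) = x) (hne : F.Nonempty)
    (h : AcyQ (AS Ω') one F') : AcyQ (AS Ω) one F :=
  ⟨not_one_mem hne, conn_retract hg hg' hF hF' hgg h.2.1,
    fun n hn => ex_retract hg hg' hF hF' hgg (h.2.2 n hn)⟩

theorem pr_witness {g₁ g₂ : Ω → Ω'}
    {n : ℕ} (hn : 1 ≤ n) {c : Ch Ω'} {V : Set Ω'} {U : Set Ω} {z : Ω} (hU : U ∈ 𝓝 z)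
    (hV : ∀ l : List Ω', l.length = n + 1 → (∀ x ∈ l, x ∈ V) → dd c l = 0)
    (h₁ : ∀ y ∈ U, g₁ y ∈ V) (h₂ : ∀ y ∈ U, g₂ y ∈ V) :
    (pb g₂ c - pb g₁ c) - (AS Ω).D (pr g₁ g₂ c) ∈ (AS Ω).N z n := by
  refine mem_Nz_of hU fun l hl hx => ?_
  have h3 := prism' g₁ g₂ c l (by omega)
  rw [pr_eq_zero g₁ g₂ V n (dd c) (fun l' hl' hx' => hV l' hl' hx') l hl
    (fun x hx' => ⟨h₁ x (hx x hx'), h₂ x (hx x hx')⟩)] at h3
  rw [Pi.sub_apply, Pi.sub_apply, AS_D]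
  linarith

/-- maps near a given one induce the same map in cohomology. -/
theorem eventually_cob_pb {P : Type*} [TopologicalSpace P] {F : Set Ω} (hF : IsCompact F)
    (H : P → Ω → Ω') (t : P)
    (hH : ∀ x ∈ F, ContinuousAt (fun p : P × Ω => H p.1 p.2) (t, x))
    {n : ℕ} {c : Ch Ω'} (hc : ∀ x ∈ F, dd c ∈ Nz (H t x) (n + 1)) :
    ∀ᶠ s in 𝓝 t, (AS Ω).Cob F n (pb (H s) c - pb (H t) c) := by
  rcases Nat.eq_zero_or_pos n with rfl | hn
  · exact Filter.Eventually.of_forall fun s => cob_index_zero _ _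
  have key : ∀ᶠ s in 𝓝 t, ∀ z ∈ F,
      (pb (H s) c - pb (H t) c) - (AS Ω).D (pr (H t) (H s) c) ∈ (AS Ω).N z n := by
    apply hF.eventually_forall_of_forall_eventually
    intro x hx
    obtain ⟨V, hV, hxV, h⟩ := exists_of_mem_Nz (by omega) (hc x hx)
    have hA : (fun p : P × Ω => H p.1 p.2) ⁻¹' V ∈ 𝓝 (t, x) :=
      (hH x hx).preimage_mem_nhds (hV.mem_nhds hxV)
    rw [mem_nhds_prod_iff'] at hA
    obtain ⟨I, U, hI, htI, hU, hxU, hsub⟩ := hA
    have hnb : I ×ˢ U ∈ 𝓝 (t, x) := prod_mem_nhds (hI.mem_nhds htI) (hU.mem_nhds hxU)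
    filter_upwards [hnb] with p hp
    refine pr_witness hn (hU.mem_nhds hp.2) h ?_ ?_
    · intro y hy
      exact hsub (show (t, y) ∈ I ×ˢ U from ⟨htI, hy⟩)
    · intro y hy
      exact hsub (show (p.1, y) ∈ I ×ˢ U from ⟨hp.1, hy⟩)
  filter_upwards [key] with s hs
  exact ⟨_, hs⟩

theorem cob_pb_homotopy {F : Set Ω} (hF : IsCompact F) (H : ℝ → Ω → Ω')
    (hH : ∀ t ∈ Icc (0 : ℝ) 1, ∀ x ∈ F, ContinuousAt (fun p : ℝ × Ω => H p.1 p.2) (t, x))
    {F' : Set Ω'} (hF' : ∀ t ∈ Icc (0 : ℝ) 1, ∀ x ∈ F, H t x ∈ F') {n : ℕ} {c : Ch Ω'}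
    (hc : (AS Ω').Coc F' n c) : (AS Ω).Cob F n (pb (H 0) c - pb (H 1) c) := by
  refine isPreconnected_Icc.induction₂ (s := Icc (0 : ℝ) 1)
    (fun s t => (AS Ω).Cob F n (pb (H s) c - pb (H t) c)) ?_ ?_ ?_
    (left_mem_Icc.2 zero_le_one) (right_mem_Icc.2 zero_le_one)
  · intro t ht
    apply nhdsWithin_le_nhds
    filter_upwards [eventually_cob_pb hF H t (hH t ht) (fun x hx => hc _ (hF' t ht x hx))] with s hs
    have := hs.neg
    simpa using this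
  · intro x y z _ _ _ h1 h2
    have := h1.add h2
    simpa using this
  · intro x y _ _ h1
    have := h1.neg
    simpa using this

theorem acy_of_contract {F : Set Ω} (hF : IsCompact F) (H : ℝ → Ω → Ω) (p : Ω)
    (hH : ∀ t ∈ Icc (0 : ℝ) 1, ∀ x ∈ F, ContinuousAt (fun p : ℝ × Ω => H p.1 p.2) (t, x))
    (hHF : ∀ t ∈ Icc (0 : ℝ) 1, ∀ x ∈ F, H t x ∈ F) (h0 : ∀ x ∈ F, H 0 x = x)
    (h1 : ∀ x ∈ F, H 1 x = p) (hp : p ∈ F) : AcyQ (AS Ω) one F := by
  have m0 : (0 : ℝ) ∈ Icc (0 : ℝ) 1 := left_mem_Icc.2 zero_le_one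
  have m1 : (1 : ℝ) ∈ Icc (0 : ℝ) 1 := right_mem_Icc.2 zero_le_one
  have hcont : ∀ t ∈ Icc (0 : ℝ) 1, ∀ x ∈ F, ContinuousAt (H t) x := by
    intro t ht x hx
    have h2 : ContinuousAt (fun y : Ω => (t, y)) x := by fun_prop
    exact ContinuousAt.comp (x := x) (f := fun y : Ω => (t, y))
      (g := fun p : ℝ × Ω => H p.1 p.2) (hH t ht x hx) h2
  have main : ∀ n c, (AS Ω).Coc F n c → (AS Ω).Cob F n (c - pb (fun _ => p) c) := by
    intro n c hc
    have a1 := cob_pb_sub (F := F) (g₁ := id) (g₂ := H 0) (fun x _ => continuousAt_id)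
      (hcont 0 m0) (fun x hx => (h0 x hx).symm) (mapsTo_id F) hc
    have a2 := cob_pb_homotopy hF H hH hHF hc
    have a3 := cob_pb_sub (F := F) (g₁ := H 1) (g₂ := fun _ => p) (hcont 1 m1)
      (fun x _ => continuousAt_const) (fun x hx => h1 x hx) (fun x hx => hHF 1 m1 x hx) hc
    have e1 : pb (id : Ω → Ω) c = c := by funext l; simp [pb]
    rw [e1] at a1
    have := (a1.add a2).add a3
    simpa using this
  have hmaps : MapsTo (fun _ : Ω => p) F {p} := fun _ _ => rfl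
  refine ⟨not_one_mem ⟨p, hp⟩, ?_, ?_⟩
  · intro c hc
    have b1 := cob_one.1 (main 1 c hc)
    have b2 : (AS Ω).Coc {p} 1 c := hc.mono (by simpa using hp)
    obtain ⟨r, b3⟩ := (acy_singleton p).2.1 c b2
    refine ⟨r, fun z hz => ?_⟩
    have b4 : pb (fun _ : Ω => p) (c - r • one) ∈ (AS Ω).N z 1 :=
      pb_mem_Nz (g := fun _ : Ω => p) (x := z) continuousAt_const (b3 p rfl)
    have := add_mem (b1 z hz) b4
    have e : c - pb (fun _ : Ω => p) c + pb (fun _ : Ω => p) (c - r • one) = c - r • one := by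
      rw [pb_sub, pb_smul, pb_one]; abel
    rwa [e] at this
  · intro n hn c hc
    have b2 : (AS Ω).Coc {p} n c := hc.mono (by simpa using hp)
    have b3 := (acy_singleton p).2.2 n hn c b2
    have b4 := cob_pb (F := F) (g := fun _ : Ω => p) (fun x _ => continuousAt_const) hmaps b3
    have := (main n c hc).add b4
    simpa using this

end Pool.Agent.H15.Lev
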